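import Pool.Agent.TH950.FC.GlueDefs

set_option autoImplicit false

/-! The lower bound for the wall distance of thin overlaps survives gluing a block. -/
namespace Pool.Agent.TH745.J888

open Pool.Agent.TH950.FC
open LG
open scoped symmDiff

/-! ### Paths inside a set -/

section Rest

variable {S V : Type}

/-- the graph induced on a set of vertices -/
def rest (X : LG S V) (P : Set V) : LG S V where
  E s x y := X.E s x y ∧ x ∈ P ∧ y ∈ P
  symm := fun h => ⟨X.symm h.1, h.2.2, h.2.1⟩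
  func := fun h h' => X.func h.1 h'.1

theorem pathIn_iff {X : LG S V} {P : Set V} {w : List S} : ∀ {x y : V},
    X.PathIn P x w y ↔ x ∈ P ∧ (rest X P).Path x w y := by
  induction w with
  | nil =>
    intro x y
    exact ⟨fun h => ⟨h.2, h.1⟩, fun h => ⟨h.2, h.1⟩⟩
  | cons s w ih =>
    intro x y
    constructor
    · rintro ⟨hx, z, hz, h⟩
      obtain ⟨hzP, h'⟩ := ih.1 h
      exact ⟨hx, z, ⟨hz, hx, hzP⟩, h'⟩
    · rintro ⟨hx, z, ⟨hz, _, hzP⟩, h⟩
      exact ⟨hx, z, hz, ih.2 ⟨hzP, h⟩⟩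

/-- Reduction of words, inside sets. -/
theorem exists_red' (w : List S) : ∃ w' : List S, Red w' ∧ w'.length ≤ w.length ∧
    (∀ {V : Type} (X : LG S V) (x y : V), X.Path x w y → X.Path x w' y) ∧
    (∀ {V : Type} (X : LG S V) (P : Set V) (x y : V), X.PathIn P x w y → X.PathIn P x w' y) := by
  obtain ⟨w', h1, h2, -, h3⟩ := exists_red w
  refine ⟨w', h1, h2, fun X x y h => h3 X x y h, fun X P x y h => ?_⟩
  rw [pathIn_iff] at h ⊢
  exact ⟨h.1, h3 _ _ _ h.2⟩

theorem pathIn_of_prefix {X : LG S V} {P : Set V} {w : List S} : ∀ {x y : V},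
    X.Path x w y → (∀ w₁ w₂ z, w = w₁ ++ w₂ → X.Path x w₁ z → z ∈ P) → X.PathIn P x w y := by
  induction w with
  | nil =>
    intro x y h hP
    exact ⟨h, hP [] [] x rfl rfl⟩
  | cons s w ih =>
    rintro x y ⟨z, hz, h⟩ hP
    refine ⟨hP [] _ x rfl rfl, z, hz, ih h ?_⟩
    intro w₁ w₂ z' hw hz'
    exact hP (s :: w₁) w₂ z' (by rw [hw]; rfl) ⟨z, hz, hz'⟩

theorem red_append_singleton {w : List S} {s : S} (h : Red w) (h' : ¬ Red (w ++ [s])) :
    ∃ w', w = w' ++ [s] := by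
  rcases List.eq_nil_or_concat w with rfl | ⟨w', t, rfl⟩
  · exact absurd (red_singleton s) h'
  · refine ⟨w', ?_⟩
    by_cases hts : t = s
    · rw [hts, List.concat_eq_append]
    · exfalso
      apply h'
      rw [List.concat_eq_append] at h ⊢
      refine List.isChain_append.2 ⟨h, red_singleton s, ?_⟩
      intro a ha b hb
      simp at ha hb
      subst ha
      subst hb
      exact hts

end Rest

variable {S Q H : Type} [DecidableEq Q]

/-! ### Changing the base point of an overlap -/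

section Rebase

variable {T : Theta S Q} {st : St S Q H}

theorem ov_rebase_sub {x z : Vt Q} {q r : Q} {w : List S} (h : st.X.Path x w z)
    (hq : T.Path q w r) : st.Ov T z (some r) ⊆ st.Ov T x (some q) := by
  rintro y ⟨v, hv, hp, r', hr'⟩
  obtain ⟨u, hu, -, hu2, -⟩ := exists_red' (w ++ v)
  exact ⟨u, hu, hu2 _ _ _ (h.append hp), r', hu2 _ _ _ (hq.append hr')⟩

theorem ovW_rebase_sub {x z : Vt Q} {q r : Q} {w : List S} (h : st.X.Path x w z)
    (hq : T.Path q w r) : st.OvWalls T z (some r) ⊆ st.OvWalls T x (some q) := by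
  rintro k ⟨v, s, y, y', ⟨hv, hp, -⟩, hE, hr, hk⟩
  obtain ⟨r1, h1, r2, h2⟩ := readable_append.1 hr
  obtain ⟨u, hu, -, hu2, -⟩ := exists_red' (w ++ v)
  have h3 : T.Path q u r1 := hu2 _ _ _ (hq.append h1)
  exact ⟨u, s, y, y', ⟨hu, hu2 _ _ _ (h.append hp), r1, h3⟩, hE,
    readable_append.2 ⟨r1, h3, r2, h2⟩, hk⟩

theorem ov_rebase {x z : Vt Q} {q r : Q} {w : List S} (h : st.X.Path x w z)
    (hq : T.Path q w r) : st.Ov T z (some r) = st.Ov T x (some q) :=
  Set.Subset.antisymm (ov_rebase_sub h hq) (ov_rebase_sub h.rev hq.rev)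

theorem ovW_rebase {x z : Vt Q} {q r : Q} {w : List S} (h : st.X.Path x w z)
    (hq : T.Path q w r) : st.OvWalls T z (some r) = st.OvWalls T x (some q) :=
  Set.Subset.antisymm (ovW_rebase_sub h hq) (ovW_rebase_sub h.rev hq.rev)

theorem not_ch_path {x z : Vt Q} {q r : Q} {w : List S} (h : st.X.Path x w z)
    (hq : T.Path q w r) (hn : ¬ st.Ch T x q) : ¬ st.Ch T z r :=
  fun hc => hn (Charted.path' hc hq.rev h.rev)

/-- changing the base point -/
theorem rebase {x z : Vt Q} {q : Option Q} (hz : z ∈ st.Ov T x q) (ht : st.Thin T x q) :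
    ∃ r : Option Q, st.Ov T z r = st.Ov T x q ∧ st.OvWalls T z r = st.OvWalls T x q ∧
      st.Thin T z r := by
  cases q with
  | none =>
    obtain rfl : z = x := hz
    exact ⟨none, rfl, rfl, trivial⟩
  | some q =>
    obtain ⟨w, hw, hp, r, hr⟩ := hz
    exact ⟨some r, ov_rebase hp hr, ovW_rebase hp hr, not_ch_path hp hr ht⟩

theorem ovWalls_red {x : Vt Q} {q : Q} {k : Wt Q} (h : k ∈ st.OvWalls T x (some q)) :
    ∃ w s y z, Red (w ++ [s]) ∧ st.X.Path x w y ∧ st.X.E s y z ∧ T.Readable q (w ++ [s]) ∧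
      k ∈ st.β y ∆ st.β z := by
  obtain ⟨w, s, y, z, ⟨hw, hp, hr0⟩, hE, hr, hk⟩ := h
  by_cases hred : Red (w ++ [s])
  · exact ⟨w, s, y, z, hred, hp, hE, hr, hk⟩
  · obtain ⟨w', rfl⟩ := red_append_singleton hw hred
    obtain ⟨y', hy', hE'⟩ := path_snoc.1 hp
    obtain rfl := st.X.func (st.X.symm hE') hE
    refine ⟨w', s, y', y, hw, hy', hE', hr0, ?_⟩
    rwa [symmDiff_comm]

theorem self_mem_ov (x : Vt Q) (q : Option Q) : x ∈ st.Ov T x q := by
  cases q with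
  | none => exact rfl
  | some q => exact ⟨[], red_nil, rfl, q, rfl⟩

end Rebase

/-! ### Basic facts on states -/

section Basic

variable [Group H] {T : Theta S Q} {a : S → H} {st st' : St S Q H}

theorem path_dom (hb : Basic T a st) {w : List S} : ∀ {x y : Vt Q}, x ∈ st.dom →
    st.X.Path x w y → y ∈ st.dom := by
  induction w with
  | nil => intro x y hx h; rwa [← (show x = y from h)]
  | cons s w ih =>
    rintro x y hx ⟨z, hz, h⟩
    exact ih (hb.edge_dom (st.X.symm hz)) h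

theorem ext_path (hE : Ext st st') {w : List S} {x y : Vt Q} (h : st.X.Path x w y) :
    st'.X.Path x w y := h.mono (fun _ _ _ => hE.E)

theorem ext_common (hE : Ext st st') {w : List S} {x y : Vt Q} {q : Q}
    (h : st.Common T x q w y) : st'.Common T x q w y := ⟨h.1, ext_path hE h.2.1, h.2.2⟩

theorem ext_ov (hE : Ext st st') (x : Vt Q) (q : Option Q) : st.Ov T x q ⊆ st'.Ov T x q := by
  cases q with
  | none => exact fun y hy => hy
  | some q =>
    rintro y ⟨w, hw⟩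
    exact ⟨w, ext_common hE hw⟩

theorem ext_ch (hE : Ext st st') (hb : Basic T a st) {x : Vt Q} {q : Q} (hx : x ∈ st.dom)
    (h : st.Ch T x q) : st'.Ch T x q := by
  obtain ⟨ι, j, ψ, hj, h0, hc⟩ := h
  have hpath : ∀ w c c', T.cov.Reach (q, ∅) c → T.cov.Path c w c' →
      st.X.Path (ι c) w (ι c') := by
    intro w
    induction w with
    | nil => intro c c' _ h; rw [show c = c' from h]; rfl
    | cons s w ih =>
      rintro c c' hr ⟨d, hd, h⟩
      exact ⟨ι d, ((hc c hr).2 s d hd).1, ih d c' (hr.step hd) h⟩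
  have hdom : ∀ c, T.cov.Reach (q, ∅) c → ι c ∈ st.dom := by
    rintro c ⟨w, hw⟩
    have := hpath w _ c (Reach.refl _) hw
    rw [h0] at this
    exact path_dom hb hx this
  refine ⟨ι, j, ψ, hj, h0, fun c hr => ⟨?_, fun s c' hcc' => ⟨?_, ?_⟩⟩⟩
  · rw [hE.β (hdom c hr), hE.β hx]
    exact (hc c hr).1
  · exact hE.E ((hc c hr).2 s c' hcc').1
  · rw [hE.ω ((hc c hr).2 s c' hcc').1]
    exact ((hc c hr).2 s c' hcc').2

theorem ext_thin (hE : Ext st st') (hb : Basic T a st) {x : Vt Q} {q : Option Q}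
    (hx : x ∈ st.dom) (h : st'.Thin T x q) : st.Thin T x q := by
  cases q with
  | none => trivial
  | some q => exact fun hc => h (ext_ch hE hb hx hc)

theorem ext_conn (hE : Ext st st') (hb : Basic T a st) {x y : Vt Q} {n : ℕ} (hx : x ∈ st.dom)
    (h : Conn T st.X st.β st.ω x y n) : y ∈ st.dom ∧ Conn T st'.X st'.β st'.ω x y n := by
  induction h with
  | refl => exact ⟨hx, Conn.refl _⟩
  | step _ hc hr hp ih =>
    exact ⟨path_dom hb ih.1 hp, Conn.step ih.2 (ext_ch hE hb ih.1 hc) hr (ext_path hE hp)⟩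

/-- Every edge is a copy of a component. -/
theorem conn_edge (hb : Basic T a st) {s : S} {x y : Vt Q} (hE : st.X.E s x y) :
    Conn T st.X st.β st.ω x y 100 := by
  classical
  obtain ⟨q, hq, ⟨q', hqq'⟩, hw⟩ := T.edgeType s
  rw [path_singleton] at hqq'
  have hne : q ≠ q' := by
    rintro rfl
    have := T.girth (w := []) (w' := [s]) red_nil (red_singleton s)
      (show T.toLG.Path q [] q from rfl) (path_singleton.2 hqq') (by simp; omega)
    simp at this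
  have hletq : ∀ t r, T.E t q r → t = s ∧ r = q' := by
    intro t r ht
    rcases hw [t] (red_singleton t) ⟨r, path_singleton.2 ht⟩ with h | h
    · simp at h
    · have hts : t = s := by simpa using h
      subst hts
      exact ⟨rfl, T.func ht hqq'⟩
  have hletq' : ∀ t r, T.E t q' r → t = s ∧ r = q := by
    intro t r ht
    by_cases hts : t = s
    · subst hts
      exact ⟨rfl, T.func ht (T.symm hqq')⟩
    · exfalso
      have hred : Red [s, t] := red_cons_cons.2 ⟨fun h => hts h.symm, red_singleton t⟩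
      rcases hw [s, t] hred ⟨r, q', hqq', path_singleton.2 ht⟩ with h | h <;> simp at h
  -- the block
  set e : Sym2 Q := s(q, q') with he
  have hblock : ∀ w c, T.cov.Path (q, ∅) w c → c = (q, ∅) ∨ c = (q', {e}) := by
    intro w
    induction w using List.reverseRecOn with
    | nil => intro c h; exact Or.inl (show (q, ∅) = c from h).symm
    | append_singleton w t ih =>
      intro c h
      obtain ⟨d, hd, hdc⟩ := path_snoc.1 h
      rcases ih d hd with rfl | rfl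
      · obtain ⟨h1, h2⟩ := cov_E.1 hdc
        obtain ⟨-, h3⟩ := hletq _ _ h1
        right
        refine Prod.ext h3 ?_
        rw [h2]
        simp only [h3]
        rw [← Finset.bot_eq_empty, bot_symmDiff]
      · obtain ⟨h1, h2⟩ := cov_E.1 hdc
        obtain ⟨-, h3⟩ := hletq' _ _ h1
        left
        refine Prod.ext h3 ?_
        rw [h2]
        simp only [h3]
        rw [Sym2.eq_swap, ← he, symmDiff_self, Finset.bot_eq_empty]
  obtain ⟨k, hk⟩ := Finset.card_eq_one.1 (hb.color hE)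
  have hβ : st.β y = st.β x ∆ {k} := by
    rw [← hk, symmDiff_symmDiff_cancel_left]
  let ι : Q × Finset (Sym2 Q) → Vt Q := fun c => if c.1 = q then x else y
  let j : Sym2 Q → Wt Q := fun e' => if e' = e then k else (k.1 + 1, e')
  let ψ : Q × Finset (Sym2 Q) → ℤ := fun c => if c.1 = q then 0 else st.ω s x - T.h s q
  have hι1 : ∀ A, ι (q, A) = x := fun A => if_pos rfl
  have hι2 : ∀ A, ι (q', A) = y := fun A => if_neg (fun h => hne h.symm)
  have hψ1 : ∀ A, ψ (q, A) = 0 := fun A => if_pos rfl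
  have hψ2 : ∀ A, ψ (q', A) = st.ω s x - T.h s q := fun A => if_neg (fun h => hne h.symm)
  have hje : j e = k := if_pos rfl
  have hj : Function.Injective j := by
    intro e1 e2 h
    by_cases h1 : e1 = e <;> by_cases h2 : e2 = e
    · rw [h1, h2]
    · exfalso
      have e3 : j e1 = k := if_pos h1
      have e4 : j e2 = (k.1 + 1, e2) := if_neg h2
      rw [e3, e4] at h
      have := congrArg Prod.fst h
      simp at this
    · exfalso
      have e3 : j e2 = k := if_pos h2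
      have e4 : j e1 = (k.1 + 1, e1) := if_neg h1
      rw [e3, e4] at h
      have := congrArg Prod.fst h
      simp at this
    · have e3 : j e1 = (k.1 + 1, e1) := if_neg h1
      have e4 : j e2 = (k.1 + 1, e2) := if_neg h2
      rw [e3, e4] at h
      exact congrArg Prod.snd h
  have hch : Charted T st.X st.β st.ω x q := by
    refine ⟨ι, j, ψ, hj, hι1 ∅, ?_⟩
    rintro c ⟨w, hw'⟩
    rcases hblock w c hw' with rfl | rfl
    · refine ⟨?_, ?_⟩
      · rw [hι1, Finset.image_empty, ← Finset.bot_eq_empty, symmDiff_bot]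
      · rintro t ⟨r, A⟩ hcc'
        obtain ⟨h1, -⟩ := cov_E.1 hcc'
        obtain ⟨rfl, h3⟩ := hletq _ _ h1
        simp only at h3
        subst h3
        rw [hι1, hι2, hψ1, hψ2]
        refine ⟨hE, ?_⟩
        simp only
        ring
    · refine ⟨?_, ?_⟩
      · rw [hι2, Finset.image_singleton, hje, hβ]
      · rintro t ⟨r, A⟩ hcc'
        obtain ⟨h1, -⟩ := cov_E.1 hcc'
        obtain ⟨rfl, h3⟩ := hletq' _ _ h1
        simp only at h3
        subst h3
        rw [hι1, hι2, hψ1, hψ2]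
        refine ⟨st.X.symm hE, ?_⟩
        simp only
        rw [hb.anti hE, T.h_anti hqq']
        ring
  have := Conn.single (w := [s]) hch ⟨q', path_singleton.2 hqq'⟩ (path_singleton.2 hE)
  rwa [hq] at this

theorem conn_path (hb : Basic T a st) {w : List S} : ∀ {x y : Vt Q}, st.X.Path x w y →
    Conn T st.X st.β st.ω x y (100 * w.length) := by
  induction w with
  | nil => intro x y h; rw [show x = y from h]; exact Conn.refl _
  | cons s w ih =>
    rintro x y ⟨z, hz, h⟩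
    have := (conn_edge hb hz).trans (ih h)
    rw [List.length_cons]
    rwa [show 100 * (w.length + 1) = 100 + 100 * w.length by ring]

end Basic

/-! ### The glued state -/

/-- the hypotheses on the glued state -/
structure Ctx [Group H] (T : Theta S Q) (a : S → H) (st st' : St S Q H) (x₀ : Vt Q) (q₀ : Q)
    (ι : Q × Finset (Sym2 Q) → Vt Q) (j : Sym2 Q → Wt Q) : Prop where
  hst : Good T a 6 st
  hb : Basic T a st'
  hG : Glue T st st' x₀ q₀ ι j
  hS : Shape T st st' x₀ q₀ ι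

/-- the part of the block inside an overlap -/
def Bk (T : Theta S Q) (st' : St S Q H) (q₀ : Q) (ι : Q × Finset (Sym2 Q) → Vt Q)
    (x : Vt Q) (q : Option Q) : Set (Q × Finset (Sym2 Q)) :=
  {c | T.cov.Reach (q₀, ∅) c ∧ ι c ∈ st'.Ov T x q}

theorem cov_card {T : Theta S Q} {w : List S} {c c' : Q × Finset (Sym2 Q)}
    (h : T.cov.Path c w c') : (c.2 ∆ c'.2).card ≤ w.length := by
  induction w using List.reverseRecOn generalizing c' with
  | nil =>
    rw [show c = c' from h, symmDiff_self, Finset.bot_eq_empty]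
    simp
  | append_singleton w s ih =>
    obtain ⟨d, hd, hdc⟩ := path_snoc.1 h
    have h1 := ih hd
    obtain ⟨-, h2⟩ := cov_E.1 hdc
    rw [h2, ← symmDiff_assoc]
    have h3 : ((c.2 ∆ d.2) ∆ {s(d.1, c'.1)}).card ≤ (c.2 ∆ d.2).card + 1 := by
      refine (Finset.card_le_card (Finset.symmDiff_subset_union)).trans ?_
      exact (Finset.card_union_le _ _).trans (by rw [Finset.card_singleton])
    rw [List.length_append, List.length_singleton]
    omega

theorem cov_last {T : Theta S Q} {w : List S} {s : S} {c d c' : Q × Finset (Sym2 Q)}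
    (h : T.cov.Path c w d) (hE : T.cov.E s d c')
    (hc : (c.2 ∆ c'.2).card = (w ++ [s]).length) : s(d.1, c'.1) ∈ c.2 ∆ c'.2 := by
  have h1 := cov_card h
  obtain ⟨-, h2⟩ := cov_E.1 hE
  rw [h2, ← symmDiff_assoc] at hc ⊢
  by_cases hm : s(d.1, c'.1) ∈ c.2 ∆ d.2
  · exfalso
    have h3 : (c.2 ∆ d.2) ∆ {s(d.1, c'.1)} = (c.2 ∆ d.2) \ {s(d.1, c'.1)} := by
      ext e
      simp only [Finset.mem_symmDiff, Finset.mem_sdiff, Finset.mem_singleton] at hm ⊢
      constructor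
      · rintro (⟨h, h'⟩ | ⟨h, h'⟩)
        · exact ⟨h, h'⟩
        · subst h; exact absurd hm h'
      · rintro ⟨h, h'⟩; exact Or.inl ⟨h, h'⟩
    rw [h3] at hc
    have h4 := Finset.card_le_card (Finset.sdiff_subset (s := c.2 ∆ d.2) (t := {s(d.1, c'.1)}))
    rw [hc, List.length_append, List.length_singleton] at h4
    omega
  · exact Finset.mem_symmDiff.2 (Or.inr ⟨Finset.mem_singleton_self _, hm⟩)

namespace Ctx

variable [Group H] {T : Theta S Q} {a : S → H} {st st' : St S Q H} {x₀ : Vt Q} {q₀ : Q}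
    {ι : Q × Finset (Sym2 Q) → Vt Q} {j : Sym2 Q → Wt Q}

theorem bpath (K : Ctx T a st st' x₀ q₀ ι j) {w : List S} : ∀ {c c' : Q × Finset (Sym2 Q)},
    T.cov.Reach (q₀, ∅) c → T.cov.Path c w c' → st'.X.Path (ι c) w (ι c') := by
  induction w with
  | nil => intro c c' _ h; rw [show c = c' from h]; rfl
  | cons s w ih =>
    rintro c c' hr ⟨d, hd, h⟩
    exact ⟨ι d, (K.hG.E_iff _ _ _).2 (Or.inr ⟨c, d, hr, hd, rfl, rfl⟩), ih (hr.step hd) h⟩

theorem walls (K : Ctx T a st st' x₀ q₀ ι j) {c c' : Q × Finset (Sym2 Q)}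
    (hc : T.cov.Reach (q₀, ∅) c) (hc' : T.cov.Reach (q₀, ∅) c') :
    st'.β (ι c) ∆ st'.β (ι c') = (c.2 ∆ c'.2).image j := by
  rw [K.hG.wall c hc, K.hG.wall c' hc', symmDiff_image K.hG.j_inj]
  rw [symmDiff_symmDiff_symmDiff_comm, symmDiff_self, bot_symmDiff]

theorem g_block (c : Q × Finset (Sym2 Q)) (hc : T.cov.Reach (q₀, ∅) c) : T.g c.1 = T.g q₀ := by
  obtain ⟨w, hw⟩ := hc
  exact g_path hw.proj

theorem D0_reach {c : Q × Finset (Sym2 Q)} (hc : c ∈ D0 T st x₀ q₀) :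
    T.cov.Reach (q₀, ∅) c := by
  obtain ⟨w, y, -, h⟩ := hc
  exact ⟨w, h⟩

theorem D0_dom (K : Ctx T a st st' x₀ q₀ ι j) {c : Q × Finset (Sym2 Q)}
    (hc : c ∈ D0 T st x₀ q₀) : ι c ∈ st.dom := (K.hG.old_iff c (D0_reach hc)).2 hc

/-- words joining points of `D0` -/
theorem D0_word (K : Ctx T a st st' x₀ q₀ ι j) {c c' : Q × Finset (Sym2 Q)}
    (hc : c ∈ D0 T st x₀ q₀) (hc' : c' ∈ D0 T st x₀ q₀) :
    ¬ st.Ch T (ι c) c.1 ∧ ∃ u, Red u ∧ T.cov.PathIn (D0 T st x₀ q₀) c u c' ∧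
      st.Common T (ι c) c.1 u (ι c') ∧ 100 * u.length ≤ 6 * T.g q₀ := by
  obtain ⟨w, y, ⟨hw, hp, hr⟩, hcov⟩ := hc
  obtain ⟨w', y', ⟨hw', hp', hr'⟩, hcov'⟩ := hc'
  obtain rfl := K.hG.D0_path w c y hcov hp
  obtain rfl := K.hG.D0_path w' c' y' hcov' hp'
  have hn : ¬ st.Ch T (ι c) c.1 := not_ch_path hp hcov.proj K.hG.notCh
  obtain ⟨u, hu, -, hu2, -⟩ := exists_red' (w.reverse ++ w')
  have h1 : T.cov.Path c u c' := hu2 _ _ _ (hcov.rev.append hcov')
  have h2 : st.X.Path (ι c) u (ι c') := hu2 _ _ _ (hp.rev.append hp')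
  have h3 : st.Common T (ι c) c.1 u (ι c') := ⟨hu, h2, c'.1, h1.proj⟩
  have hcdom : ι c ∈ st.dom := path_dom K.hst.toBasic K.hG.mem hp
  refine ⟨hn, u, hu, ?_, h3, ?_⟩
  · refine pathIn_of_prefix h1 ?_
    rintro u₁ u₂ z rfl hz
    obtain ⟨z', hz', -⟩ := path_append.1 h2
    obtain ⟨v, hv, -, hv2, -⟩ := exists_red' (w ++ u₁)
    have h4 : T.cov.Path (q₀, ∅) v z := hv2 _ _ _ (hcov.append hz)
    exact ⟨v, z', ⟨hv, hv2 _ _ _ (hp.append hz'), z.1, h4.proj⟩, h4⟩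
  · have := (K.hst.inv (ι c) hcdom c.1 hn u (ι c') h3).1
    rwa [g_path hcov.proj] at this

/-- a common word of an uncharted pair between points of `D0` is a block word -/
theorem D0_unique (K : Ctx T a st st' x₀ q₀ ι j) {c c' : Q × Finset (Sym2 Q)}
    (hc : c ∈ D0 T st x₀ q₀) (hc' : c' ∈ D0 T st x₀ q₀) {q : Q} (hq : ¬ st.Ch T (ι c) q)
    {v : List S} (hv : st.Common T (ι c) q v (ι c')) : T.cov.Path c v c' := by
  obtain ⟨hn, u, hu, hu1, hu2, -⟩ := K.D0_word hc hc'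
  have := K.hst.bg (ι c) (K.D0_dom hc) q c.1 hq hn v u (ι c') hv hu2
  rw [this]
  exact hu1.path

theorem block_word_old (K : Ctx T a st st' x₀ q₀ ι j) {c c' : Q × Finset (Sym2 Q)}
    (hc : c ∈ D0 T st x₀ q₀) (hc' : T.cov.Reach (q₀, ∅) c') {q : Q}
    (hq : ¬ st'.Ch T (ι c) q) {v : List S} (hv : st'.Common T (ι c) q v (ι c')) :
    T.cov.Path c v c' := by
  have hcd := K.D0_dom hc
  have hq' : ¬ st.Ch T (ι c) q := fun h => hq (ext_ch K.hG.ext K.hst.toBasic hcd h)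
  obtain ⟨w₁, w₂, z, rfl, h1, h2⟩ := K.hS.out (ι c) hcd q hq v (ι c') hv
  rcases h2 with ⟨rfl, rfl⟩ | ⟨-, -, c2, c3, h3, rfl, h5, h6, -⟩
  · rw [List.append_nil]
    have h4 : ι c' ∈ st.dom := path_dom K.hst.toBasic hcd h1.2.1
    exact K.D0_unique hc ((K.hG.old_iff c' hc').1 h4) hq' h1
  · have h7 : c3 = c' := K.hG.inj _ _ ((D0_reach h3).path h5) hc' h6
    subst h7
    exact (K.D0_unique hc h3 hq' h1).append h5

/-- a common word of an uncharted pair between points of the block is a block word -/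
theorem block_word (K : Ctx T a st st' x₀ q₀ ι j) {c c' : Q × Finset (Sym2 Q)}
    (hc : T.cov.Reach (q₀, ∅) c) (hc' : T.cov.Reach (q₀, ∅) c') {q : Q}
    (hq : ¬ st'.Ch T (ι c) q) {v : List S} (hv : st'.Common T (ι c) q v (ι c')) :
    T.cov.Path c v c' := by
  by_cases hcd : c ∈ D0 T st x₀ q₀
  · exact K.block_word_old hcd hc' hq hv
  · have hcd' : ι c ∉ st.dom := fun h => hcd ((K.hG.old_iff c hc).1 h)
    rcases K.hS.inn c hc hcd' q hq v (ι c') hv with ⟨c2, h1, h2, -⟩ |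
      ⟨w₁, w₂, c1, q', rfl, -, h1, h2, -, -, -, -, -, h3, h4⟩
    · have h7 : c2 = c' := K.hG.inj _ _ (hc.path h1.path) hc' h2
      subst h7
      exact h1.path
    · exact h2.append (K.block_word_old h1 hc' h4 h3)

theorem Bk_reach {x : Vt Q} {q : Option Q} {c : Q × Finset (Sym2 Q)}
    (hc : c ∈ Bk T st' q₀ ι x q) : T.cov.Reach (q₀, ∅) c := hc.1

/-- the part of the block inside a thin overlap is connected by short words -/
theorem Bk_conn (K : Ctx T a st st' x₀ q₀ ι j) {x : Vt Q} {q : Option Q}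
    (ht : st'.Thin T x q) {c c' : Q × Finset (Sym2 Q)} (hc : c ∈ Bk T st' q₀ ι x q)
    (hc' : c' ∈ Bk T st' q₀ ι x q) :
    ∃ u, Red u ∧ T.cov.PathIn (Bk T st' q₀ ι x q) c u c' ∧ 100 * u.length ≤ T.g q₀ := by
  cases q with
  | none =>
    have h1 : ι c = x := hc.2
    have h2 : ι c' = x := hc'.2
    have h3 : c = c' := K.hG.inj _ _ hc.1 hc'.1 (h1.trans h2.symm)
    subst h3
    exact ⟨[], red_nil, ⟨rfl, hc⟩, by simp⟩
  | some q =>
    obtain ⟨w, hw, hp, r, hr⟩ := hc.2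
    obtain ⟨w', hw', hp', r', hr'⟩ := hc'.2
    have hn : ¬ st'.Ch T (ι c) r := not_ch_path hp hr ht
    obtain ⟨u, hu, -, hu2, -⟩ := exists_red' (w.reverse ++ w')
    have h1 : st'.X.Path (ι c) u (ι c') := hu2 _ _ _ (hp.rev.append hp')
    have h2 : T.Path r u r' := hu2 _ _ _ (hr.rev.append hr')
    have h3 : T.cov.Path c u c' := K.block_word hc.1 hc'.1 hn ⟨hu, h1, r', h2⟩
    refine ⟨u, hu, pathIn_of_prefix h3 ?_, ?_⟩
    · rintro u₁ u₂ z rfl hz
      refine ⟨hc.1.path hz, ?_⟩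
      rw [← ov_rebase hp hr]
      exact ⟨u₁, hu.left, K.bpath hc.1 hz, Readable.left ⟨r', h2⟩⟩
    · have hne : c.1 ≠ r := by
        rintro h
        exact hn (h ▸ K.hG.chart c hc.1)
      have := T.piece hne hu ⟨c'.1, h3.proj⟩ ⟨r', h2⟩
      rwa [g_block c hc.1] at this

/-- if the overlap meets the block and `st.dom` then it meets `D0` -/
theorem Bk_meet (K : Ctx T a st st' x₀ q₀ ι j) {x : Vt Q} {q : Option Q} (hx : x ∈ st.dom)
    (ht : st'.Thin T x q) {c : Q × Finset (Sym2 Q)} (hc : c ∈ Bk T st' q₀ ι x q) :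
    ∃ c' ∈ Bk T st' q₀ ι x q, c' ∈ D0 T st x₀ q₀ := by
  by_cases hcd : ι c ∈ st.dom
  · exact ⟨c, hc, (K.hG.old_iff c hc.1).1 hcd⟩
  · cases q with
    | none =>
      have h1 : ι c = x := hc.2
      exact absurd (h1 ▸ hx) hcd
    | some q =>
      obtain ⟨w, hw, hp, r, hr⟩ := hc.2
      have hn : ¬ st'.Ch T (ι c) r := not_ch_path hp hr ht
      rcases K.hS.inn c hc.1 hcd r hn w.reverse x ⟨hw.rev, hp.rev, q, hr.rev⟩ with
        ⟨c2, -, -, h2, -⟩ | ⟨w₁, w₂, c1, q', h0, -, h1, h2, -, -, -, -, h3, -, -⟩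
      · exact absurd hx h2
      · refine ⟨c1, ⟨hc.1.path h2, ?_⟩, h1⟩
        rw [← ov_rebase hp hr]
        refine ⟨w₁, ?_, K.bpath hc.1 h2, q', h3⟩
        have := hw.rev
        rw [h0] at this
        exact this.left

/-- the walls of a thin overlap based in the old part -/
theorem ovW_outer (K : Ctx T a st st' x₀ q₀ ι j) {x : Vt Q} {q : Option Q} (hx : x ∈ st.dom)
    (ht : st'.Thin T x q) {k : Wt Q} (hk : k ∈ st'.OvWalls T x q) :
    (k ∈ st.OvWalls T x q ∧ k.1 < st.t) ∨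
      (k.1 = st.t ∧ k ∈ j '' edgesOf T (Bk T st' q₀ ι x q)) := by
  cases q with
  | none => exact absurd hk (Set.notMem_empty k)
  | some q =>
    obtain ⟨w, s, y, z, hred, hp, hE, ⟨r, hr⟩, hk⟩ := ovWalls_red hk
    have hpz : st'.X.Path x (w ++ [s]) z := path_snoc.2 ⟨y, hp, hE⟩
    obtain ⟨w₁, w₂, z₁, h0, h1, h2⟩ := K.hS.out x hx q ht (w ++ [s]) z ⟨hred, hpz, r, hr⟩
    rcases h2 with ⟨rfl, rfl⟩ | ⟨hne, hzd, c, c', h3, rfl, h5, rfl, -, -, h6, h7⟩
    · left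
      rw [List.append_nil] at h0
      subst h0
      obtain ⟨y', hy', hE'⟩ := path_snoc.1 h1.2.1
      have hyy : y' = y := (ext_path K.hG.ext hy').func hp
      subst hyy
      have hyd := path_dom K.hst.toBasic hx hy'
      have hzd := path_dom K.hst.toBasic hx h1.2.1
      rw [K.hG.ext.β hyd, K.hG.ext.β hzd] at hk
      refine ⟨⟨w, s, y', z₁, ⟨hred.left, hy', Readable.left ⟨r, hr⟩⟩, hE', ⟨r, hr⟩, hk⟩, ?_⟩
      rcases Finset.mem_symmDiff.1 hk with ⟨h, -⟩ | ⟨h, -⟩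
      · exact K.hst.wall_lt hyd k h
      · exact K.hst.wall_lt hzd k h
    · right
      rcases List.eq_nil_or_concat w₂ with rfl | ⟨w₂, t, rfl⟩
      · exact absurd rfl hne
      · rw [List.concat_eq_append, ← List.append_assoc] at h0
        obtain ⟨h8, h9⟩ := List.append_inj' h0 rfl
        have hst : s = t := by simpa using h9
        subst hst
        rw [List.concat_eq_append] at h5 h6
        obtain ⟨d, hd, hE'⟩ := path_snoc.1 h5
        have hcr : T.cov.Reach (q₀, ∅) c := D0_reach h3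
        have hdr := hcr.path hd
        have hc'r := hdr.step hE'
        have hyd : ι d = y := by
          have h10 : st'.X.Path x (w₁ ++ w₂) (ι d) :=
            (ext_path K.hG.ext h1.2.1).append (K.bpath hcr hd)
          rw [← h8] at h10
          exact h10.func hp
        subst hyd
        have hcol : k = j s(d.1, c'.1) := by
          rw [K.walls hdr hc'r, (cov_E.1 hE').2, symmDiff_symmDiff_cancel_left,
            Finset.image_singleton, Finset.mem_singleton] at hk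
          exact hk
        have hmem := cov_last hd hE' h6
        refine ⟨?_, s(d.1, c'.1), ?_, hcol.symm⟩
        · rw [hcol]
          exact K.hG.j_new _ (h7 _ hmem)
        · refine ⟨s, d, c', ⟨hdr, ?_⟩, ⟨hc'r, ?_⟩, hE', rfl⟩
          · exact ⟨w, hred.left, hp, Readable.left ⟨r, hr⟩⟩
          · exact ⟨w ++ [s], hred, hpz, r, hr⟩

/-- the walls of a thin overlap that does not meet the old part -/
theorem ovW_inner (K : Ctx T a st st' x₀ q₀ ι j) {x : Vt Q} {q : Option Q}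
    (hx : x ∈ st'.dom) (ht : st'.Thin T x q) (hno : ∀ y ∈ st'.Ov T x q, y ∉ st.dom)
    {k : Wt Q} (hk : k ∈ st'.OvWalls T x q) : k ∈ j '' edgesOf T (Bk T st' q₀ ι x q) := by
  cases q with
  | none => exact absurd hk (Set.notMem_empty k)
  | some q =>
    obtain ⟨w, s, y, z, hred, hp, hE, ⟨r, hr⟩, hk⟩ := ovWalls_red hk
    have hpz : st'.X.Path x (w ++ [s]) z := path_snoc.2 ⟨y, hp, hE⟩
    have hxd : x ∉ st.dom := hno x (self_mem_ov x _)
    obtain ⟨c₀, hc₀, rfl⟩ : ∃ c, T.cov.Reach (q₀, ∅) c ∧ x = ι c := by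
      rcases (K.hG.dom_iff x).1 hx with h | h
      · exact absurd h hxd
      · exact h
    rcases K.hS.inn c₀ hc₀ hxd q ht (w ++ [s]) z ⟨hred, hpz, r, hr⟩ with
        ⟨c', h1, rfl, -⟩ | ⟨w₁, w₂, c1, q', h0, -, h1, h2, -, -, -, -, h3, -, -⟩
    · obtain ⟨d, hd, hE'⟩ := path_snoc.1 h1.path
      have hdr := hc₀.path hd
      have hc'r := hdr.step hE'
      have hyd : ι d = y := (K.bpath hc₀ hd).func hp
      subst hyd
      have hcol : k = j s(d.1, c'.1) := by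
        rw [K.walls hdr hc'r, (cov_E.1 hE').2, symmDiff_symmDiff_cancel_left,
          Finset.image_singleton, Finset.mem_singleton] at hk
        exact hk
      refine ⟨s(d.1, c'.1), ?_, hcol.symm⟩
      refine ⟨s, d, c', ⟨hdr, ?_⟩, ⟨hc'r, ?_⟩, hE', rfl⟩
      · exact ⟨w, hred.left, hp, Readable.left ⟨r, hr⟩⟩
      · exact ⟨w ++ [s], hred, hpz, r, hr⟩
    · exfalso
      refine hno (ι c1) ⟨w₁, ?_, K.bpath hc₀ h2, q', h3⟩ (K.D0_dom h1)
      rw [h0] at hred
      exact hred.left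

/-- the conclusion for two thin pairs -/
def Gl (T : Theta S Q) (st' : St S Q H) (x : Vt Q) (q : Option Q) (x' : Vt Q)
    (q' : Option Q) : Prop :=
  ∃ y ∈ st'.Ov T x q, ∃ y' ∈ st'.Ov T x' q', ∃ n, Conn T st'.X st'.β st'.ω y y' n ∧
      n ≤ 100 * (((st'.β y ∆ st'.β y' : Finset (Wt Q)) : Set (Wt Q)) \
        (st'.OvWalls T x q ∪ st'.OvWalls T x' q')).ncard

omit [Group H] in
theorem Gl.symm {x x' : Vt Q} {q q' : Option Q} (h : Gl T st' x q x' q') :
    Gl T st' x' q' x q := by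
  obtain ⟨y, hy, y', hy', n, h1, h2⟩ := h
  refine ⟨y', hy', y, hy, n, h1.symm, ?_⟩
  rwa [symmDiff_comm, Set.union_comm]

omit [DecidableEq Q] in
theorem count {F : Finset (Wt Q)} {U A B : Set (Wt Q)} (hA : A ⊆ (F : Set (Wt Q)) \ U)
    (hB : B ⊆ (F : Set (Wt Q)) \ U) (hAB : Disjoint A B) :
    A.ncard + B.ncard ≤ ((F : Set (Wt Q)) \ U).ncard := by
  have hf : ((F : Set (Wt Q)) \ U).Finite := F.finite_toSet.subset Set.sdiff_subset
  rw [← Set.ncard_union_eq hAB (hf.subset hA) (hf.subset hB)]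
  exact Set.ncard_le_ncard (Set.union_subset hA hB) hf

theorem old_wall (K : Ctx T a st st' x₀ q₀ ι j) {y y' : Vt Q} (hy : y ∈ st.dom)
    (hy' : y' ∈ st.dom) {k : Wt Q} (hk : k ∈ st.β y ∆ st.β y') : k.1 < st.t := by
  rcases Finset.mem_symmDiff.1 hk with ⟨h, -⟩ | ⟨h, -⟩
  · exact K.hst.wall_lt hy k h
  · exact K.hst.wall_lt hy' k h

theorem ov_dom (K : Ctx T a st st' x₀ q₀ ι j) {x y : Vt Q} {q : Option Q} (hx : x ∈ st.dom)
    (hy : y ∈ st.Ov T x q) : y ∈ st.dom := by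
  cases q with
  | none => rwa [show y = x from hy]
  | some q =>
    obtain ⟨w, -, hp, -⟩ := hy
    exact path_dom K.hst.toBasic hx hp

/-- both pairs based in the old part -/
theorem caseA (K : Ctx T a st st' x₀ q₀ ι j) {x x' : Vt Q} {q q' : Option Q}
    (hx : x ∈ st.dom) (hx' : x' ∈ st.dom) (ht : st'.Thin T x q) (ht' : st'.Thin T x' q') :
    Gl T st' x q x' q' := by
  obtain ⟨y, hy, y', hy', n, hn1, hn2⟩ := K.hst.q2 x hx x' hx' q q'
    (ext_thin K.hG.ext K.hst.toBasic hx ht) (ext_thin K.hG.ext K.hst.toBasic hx' ht')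
  have hyd := K.ov_dom hx hy
  have hyd' := K.ov_dom hx' hy'
  refine ⟨y, ext_ov K.hG.ext x q hy, y', ext_ov K.hG.ext x' q' hy', n,
    (ext_conn K.hG.ext K.hst.toBasic hyd hn1).2, ?_⟩
  refine hn2.trans (Nat.mul_le_mul_left 100 (Set.ncard_le_ncard ?_ ?_))
  · rw [K.hG.ext.β hyd, K.hG.ext.β hyd']
    rintro k ⟨hk, hnk⟩
    have hkt : k.1 < st.t := K.old_wall hyd hyd' (Finset.mem_coe.1 hk)
    refine ⟨hk, ?_⟩
    rintro (h | h)
    · rcases K.ovW_outer hx ht h with ⟨h', -⟩ | ⟨h', -⟩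
      · exact hnk (Or.inl h')
      · omega
    · rcases K.ovW_outer hx' ht' h with ⟨h', -⟩ | ⟨h', -⟩
      · exact hnk (Or.inr h')
      · omega
  · exact (Finset.finite_toSet _).subset Set.sdiff_subset

theorem g_conn (K : Ctx T a st st' x₀ q₀ ι j) {c c' : Q × Finset (Sym2 Q)}
    (hc : T.cov.Reach (q₀, ∅) c) (hc' : T.cov.Reach (q₀, ∅) c') :
    Conn T st'.X st'.β st'.ω (ι c) (ι c') (T.g q₀) := by
  obtain ⟨v, hv⟩ := hc.symm.trans hc'
  have := Conn.single (K.hG.chart c hc) ⟨c'.1, hv.proj⟩ (K.bpath hc hv)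
  rwa [g_block c hc] at this

theorem Bk_nonempty (K : Ctx T a st st' x₀ q₀ ι j) {x : Vt Q} {q : Option Q}
    (hx : x ∈ st'.dom) (hno : ∀ y ∈ st'.Ov T x q, y ∉ st.dom) :
    ∃ c, c ∈ Bk T st' q₀ ι x q := by
  rcases (K.hG.dom_iff x).1 hx with h | ⟨c, hc, rfl⟩
  · exact absurd h (hno x (self_mem_ov x _))
  · exact ⟨c, hc, self_mem_ov _ _⟩

/-- both pairs in the new part -/
theorem caseC (K : Ctx T a st st' x₀ q₀ ι j) (hBD : BlockDichotomy S Q) {x x' : Vt Q}
    {q q' : Option Q} (hx : x ∈ st'.dom) (hx' : x' ∈ st'.dom) (ht : st'.Thin T x q)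
    (ht' : st'.Thin T x' q') (hno : ∀ y ∈ st'.Ov T x q, y ∉ st.dom)
    (hno' : ∀ y ∈ st'.Ov T x' q', y ∉ st.dom) : Gl T st' x q x' q' := by
  have hconn : ∀ (x : Vt Q) (q : Option Q), st'.Thin T x q → ∀ c ∈ Bk T st' q₀ ι x q,
      ∀ c' ∈ Bk T st' q₀ ι x q, ∃ u, Red u ∧ T.cov.PathIn (Bk T st' q₀ ι x q) c u c' ∧
        100 * u.length ≤ 9 * T.g q₀ := by
    intro x q ht c hc c' hc'
    obtain ⟨u, h1, h2, h3⟩ := K.Bk_conn ht hc hc'
    exact ⟨u, h1, h2, by omega⟩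
  have hw : ∀ {k}, k ∈ st'.OvWalls T x q ∪ st'.OvWalls T x' q' →
      ∃ e, j e = k ∧ (e ∈ edgesOf T (Bk T st' q₀ ι x q) ∨
        e ∈ edgesOf T (Bk T st' q₀ ι x' q')) := by
    rintro k (hk | hk)
    · obtain ⟨e, he, rfl⟩ := K.ovW_inner hx ht hno hk
      exact ⟨e, rfl, Or.inl he⟩
    · obtain ⟨e, he, rfl⟩ := K.ovW_inner hx' ht' hno' hk
      exact ⟨e, rfl, Or.inr he⟩
  have hsub : ∀ c ∈ Bk T st' q₀ ι x q, ∀ c' ∈ Bk T st' q₀ ι x' q', ∀ A : Set (Sym2 Q),
      (∀ e ∈ A, e ∈ c.2 ∆ c'.2 ∧ e ∉ edgesOf T (Bk T st' q₀ ι x q) ∧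
        e ∉ edgesOf T (Bk T st' q₀ ι x' q')) →
      A.ncard ≤ (((st'.β (ι c) ∆ st'.β (ι c') : Finset (Wt Q)) : Set (Wt Q)) \
        (st'.OvWalls T x q ∪ st'.OvWalls T x' q')).ncard := by
    intro c hc c' hc' A hA
    rw [← Set.ncard_image_of_injective A K.hG.j_inj]
    refine Set.ncard_le_ncard ?_ ((Finset.finite_toSet _).subset Set.sdiff_subset)
    rintro _ ⟨e, he, rfl⟩
    obtain ⟨h1, h2, h3⟩ := hA e he
    refine ⟨?_, ?_⟩
    · rw [K.walls hc.1 hc'.1, Finset.mem_coe]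
      exact Finset.mem_image_of_mem j h1
    · intro hk
      obtain ⟨e', he', h4⟩ := hw hk
      obtain rfl := K.hG.j_inj he'
      tauto
  rcases hBD T q₀ (Bk T st' q₀ ι x q) (Bk T st' q₀ ι x' q') (fun c hc => hc.1)
    (fun c hc => hc.1) (hconn x q ht) (hconn x' q' ht') with hA |
    ⟨c₁, hc₁, c₂, hc₂, u, hu, hpu, hcard, hlen, hout, -⟩
  · obtain ⟨c, hc⟩ := K.Bk_nonempty hx hno
    obtain ⟨c', hc'⟩ := K.Bk_nonempty hx' hno'
    refine ⟨ι c, hc.2, ι c', hc'.2, T.g q₀, K.g_conn hc.1 hc'.1, ?_⟩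
    have h1 := hA c hc c' hc'
    have h2 := hsub c hc c' hc' {e | e ∈ c.2 ∆ c'.2 ∧ e ∉ edgesOf T (Bk T st' q₀ ι x q) ∧
      e ∉ edgesOf T (Bk T st' q₀ ι x' q')} (fun e he => he)
    omega
  · refine ⟨ι c₁, hc₁.2, ι c₂, hc₂.2, _, conn_path K.hb (K.bpath hc₁.1 hpu), ?_⟩
    refine Nat.mul_le_mul_left 100 ?_
    have h2 := hsub c₁ hc₁ c₂ hc₂ ((c₁.2 ∆ c₂.2 : Finset (Sym2 Q)) : Set (Sym2 Q))
      (fun e he => ⟨Finset.mem_coe.1 he, hout e (Finset.mem_coe.1 he)⟩)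
    rw [Set.ncard_coe_finset, hcard] at h2
    exact h2

theorem edgesOf_mono {P P' : Set (Q × Finset (Sym2 Q))} (h : P ⊆ P') :
    edgesOf T P ⊆ edgesOf T P' := by
  rintro e ⟨s, c, c', hc, hc', hE, he⟩
  exact ⟨s, c, c', h hc, h hc', hE, he⟩

/-- the walls of the old part of the block -/
theorem j_edges_old (K : Ctx T a st st' x₀ q₀ ι j) {e : Sym2 Q}
    (he : e ∈ edgesOf T (D0 T st x₀ q₀)) : j e ∈ st.OvWalls T x₀ (some q₀) := by
  obtain ⟨s, c, c', hc, hc', hE, rfl⟩ := he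
  have hcd := K.D0_dom hc
  have hcd' := K.D0_dom hc'
  have hcr := D0_reach hc
  have hcr' := D0_reach hc'
  obtain ⟨w, y, ⟨hw, hp, hr⟩, hcov⟩ := hc
  obtain rfl := K.hG.D0_path w c y hcov hp
  have hE' : st'.X.E s (ι c) (ι c') := (K.hG.E_iff _ _ _).2 (Or.inr ⟨c, c', hcr, hE, rfl, rfl⟩)
  refine ⟨w, s, ι c, ι c', ⟨hw, hp, hr⟩, K.hG.full _ _ _ hE' hcd hcd', ?_, ?_⟩
  · exact ⟨c'.1, path_snoc.2 ⟨c.1, hcov.proj, (cov_E.1 hE).1⟩⟩
  · rw [← K.hG.ext.β hcd, ← K.hG.ext.β hcd', K.walls hcr hcr', (cov_E.1 hE).2,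
      symmDiff_symmDiff_cancel_left, Finset.image_singleton, Finset.mem_singleton]

theorem P_conn (K : Ctx T a st st' x₀ q₀ ι j) {x : Vt Q} {q : Option Q} (hx : x ∈ st.dom)
    (ht : st'.Thin T x q) : ∀ c ∈ D0 T st x₀ q₀ ∪ Bk T st' q₀ ι x q,
      ∀ c' ∈ D0 T st x₀ q₀ ∪ Bk T st' q₀ ι x q, ∃ u, Red u ∧
      T.cov.PathIn (D0 T st x₀ q₀ ∪ Bk T st' q₀ ι x q) c u c' ∧
        100 * u.length ≤ 9 * T.g q₀ := by
  have h1 : ∀ c ∈ D0 T st x₀ q₀, ∀ c' ∈ Bk T st' q₀ ι x q, ∃ u, Red u ∧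
      T.cov.PathIn (D0 T st x₀ q₀ ∪ Bk T st' q₀ ι x q) c u c' ∧
        100 * u.length ≤ 9 * T.g q₀ := by
    intro c hc c' hc'
    obtain ⟨d, hd, hd'⟩ := K.Bk_meet hx ht hc'
    obtain ⟨-, u1, -, h2, -, h3⟩ := K.D0_word hc hd'
    obtain ⟨u2, -, h4, h5⟩ := K.Bk_conn ht hd hc'
    obtain ⟨u, hu, hul, -, hu2⟩ := exists_red' (u1 ++ u2)
    refine ⟨u, hu, hu2 _ _ _ _ (pathIn_append.2 ⟨d, h2.mono Set.subset_union_left,
      h4.mono Set.subset_union_right⟩), ?_⟩
    rw [List.length_append] at hul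
    omega
  intro c hc c' hc'
  rcases hc with hc | hc <;> rcases hc' with hc' | hc'
  · obtain ⟨-, u1, h0, h2, -, h3⟩ := K.D0_word hc hc'
    exact ⟨u1, h0, h2.mono Set.subset_union_left, by omega⟩
  · exact h1 c hc c' hc'
  · obtain ⟨u, hu, h2, h3⟩ := h1 c' hc' c hc
    exact ⟨u.reverse, hu.rev, h2.rev, by rwa [List.length_reverse]⟩
  · obtain ⟨u2, h0, h4, h5⟩ := K.Bk_conn ht hc hc'
    exact ⟨u2, h0, h4.mono Set.subset_union_right, by omega⟩

/-- one pair in the new part, one based in the old part -/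
theorem caseB (K : Ctx T a st st' x₀ q₀ ι j) (hBD : BlockDichotomy S Q) {x x' : Vt Q}
    {q q' : Option Q} (hx : x ∈ st'.dom) (hx' : x' ∈ st.dom) (ht : st'.Thin T x q)
    (ht' : st'.Thin T x' q') (hno : ∀ y ∈ st'.Ov T x q, y ∉ st.dom) :
    Gl T st' x q x' q' := by
  have hconn : ∀ c ∈ Bk T st' q₀ ι x q,
      ∀ c' ∈ Bk T st' q₀ ι x q, ∃ u, Red u ∧ T.cov.PathIn (Bk T st' q₀ ι x q) c u c' ∧
        100 * u.length ≤ 9 * T.g q₀ := by
    intro c hc c' hc'
    obtain ⟨u, h1, h2, h3⟩ := K.Bk_conn ht hc hc'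
    exact ⟨u, h1, h2, by omega⟩
  have hBD0 : ∀ c ∈ Bk T st' q₀ ι x q, c ∉ D0 T st x₀ q₀ :=
    fun c hc hcd => hno _ hc.2 (K.D0_dom hcd)
  have hthin' : st.Thin T x' q' := ext_thin K.hG.ext K.hst.toBasic hx' ht'
  -- walls from the block
  have hnew : ∀ e, e ∉ edgesOf T (Bk T st' q₀ ι x q) →
      e ∉ edgesOf T (D0 T st x₀ q₀ ∪ Bk T st' q₀ ι x' q') →
      (j e).1 = st.t ∧ j e ∉ st'.OvWalls T x q ∪ st'.OvWalls T x' q' := by
    intro e he1 he2
    have hD : e ∉ edgesOf T (D0 T st x₀ q₀) :=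
      fun h => he2 (edgesOf_mono Set.subset_union_left h)
    have hjt := K.hG.j_new e hD
    refine ⟨hjt, ?_⟩
    rintro (h | h)
    · obtain ⟨e', he', h4⟩ := K.ovW_inner hx ht hno h
      obtain rfl := K.hG.j_inj h4
      exact he1 he'
    · rcases K.ovW_outer hx' ht' h with ⟨-, h'⟩ | ⟨-, e', he', h4⟩
      · omega
      · obtain rfl := K.hG.j_inj h4
        exact he2 (edgesOf_mono Set.subset_union_right he')
  -- splitting of walls
  have hsplit : ∀ c d p, T.cov.Reach (q₀, ∅) c → d ∈ D0 T st x₀ q₀ → p ∈ st.dom →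
      st'.β (ι c) ∆ st'.β p = ((c.2 ∆ d.2).image j) ∆ (st.β (ι d) ∆ st.β p) := by
    intro c d p hc hd hp
    rw [← K.walls hc (D0_reach hd), ← K.hG.ext.β hp, ← K.hG.ext.β (K.D0_dom hd),
      symmDiff_assoc, symmDiff_symmDiff_cancel_left]
  have hmem1 : ∀ c d p, T.cov.Reach (q₀, ∅) c → d ∈ D0 T st x₀ q₀ → p ∈ st.dom →
      ∀ e ∈ c.2 ∆ d.2, (j e).1 = st.t → j e ∈ st'.β (ι c) ∆ st'.β p := by
    intro c d p hc hd hp e he hjt
    rw [hsplit c d p hc hd hp]
    refine Finset.mem_symmDiff.2 (Or.inl ⟨Finset.mem_image_of_mem j he, fun h => ?_⟩)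
    have := K.old_wall (K.D0_dom hd) hp h
    omega
  have hmem2 : ∀ c d p, T.cov.Reach (q₀, ∅) c → d ∈ D0 T st x₀ q₀ → p ∈ st.dom →
      ∀ k ∈ st.β (ι d) ∆ st.β p, (∀ e ∈ c.2 ∆ d.2, j e ≠ k) → k ∈ st'.β (ι c) ∆ st'.β p := by
    intro c d p hc hd hp k hk hne
    rw [hsplit c d p hc hd hp]
    refine Finset.mem_symmDiff.2 (Or.inr ⟨hk, fun h => ?_⟩)
    obtain ⟨e, he, hek⟩ := Finset.mem_image.1 h
    exact hne e he hek
  rcases hBD T q₀ (Bk T st' q₀ ι x q) (D0 T st x₀ q₀ ∪ Bk T st' q₀ ι x' q')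
    (fun c hc => hc.1) (fun c hc => hc.elim D0_reach (fun h => h.1)) hconn
    (K.P_conn hx' ht') with hA | ⟨c₁, hc₁, c₂, hc₂, u, hu, hpu, hcard, hlen, hout, hdis⟩
  · obtain ⟨c, hc⟩ := K.Bk_nonempty hx hno
    obtain ⟨p0, hp0, p2, hp2, n, hn1, hn2⟩ := K.hst.q2 x₀ K.hG.mem x' hx' (some q₀) q'
      K.hG.notCh hthin'
    obtain ⟨w, hw, hpw, r, hr⟩ := hp0
    obtain ⟨d, hd, -⟩ := Path.lift' (c := (q₀, (∅ : Finset (Sym2 Q)))) hr
    have hdD : d ∈ D0 T st x₀ q₀ := ⟨w, p0, ⟨hw, hpw, r, hr⟩, hd⟩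
    obtain rfl := K.hG.D0_path w d p0 hd hpw
    have hdd := K.D0_dom hdD
    have hp2d := K.ov_dom hx' hp2
    refine ⟨ι c, hc.2, p2, ext_ov K.hG.ext x' q' hp2, _,
      (K.g_conn hc.1 (D0_reach hdD)).trans (ext_conn K.hG.ext K.hst.toBasic hdd hn1).2, ?_⟩
    have h1 := hA c hc d (Or.inl hdD)
    have h2 := count (F := st'.β (ι c) ∆ st'.β p2)
      (U := st'.OvWalls T x q ∪ st'.OvWalls T x' q')
      (A := j '' {e | e ∈ c.2 ∆ d.2 ∧ e ∉ edgesOf T (Bk T st' q₀ ι x q) ∧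
        e ∉ edgesOf T (D0 T st x₀ q₀ ∪ Bk T st' q₀ ι x' q')})
      (B := ((st.β (ι d) ∆ st.β p2 : Finset (Wt Q)) : Set (Wt Q)) \
        (st.OvWalls T x₀ (some q₀) ∪ st.OvWalls T x' q')) ?_ ?_ ?_
    · rw [Set.ncard_image_of_injective _ K.hG.j_inj] at h2
      omega
    · rintro _ ⟨e, ⟨he1, he2, he3⟩, rfl⟩
      obtain ⟨h3, h4⟩ := hnew e he2 he3
      exact ⟨Finset.mem_coe.2 (hmem1 c d p2 hc.1 hdD hp2d e he1 h3), h4⟩
    · rintro k ⟨hk, hnk⟩
      have hkt := K.old_wall hdd hp2d (Finset.mem_coe.1 hk)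
      have hnj : ∀ e, j e ≠ k := by
        rintro e rfl
        by_cases he : e ∈ edgesOf T (D0 T st x₀ q₀)
        · exact hnk (Or.inl (K.j_edges_old he))
        · have := K.hG.j_new e he
          omega
      refine ⟨Finset.mem_coe.2 (hmem2 c d p2 hc.1 hdD hp2d k (Finset.mem_coe.1 hk)
        (fun e _ => hnj e)), ?_⟩
      rintro (h | h)
      · obtain ⟨e, -, he⟩ := K.ovW_inner hx ht hno h
        exact hnj e he
      · rcases K.ovW_outer hx' ht' h with ⟨h', -⟩ | ⟨h', -⟩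
        · exact hnk (Or.inr h')
        · omega
    · rw [Set.disjoint_left]
      rintro _ ⟨e, ⟨he1, he2, he3⟩, rfl⟩ ⟨h, -⟩
      have := K.old_wall hdd hp2d (Finset.mem_coe.1 h)
      have := (hnew e he2 he3).1
      omega
  · by_cases hc₂' : c₂ ∈ Bk T st' q₀ ι x' q'
    · refine ⟨ι c₁, hc₁.2, ι c₂, hc₂'.2, _, conn_path K.hb (K.bpath hc₁.1 hpu), ?_⟩
      refine Nat.mul_le_mul_left 100 ?_
      rw [← hcard, ← Set.ncard_coe_finset,
        ← Set.ncard_image_of_injective ((c₁.2 ∆ c₂.2 : Finset (Sym2 Q)) : Set (Sym2 Q))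
          K.hG.j_inj]
      refine Set.ncard_le_ncard ?_ ((Finset.finite_toSet _).subset Set.sdiff_subset)
      rintro _ ⟨e, he, rfl⟩
      obtain ⟨h2, h3⟩ := hout e (Finset.mem_coe.1 he)
      refine ⟨?_, (hnew e h2 h3).2⟩
      rw [K.walls hc₁.1 hc₂'.1, Finset.mem_coe]
      exact Finset.mem_image_of_mem j (Finset.mem_coe.1 he)
    · have hdD : c₂ ∈ D0 T st x₀ q₀ := hc₂.resolve_right hc₂'
      have hdd := K.D0_dom hdD
      obtain ⟨p0, hp0, p2, hp2, n, hn1, hn2⟩ := K.hst.q2 (ι c₂) hdd x' hx' none q'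
        trivial hthin'
      obtain rfl : p0 = ι c₂ := hp0
      have hp2d := K.ov_dom hx' hp2
      have hne : c₁ ≠ c₂ := by
        rintro rfl
        exact hBD0 c₁ hc₁ hdD
      have hdis' := hdis.resolve_left hne
      refine ⟨ι c₁, hc₁.2, p2, ext_ov K.hG.ext x' q' hp2, _,
        (conn_path K.hb (K.bpath hc₁.1 hpu)).trans
          (ext_conn K.hG.ext K.hst.toBasic hdd hn1).2, ?_⟩
      have h2 := count (F := st'.β (ι c₁) ∆ st'.β p2)
        (U := st'.OvWalls T x q ∪ st'.OvWalls T x' q')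
        (A := j '' ((c₁.2 ∆ c₂.2 : Finset (Sym2 Q)) : Set (Sym2 Q)))
        (B := ((st.β (ι c₂) ∆ st.β p2 : Finset (Wt Q)) : Set (Wt Q)) \
          (st.OvWalls T (ι c₂) none ∪ st.OvWalls T x' q')) ?_ ?_ ?_
      · rw [Set.ncard_image_of_injective _ K.hG.j_inj, Set.ncard_coe_finset, hcard] at h2
        omega
      · rintro _ ⟨e, he, rfl⟩
        obtain ⟨he2, he3⟩ := hout e (Finset.mem_coe.1 he)
        obtain ⟨h3, h4⟩ := hnew e he2 he3
        exact ⟨Finset.mem_coe.2 (hmem1 c₁ c₂ p2 hc₁.1 hdD hp2d e (Finset.mem_coe.1 he) h3), h4⟩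
      · rintro k ⟨hk, hnk⟩
        have hkt := K.old_wall hdd hp2d (Finset.mem_coe.1 hk)
        refine ⟨Finset.mem_coe.2 (hmem2 c₁ c₂ p2 hc₁.1 hdD hp2d k (Finset.mem_coe.1 hk) ?_), ?_⟩
        · rintro e he rfl
          obtain ⟨he2, he3⟩ := hout e he
          have := (hnew e he2 he3).1
          omega
        · rintro (h | h)
          · obtain ⟨e, he, rfl⟩ := K.ovW_inner hx ht hno h
            by_cases heD : e ∈ edgesOf T (D0 T st x₀ q₀)
            · exact Set.disjoint_left.1 hdis' he (edgesOf_mono Set.subset_union_left heD)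
            · have := K.hG.j_new e heD
              omega
          · rcases K.ovW_outer hx' ht' h with ⟨h', -⟩ | ⟨h', -⟩
            · exact hnk (Or.inr h')
            · omega
      · rw [Set.disjoint_left]
        rintro _ ⟨e, he, rfl⟩ ⟨h, -⟩
        obtain ⟨he2, he3⟩ := hout e (Finset.mem_coe.1 he)
        have := K.old_wall hdd hp2d (Finset.mem_coe.1 h)
        have := (hnew e he2 he3).1
        omega

theorem q2 (K : Ctx T a st st' x₀ q₀ ι j) (hBD : BlockDichotomy S Q) : Q2 T st' := by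
  intro x hx x' hx' q q' ht ht'
  change Gl T st' x q x' q'
  have hout : ∀ (x : Vt Q) (q : Option Q), st'.Thin T x q → (∃ y ∈ st'.Ov T x q, y ∈ st.dom) →
      ∃ (z : Vt Q) (r : Option Q), z ∈ st.dom ∧ st'.Thin T z r ∧
        st'.Ov T z r = st'.Ov T x q ∧ st'.OvWalls T z r = st'.OvWalls T x q := by
    rintro x q ht ⟨z, hz, hzd⟩
    obtain ⟨r, h1, h2, h3⟩ := rebase hz ht
    exact ⟨z, r, hzd, h3, h1, h2⟩
  by_cases h1 : ∃ y ∈ st'.Ov T x q, y ∈ st.dom <;>
    by_cases h2 : ∃ y ∈ st'.Ov T x' q', y ∈ st.dom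
  · obtain ⟨z, r, hz, hr, e1, e2⟩ := hout x q ht h1
    obtain ⟨z', r', hz', hr', e1', e2'⟩ := hout x' q' ht' h2
    have := K.caseA hz hz' hr hr'
    unfold Gl at this ⊢
    rwa [e1, e2, e1', e2'] at this
  · obtain ⟨z, r, hz, hr, e1, e2⟩ := hout x q ht h1
    have := (K.caseB hBD hx' hz ht' hr (fun y hy hyd => h2 ⟨y, hy, hyd⟩)).symm
    unfold Gl at this ⊢
    rwa [e1, e2] at this
  · obtain ⟨z', r', hz', hr', e1', e2'⟩ := hout x' q' ht' h2
    have := K.caseB hBD hx hz' ht hr' (fun y hy hyd => h1 ⟨y, hy, hyd⟩)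
    unfold Gl at this ⊢
    rwa [e1', e2'] at this
  · exact K.caseC hBD hx hx' ht ht' (fun y hy hyd => h1 ⟨y, hy, hyd⟩)
      (fun y hy hyd => h2 ⟨y, hy, hyd⟩)

end Ctx

/-- The lower bound for the wall distance of thin overlaps survives gluing a block. -/
theorem glue_q2 {S Q H : Type} [DecidableEq Q] [Group H] (hBD : BlockDichotomy S Q)
    (T : Theta S Q) (a : S → H) (st st' : St S Q H) (hst : Good T a 6 st) (hb : Basic T a st')
    (x₀ : Vt Q) (q₀ : Q) (ι : Q × Finset (Sym2 Q) → Vt Q) (j : Sym2 Q → Wt Q)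
    (hG : Glue T st st' x₀ q₀ ι j) (hS : Shape T st st' x₀ q₀ ι)
    (hI : Inv T 8 st') (hBg : Bg T st') : Q2 T st' :=
  Ctx.q2 ⟨hst, hb, hG, hS⟩ hBD

end Pool.Agent.TH745.J888
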