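import Pool.Agent.TH745.Main

set_option autoImplicit false
open FirstOrder FirstOrder.Language

namespace Pool.Agent.TH745

open Pool.Agent.Helper227 (chi pre)

theorem ev_equiv {M : Type} (e : M ≃ ℕ) (p q : M → M → M) (φ : Fm) : ∀ x : ℕ → ℕ,
    ev (fun i j => e (p (e.symm i) (e.symm j))) (fun i j => e (q (e.symm i) (e.symm j))) φ x ↔
      ev p q φ (fun n => e.symm (x n)) := by
  induction φ with
  | eq i j => intro x; simp [ev]
  | add i j k => intro x; simp only [ev]; rw [← Equiv.eq_symm_apply]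
  | mul i j k => intro x; simp only [ev]; rw [← Equiv.eq_symm_apply]
  | neg φ ih => intro x; exact not_congr (ih x)
  | and φ ψ ih1 ih2 => intro x; exact and_congr (ih1 x) (ih2 x)
  | ex φ ih =>
    intro x
    have hc : ∀ y, (fun n => e.symm (cons y x n)) = cons (e.symm y) (fun n => e.symm (x n)) := by
      intro y
      funext n
      cases n <;> rfl
    constructor
    · rintro ⟨y, hy⟩
      refine ⟨e.symm y, ?_⟩
      rw [← hc]
      exact (ih _).1 hy
    · rintro ⟨m, hm⟩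
      refine ⟨e m, (ih _).2 ?_⟩
      rw [hc, Equiv.symm_apply_apply]
      exact hm

/-- the standard structure -/
@[instance_reducible] def stdS : LS.Structure ℕ where
  funMap := fun f => f.elim
  RelMap := fun {n} r xs => ∃ i j k : Fin n, i.val = 0 ∧ j.val = 1 ∧ k.val = 2 ∧
    ((Fin.val r = 0 ∧ xs i + xs j = xs k) ∨ (Fin.val r = 1 ∧ xs i * xs j = xs k))

theorem isAr_stdS : IsAr stdS (· + ·) (· * ·) := fun _ _ _ => Iff.rfl

/-- The general theorem: below every presentation `D` of a nonstandard model of true arithmetic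
there is a function which computes all arithmetical sets, but does not compute `D`. -/
theorem general {M : Type} (A : LS.Structure M) (e : M ≃ ℕ) (p q : M → M → M) (D : ℕ → ℕ)
    (hA : IsAr A p q)
    (hD : D = (fun m : ℕ => Nat.pair (e (p (e.symm m.unpair.1) (e.symm m.unpair.2)))
      (e (q (e.symm m.unpair.1) (e.symm m.unpair.2)))))
    (Std : LS.Structure ℕ) (hStd : IsAr Std (· + ·) (· * ·))
    (hE : LS.ElementarilyEquivalent M ℕ)
    (hI : IsEmpty (LS.Equiv M ℕ)) :
    ∃ g : ℕ → ℕ, TuringReducible (PFun.lift g) (PFun.lift D) ∧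
      ¬ TuringReducible (PFun.lift D) (PFun.lift g) ∧
      ∀ S : Set ℕ, (∅ : Set ℕ).Definable LS {v : Fin 1 → ℕ | v 0 ∈ S} →
        ∃ f : ℕ → Bool, ComputableIn {(PFun.lift g : ℕ →. ℕ)} f ∧ ∀ m, f m = true ↔ m ∈ S := by
  have hT0 : TA p q := fun φ h => transfer_of_equiv A p q hA Std _ _ hStd hE φ h
  have hT : TA (fun i j => e (p (e.symm i) (e.symm j))) (fun i j => e (q (e.symm i) (e.symm j))) :=
    fun φ h x => (ev_equiv e p q φ x).2 (hT0 φ h _)
  obtain ⟨Mo, hMP, hMQ⟩ := exists_mod _ _ hT ⟨0⟩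
  have hDc : ComputableIn {(PFun.lift D : ℕ →. ℕ)} D :=
    RecursiveIn.iff_nat.2 (Nat.RecursiveIn.oracle _ (Set.mem_singleton _))
  have hDD : ComputableIn {(PFun.lift D : ℕ →. ℕ)} (fun x : ℕ × ℕ => D (Nat.pair x.1 x.2)) :=
    ci_comp hDc (cpair ci_fst ci_snd)
  have hP : ComputableIn₂ {(PFun.lift D : ℕ →. ℕ)} Mo.P := by
    have h1 : ComputableIn {(PFun.lift D : ℕ →. ℕ)}
        (fun x : ℕ × ℕ => (D (Nat.pair x.1 x.2)).unpair.1) := cunl hDD
    have h2 : (fun x : ℕ × ℕ => (D (Nat.pair x.1 x.2)).unpair.1) =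
        (fun x : ℕ × ℕ => Mo.P x.1 x.2) := by
      funext x
      rw [hD, hMP]
      simp
    rw [h2] at h1
    exact h1
  have hQ : ComputableIn₂ {(PFun.lift D : ℕ →. ℕ)} Mo.Q := by
    have h1 : ComputableIn {(PFun.lift D : ℕ →. ℕ)}
        (fun x : ℕ × ℕ => (D (Nat.pair x.1 x.2)).unpair.2) := cunr hDD
    have h2 : (fun x : ℕ × ℕ => (D (Nat.pair x.1 x.2)).unpair.2) =
        (fun x : ℕ × ℕ => Mo.Q x.1 x.2) := by
      funext x
      rw [hD, hMQ]
      simp
    rw [h2] at h1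
    exact h1
  -- a nonstandard element
  have hns : ∃ N, ∀ n, N ≠ Mo.nu n := by
    by_contra hno
    push Not at hno
    refine hI.false ?_
    have hinj : Function.Injective Mo.nu := fun a b h => Mo.nu_inj h
    have hsurj : Function.Surjective Mo.nu := fun m => by
      obtain ⟨n, hn⟩ := hno m
      exact ⟨n, hn.symm⟩
    let f : M ≃ ℕ := e.trans (Equiv.ofBijective Mo.nu ⟨hinj, hsurj⟩).symm
    have hf : ∀ m, Mo.nu (f m) = e m := fun m =>
      Equiv.ofBijective_apply_symm_apply Mo.nu ⟨hinj, hsurj⟩ (e m)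
    have hadd : ∀ a b c : M, f a + f b = f c ↔ p a b = c := by
      intro a b c
      rw [Mo.closed (Pr.eqF (PrF.add (Mo.numF (f a)) (Mo.numF (f b))) (Mo.numF (f c)))]
      rw [hf, hf, hf, hMP]
      simp
    have hmul : ∀ a b c : M, f a * f b = f c ↔ q a b = c := by
      intro a b c
      rw [Mo.closed (Pr.eqF (PrF.mul (Mo.numF (f a)) (Mo.numF (f b))) (Mo.numF (f c)))]
      rw [hf, hf, hf, hMQ]
      simp
    refine ⟨f, fun {n} g x => (by exact Empty.elim g), fun {n} r x => ?_⟩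
    rw [hA n r x, hStd n r _]
    refine exists_congr fun i => exists_congr fun j => exists_congr fun k => ?_
    show (_ ∧ _ ∧ _ ∧ ((_ ∧ f (x i) + f (x j) = f (x k)) ∨ (_ ∧ f (x i) * f (x j) = f (x k)))) ↔ _
    rw [hadd, hmul]
  obtain ⟨N, hN0⟩ := hns
  have hN : ∀ n, Mo.lt (Mo.nu n) N := Mo.nu_lt_of_ne hN0
  obtain ⟨B, hB1, hB2, Y, hY1, hY2⟩ := main Mo hP hQ N hN
  refine ⟨fun n => (B n).toNat, ?_, ?_, ?_⟩
  · have h1 : ComputableIn {(PFun.lift D : ℕ →. ℕ)} (fun n => (B n).toNat) :=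
      ci_prim (Primrec.dom_bool Bool.toNat) hB1
    exact h1
  · intro hle
    apply hY2
    have h2 : ComputableIn {(PFun.lift (fun n => (B n).toNat) : ℕ →. ℕ)} Y := by
      refine RecursiveIn.subst hY1 ?_
      intro g hg
      rw [Set.mem_singleton_iff] at hg
      subst hg
      exact hle
    exact h2
  · intro S hS
    obtain ⟨φ, hφ⟩ := exists_fm_of_definable Std _ _ hStd S hS
    obtain ⟨f, hf1, hf2⟩ := hB2 (fun n => n ∈ S) ⟨φ, hφ⟩
    exact ⟨f, hf1, hf2⟩

end Pool.Agent.TH745
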