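import Pool.Agent.TH547.Arc.NH
set_option autoImplicit false

/-! Transfer of exactness along a morphism of systems of cells, and lifting of cycles along an
augmented resolution. -/
namespace Pool.Agent.TH745.J772
open Pool.Agent.TH547.Arc
open Finset Equiv

section Transfer

open Sys

variable {S T : Sys}

/-- the induced map on classes -/
noncomputable def gq (F : Finset ℕ) (f : S.C → T.C) (q : S.Q F) : T.Q F :=
  T.cl F (f (Quotient.out q))

theorem gq_cl {F : Finset ℕ} {P : S.C → Prop} (f : S.C → T.C)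
    (hrn : ∀ X, P X → ∀ π : Perm ℕ, (∀ a ∈ F, π a = a) → f (S.rn π X) = T.rn π (f X))
    {X : S.C} (hX : P X) : gq F f (S.cl F X) = T.cl F (f X) := by
  unfold gq
  have h : S.cl F X = S.cl F (Quotient.out (S.cl F X)) := (Quotient.out_eq (S.cl F X)).symm
  obtain ⟨π, hπ, hY⟩ := cl_eq.1 h
  rw [hY, hrn X hX π hπ, cl_rn hπ]

end Transfer

end Pool.Agent.TH745.J772

namespace Pool.Agent.TH745.J772
open Pool.Agent.TH547.Arc
open Finset Equiv
namespace Sys
open Pool.Agent.TH547.Arc.Sys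

/-- transfer along a morphism of systems -/
theorem Ex_transfer {S T : Sys} {F : Finset ℕ} {P : S.C → Prop} {R : T.C → Prop}
    (hP : Inv F P) (hR : Inv F R) (f : S.C → T.C)
    (hord : ∀ X, P X → T.ord (f X) = S.ord X)
    (hdl : ∀ X, P X → ∀ a ∈ S.nm X \ F, T.dl (f X) a = f (S.dl X a))
    (hrn : ∀ X, P X → ∀ π : Perm ℕ, (∀ a ∈ F, π a = a) → f (S.rn π X) = T.rn π (f X))
    (hiff : ∀ X, P X → ∀ a ∈ S.nm X \ F, (R (f (S.dl X a)) ↔ P (S.dl X a)))
    (hmap : ∀ X, P X → R (f X)) (hinj : ∀ X Y, P X → P Y → f X = f Y → X = Y)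
    (hsurj : ∀ Y, R Y → ∃ X, P X ∧ f X = Y) {i : ℕ} : Ex F R i ↔ Ex F P i := by
  classical
  have hg : ∀ X, P X → gq F f (S.cl F X) = T.cl F (f X) := fun X hX => gq_cl f hrn hX
  have hnm : ∀ X, P X → T.nm (f X) = S.nm X := by
    intro X hX
    unfold nm
    rw [hord X hX]
  have hsg : ∀ X, P X → ∀ a, T.sg (f X) a = S.sg X a := by
    intro X hX a
    unfold sg
    rw [hord X hX]
  have hdeg : ∀ X, P X → deg F (f X) = deg F X := by
    intro X hX
    unfold deg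
    rw [hnm X hX]
  let M : (S.Q F →₀ ℤ) →ₗ[ℤ] (T.Q F →₀ ℤ) := Finsupp.lmapDomain ℤ ℤ (gq F f)
  have hMs : ∀ q n, M (Finsupp.single q n) = Finsupp.single (gq F f q) n := by
    intro q n
    exact Finsupp.mapDomain_single
  -- chains are mapped to chains
  have ha : ∀ j, ∀ z ∈ Ch F P j, M z ∈ Ch F R j := by
    intro j
    refine Ch_induction (p := fun z => M z ∈ Ch F R j) ?_ ?_ ?_
    · rw [map_zero]; exact Submodule.zero_mem _
    · intro x y hx hy; rw [map_add]; exact Submodule.add_mem _ hx hy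
    · intro X n hX hd
      rw [hMs, hg X hX]
      exact single_mem_Ch (hmap X hX) (by rw [hdeg X hX]; exact hd) n
  -- compatible with the differentials
  have hD0 : ∀ X, P X → M (D0 F P X) = D0 F R (f X) := by
    intro X hX
    unfold D0
    rw [map_sum, hnm X hX]
    refine Finset.sum_congr ?_ ?_
    · refine Finset.filter_congr fun a ha' => ?_
      rw [hdl X hX a ha', hiff X hX a ha']
    · intro a ha'
      rw [Finset.mem_filter] at ha'
      rw [hdl X hX a ha'.1] at ha'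
      have hPa : P (S.dl X a) := (hiff X hX a ha'.1).1 ha'.2
      rw [hMs, hg _ hPa, hdl X hX a ha'.1, hsg X hX]
  have hb : ∀ j, ∀ z ∈ Ch F P j, D F R (M z) = M (D F P z) := by
    intro j
    refine Ch_induction (p := fun z => D F R (M z) = M (D F P z)) ?_ ?_ ?_
    · simp
    · intro x y hx hy; simp only [map_add, hx, hy]
    · intro X n hX hd
      rw [hMs, hg X hX, D_single hR, D_single hP, map_smul, hD0 X hX]
  have hc : ∀ j, ∀ w ∈ Ch F R j, ∃ z ∈ Ch F P j, M z = w := by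
    intro j
    refine Ch_induction (p := fun w => ∃ z ∈ Ch F P j, M z = w) ?_ ?_ ?_
    · exact ⟨0, Submodule.zero_mem _, map_zero _⟩
    · rintro x y ⟨x', hx', rfl⟩ ⟨y', hy', rfl⟩
      exact ⟨x' + y', Submodule.add_mem _ hx' hy', map_add _ _ _⟩
    · intro Y n hY hd
      obtain ⟨X, hX, rfl⟩ := hsurj Y hY
      refine ⟨Finsupp.single (S.cl F X) n,
        single_mem_Ch hX (by rw [← hdeg X hX]; exact hd) n, ?_⟩
      rw [hMs, hg X hX]
  have hinjq : Set.InjOn (gq F f) {q : S.Q F | pq F P q} := by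
    rintro q ⟨X, rfl, hX⟩ q' ⟨Y, rfl, hY⟩ h
    rw [hg X hX, hg Y hY] at h
    obtain ⟨π, hπ, h2⟩ := cl_eq.1 h
    rw [← hrn X hX π hπ] at h2
    have h3 := hinj _ _ hY (hP π hπ X hX) h2
    exact cl_eq.2 ⟨π, hπ, h3⟩
  have hd : ∀ j, ∀ z ∈ Ch F P j, ∀ z' ∈ Ch F P j, M z = M z' → z = z' := by
    intro j z hz z' hz' h
    have hsupp : ∀ y ∈ Ch F P j, ((y : S.Q F →₀ ℤ).support : Set (S.Q F)) ⊆
        {q : S.Q F | pq F P q} := by
      intro y hy q hq
      obtain ⟨X, hX, hPX⟩ := mem_Ch.1 hy q (Finsupp.mem_support_iff.1 hq)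
      exact ⟨X, hX, hPX.1⟩
    exact Finsupp.mapDomain_injOn _ hinjq (hsupp z hz) (hsupp z' hz') h
  constructor
  · intro hEx z hz hDz
    obtain ⟨w, hw, hDw⟩ := hEx (M z) (ha i z hz) (by rw [hb i z hz, hDz, map_zero])
    obtain ⟨w', hw', rfl⟩ := hc (i + 1) w hw
    refine ⟨w', hw', ?_⟩
    rw [hb (i + 1) w' hw'] at hDw
    exact hd i _ (D_mem hP hw') _ hz hDw
  · intro hEx z hz hDz
    obtain ⟨z', hz', rfl⟩ := hc i z hz
    have hDz' : D F P z' = 0 := by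
      rcases i with _ | j
      · exact D_zero_deg hP hz'
      · rw [hb (j + 1) z' hz'] at hDz
        exact hd j _ (D_mem hP hz') _ (Submodule.zero_mem _) (by rw [hDz, map_zero])
    obtain ⟨w', hw', hDw'⟩ := hEx z' hz' hDz'
    exact ⟨M w', ha (i + 1) w' hw', by rw [hb (i + 1) w' hw', hDw']⟩

end Sys

/-- lifting of cycles along an augmented resolution `A 0 → B` -/
theorem lift_cycle {M : Type} [AddCommGroup M] (A : ℕ → ℕ → Submodule ℤ M)
    (B : ℕ → Submodule ℤ M) (dA : ℕ → M →ₗ[ℤ] M) (dB : M →ₗ[ℤ] M) (δ : ℕ → M →ₗ[ℤ] M)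
    (ε : M →ₗ[ℤ] M) (N : ℕ)
    (hdA : ∀ n i z, z ∈ A n (i + 1) → dA n z ∈ A n i)
    (hdA0 : ∀ n z, z ∈ A n 0 → dA n z = 0)
    (hdd : ∀ n i z, z ∈ A n i → dA n (dA n z) = 0)
    (hδ : ∀ n i z, z ∈ A (n + 1) i → δ n z ∈ A n i)
    (hε : ∀ i z, z ∈ A 0 i → ε z ∈ B i)
    (hδd : ∀ n i z, z ∈ A (n + 1) i → dA n (δ n z) = δ n (dA (n + 1) z))
    (hεd : ∀ i z, z ∈ A 0 i → dB (ε z) = ε (dA 0 z))
    (hδδ : ∀ n i z, z ∈ A (n + 2) i → δ n (δ (n + 1) z) = 0)
    (hεδ : ∀ i z, z ∈ A 1 i → ε (δ 0 z) = 0)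
    (hr0 : ∀ i z, z ∈ A 0 i → ε z = 0 → ∃ w ∈ A 1 i, δ 0 w = z)
    (hr : ∀ n i z, z ∈ A (n + 1) i → δ n z = 0 → ∃ w ∈ A (n + 2) i, δ (n + 1) w = z)
    (hrB : ∀ i z, i ≤ N → z ∈ B i → ∃ w ∈ A 0 i, ε w = z)
    (hex : ∀ n i z, i < N → z ∈ A (n + 1) i → dA (n + 1) z = 0 →
      ∃ w ∈ A (n + 1) (i + 1), dA (n + 1) w = z)
    {i : ℕ} (hi : i ≤ N) {z : M} (hz : z ∈ B i) (hdz : dB z = 0) :
    ∃ w ∈ A 0 i, ε w = z ∧ dA 0 w = 0 := by
  -- the condition to be a vertical cycle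
  have key : ∀ j n u, j + n + 1 ≤ N → u ∈ A n j → dA n u = 0 →
      (∀ m, n = m + 1 → δ m u = 0) → (n = 0 → ε u = 0) →
      ∃ u' ∈ A n (j + 1), dA n u' = u ∧ (∀ m, n = m + 1 → δ m u' = 0) ∧ (n = 0 → ε u' = 0) := by
    intro j
    induction j with
    | zero =>
      intro n u hn hu hdu hδu hεu
      obtain ⟨y, hy, hyu⟩ : ∃ y ∈ A (n + 1) 0, δ n y = u := by
        rcases n with _ | m
        · exact hr0 0 u hu (hεu rfl)
        · exact hr m 0 u hu (hδu m rfl)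
      obtain ⟨w, hw, hwy⟩ := hex n 0 y (by omega) hy (hdA0 (n + 1) y hy)
      refine ⟨δ n w, hδ n 1 w hw, ?_, ?_, ?_⟩
      · rw [hδd n 1 w hw, hwy, hyu]
      · rintro m rfl
        exact hδδ m 1 w hw
      · rintro rfl
        exact hεδ 1 w hw
    | succ j ih =>
      intro n u hn hu hdu hδu hεu
      obtain ⟨y, hy, hyu⟩ : ∃ y ∈ A (n + 1) (j + 1), δ n y = u := by
        rcases n with _ | m
        · exact hr0 (j + 1) u hu (hεu rfl)
        · exact hr m (j + 1) u hu (hδu m rfl)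
      have hv : dA (n + 1) y ∈ A (n + 1) j := hdA (n + 1) j y hy
      obtain ⟨v', hv', hdv', hδv', -⟩ := ih (n + 1) (dA (n + 1) y) (by omega) hv
        (hdd (n + 1) (j + 1) y hy)
        (by
          intro m hm
          obtain rfl : n = m := by omega
          rw [← hδd n (j + 1) y hy, hyu, hdu])
        (fun h => absurd h (Nat.succ_ne_zero n))
      obtain ⟨w, hw, hwy⟩ := hex n (j + 1) (y - v') (by omega) (Submodule.sub_mem _ hy hv')
        (by rw [map_sub, hdv', sub_self])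
      refine ⟨δ n w, hδ n (j + 1 + 1) w hw, ?_, ?_, ?_⟩
      · rw [hδd n (j + 1 + 1) w hw, hwy, map_sub, hyu, hδv' n rfl, sub_zero]
      · rintro m rfl
        exact hδδ m (j + 1 + 1) w hw
      · rintro rfl
        exact hεδ (j + 1 + 1) w hw
  obtain ⟨y, hy, hyz⟩ := hrB i z hi hz
  rcases i with _ | j
  · exact ⟨y, hy, hyz, hdA0 0 y hy⟩
  · obtain ⟨y', hy', hdy', -, hεy'⟩ := key j 0 (dA 0 y) (by omega) (hdA 0 j y hy)
      (hdd 0 (j + 1) y hy) (fun m h => absurd h.symm (Nat.succ_ne_zero m))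
      (fun _ => by rw [← hεd (j + 1) y hy, hyz, hdz])
    refine ⟨y - y', Submodule.sub_mem _ hy hy', ?_, ?_⟩
    · rw [map_sub, hyz, hεy' rfl, sub_zero]
    · rw [map_sub, hdy', sub_self]

end Pool.Agent.TH745.J772
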