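import Pool.Agent.TH547.Arc.Piece
import Pool.Agent.TH286.J795
import Pool.Agent.TH286.J846
import Pool.Agent.TH628.J873
set_option autoImplicit false

/-! Merging words over a frozen word. -/
namespace Pool.Agent.TH745.J1093
open Pool.Agent.TH547.Arc
open Pool.Agent.TH286.J795
open Finset Equiv

/-! ### Lists -/

theorem own_block {μ b y : List Sy} {m s : Sy} (hb : ∀ t ∈ b, t ∉ μ) (hm : m ∈ μ) (hs : s ∈ b) :
    own μ (b ++ m :: y) s = some m := by
  obtain ⟨l1, l2, h1, rfl⟩ := first_occ hs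
  rw [List.append_assoc, List.cons_append, own_mid μ _ h1, ← List.cons_append]
  exact find_mid μ (s :: l2) y (fun t ht => hb t (List.mem_append_right _ ht)) hm

theorem own_tail {μ b y : List Sy} {m s : Sy} (hs : s ∉ b) (hsm : m ≠ s) :
    own μ (b ++ m :: y) s = own μ y s := by
  rw [own_append μ _ hs, own_cons_ne μ _ hsm]

theorem block_split {μ0 x μ : List Sy} {m : Sy}
    (h : x.filter (fun t => decide (t ∈ μ0)) = m :: μ) :
    ∃ b y, x = b ++ m :: y ∧ (∀ t ∈ b, t ∉ μ0) ∧ m ∈ μ0 ∧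
      y.filter (fun t => decide (t ∈ μ0)) = μ := by
  obtain ⟨b, y, h1, h2, h3, h4⟩ := List.filter_eq_cons_iff.1 h
  exact ⟨b, y, h1, fun t ht => by simpa using h2 t ht, by simpa using h3, h4⟩

theorem nil_of_filter {μ0 x : List Sy} (h : x.filter (fun t => decide (t ∈ μ0)) = [])
    (ho : ∀ s ∈ x, s ∉ μ0 → ∃ p, own μ0 x s = some p) : x = [] := by
  have h1 : ∀ s ∈ x, s ∉ μ0 := by
    intro s hs hsμ
    have : s ∈ x.filter (fun t => decide (t ∈ μ0)) :=
      List.mem_filter.2 ⟨hs, by simpa using hsμ⟩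
    rw [h] at this
    exact absurd this (by simp)
  rcases x with _ | ⟨s, x⟩
  · rfl
  · exfalso
    obtain ⟨p, hp⟩ := ho s (by simp) (h1 s (by simp))
    obtain ⟨h2, h3, -⟩ := own_spec hp
    exact h1 p h3 h2

theorem filter_none {f : Sy → Bool} {b : List Sy} (h : ∀ t ∈ b, f t = false) :
    b.filter f = [] := by
  rw [List.filter_eq_nil_iff]
  intro t ht
  rw [h t ht]
  simp

theorem filter_all {f : Sy → Bool} {b : List Sy} (h : ∀ t ∈ b, f t = true) :
    b.filter f = b := List.filter_eq_self.2 h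

theorem filter_congr' {f g : Sy → Bool} {b : List Sy} (h : ∀ t ∈ b, f t = g t) :
    b.filter f = b.filter g := List.filter_congr h

theorem merge_list (μ0 : List Sy) {P1 P2 : Finset Sy} (hd : Disjoint P1 P2) :
    ∀ (μ x1 x2 : List Sy), x1.filter (fun t => decide (t ∈ μ0)) = μ →
      x2.filter (fun t => decide (t ∈ μ0)) = μ → x1.Nodup → x2.Nodup →
      (∀ s ∈ x1, s ∉ μ0 → ∃ p ∈ P1, own μ0 x1 s = some p) →
      (∀ s ∈ x2, s ∉ μ0 → ∃ p ∈ P2, own μ0 x2 s = some p) →
      (∀ s ∈ x1, s ∉ μ0 → s ∉ x2) →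
      ∃ x : List Sy, x.Nodup ∧ x.filter (fun t => decide (t ∈ μ0)) = μ ∧
        (∀ s, s ∈ x ↔ s ∈ x1 ∨ s ∈ x2) ∧
        x.filter (fun s => decide (s ∈ x1)) = x1 ∧
        x.filter (fun s => decide (s ∈ x2)) = x2 ∧
        (∀ s ∈ x1, own μ0 x s = own μ0 x1 s) ∧ (∀ s ∈ x2, own μ0 x s = own μ0 x2 s) := by
  intro μ
  induction μ with
  | nil =>
    intro x1 x2 h1 h2 _ _ h5 h6 _
    have e1 : x1 = [] := nil_of_filter h1 (fun s hs hn => by
      obtain ⟨p, -, hp⟩ := h5 s hs hn; exact ⟨p, hp⟩)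
    have e2 : x2 = [] := nil_of_filter h2 (fun s hs hn => by
      obtain ⟨p, -, hp⟩ := h6 s hs hn; exact ⟨p, hp⟩)
    subst e1
    subst e2
    exact ⟨[], by simp, by simp, by simp, by simp, by simp, by simp, by simp⟩
  | cons m μ ih =>
    intro x1 x2 h1 h2 h3 h4 h5 h6 h7
    obtain ⟨b1, y1, rfl, hb1, hm, hy1⟩ := block_split h1
    obtain ⟨b2, y2, rfl, hb2, -, hy2⟩ := block_split h2
    have n1 := List.nodup_append.1 h3
    have n2 := List.nodup_append.1 h4
    have n1' := List.nodup_cons.1 n1.2.1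
    have n2' := List.nodup_cons.1 n2.2.1
    have t1 : ∀ s ∈ y1, s ∉ b1 ∧ m ≠ s := by
      intro s hs
      refine ⟨fun h => n1.2.2 s h s (by simp [hs]) rfl, ?_⟩
      rintro rfl; exact n1'.1 hs
    have t2 : ∀ s ∈ y2, s ∉ b2 ∧ m ≠ s := by
      intro s hs
      refine ⟨fun h => n2.2.2 s h s (by simp [hs]) rfl, ?_⟩
      rintro rfl; exact n2'.1 hs
    have u1 : ∀ s ∈ b1, s ≠ m := fun s hs h => hb1 s hs (h ▸ hm)
    have u2 : ∀ s ∈ b2, s ≠ m := fun s hs h => hb2 s hs (h ▸ hm)
    have v1 : ∀ s ∈ b1, s ∉ b2 ∧ s ∉ y2 := by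
      intro s hs
      have := h7 s (by simp [hs]) (hb1 s hs)
      simp only [List.mem_append, List.mem_cons, not_or] at this
      exact ⟨this.1, this.2.2⟩
    have v2 : ∀ s ∈ b2, s ∉ b1 ∧ s ∉ y1 := by
      intro s hs
      refine ⟨fun h => (v1 s h).1 hs, fun h => ?_⟩
      have := h7 s (by simp [h]) (hb2 s hs)
      exact this (by simp [hs])
    obtain ⟨y, i1, i2, i3, i4, i5, i6, i7⟩ := ih y1 y2 hy1 hy2 n1'.2 n2'.2
      (fun s hs hn => by
        obtain ⟨p, hp, ho⟩ := h5 s (by simp [hs]) hn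
        rw [own_tail (t1 s hs).1 (t1 s hs).2] at ho
        exact ⟨p, hp, ho⟩)
      (fun s hs hn => by
        obtain ⟨p, hp, ho⟩ := h6 s (by simp [hs]) hn
        rw [own_tail (t2 s hs).1 (t2 s hs).2] at ho
        exact ⟨p, hp, ho⟩)
      (fun s hs hn h => h7 s (by simp [hs]) hn (by simp [h]))
    -- one of the blocks is empty
    have hemp : b1 = [] ∨ b2 = [] := by
      rcases b1 with _ | ⟨s, b1⟩
      · exact Or.inl rfl
      · rcases b2 with _ | ⟨t, b2⟩
        · exact Or.inr rfl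
        · exfalso
          obtain ⟨p, hp, ho⟩ := h5 s (by simp) (hb1 s (by simp))
          rw [own_block hb1 hm (by simp)] at ho
          obtain ⟨p', hp', ho'⟩ := h6 t (by simp) (hb2 t (by simp))
          rw [own_block hb2 hm (by simp)] at ho'
          have e1 : m = p := Option.some.inj ho
          have e2 : m = p' := Option.some.inj ho'
          subst e1
          subst e2
          exact Finset.disjoint_left.1 hd hp hp'
    have hmy : m ∉ y := by
      intro h
      rcases (i3 m).1 h with h | h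
      · exact n1'.1 h
      · exact n2'.1 h
    have w1 : ∀ s ∈ b1, s ∉ y := by
      intro s hs h
      rcases (i3 s).1 h with h | h
      · exact (t1 s h).1 hs
      · exact (v1 s hs).2 h
    have w2 : ∀ s ∈ b2, s ∉ y := by
      intro s hs h
      rcases (i3 s).1 h with h | h
      · exact (v2 s hs).2 h
      · exact (t2 s h).1 hs
    have hbμ : ∀ t ∈ b1 ++ b2, t ∉ μ0 := by
      intro t ht
      rcases List.mem_append.1 ht with h | h
      · exact hb1 t h
      · exact hb2 t h
    refine ⟨(b1 ++ b2) ++ m :: y, ?_, ?_, ?_, ?_, ?_, ?_, ?_⟩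
    · rw [List.nodup_append]
      refine ⟨?_, List.nodup_cons.2 ⟨hmy, i1⟩, ?_⟩
      · rcases hemp with rfl | rfl
        · simpa using n2.1
        · simpa using n1.1
      · intro s hs t ht hst
        subst hst
        rcases List.mem_append.1 hs with h | h <;> rcases List.mem_cons.1 ht with h' | h'
        · exact u1 s h h'
        · exact w1 s h h'
        · exact u2 s h h'
        · exact w2 s h h'
    · rw [List.filter_append, List.filter_cons_of_pos (by simpa using hm), i2,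
        filter_none (fun t ht => by simpa using hbμ t ht), List.nil_append]
    · intro s
      simp only [List.mem_append, List.mem_cons, i3 s]
      tauto
    · rw [List.filter_append, List.filter_append, List.filter_cons_of_pos (by simp),
        filter_all (b := b1) (fun t ht => by simp [ht]), filter_none (b := b2) ?_]
      · rw [List.append_nil]
        congr 2
        conv_rhs => rw [← i4]
        refine filter_congr' fun t ht => ?_
        have h8 : t ∉ b1 := fun h => w1 t h ht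
        have h9 : t ≠ m := fun h => hmy (h ▸ ht)
        simp [h8, h9]
      · intro t ht
        have h8 := v2 t ht
        have h9 := u2 t ht
        simp [h8.1, h8.2, h9]
    · rw [List.filter_append, List.filter_append, List.filter_cons_of_pos (by simp),
        filter_all (b := b2) (fun t ht => by simp [ht]), filter_none (b := b1) ?_]
      · rw [List.nil_append]
        congr 2
        conv_rhs => rw [← i5]
        refine filter_congr' fun t ht => ?_
        have h8 : t ∉ b2 := fun h => w2 t h ht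
        have h9 : t ≠ m := fun h => hmy (h ▸ ht)
        simp [h8, h9]
      · intro t ht
        have h8 := v1 t ht
        have h9 := u1 t ht
        simp [h8.1, h8.2, h9]
    · intro s hs
      rcases List.mem_append.1 hs with h | h
      · rw [own_block hbμ hm (List.mem_append_left _ h), own_block hb1 hm h]
      · rcases List.mem_cons.1 h with h | h
        · subst h
          rw [own_self hm (by simp), own_self hm (by simp)]
        · have h8 := t1 s h
          rw [own_tail (b := b1) h8.1 h8.2, own_tail (b := b1 ++ b2) ?_ h8.2]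
          · exact i6 s h
          · intro h9
            rcases List.mem_append.1 h9 with h9 | h9
            · exact h8.1 h9
            · exact (v2 s h9).2 h
    · intro s hs
      rcases List.mem_append.1 hs with h | h
      · rw [own_block hbμ hm (List.mem_append_right _ h), own_block hb2 hm h]
      · rcases List.mem_cons.1 h with h | h
        · subst h
          rw [own_self hm (by simp), own_self hm (by simp)]
        · have h8 := t2 s h
          rw [own_tail (b := b2) h8.1 h8.2, own_tail (b := b1 ++ b2) ?_ h8.2]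
          · exact i7 s h
          · intro h9
            rcases List.mem_append.1 h9 with h9 | h9
            · exact (v1 s h9).2 h
            · exact h8.1 h9

theorem split_unique {m : Sy} : ∀ {l1 l2 r1 r2 : List Sy}, l1 ++ m :: r1 = l2 ++ m :: r2 →
    m ∉ l1 → m ∉ l2 → l1 = l2 ∧ r1 = r2
  | [], [], r1, r2, h, _, _ => ⟨rfl, by simpa using h⟩
  | [], t :: l2, r1, r2, h, _, h2 => by
      exfalso
      simp only [List.nil_append, List.cons_append, List.cons.injEq] at h
      exact h2 (by simp [h.1])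
  | t :: l1, [], r1, r2, h, h1, _ => by
      exfalso
      simp only [List.nil_append, List.cons_append, List.cons.injEq] at h
      exact h1 (by simp [h.1])
  | t :: l1, u :: l2, r1, r2, h, h1, h2 => by
      simp only [List.cons_append, List.cons.injEq] at h
      simp only [List.mem_cons, not_or] at h1 h2
      obtain ⟨h3, h4⟩ := split_unique h.2 h1.2 h2.2
      exact ⟨by rw [h.1, h3], h4⟩

theorem unique_list (μ0 : List Sy) {P1 P2 : Finset Sy} (hd : Disjoint P1 P2) {N1 N2 : Finset ℕ}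
    (hk1 : ∀ m ∈ μ0, kp N1 m = true) (hk2 : ∀ m ∈ μ0, kp N2 m = true) :
    ∀ (μ x y : List Sy), x.filter (fun t => decide (t ∈ μ0)) = μ →
      y.filter (fun t => decide (t ∈ μ0)) = μ → x.Nodup → y.Nodup →
      (∀ s ∈ x, s ∉ μ0 → (kp N1 s = true ∧ ∃ p ∈ P1, own μ0 x s = some p) ∨
        (kp N2 s = true ∧ ∃ p ∈ P2, own μ0 x s = some p)) →
      (∀ s ∈ y, s ∉ μ0 → (kp N1 s = true ∧ ∃ p ∈ P1, own μ0 y s = some p) ∨
        (kp N2 s = true ∧ ∃ p ∈ P2, own μ0 y s = some p)) →
      x.filter (kp N1) = y.filter (kp N1) → x.filter (kp N2) = y.filter (kp N2) → x = y := by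
  intro μ
  induction μ with
  | nil =>
    intro x y h1 h2 _ _ h5 h6 _ _
    rw [nil_of_filter h1 (fun s hs hn => by
        rcases h5 s hs hn with ⟨-, p, -, hp⟩ | ⟨-, p, -, hp⟩ <;> exact ⟨p, hp⟩),
      nil_of_filter h2 (fun s hs hn => by
        rcases h6 s hs hn with ⟨-, p, -, hp⟩ | ⟨-, p, -, hp⟩ <;> exact ⟨p, hp⟩)]
  | cons m μ ih =>
    intro x1 x2 h1 h2 h3 h4 h5 h6 h7 h8
    obtain ⟨b1, y1, rfl, hb1, hm, hy1⟩ := block_split h1
    obtain ⟨b2, y2, rfl, hb2, -, hy2⟩ := block_split h2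
    have n1 := List.nodup_append.1 h3
    have n2 := List.nodup_append.1 h4
    have n1' := List.nodup_cons.1 n1.2.1
    have n2' := List.nodup_cons.1 n2.2.1
    have t1 : ∀ s ∈ y1, s ∉ b1 ∧ m ≠ s := by
      intro s hs
      refine ⟨fun h => n1.2.2 s h s (by simp [hs]) rfl, ?_⟩
      rintro rfl; exact n1'.1 hs
    have t2 : ∀ s ∈ y2, s ∉ b2 ∧ m ≠ s := by
      intro s hs
      refine ⟨fun h => n2.2.2 s h s (by simp [hs]) rfl, ?_⟩
      rintro rfl; exact n2'.1 hs
    have hmf : ∀ (f : Sy → Bool) (b : List Sy), (∀ t ∈ b, t ∉ μ0) → m ∉ b.filter f :=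
      fun f b hb h => hb m (List.mem_of_mem_filter h) hm
    rw [List.filter_append, List.filter_append, List.filter_cons_of_pos (hk1 m hm),
      List.filter_cons_of_pos (hk1 m hm)] at h7
    rw [List.filter_append, List.filter_append, List.filter_cons_of_pos (hk2 m hm),
      List.filter_cons_of_pos (hk2 m hm)] at h8
    obtain ⟨e1, e2⟩ := split_unique h7 (hmf _ _ hb1) (hmf _ _ hb2)
    obtain ⟨e3, e4⟩ := split_unique h8 (hmf _ _ hb1) (hmf _ _ hb2)
    have hown1 : ∀ s ∈ b1, (kp N1 s = true ∧ m ∈ P1) ∨ (kp N2 s = true ∧ m ∈ P2) := by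
      intro s hs
      rcases h5 s (by simp [hs]) (hb1 s hs) with ⟨h9, p, hp, ho⟩ | ⟨h9, p, hp, ho⟩
      · rw [own_block hb1 hm hs] at ho
        rw [← Option.some.inj ho] at hp
        exact Or.inl ⟨h9, hp⟩
      · rw [own_block hb1 hm hs] at ho
        rw [← Option.some.inj ho] at hp
        exact Or.inr ⟨h9, hp⟩
    have hown2 : ∀ s ∈ b2, (kp N1 s = true ∧ m ∈ P1) ∨ (kp N2 s = true ∧ m ∈ P2) := by
      intro s hs
      rcases h6 s (by simp [hs]) (hb2 s hs) with ⟨h9, p, hp, ho⟩ | ⟨h9, p, hp, ho⟩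
      · rw [own_block hb2 hm hs] at ho
        rw [← Option.some.inj ho] at hp
        exact Or.inl ⟨h9, hp⟩
      · rw [own_block hb2 hm hs] at ho
        rw [← Option.some.inj ho] at hp
        exact Or.inr ⟨h9, hp⟩
    have hbb : b1 = b2 := by
      by_cases hm1 : m ∈ P1
      · have hm2 : m ∉ P2 := Finset.disjoint_left.1 hd hm1
        rw [filter_all (b := b1) (fun t ht => ((hown1 t ht).resolve_right (fun h => hm2 h.2)).1),
          filter_all (b := b2)
            (fun t ht => ((hown2 t ht).resolve_right (fun h => hm2 h.2)).1)] at e1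
        exact e1
      · rw [filter_all (b := b1) (fun t ht => ((hown1 t ht).resolve_left (fun h => hm1 h.2)).1),
          filter_all (b := b2)
            (fun t ht => ((hown2 t ht).resolve_left (fun h => hm1 h.2)).1)] at e3
        exact e3
    have hyy : y1 = y2 := by
      refine ih y1 y2 hy1 hy2 n1'.2 n2'.2 ?_ ?_ e2 e4
      · intro s hs hn
        have := h5 s (by simp [hs]) hn
        rwa [own_tail (t1 s hs).1 (t1 s hs).2] at this
      · intro s hs hn
        have := h6 s (by simp [hs]) hn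
        rwa [own_tail (t2 s hs).1 (t2 s hs).2] at this
    rw [hbb, hyy]

/-! ### Words -/

section
variable {μ : PW} {P1 P2 : Finset Sy} (hd : Disjoint P1 P2)
include hd

/-- Two words over `μ` with arcs in different blocks can be merged. -/
theorem exists_merge {X1 X2 : PW} (h1 : OvP μ P1 X1) (h2 : OvP μ P2 X2)
    (hn : Disjoint (W.nm X1 \ W.nm μ) (W.nm X2 \ W.nm μ)) :
    ∃ X : PW, OvP μ (P1 ∪ P2) X ∧ rsN (W.nm X1) X = X1 ∧ rsN (W.nm X2) X = X2 ∧
      W.nm X = W.nm X1 ∪ W.nm X2 := by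
  have hnm : ∀ {Y : PW} {a : ℕ} (e : Bool), a ∈ W.nm Y ↔ en a e ∈ Y.x :=
    fun e => Pool.Agent.TH286.J846.mem_nmW e
  have h7 : ∀ s ∈ X1.x, s ∉ μ.x → s ∉ X2.x := by
    intro s hs hsμ hs2
    rcases s with n | ⟨a, e⟩
    · exact hsμ (h1.2.1 n hs)
    · exact Finset.disjoint_left.1 hn
        (Finset.mem_sdiff.2 ⟨(hnm e).2 hs, fun h => hsμ ((hnm e).1 h)⟩)
        (Finset.mem_sdiff.2 ⟨(hnm e).2 hs2, fun h => hsμ ((hnm e).1 h)⟩)
  obtain ⟨x, i1, i2, i3, i4, i5, i6, i7⟩ := merge_list μ.x hd μ.x X1.x X2.x h1.1 h2.1 X1.nd X2.nd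
    h1.2.2 h2.2.2 h7
  have hpair : ∀ a e, en a e ∈ x → [en a false, en a true].Sublist x := by
    intro a e ha
    rcases (i3 _).1 ha with h | h
    · refine (X1.pair a e h).trans ?_
      conv_lhs => rw [← i4]
      exact List.filter_sublist
    · refine (X2.pair a e h).trans ?_
      conv_lhs => rw [← i5]
      exact List.filter_sublist
  refine ⟨⟨x, i1, hpair⟩, ⟨i2, ?_, ?_⟩, ?_, ?_, ?_⟩
  · intro n hn'
    rcases (i3 _).1 hn' with h | h
    · exact h1.2.1 n h
    · exact h2.2.1 n h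
  · intro s hs hsμ
    rcases (i3 _).1 hs with h | h
    · obtain ⟨p, hp, ho⟩ := h1.2.2 s h hsμ
      exact ⟨p, Finset.mem_union_left _ hp, (i6 s h).trans ho⟩
    · obtain ⟨p, hp, ho⟩ := h2.2.2 s h hsμ
      exact ⟨p, Finset.mem_union_right _ hp, (i7 s h).trans ho⟩
  · ext1
    show x.filter (kp (W.nm X1)) = X1.x
    conv_rhs => rw [← i4]
    refine filter_congr' fun t ht => ?_
    rcases t with n | ⟨a, e⟩
    · rw [kp_mr]
      symm
      rw [decide_eq_true_iff]
      rcases (i3 _).1 ht with h | h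
      · exact h
      · exact Pool.Agent.TH628.J873.mem_of_mu h1 (h2.2.1 n h)
    · rw [kp_en]
      exact decide_eq_decide.2 (hnm e)
  · ext1
    show x.filter (kp (W.nm X2)) = X2.x
    conv_rhs => rw [← i5]
    refine filter_congr' fun t ht => ?_
    rcases t with n | ⟨a, e⟩
    · rw [kp_mr]
      symm
      rw [decide_eq_true_iff]
      rcases (i3 _).1 ht with h | h
      · exact Pool.Agent.TH628.J873.mem_of_mu h2 (h1.2.1 n h)
      · exact h
    · rw [kp_en]
      exact decide_eq_decide.2 (hnm e)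
  · ext a
    rw [Finset.mem_union, hnm false, hnm false, hnm false]
    exact i3 _

/-- The merged word is unique. -/
theorem merge_unique {X Y : PW} {N1 N2 : Finset ℕ} (hμ1 : W.nm μ ⊆ N1) (hμ2 : W.nm μ ⊆ N2)
    (hX : OvP μ (P1 ∪ P2) X) (hY : OvP μ (P1 ∪ P2) Y)
    (hX' : ∀ a ∈ W.nm X \ W.nm μ, ∀ e, (a ∈ N1 ∧ ∃ p ∈ P1, own μ.x X.x (en a e) = some p) ∨
      (a ∈ N2 ∧ ∃ p ∈ P2, own μ.x X.x (en a e) = some p))
    (hY' : ∀ a ∈ W.nm Y \ W.nm μ, ∀ e, (a ∈ N1 ∧ ∃ p ∈ P1, own μ.x Y.x (en a e) = some p) ∨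
      (a ∈ N2 ∧ ∃ p ∈ P2, own μ.x Y.x (en a e) = some p))
    (h1 : rsN N1 X = rsN N1 Y) (h2 : rsN N2 X = rsN N2 Y) : X = Y := by
  have hnm : ∀ {Y : PW} {a : ℕ} (e : Bool), a ∈ W.nm Y ↔ en a e ∈ Y.x :=
    fun e => Pool.Agent.TH286.J846.mem_nmW e
  have key : ∀ Z : PW, OvP μ (P1 ∪ P2) Z →
      (∀ a ∈ W.nm Z \ W.nm μ, ∀ e, (a ∈ N1 ∧ ∃ p ∈ P1, own μ.x Z.x (en a e) = some p) ∨
      (a ∈ N2 ∧ ∃ p ∈ P2, own μ.x Z.x (en a e) = some p)) →
      ∀ s ∈ Z.x, s ∉ μ.x → (kp N1 s = true ∧ ∃ p ∈ P1, own μ.x Z.x s = some p) ∨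
        (kp N2 s = true ∧ ∃ p ∈ P2, own μ.x Z.x s = some p) := by
    intro Z hZ hZ' s hs hsμ
    rcases s with n | ⟨a, e⟩
    · exact absurd (hZ.2.1 n hs) hsμ
    · have := hZ' a (Finset.mem_sdiff.2 ⟨(hnm e).2 hs, fun h => hsμ ((hnm e).1 h)⟩) e
      rw [kp_en, kp_en, decide_eq_true_iff, decide_eq_true_iff]
      exact this
  ext1
  exact unique_list μ.x hd (fun m hm => Pool.Agent.TH628.J873.kp_mu hμ1 hm)
    (fun m hm => Pool.Agent.TH628.J873.kp_mu hμ2 hm) μ.x X.x Y.x hX.1 hY.1 X.nd Y.nd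
    (key X hX hX') (key Y hY hY') (congrArg PW.x h1) (congrArg PW.x h2)

end

end Pool.Agent.TH745.J1093
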