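import Pool.Agent.TH547.Arc.NH
set_option autoImplicit false

/-! The vanishing part of the Kuenneth theorem for complexes of classes of cells. -/
namespace Pool.Agent.TH745.J773
open Pool.Agent.TH547.Arc
open Finset Equiv
open scoped TensorProduct

/-! ### Signs given by the relative order in a list -/

/-- relative order sign -/
def bs (l : List ℕ) (y x : ℕ) : ℤ := if l.idxOf y < l.idxOf x then -1 else 1

theorem bs_cons_of_ne {c x y : ℕ} {l : List ℕ} (hx : c ≠ x) (hy : c ≠ y) :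
    bs (c :: l) y x = bs l y x := by
  unfold bs
  rw [List.idxOf_cons_ne _ hx, List.idxOf_cons_ne _ hy]
  simp only [Nat.succ_eq_add_one, Nat.add_lt_add_iff_right]

theorem bs_head_right {x y : ℕ} {l : List ℕ} : bs (x :: l) y x = 1 := by
  unfold bs
  rw [List.idxOf_cons_self]
  simp

theorem bs_head_left {x y : ℕ} {l : List ℕ} (h : y ≠ x) : bs (y :: l) y x = -1 := by
  unfold bs
  rw [List.idxOf_cons_self, List.idxOf_cons_ne _ h]
  simp

theorem bs_filter {l : List ℕ} {f : ℕ → Bool} {x y : ℕ} (hx : x ∈ l) (hy : y ∈ l)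
    (hfx : f x = true) (hfy : f y = true) : bs (l.filter f) y x = bs l y x := by
  induction l with
  | nil => simp at hx
  | cons c l ih =>
    cases hc : f c with
    | false =>
      have hcx : c ≠ x := by rintro rfl; rw [hfx] at hc; exact absurd hc (by simp)
      have hcy : c ≠ y := by rintro rfl; rw [hfy] at hc; exact absurd hc (by simp)
      rw [List.filter_cons_of_neg (by rw [hc]; simp), bs_cons_of_ne hcx hcy]
      refine ih ?_ ?_
      · rcases List.mem_cons.1 hx with h | h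
        · exact absurd h.symm hcx
        · exact h
      · rcases List.mem_cons.1 hy with h | h
        · exact absurd h.symm hcy
        · exact h
    | true =>
      rw [List.filter_cons_of_pos hc]
      by_cases hcx : c = x
      · subst hcx
        rw [bs_head_right, bs_head_right]
      · by_cases hcy : c = y
        · subst hcy
          rw [bs_head_left hcx, bs_head_left hcx]
        · rw [bs_cons_of_ne hcx hcy, bs_cons_of_ne hcx hcy]
          refine ih ?_ ?_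
          · rcases List.mem_cons.1 hx with h | h
            · exact absurd h.symm hcx
            · exact h
          · rcases List.mem_cons.1 hy with h | h
            · exact absurd h.symm hcy
            · exact h

theorem bs_erase {l : List ℕ} (hl : l.Nodup) {c x y : ℕ} (hx : x ∈ l) (hy : y ∈ l)
    (hcx : x ≠ c) (hcy : y ≠ c) : bs (l.erase c) y x = bs l y x := by
  rw [hl.erase_eq_filter]
  exact bs_filter hx hy (by simpa using hcx) (by simpa using hcy)

theorem bs_swap {l : List ℕ} {x y : ℕ} (hx : x ∈ l) (hxy : x ≠ y) :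
    bs l x y = (-1) * bs l y x := by
  unfold bs
  have hne : l.idxOf x ≠ l.idxOf y := by
    intro h
    exact hxy (List.idxOf_inj hx |>.1 h)
  rcases lt_or_gt_of_ne hne with h | h
  · rw [if_pos h, if_neg (by omega)]; norm_num
  · rw [if_neg (by omega), if_pos h]; norm_num

theorem bs_sq (l : List ℕ) (x y : ℕ) : bs l y x * bs l y x = 1 := by
  unfold bs
  split_ifs <;> norm_num

theorem idxOf_map_perm (π : Perm ℕ) (l : List ℕ) (a : ℕ) :
    (l.map π).idxOf (π a) = l.idxOf a := by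
  induction l with
  | nil => simp
  | cons b l ih =>
    rw [List.map_cons]
    by_cases h : b = a
    · subst h; rw [List.idxOf_cons_self, List.idxOf_cons_self]
    · have : π b ≠ π a := fun h' => h (π.injective h')
      rw [List.idxOf_cons_ne _ this, List.idxOf_cons_ne _ h, ih]

theorem bs_map (π : Perm ℕ) (l : List ℕ) (x y : ℕ) : bs (l.map π) (π y) (π x) = bs l y x := by
  unfold bs
  rw [idxOf_map_perm, idxOf_map_perm]

theorem sg_prod {l : List ℕ} (hl : l.Nodup) {x : ℕ} (hx : x ∈ l) :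
    (-1 : ℤ) ^ (l.idxOf x) = ∏ y ∈ l.toFinset, bs l y x := by
  induction l with
  | nil => simp at hx
  | cons c l ih =>
    have hcl : c ∉ l := (List.nodup_cons.1 hl).1
    have hl' := (List.nodup_cons.1 hl).2
    rw [List.toFinset_cons, Finset.prod_insert (by simpa using hcl)]
    by_cases hcx : c = x
    · subst hcx
      rw [List.idxOf_cons_self, pow_zero, bs_head_right, one_mul]
      symm
      exact Finset.prod_eq_one fun y _ => bs_head_right
    · have hx' : x ∈ l := by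
        rcases List.mem_cons.1 hx with h | h
        · exact absurd h.symm hcx
        · exact h
      rw [List.idxOf_cons_ne _ hcx, pow_succ, ih hl' hx', bs_head_left hcx, mul_comm]
      congr 1
      refine Finset.prod_congr rfl fun y hy => ?_
      rw [bs_cons_of_ne hcx]
      rintro rfl
      exact hcl (by simpa using hy)

/-! ### Extending injections of finite sets to permutations -/

theorem exists_perm_ext (s : Finset ℕ) (f : ℕ → ℕ) (hf : Set.InjOn f s) :
    ∃ π : Perm ℕ, ∀ a ∈ s, π a = f a := by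
  classical
  let x : Fin s.card ↪ ℕ := (s.equivFin.symm.toEmbedding).trans (Function.Embedding.subtype _)
  let y : Fin s.card ↪ ℕ := ⟨fun i => f (s.equivFin.symm i), by
    intro i j h
    have := hf (s.equivFin.symm i).2 (s.equivFin.symm j).2 h
    exact s.equivFin.symm.injective (Subtype.ext this)⟩
  have hm : MulAction.IsMultiplyPretransitive (Perm ℕ) ℕ s.card :=
    Equiv.Perm.isMultiplyPretransitive ℕ s.card
  obtain ⟨π, hπ⟩ := MulAction.exists_smul_eq (Perm ℕ) x y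
  refine ⟨π, fun a ha => ?_⟩
  have h := congrArg (fun e : Fin s.card ↪ ℕ => e (s.equivFin ⟨a, ha⟩)) hπ
  have h2 : π a = f (s.equivFin.symm (s.equivFin ⟨a, ha⟩)) := by
    have h3 : x (s.equivFin ⟨a, ha⟩) = a := by simp [x]
    have h4 : (π • x) (s.equivFin ⟨a, ha⟩) = π (x (s.equivFin ⟨a, ha⟩)) := rfl
    rw [h3] at h4
    rw [← h4]
    exact h
  rw [h2, Equiv.symm_apply_apply]

/-! ### The algebraic part -/

section Alg

variable {R : Type} [CommRing R] {V : Type} [AddCommGroup V] [Module R V]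

/-- the part of degree `n` of the tensor product -/
def TT (C1 C2 : ℕ → Submodule R V) (n : ℕ) : Submodule R (V ⊗[R] V) :=
  Submodule.span R {t | ∃ i j x y, i + j = n ∧ x ∈ C1 i ∧ y ∈ C2 j ∧ t = x ⊗ₜ[R] y}

theorem tmul_mem_TT {C1 C2 : ℕ → Submodule R V} {n i j : ℕ} {x y : V} (h : i + j = n)
    (hx : x ∈ C1 i) (hy : y ∈ C2 j) : x ⊗ₜ[R] y ∈ TT C1 C2 n :=
  Submodule.subset_span ⟨i, j, x, y, h, hx, hy, rfl⟩

theorem eq_on_TT {C1 C2 : ℕ → Submodule R V} {n : ℕ} {W : Type} [AddCommGroup W] [Module R W]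
    {f g : (V ⊗[R] V) →ₗ[R] W}
    (h : ∀ i j x y, i + j = n → x ∈ C1 i → y ∈ C2 j → f (x ⊗ₜ y) = g (x ⊗ₜ y))
    {t : V ⊗[R] V} (ht : t ∈ TT C1 C2 n) : f t = g t := by
  refine LinearMap.eqOn_span ?_ ht
  rintro _ ⟨i, j, x, y, hij, hx, hy, rfl⟩
  exact h i j x y hij hx hy

theorem map_mem {C1 C2 : ℕ → Submodule R V} {n : ℕ} {W : Type} [AddCommGroup W] [Module R W]
    {U : Submodule R W} {f : (V ⊗[R] V) →ₗ[R] W}
    (h : ∀ i j x y, i + j = n → x ∈ C1 i → y ∈ C2 j → f (x ⊗ₜ y) ∈ U)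
    {t : V ⊗[R] V} (ht : t ∈ TT C1 C2 n) : f t ∈ U := by
  have : TT C1 C2 n ≤ U.comap f := by
    refine Submodule.span_le.2 ?_
    rintro _ ⟨i, j, x, y, hij, hx, hy, rfl⟩
    exact h i j x y hij hx hy
  exact this ht

/-- the differential of the tensor product -/
noncomputable def DD (D1 D2 σ : V →ₗ[R] V) : (V ⊗[R] V) →ₗ[R] (V ⊗[R] V) :=
  TensorProduct.map D1 LinearMap.id + TensorProduct.map σ D2

theorem DD_tmul (D1 D2 σ : V →ₗ[R] V) (x y : V) :
    DD D1 D2 σ (x ⊗ₜ y) = D1 x ⊗ₜ y + σ x ⊗ₜ D2 y := by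
  unfold DD
  rw [LinearMap.add_apply, TensorProduct.map_tmul, TensorProduct.map_tmul, LinearMap.id_apply]

theorem kunneth_alg (C1 C2 : ℕ → Submodule R V) (D1 D2 σ s1 s2 : V →ₗ[R] V) (a b : ℕ)
    (hD1 : ∀ i, ∀ z ∈ C1 (i + 1), D1 z ∈ C1 i) (hD10 : ∀ z ∈ C1 0, D1 z = 0)
    (hDD1 : ∀ i, ∀ z ∈ C1 i, D1 (D1 z) = 0)
    (hD2 : ∀ i, ∀ z ∈ C2 (i + 1), D2 z ∈ C2 i) (hD20 : ∀ z ∈ C2 0, D2 z = 0)
    (hDD2 : ∀ i, ∀ z ∈ C2 i, D2 (D2 z) = 0)
    (hσ : ∀ i, ∀ z ∈ C1 i, σ z = ((-1 : R) ^ i) • z)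
    (hs1 : ∀ i, ∀ z ∈ C1 i, s1 z ∈ C1 (i + 1))
    (hc1 : ∀ i < a, ∀ z ∈ C1 i, D1 (s1 z) + s1 (D1 z) = z)
    (hs2 : ∀ i, ∀ z ∈ C2 i, s2 z ∈ C2 (i + 1))
    (hc2 : ∀ i < b, ∀ z ∈ C2 i, D2 (s2 z) + s2 (D2 z) = z)
    {n : ℕ} (hn : n < a + b) {z : V ⊗[R] V} (hz : z ∈ TT C1 C2 n) (hdz : DD D1 D2 σ z = 0) :
    ∃ w ∈ TT C1 C2 (n + 1), DD D1 D2 σ w = z := by
  set K1 : (V ⊗[R] V) →ₗ[R] (V ⊗[R] V) := TensorProduct.map s1 LinearMap.id with hK1
  set K2 : (V ⊗[R] V) →ₗ[R] (V ⊗[R] V) := TensorProduct.map σ s2 with hK2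
  set R1 : (V ⊗[R] V) →ₗ[R] (V ⊗[R] V) :=
    TensorProduct.map (LinearMap.id - (D1.comp s1 + s1.comp D1)) LinearMap.id with hR1
  set R2 : (V ⊗[R] V) →ₗ[R] (V ⊗[R] V) :=
    TensorProduct.map LinearMap.id (LinearMap.id - (D2.comp s2 + s2.comp D2)) with hR2
  have hsq : ∀ i : ℕ, ((-1 : R) ^ i) * ((-1 : R) ^ i) = 1 := by
    intro i
    rw [← mul_pow]; norm_num
  -- the sign operator on `D1 x`
  have hσD : ∀ i, ∀ x ∈ C1 i, σ (D1 x) = -(((-1 : R) ^ i) • D1 x) := by
    intro i x hx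
    rcases i with _ | i
    · rw [hD10 x hx]; simp
    · rw [hσ i _ (hD1 i x hx), pow_succ]; simp
  -- `D1 x ∈ C1 _` in general
  have hK1m : ∀ m, ∀ t ∈ TT C1 C2 m, K1 t ∈ TT C1 C2 (m + 1) := by
    intro m t ht
    refine map_mem (f := K1) (U := TT C1 C2 (m + 1)) ?_ ht
    intro i j x y hij hx hy
    rw [hK1, TensorProduct.map_tmul]
    exact tmul_mem_TT (by omega) (hs1 i x hx) hy
  have hK2m : ∀ m, ∀ t ∈ TT C1 C2 m, K2 t ∈ TT C1 C2 (m + 1) := by
    intro m t ht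
    refine map_mem (f := K2) (U := TT C1 C2 (m + 1)) ?_ ht
    intro i j x y hij hx hy
    rw [hK2, TensorProduct.map_tmul]
    refine tmul_mem_TT (i := i) (j := j + 1) (by omega) ?_ (hs2 j y hy)
    rw [hσ i x hx]
    exact Submodule.smul_mem _ _ hx
  have hD2s : ∀ j, ∀ y ∈ C2 j, s2 (D2 y) ∈ C2 j := by
    intro j y hy
    rcases j with _ | j
    · rw [hD20 y hy, map_zero]; exact Submodule.zero_mem _
    · exact hs2 j _ (hD2 j y hy)
  have hR2m : ∀ m, ∀ t ∈ TT C1 C2 m, R2 t ∈ TT C1 C2 m := by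
    intro m t ht
    refine map_mem (f := R2) (U := TT C1 C2 m) ?_ ht
    intro i j x y hij hx hy
    rw [hR2, TensorProduct.map_tmul]
    refine tmul_mem_TT (i := i) (j := j) (by omega) hx ?_
    simp only [LinearMap.sub_apply, LinearMap.id_apply, LinearMap.add_apply,
      LinearMap.comp_apply]
    exact Submodule.sub_mem _ hy (Submodule.add_mem _ (hD2 j _ (hs2 j y hy)) (hD2s j y hy))
  -- homotopies
  have hh1 : ∀ m, ∀ t ∈ TT C1 C2 m, (DD D1 D2 σ) (K1 t) + K1 (DD D1 D2 σ t) = t - R1 t := by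
    intro m t ht
    have := eq_on_TT (f := (DD D1 D2 σ).comp K1 + K1.comp (DD D1 D2 σ))
      (g := LinearMap.id - R1) (n := m) ?_ ht
    · simpa using this
    · intro i j x y hij hx hy
      simp only [LinearMap.add_apply, LinearMap.comp_apply, LinearMap.sub_apply,
        LinearMap.id_apply, hK1, hR1, DD_tmul, TensorProduct.map_tmul, map_add]
      rw [hσ i x hx, hσ (i + 1) _ (hs1 i x hx), map_smul, pow_succ]
      simp only [TensorProduct.sub_tmul, TensorProduct.add_tmul,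
        mul_neg, mul_one, neg_smul, TensorProduct.neg_tmul]
      abel
  have hh2 : ∀ m, ∀ t ∈ TT C1 C2 m, (DD D1 D2 σ) (K2 t) + K2 (DD D1 D2 σ t) = t - R2 t := by
    intro m t ht
    have := eq_on_TT (f := (DD D1 D2 σ).comp K2 + K2.comp (DD D1 D2 σ))
      (g := LinearMap.id - R2) (n := m) ?_ ht
    · simpa using this
    · intro i j x y hij hx hy
      simp only [LinearMap.add_apply, LinearMap.comp_apply, LinearMap.sub_apply,
        LinearMap.id_apply, hK2, hR2, DD_tmul, TensorProduct.map_tmul, map_add]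
      rw [hσD i x hx, hσ i x hx, map_smul, map_smul, hσ i x hx, smul_smul, hsq i, one_smul]
      simp only [TensorProduct.tmul_sub, TensorProduct.tmul_add,
        TensorProduct.neg_tmul]
      abel
  have hddd : ∀ m, ∀ t ∈ TT C1 C2 m, DD D1 D2 σ (DD D1 D2 σ t) = 0 := by
    intro m t ht
    have := eq_on_TT (f := (DD D1 D2 σ).comp (DD D1 D2 σ)) (g := 0) (n := m) ?_ ht
    · simpa using this
    · intro i j x y hij hx hy
      simp only [LinearMap.comp_apply, DD_tmul, map_add, LinearMap.zero_apply]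
      rw [hDD1 i x hx, hDD2 j y hy, hσD i x hx, hσ i x hx, map_smul]
      simp only [TensorProduct.zero_tmul, TensorProduct.tmul_zero, zero_add, add_zero,
        TensorProduct.neg_tmul]
      abel
  -- the composition of the two projections
  have hRR : R1 (R2 z) = 0 := by
    have := eq_on_TT (f := R1.comp R2) (g := 0) (n := n) ?_ hz
    · simpa using this
    · intro i j x y hij hx hy
      simp only [LinearMap.comp_apply, hR1, hR2, TensorProduct.map_tmul, LinearMap.zero_apply]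
      rcases lt_or_ge i a with h | h
      · have : ((LinearMap.id : V →ₗ[R] V) - (D1.comp s1 + s1.comp D1)) x = 0 := by
          simp only [LinearMap.sub_apply, LinearMap.id_apply, LinearMap.add_apply,
            LinearMap.comp_apply]
          rw [hc1 i h x hx, sub_self]
        simp only [LinearMap.id_apply]
        rw [this, TensorProduct.zero_tmul]
      · have : ((LinearMap.id : V →ₗ[R] V) - (D2.comp s2 + s2.comp D2)) y = 0 := by
          simp only [LinearMap.sub_apply, LinearMap.id_apply, LinearMap.add_apply,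
            LinearMap.comp_apply]
          rw [hc2 j (by omega) y hy, sub_self]
        simp only [LinearMap.id_apply]
        rw [this, TensorProduct.tmul_zero]
  have e2 : DD D1 D2 σ (K2 z) = z - R2 z := by
    have := hh2 n z hz
    rwa [hdz, map_zero, add_zero] at this
  have e3 : DD D1 D2 σ (R2 z) = 0 := by
    have h : R2 z = z - DD D1 D2 σ (K2 z) := by rw [e2]; abel
    rw [h, map_sub, hdz, hddd (n + 1) _ (hK2m n z hz), sub_zero]
  have e1 : DD D1 D2 σ (K1 (R2 z)) = R2 z := by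
    have := hh1 n (R2 z) (hR2m n z hz)
    rwa [e3, map_zero, add_zero, hRR, sub_zero] at this
  refine ⟨K2 z + K1 (R2 z), Submodule.add_mem _ (hK2m n z hz) (hK1m n _ (hR2m n z hz)), ?_⟩
  rw [map_add, e2, e1, sub_add_cancel]

end Alg

/-! ### Chains on pairs -/

section Pairs

variable {R : Type} [CommRing R] {α β : Type}

/-- the map of chains induced by a signed map of the bases -/
noncomputable def PhiR (g : α → β × β) (e : α → R) :
    (α →₀ R) →ₗ[R] ((β →₀ R) ⊗[R] (β →₀ R)) :=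
  Finsupp.linearCombination R (fun q =>
    e q • ((Finsupp.single (g q).1 (1 : R)) ⊗ₜ[R] (Finsupp.single (g q).2 (1 : R))))

theorem single_tmul_move (b c : β) (r t : R) :
    (Finsupp.single b (r * t)) ⊗ₜ[R] (Finsupp.single c (1 : R)) =
      (Finsupp.single b r) ⊗ₜ[R] (Finsupp.single c t) := by
  have h1 : (Finsupp.single b (r * t) : β →₀ R) = t • Finsupp.single b r := by
    rw [Finsupp.smul_single, smul_eq_mul, mul_comm]
  have h2 : (Finsupp.single c t : β →₀ R) = t • Finsupp.single c (1 : R) := by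
    rw [Finsupp.smul_single, smul_eq_mul, mul_one]
  rw [h1, h2, TensorProduct.smul_tmul]

theorem PhiR_single (g : α → β × β) (e : α → R) (q : α) (n : R) :
    PhiR g e (Finsupp.single q n) =
      (Finsupp.single (g q).1 (n * e q)) ⊗ₜ[R] (Finsupp.single (g q).2 (1 : R)) := by
  unfold PhiR
  rw [Finsupp.linearCombination_single, smul_smul, TensorProduct.smul_tmul', Finsupp.smul_single,
    smul_eq_mul, mul_one]

/-- the map from chains on pairs -/
noncomputable def PsiR (v : β × β → (α →₀ R)) :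
    ((β →₀ R) ⊗[R] (β →₀ R)) →ₗ[R] (α →₀ R) :=
  (Finsupp.linearCombination R v).comp (finsuppTensorFinsupp' R β β).toLinearMap

theorem PsiR_tmul (v : β × β → (α →₀ R)) (b c : β) (r t : R) :
    PsiR v ((Finsupp.single b r) ⊗ₜ[R] (Finsupp.single c t)) = (r * t) • v (b, c) := by
  unfold PsiR
  rw [LinearMap.comp_apply, LinearEquiv.coe_coe, finsuppTensorFinsupp'_single_tmul_single,
    Finsupp.linearCombination_single]

theorem PhiR_inj {g : α → β × β} {e : α → R} {s : Set α} (hg : Set.InjOn g s)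
    (he : ∀ q ∈ s, e q * e q = 1) {z : α →₀ R} (hz : z ∈ Finsupp.supported R R s)
    (h0 : PhiR g e z = 0) : z = 0 := by
  classical
  let v : β × β → (α →₀ R) := fun p =>
    if h : ∃ q ∈ s, g q = p then e h.choose • Finsupp.single h.choose (1 : R) else 0
  have hv : ∀ q ∈ s, v (g q) = e q • Finsupp.single q (1 : R) := by
    intro q hq
    have h : ∃ q' ∈ s, g q' = g q := ⟨q, hq, rfl⟩
    have h1 : h.choose = q := hg h.choose_spec.1 hq h.choose_spec.2
    have h2 : v (g q) = e h.choose • Finsupp.single h.choose (1 : R) := dif_pos h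
    rw [h2, h1]
  have key : ((PsiR v).comp (PhiR g e)) z = (LinearMap.id : (α →₀ R) →ₗ[R] (α →₀ R)) z := by
    rw [Finsupp.supported_eq_span_single] at hz
    refine LinearMap.eqOn_span ?_ hz
    rintro _ ⟨q, hq, rfl⟩
    rw [LinearMap.comp_apply]
    dsimp only
    rw [PhiR_single, PsiR_tmul, Prod.mk.eta, hv q hq, smul_smul, one_mul, mul_one, he q hq,
      one_smul]
    rfl
  rw [LinearMap.comp_apply, h0, map_zero] at key
  exact key.symm

theorem PhiR_mem_TT {g : α → β × β} {e : α → R} {s : Set α} {s1 s2 : ℕ → Set β} {n : ℕ}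
    (h : ∀ q ∈ s, ∃ i j, i + j = n ∧ (g q).1 ∈ s1 i ∧ (g q).2 ∈ s2 j)
    {z : α →₀ R} (hz : z ∈ Finsupp.supported R R s) :
    PhiR g e z ∈ TT (fun i => Finsupp.supported R R (s1 i))
      (fun i => Finsupp.supported R R (s2 i)) n := by
  have hle : Finsupp.supported R R s ≤ (TT (fun i => Finsupp.supported R R (s1 i))
      (fun i => Finsupp.supported R R (s2 i)) n).comap (PhiR g e) := by
    rw [Finsupp.supported_eq_span_single, Submodule.span_le]
    rintro _ ⟨q, hq, rfl⟩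
    obtain ⟨i, j, hij, h1, h2⟩ := h q hq
    rw [SetLike.mem_coe, Submodule.mem_comap, PhiR_single]
    exact tmul_mem_TT hij (Finsupp.single_mem_supported R _ h1)
      (Finsupp.single_mem_supported R _ h2)
  exact hle hz

theorem TT_le_range {g : α → β × β} {e : α → R} {s : Set α} {s1 s2 : ℕ → Set β} {n : ℕ}
    (he : ∀ q ∈ s, e q * e q = 1)
    (h : ∀ i j, i + j = n → ∀ q1 ∈ s1 i, ∀ q2 ∈ s2 j, ∃ q ∈ s, g q = (q1, q2))
    {t : (β →₀ R) ⊗[R] (β →₀ R)} (ht : t ∈ TT (fun i => Finsupp.supported R R (s1 i))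
      (fun i => Finsupp.supported R R (s2 i)) n) :
    ∃ w ∈ Finsupp.supported R R s, PhiR g e w = t := by
  have hle : TT (fun i => Finsupp.supported R R (s1 i))
      (fun i => Finsupp.supported R R (s2 i)) n ≤
      (Finsupp.supported R R s).map (PhiR g e) := by
    unfold TT
    rw [Submodule.span_le]
    rintro _ ⟨i, j, x, y, hij, hx, hy, rfl⟩
    have h1 : Finsupp.supported R R (s1 i) ≤ ((Finsupp.supported R R s).map (PhiR g e)).comap
        ((TensorProduct.mk R (β →₀ R) (β →₀ R)).flip y) := by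
      rw [Finsupp.supported_eq_span_single R (s1 i), Submodule.span_le]
      rintro _ ⟨q1, hq1, rfl⟩
      have h2 : Finsupp.supported R R (s2 j) ≤
          ((Finsupp.supported R R s).map (PhiR g e)).comap
          (TensorProduct.mk R (β →₀ R) (β →₀ R) (Finsupp.single q1 (1 : R))) := by
        rw [Finsupp.supported_eq_span_single R (s2 j), Submodule.span_le]
        rintro _ ⟨q2, hq2, rfl⟩
        obtain ⟨q, hq, hgq⟩ := h i j hij q1 hq1 q2 hq2
        rw [SetLike.mem_coe, Submodule.mem_comap, TensorProduct.mk_apply, Submodule.mem_map]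
        refine ⟨Finsupp.single q (e q), Finsupp.single_mem_supported R _ hq, ?_⟩
        rw [PhiR_single, he q hq, hgq]
      exact h2 hy
    exact h1 hx
  exact hle ht

end Pairs

/-! ### Contractions -/

namespace Sys
open Pool.Agent.TH547.Arc.Sys
variable {S : Sys}

/-- a partial contraction -/
theorem exists_contraction {F : Finset ℕ} {P : S.C → Prop} (hP : Inv F P) (hc : Cvx F P) (a : ℕ)
    (e : ∀ i < a, Ex F P i) : ∃ s : (S.Q F →₀ ℤ) →ₗ[ℤ] (S.Q F →₀ ℤ),
      (∀ i, ∀ z ∈ Ch F P i, s z ∈ Ch F P (i + 1)) ∧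
      (∀ i < a, ∀ z ∈ Ch F P i, D F P (s z) + s (D F P z) = z) := by
  classical
  induction a with
  | zero =>
    exact ⟨0, fun i z _ => Submodule.zero_mem _, fun i hi => absurd hi (Nat.not_lt_zero i)⟩
  | succ a ih =>
    obtain ⟨s, hs1, hs2⟩ := ih (fun i hi => e i (by omega))
    have key : ∀ q : S.Q F, pq F (fun X => P X ∧ deg F X = a) q →
        ∃ w ∈ Ch F P (a + 1),
          D F P w = Finsupp.single q 1 - s (D F P (Finsupp.single q 1)) := by
      rintro q ⟨X, rfl, hX, hd⟩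
      have h1 : Finsupp.single (S.cl F X) (1 : ℤ) ∈ Ch F P a := single_mem_Ch hX hd 1
      have h2 : s (D F P (Finsupp.single (S.cl F X) (1 : ℤ))) ∈ Ch F P a := by
        rcases a with _ | a
        · rw [D_zero_deg hP h1, map_zero]; exact Submodule.zero_mem _
        · exact hs1 a _ (D_mem hP h1)
      refine e a (by omega) _ (Submodule.sub_mem _ h1 h2) ?_
      rw [map_sub]
      rcases a with _ | a
      · rw [D_zero_deg hP h1, map_zero, map_zero, sub_zero]
      · have h3 := hs2 a (by omega) _ (D_mem hP h1)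
        rw [D_D hP hc h1, map_zero, add_zero] at h3
        rw [h3, sub_self]
    choose! w hw1 hw2 using key
    let v : S.Q F → (S.Q F →₀ ℤ) := fun q =>
      if pq F (fun X => P X ∧ deg F X = a) q then w q else s (Finsupp.single q 1)
    have hv : ∀ q (n : ℤ), Finsupp.linearCombination ℤ v (Finsupp.single q n) = n • v q := by
      intro q n
      rw [Finsupp.linearCombination_single]
    have hsame : ∀ i, i ≠ a → ∀ z ∈ Ch F P i, Finsupp.linearCombination ℤ v z = s z := by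
      intro i hi
      refine Ch_induction (p := fun z => Finsupp.linearCombination ℤ v z = s z) ?_ ?_ ?_
      · rw [map_zero, map_zero]
      · intro x y hx hy; rw [map_add, map_add, hx, hy]
      · intro X n hX hd
        rw [hv]
        have hn : ¬ pq F (fun X => P X ∧ deg F X = a) (S.cl F X) := by
          intro h
          have := (pq_cl (hP.deg a) X).1 h
          exact hi (hd.symm.trans this.2)
        have hvq : v (S.cl F X) = s (Finsupp.single (S.cl F X) 1) := if_neg hn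
        rw [hvq, ← map_smul, Finsupp.smul_single, smul_eq_mul, mul_one]
    refine ⟨Finsupp.linearCombination ℤ v, ?_, ?_⟩
    · intro i z hz
      by_cases hi : i = a
      · subst hi
        refine Ch_induction (p := fun z => Finsupp.linearCombination ℤ v z ∈ Ch F P (i + 1))
          ?_ ?_ ?_ z hz
        · rw [map_zero]; exact Submodule.zero_mem _
        · intro x y hx hy; rw [map_add]; exact Submodule.add_mem _ hx hy
        · intro X n hX hd
          rw [hv]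
          have hp : pq F (fun X => P X ∧ deg F X = i) (S.cl F X) := ⟨X, rfl, hX, hd⟩
          have hvq : v (S.cl F X) = w (S.cl F X) := if_pos hp
          rw [hvq]
          exact Submodule.smul_mem _ _ (hw1 _ hp)
      · rw [hsame i hi z hz]
        exact hs1 i z hz
    · intro i hi z hz
      by_cases hia : i = a
      · subst hia
        have hDs : ∀ z ∈ Ch F P i,
            Finsupp.linearCombination ℤ v (D F P z) = s (D F P z) := by
          intro z hz
          rcases i with _ | i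
          · rw [D_zero_deg hP hz, map_zero, map_zero]
          · exact hsame i (by omega) _ (D_mem hP hz)
        rw [hDs z hz]
        refine Ch_induction (p := fun z => D F P (Finsupp.linearCombination ℤ v z) +
          s (D F P z) = z) ?_ ?_ ?_ z hz
        · simp
        · intro x y hx hy
          simp only [map_add]
          calc D F P (Finsupp.linearCombination ℤ v x) + D F P (Finsupp.linearCombination ℤ v y)
                + (s (D F P x) + s (D F P y))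
              = (D F P (Finsupp.linearCombination ℤ v x) + s (D F P x)) +
                (D F P (Finsupp.linearCombination ℤ v y) + s (D F P y)) := by abel
            _ = x + y := by rw [hx, hy]
        · intro X n hX hd
          have hp : pq F (fun X => P X ∧ deg F X = i) (S.cl F X) := ⟨X, rfl, hX, hd⟩
          have hvq : v (S.cl F X) = w (S.cl F X) := if_pos hp
          have hsm : Finsupp.single (S.cl F X) n = n • Finsupp.single (S.cl F X) (1 : ℤ) := by
            rw [Finsupp.smul_single, smul_eq_mul, mul_one]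
          rw [hv, hvq, map_smul, hw2 _ hp, hsm, map_smul, map_smul, ← smul_add,
            sub_add_cancel]
      · have hi' : i < a := by omega
        rw [hsame i hia z hz]
        have h3 : Finsupp.linearCombination ℤ v (D F P z) = s (D F P z) := by
          rcases i with _ | i
          · rw [D_zero_deg hP hz, map_zero, map_zero]
          · exact hsame i (by omega) _ (D_mem hP hz)
        rw [h3]
        exact hs2 i hi' z hz

/-- the hypotheses of the Kuenneth theorem -/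
structure KD (F : Finset ℕ) (P P1 P2 : S.C → Prop) (r1 r2 : S.C → S.C) : Prop where
  hP : Inv F P
  hP1 : Inv F P1
  hP2 : Inv F P2
  h1 : ∀ X, P X → P1 (r1 X)
  h2 : ∀ X, P X → P2 (r2 X)
  hnm : ∀ X, P X → (S.nm (r1 X) \ F) ∪ (S.nm (r2 X) \ F) = S.nm X \ F
  hdj : ∀ X, P X → Disjoint (S.nm (r1 X) \ F) (S.nm (r2 X) \ F)
  ho1 : ∀ X, P X → S.ord (r1 X) = (S.ord X).filter (fun a => decide (a ∈ S.nm (r1 X)))
  ho2 : ∀ X, P X → S.ord (r2 X) = (S.ord X).filter (fun a => decide (a ∈ S.nm (r2 X)))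
  hF : ∀ X, P X → F ⊆ S.nm (r1 X) ∧ F ⊆ S.nm (r2 X)
  hrn1 : ∀ X, P X → ∀ π : Perm ℕ, (∀ a ∈ F, π a = a) → r1 (S.rn π X) = S.rn π (r1 X)
  hrn2 : ∀ X, P X → ∀ π : Perm ℕ, (∀ a ∈ F, π a = a) → r2 (S.rn π X) = S.rn π (r2 X)
  hd1 : ∀ X, P X → ∀ a ∈ S.nm (r1 X) \ F, (P (S.dl X a) ↔ P1 (S.dl (r1 X) a)) ∧
      (P (S.dl X a) → r1 (S.dl X a) = S.dl (r1 X) a ∧ r2 (S.dl X a) = r2 X)
  hd2 : ∀ X, P X → ∀ a ∈ S.nm (r2 X) \ F, (P (S.dl X a) ↔ P2 (S.dl (r2 X) a)) ∧
      (P (S.dl X a) → r2 (S.dl X a) = S.dl (r2 X) a ∧ r1 (S.dl X a) = r1 X)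
  hex : ∀ X1 X2, P1 X1 → P2 X2 → Disjoint (S.nm X1 \ F) (S.nm X2 \ F) →
      ∃ X, P X ∧ r1 X = X1 ∧ r2 X = X2
  huniq : ∀ X Y, P X → P Y → r1 X = r1 Y → r2 X = r2 Y → X = Y

/-- interleaving sign -/
def eps (F : Finset ℕ) (r1 r2 : S.C → S.C) (X : S.C) : ℤ :=
  ∏ x ∈ S.nm (r1 X) \ F, ∏ y ∈ S.nm (r2 X) \ F, bs (S.ord X) y x

theorem eps_rn {F : Finset ℕ} {r1 r2 : S.C → S.C} {X : S.C} {π : Perm ℕ}
    (hπ : ∀ a ∈ F, π a = a) (h1 : r1 (S.rn π X) = S.rn π (r1 X))
    (h2 : r2 (S.rn π X) = S.rn π (r2 X)) : eps F r1 r2 (S.rn π X) = eps F r1 r2 X := by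
  unfold eps
  rw [h1, h2, nm_rn, map_sdiff_fix hπ, nm_rn, map_sdiff_fix hπ, S.ord_rn, Finset.prod_map]
  refine Finset.prod_congr rfl fun x _ => ?_
  rw [Finset.prod_map]
  refine Finset.prod_congr rfl fun y _ => ?_
  exact bs_map π _ x y

theorem eps_sq (F : Finset ℕ) (r1 r2 : S.C → S.C) (X : S.C) :
    eps F r1 r2 X * eps F r1 r2 X = 1 := by
  unfold eps
  rw [← Finset.prod_mul_distrib]
  refine Finset.prod_eq_one fun x _ => ?_
  rw [← Finset.prod_mul_distrib]
  exact Finset.prod_eq_one fun y _ => bs_sq _ _ _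

theorem sg_split {X X1 : S.C} {B : Finset ℕ} (hsub : S.nm X = S.nm X1 ∪ B)
    (hdisj : Disjoint (S.nm X1) B)
    (ho : S.ord X1 = (S.ord X).filter (fun a => decide (a ∈ S.nm X1))) {x : ℕ}
    (hx : x ∈ S.nm X1) : S.sg X x = S.sg X1 x * ∏ y ∈ B, bs (S.ord X) y x := by
  have hxX : x ∈ S.nm X := by rw [hsub]; exact Finset.mem_union_left _ hx
  have e1 : S.sg X x = ∏ y ∈ S.nm X, bs (S.ord X) y x := sg_prod (S.nodup X) (mem_nm.1 hxX)
  have e2 : S.sg X1 x = ∏ y ∈ S.nm X1, bs (S.ord X1) y x := sg_prod (S.nodup X1) (mem_nm.1 hx)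
  rw [e1, e2, hsub, Finset.prod_union hdisj]
  congr 1
  refine Finset.prod_congr rfl fun y hy => ?_
  have hyX : y ∈ S.nm X := by rw [hsub]; exact Finset.mem_union_left _ hy
  rw [ho]
  exact (bs_filter (mem_nm.1 hxX) (mem_nm.1 hyX) (by simpa using hx) (by simpa using hy)).symm

namespace KD

variable {F : Finset ℕ} {P P1 P2 : S.C → Prop} {r1 r2 : S.C → S.C}

theorem sub1 (K : KD F P P1 P2 r1 r2) {X : S.C} (hX : P X) : S.nm (r1 X) ⊆ S.nm X := by
  intro a ha
  have h := mem_nm.1 ha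
  rw [K.ho1 X hX, List.mem_filter] at h
  exact mem_nm.2 h.1

theorem sub2 (K : KD F P P1 P2 r1 r2) {X : S.C} (hX : P X) : S.nm (r2 X) ⊆ S.nm X := by
  intro a ha
  have h := mem_nm.1 ha
  rw [K.ho2 X hX, List.mem_filter] at h
  exact mem_nm.2 h.1

theorem nm_eq1 (K : KD F P P1 P2 r1 r2) {X : S.C} (hX : P X) :
    S.nm X = S.nm (r1 X) ∪ (S.nm (r2 X) \ F) := by
  ext c
  have h := Finset.ext_iff.1 (K.hnm X hX) c
  simp only [Finset.mem_union, Finset.mem_sdiff] at h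
  simp only [Finset.mem_union, Finset.mem_sdiff]
  have h1 : c ∈ S.nm (r1 X) → c ∈ S.nm X := fun h => K.sub1 hX h
  have h2 : c ∈ S.nm (r2 X) → c ∈ S.nm X := fun h => K.sub2 hX h
  have h3 : c ∈ F → c ∈ S.nm (r1 X) := fun h => (K.hF X hX).1 h
  tauto

theorem nm_eq2 (K : KD F P P1 P2 r1 r2) {X : S.C} (hX : P X) :
    S.nm X = S.nm (r2 X) ∪ (S.nm (r1 X) \ F) := by
  ext c
  have h := Finset.ext_iff.1 (K.hnm X hX) c
  simp only [Finset.mem_union, Finset.mem_sdiff] at h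
  simp only [Finset.mem_union, Finset.mem_sdiff]
  have h1 : c ∈ S.nm (r1 X) → c ∈ S.nm X := fun h => K.sub1 hX h
  have h2 : c ∈ S.nm (r2 X) → c ∈ S.nm X := fun h => K.sub2 hX h
  have h3 : c ∈ F → c ∈ S.nm (r2 X) := fun h => (K.hF X hX).2 h
  tauto

theorem dj1 (K : KD F P P1 P2 r1 r2) {X : S.C} (hX : P X) :
    Disjoint (S.nm (r1 X)) (S.nm (r2 X) \ F) := by
  rw [Finset.disjoint_left]
  intro c hc hc'
  exact Finset.disjoint_left.1 (K.hdj X hX)
    (Finset.mem_sdiff.2 ⟨hc, (Finset.mem_sdiff.1 hc').2⟩) hc'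

theorem dj2 (K : KD F P P1 P2 r1 r2) {X : S.C} (hX : P X) :
    Disjoint (S.nm (r2 X)) (S.nm (r1 X) \ F) := by
  rw [Finset.disjoint_left]
  intro c hc hc'
  exact Finset.disjoint_left.1 (K.hdj X hX) hc'
    (Finset.mem_sdiff.2 ⟨hc, (Finset.mem_sdiff.1 hc').2⟩)

theorem nm_sdiff (K : KD F P P1 P2 r1 r2) {X : S.C} (hX : P X) :
    S.nm X \ F = (S.nm (r1 X) \ F) ∪ (S.nm (r2 X) \ F) := (K.hnm X hX).symm

theorem deg_eq (K : KD F P P1 P2 r1 r2) {X : S.C} (hX : P X) :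
    deg F (r1 X) + deg F (r2 X) = deg F X := by
  unfold deg
  rw [K.nm_sdiff hX, Finset.card_union_of_disjoint (K.hdj X hX)]

theorem col1 (K : KD F P P1 P2 r1 r2) {X : S.C} (hX : P X) {x : ℕ} (hx : x ∈ S.nm (r1 X) \ F)
    (hPx : P (S.dl X x)) :
    S.sg X x * eps F r1 r2 (S.dl X x) = eps F r1 r2 X * S.sg (r1 X) x := by
  have hx1 : x ∈ S.nm (r1 X) := (Finset.mem_sdiff.1 hx).1
  rw [sg_split (K.nm_eq1 hX) (K.dj1 hX) (K.ho1 X hX) hx1]
  obtain ⟨e1, e2⟩ := ((K.hd1 X hX x hx).2 hPx)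
  have e3 : eps F r1 r2 (S.dl X x) =
      ∏ x' ∈ (S.nm (r1 X) \ F).erase x, ∏ y ∈ S.nm (r2 X) \ F, bs (S.ord X) y x' := by
    unfold eps
    rw [e1, e2, nm_dl, S.ord_dl, Finset.erase_sdiff_comm]
    refine Finset.prod_congr rfl fun x' hx' => Finset.prod_congr rfl fun y hy => ?_
    have hx'2 := Finset.mem_erase.1 hx'
    refine bs_erase (S.nodup X) ?_ ?_ hx'2.1 ?_
    · exact mem_nm.1 (K.sub1 hX (Finset.mem_sdiff.1 hx'2.2).1)
    · exact mem_nm.1 (K.sub2 hX (Finset.mem_sdiff.1 hy).1)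
    · rintro rfl
      exact Finset.disjoint_left.1 (K.hdj X hX) hx hy
  have e4 : eps F r1 r2 X = (∏ y ∈ S.nm (r2 X) \ F, bs (S.ord X) y x) *
      eps F r1 r2 (S.dl X x) := by
    rw [e3]
    unfold eps
    exact (Finset.mul_prod_erase _ _ hx).symm
  rw [e4]
  ring

theorem col2 (K : KD F P P1 P2 r1 r2) {X : S.C} (hX : P X) {y : ℕ} (hy : y ∈ S.nm (r2 X) \ F)
    (hPy : P (S.dl X y)) :
    S.sg X y * eps F r1 r2 (S.dl X y) =
      (eps F r1 r2 X * (-1) ^ (deg F (r1 X))) * S.sg (r2 X) y := by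
  have hy1 : y ∈ S.nm (r2 X) := (Finset.mem_sdiff.1 hy).1
  rw [sg_split (K.nm_eq2 hX) (K.dj2 hX) (K.ho2 X hX) hy1]
  obtain ⟨e1, e2⟩ := ((K.hd2 X hX y hy).2 hPy)
  have e3 : eps F r1 r2 (S.dl X y) =
      ∏ x ∈ (S.nm (r1 X) \ F), ∏ y' ∈ (S.nm (r2 X) \ F).erase y, bs (S.ord X) y' x := by
    unfold eps
    rw [e1, e2, nm_dl, S.ord_dl, Finset.erase_sdiff_comm]
    refine Finset.prod_congr rfl fun x hx => Finset.prod_congr rfl fun y' hy' => ?_
    have hy'2 := Finset.mem_erase.1 hy'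
    refine bs_erase (S.nodup X) ?_ ?_ ?_ hy'2.1
    · exact mem_nm.1 (K.sub1 hX (Finset.mem_sdiff.1 hx).1)
    · exact mem_nm.1 (K.sub2 hX (Finset.mem_sdiff.1 hy'2.2).1)
    · rintro rfl
      exact Finset.disjoint_left.1 (K.hdj X hX) hx hy
  have e4 : eps F r1 r2 X = (∏ x ∈ S.nm (r1 X) \ F, bs (S.ord X) y x) *
      eps F r1 r2 (S.dl X y) := by
    rw [e3]
    unfold eps
    rw [← Finset.prod_mul_distrib]
    refine Finset.prod_congr rfl fun x _ => ?_
    exact (Finset.mul_prod_erase _ _ hy).symm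
  have e5 : ∏ x ∈ S.nm (r1 X) \ F, bs (S.ord X) x y =
      (-1) ^ (deg F (r1 X)) * ∏ x ∈ S.nm (r1 X) \ F, bs (S.ord X) y x := by
    unfold deg
    rw [← Finset.prod_const, ← Finset.prod_mul_distrib]
    refine Finset.prod_congr rfl fun x hx => ?_
    refine bs_swap (mem_nm.1 (K.sub1 hX (Finset.mem_sdiff.1 hx).1)) ?_
    rintro rfl
    exact Finset.disjoint_left.1 (K.hdj X hX) hx hy
  rw [e4, e5]
  ring

theorem cl_uniq (K : KD F P P1 P2 r1 r2) {X Y : S.C} (hX : P X) (hY : P Y)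
    (e1 : S.cl F (r1 X) = S.cl F (r1 Y)) (e2 : S.cl F (r2 X) = S.cl F (r2 Y)) :
    S.cl F X = S.cl F Y := by
  classical
  obtain ⟨π, hπ, e1⟩ := cl_eq.1 e1
  obtain ⟨τ, hτ, e2⟩ := cl_eq.1 e2
  let f : ℕ → ℕ := fun c => if c ∈ S.nm (r1 X) then π c else τ c
  have hf1 : ∀ c ∈ S.nm (r1 X), f c = π c := fun c hc => if_pos hc
  have hf2 : ∀ c ∈ S.nm (r2 X), f c = τ c := by
    intro c hc
    by_cases h : c ∈ S.nm (r1 X)
    · have hcF : c ∈ F := by
        by_contra hcF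
        exact Finset.disjoint_left.1 (K.hdj X hX) (Finset.mem_sdiff.2 ⟨h, hcF⟩)
          (Finset.mem_sdiff.2 ⟨hc, hcF⟩)
      rw [hf1 c h, hπ c hcF, hτ c hcF]
    · exact if_neg h
  have hcross : ∀ c ∈ S.nm (r1 X), ∀ c' ∈ S.nm (r2 X), π c = τ c' → c = c' := by
    intro c hc c' hc' h
    have h1 : π c ∈ S.nm (r1 Y) := by rw [e1]; exact (mem_nm_rn π _ c).2 hc
    have h2 : τ c' ∈ S.nm (r2 Y) := by rw [e2]; exact (mem_nm_rn τ _ c').2 hc'
    have hF : π c ∈ F := by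
      by_contra hcF
      exact Finset.disjoint_left.1 (K.hdj Y hY) (Finset.mem_sdiff.2 ⟨h1, hcF⟩)
        (Finset.mem_sdiff.2 ⟨by rw [h]; exact h2, hcF⟩)
    have h3 : π c = c := π.injective (hπ _ hF)
    have hF' : τ c' ∈ F := by rw [← h]; exact hF
    have h4 : τ c' = c' := τ.injective (hτ _ hF')
    rw [← h3, h, h4]
  have hinj : Set.InjOn f (↑(S.nm (r1 X) ∪ S.nm (r2 X)) : Set ℕ) := by
    intro c hc c' hc' h
    rw [Finset.mem_coe, Finset.mem_union] at hc hc'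
    rcases hc with hc | hc <;> rcases hc' with hc' | hc'
    · rw [hf1 c hc, hf1 c' hc'] at h; exact π.injective h
    · rw [hf1 c hc, hf2 c' hc'] at h; exact hcross c hc c' hc' h
    · rw [hf2 c hc, hf1 c' hc'] at h; exact (hcross c' hc' c hc h.symm).symm
    · rw [hf2 c hc, hf2 c' hc'] at h; exact τ.injective h
  obtain ⟨ρ, hρ⟩ := exists_perm_ext _ f hinj
  have hρ1 : ∀ c ∈ S.nm (r1 X), ρ c = π c := fun c hc => by
    rw [hρ c (Finset.mem_union_left _ hc), hf1 c hc]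
  have hρ2 : ∀ c ∈ S.nm (r2 X), ρ c = τ c := fun c hc => by
    rw [hρ c (Finset.mem_union_right _ hc), hf2 c hc]
  have hρF : ∀ c ∈ F, ρ c = c := fun c hc => by
    rw [hρ1 c ((K.hF X hX).1 hc), hπ c hc]
  refine cl_eq.2 ⟨ρ, hρF, K.huniq _ _ hY (K.hP ρ hρF X hX) ?_ ?_⟩
  · rw [e1, K.hrn1 X hX ρ hρF]
    exact S.rn_congr _ _ _ (fun c hc => (hρ1 c (mem_nm.2 hc)).symm)
  · rw [e2, K.hrn2 X hX ρ hρF]
    exact S.rn_congr _ _ _ (fun c hc => (hρ2 c (mem_nm.2 hc)).symm)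

theorem cl_ex (K : KD F P P1 P2 r1 r2) {X1 X2 : S.C} (h1 : P1 X1) (h2 : P2 X2) :
    ∃ X, P X ∧ S.cl F (r1 X) = S.cl F X1 ∧ S.cl F (r2 X) = S.cl F X2 := by
  classical
  set N : ℕ := (S.nm X1 ∪ F).sup id + 1 with hN
  have hle : ∀ c ∈ S.nm X1 ∪ F, c < N := by
    intro c hc
    have := Finset.le_sup (f := id) hc
    simp only [id] at this
    omega
  let f : ℕ → ℕ := fun c => if c ∈ F then c else c + N
  have hfF : ∀ c ∈ F, f c = c := fun c hc => if_pos hc
  have hfN : ∀ c, c ∉ F → f c = c + N := fun c hc => if_neg hc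
  have hinj : Set.InjOn f (↑(S.nm X2 ∪ F) : Set ℕ) := by
    intro c _ c' _ h
    by_cases hc : c ∈ F <;> by_cases hc' : c' ∈ F
    · rw [hfF c hc, hfF c' hc'] at h; exact h
    · rw [hfF c hc, hfN c' hc'] at h
      have := hle c (Finset.mem_union_right _ hc)
      omega
    · rw [hfN c hc, hfF c' hc'] at h
      have := hle c' (Finset.mem_union_right _ hc')
      omega
    · rw [hfN c hc, hfN c' hc'] at h
      omega
  obtain ⟨π, hπ⟩ := exists_perm_ext _ f hinj
  have hπF : ∀ c ∈ F, π c = c := fun c hc => by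
    rw [hπ c (Finset.mem_union_right _ hc), hfF c hc]
  have hd : Disjoint (S.nm X1 \ F) (S.nm (S.rn π X2) \ F) := by
    rw [Finset.disjoint_left]
    intro c hc hc'
    rw [nm_rn, map_sdiff_fix hπF, Finset.mem_map] at hc'
    obtain ⟨c', hc', hcc⟩ := hc'
    have hc'2 := Finset.mem_sdiff.1 hc'
    have e1 : π c' = c' + N := by
      rw [hπ c' (Finset.mem_union_left _ hc'2.1), hfN c' hc'2.2]
    have e2 : π c' = c := hcc
    have := hle c (Finset.mem_union_left _ (Finset.mem_sdiff.1 hc).1)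
    omega
  obtain ⟨X, hX, e1, e2⟩ := K.hex X1 (S.rn π X2) h1 (K.hP2 π hπF X2 h2) hd
  exact ⟨X, hX, by rw [e1], by rw [e2, cl_rn hπF]⟩

end KD

/-- the pair of classes of a class -/
noncomputable def gm (F : Finset ℕ) (r1 r2 : S.C → S.C) (q : S.Q F) : S.Q F × S.Q F :=
  (S.cl F (r1 (Quotient.out q)), S.cl F (r2 (Quotient.out q)))

/-- the sign of a class -/
noncomputable def em (F : Finset ℕ) (r1 r2 : S.C → S.C) (q : S.Q F) : ℤ :=
  eps F r1 r2 (Quotient.out q)

theorem out_rn {F : Finset ℕ} (X : S.C) :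
    ∃ π : Perm ℕ, (∀ a ∈ F, π a = a) ∧ Quotient.out (S.cl F X) = S.rn π X :=
  cl_eq.1 ((Quotient.out_eq (S.cl F X)).symm)

/-- the sign operator -/
noncomputable def sgn (F : Finset ℕ) : (S.Q F →₀ ℤ) →ₗ[ℤ] (S.Q F →₀ ℤ) :=
  Finsupp.linearCombination ℤ (fun q => Finsupp.single q ((-1 : ℤ) ^ (deg F (Quotient.out q))))

theorem sgn_single {F : Finset ℕ} (X : S.C) (n : ℤ) :
    sgn F (Finsupp.single (S.cl F X) n) =
      Finsupp.single (S.cl F X) (n * (-1 : ℤ) ^ (deg F X)) := by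
  obtain ⟨π, hπ, h⟩ := out_rn (F := F) X
  unfold sgn
  rw [Finsupp.linearCombination_single, h, deg_rn hπ, Finsupp.smul_single, smul_eq_mul]

theorem sgn_mem {F : Finset ℕ} {P : S.C → Prop} (i : ℕ) :
    ∀ z ∈ Ch F P i, sgn F z = ((-1 : ℤ) ^ i) • z := by
  refine Ch_induction (p := fun z => sgn F z = ((-1 : ℤ) ^ i) • z) ?_ ?_ ?_
  · simp
  · intro x y hx hy; rw [map_add, hx, hy, smul_add]
  · intro X n _ hd
    rw [sgn_single, hd, Finsupp.smul_single, smul_eq_mul, mul_comm]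

namespace KD

variable {F : Finset ℕ} {P P1 P2 : S.C → Prop} {r1 r2 : S.C → S.C}

theorem gm_cl (K : KD F P P1 P2 r1 r2) {X : S.C} (hX : P X) :
    gm F r1 r2 (S.cl F X) = (S.cl F (r1 X), S.cl F (r2 X)) := by
  obtain ⟨π, hπ, h⟩ := out_rn (F := F) X
  unfold gm
  rw [h, K.hrn1 X hX π hπ, K.hrn2 X hX π hπ, cl_rn hπ, cl_rn hπ]

theorem em_cl (K : KD F P P1 P2 r1 r2) {X : S.C} (hX : P X) :
    em F r1 r2 (S.cl F X) = eps F r1 r2 X := by
  obtain ⟨π, hπ, h⟩ := out_rn (F := F) X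
  unfold em
  rw [h, eps_rn hπ (K.hrn1 X hX π hπ) (K.hrn2 X hX π hπ)]

theorem Phi_cl (K : KD F P P1 P2 r1 r2) {X : S.C} (hX : P X) (n : ℤ) :
    PhiR (gm F r1 r2) (em F r1 r2) (Finsupp.single (S.cl F X) n) =
      (Finsupp.single (S.cl F (r1 X)) (n * eps F r1 r2 X)) ⊗ₜ[ℤ]
        (Finsupp.single (S.cl F (r2 X)) (1 : ℤ)) := by
  rw [PhiR_single, K.gm_cl hX, K.em_cl hX]

theorem Phi_D0 (K : KD F P P1 P2 r1 r2) {X : S.C} (hX : P X) :
    PhiR (gm F r1 r2) (em F r1 r2) (D0 F P X) =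
      DD (D F P1) (D F P2) (sgn F)
        (PhiR (gm F r1 r2) (em F r1 r2) (Finsupp.single (S.cl F X) 1)) := by
  classical
  rw [K.Phi_cl hX, DD_tmul, D_single K.hP1, D_single K.hP2, sgn_single, one_mul, one_smul]
  have hsplit : (S.nm X \ F).filter (fun a => P (S.dl X a)) =
      ((S.nm (r1 X) \ F).filter (fun a => P (S.dl X a))) ∪
      ((S.nm (r2 X) \ F).filter (fun a => P (S.dl X a))) := by
    rw [K.nm_sdiff hX, Finset.filter_union]
  have hD : D0 F P X =
      ∑ a ∈ (S.nm (r1 X) \ F).filter (fun a => P (S.dl X a)),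
        Finsupp.single (S.cl F (S.dl X a)) (S.sg X a) +
      ∑ a ∈ (S.nm (r2 X) \ F).filter (fun a => P (S.dl X a)),
        Finsupp.single (S.cl F (S.dl X a)) (S.sg X a) := by
    rw [← Finset.sum_union]
    · unfold D0
      refine Finset.sum_congr ?_ fun _ _ => rfl
      rw [← hsplit]
    · exact Finset.disjoint_filter_filter (K.hdj X hX)
  rw [hD, map_add, map_sum, map_sum]
  congr 1
  · have h1 : (eps F r1 r2 X) • D0 F P1 (r1 X) =
        ∑ a ∈ (S.nm (r1 X) \ F).filter (fun a => P (S.dl X a)),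
          Finsupp.single (S.cl F (S.dl (r1 X) a)) (eps F r1 r2 X * S.sg (r1 X) a) := by
      unfold D0
      rw [Finset.smul_sum]
      refine Finset.sum_congr ?_ fun a _ => ?_
      · exact Finset.filter_congr fun a ha => ((K.hd1 X hX a ha).1).symm
      · rw [Finsupp.smul_single, smul_eq_mul]
    rw [h1, TensorProduct.sum_tmul]
    refine Finset.sum_congr rfl fun a ha => ?_
    obtain ⟨ha1, ha2⟩ := Finset.mem_filter.1 ha
    obtain ⟨e1, e2⟩ := (K.hd1 X hX a ha1).2 ha2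
    rw [K.Phi_cl ha2, e1, e2, K.col1 hX ha1 ha2]
  · have h1 : D0 F P2 (r2 X) =
        ∑ a ∈ (S.nm (r2 X) \ F).filter (fun a => P (S.dl X a)),
          Finsupp.single (S.cl F (S.dl (r2 X) a)) (S.sg (r2 X) a) := by
      unfold D0
      refine Finset.sum_congr ?_ fun a _ => rfl
      exact Finset.filter_congr fun a ha => ((K.hd2 X hX a ha).1).symm
    rw [h1, TensorProduct.tmul_sum]
    refine Finset.sum_congr rfl fun a ha => ?_
    obtain ⟨ha1, ha2⟩ := Finset.mem_filter.1 ha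
    obtain ⟨e1, e2⟩ := (K.hd2 X hX a ha1).2 ha2
    rw [K.Phi_cl ha2, e1, e2, K.col2 hX ha1 ha2, single_tmul_move]

theorem Phi_D (K : KD F P P1 P2 r1 r2) (n : ℕ) :
    ∀ z ∈ Ch F P n, PhiR (gm F r1 r2) (em F r1 r2) (D F P z) =
      DD (D F P1) (D F P2) (sgn F) (PhiR (gm F r1 r2) (em F r1 r2) z) := by
  refine Ch_induction (p := fun z => PhiR (gm F r1 r2) (em F r1 r2) (D F P z) =
      DD (D F P1) (D F P2) (sgn F) (PhiR (gm F r1 r2) (em F r1 r2) z)) ?_ ?_ ?_
  · simp only [map_zero]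
  · intro x y hx hy
    rw [map_add, map_add, hx, hy, map_add, map_add]
  · intro X m hX _
    have hsm : Finsupp.single (S.cl F X) m = m • Finsupp.single (S.cl F X) (1 : ℤ) := by
      rw [Finsupp.smul_single, smul_eq_mul, mul_one]
    rw [hsm, map_smul, map_smul, map_smul, map_smul, ← K.Phi_D0 hX, D_single K.hP, one_smul]

theorem em_sq (K : KD F P P1 P2 r1 r2) (q : S.Q F) :
    em F r1 r2 q * em F r1 r2 q = 1 := eps_sq _ _ _ _

theorem main (K : KD F P P1 P2 r1 r2) (hc1 : Cvx F P1) (hc2 : Cvx F P2)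
    (a b : ℕ) (e1 : ∀ i < a, Ex F P1 i) (e2 : ∀ j < b, Ex F P2 j) :
    ∀ n < a + b, Ex F P n := by
  classical
  intro n hn z hz hDz
  obtain ⟨s1, hs1, hs1'⟩ := exists_contraction K.hP1 hc1 a e1
  obtain ⟨s2, hs2, hs2'⟩ := exists_contraction K.hP2 hc2 b e2
  -- degrees
  have hdegs : ∀ m, ∀ q ∈ {q : S.Q F | pq F (fun X => P X ∧ deg F X = m) q}, ∃ i j, i + j = m ∧
      (gm F r1 r2 q).1 ∈ {q : S.Q F | pq F (fun X => P1 X ∧ deg F X = i) q} ∧
      (gm F r1 r2 q).2 ∈ {q : S.Q F | pq F (fun X => P2 X ∧ deg F X = j) q} := by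
    rintro m q ⟨X, rfl, hX, hd⟩
    refine ⟨deg F (r1 X), deg F (r2 X), by rw [K.deg_eq hX, hd], ?_, ?_⟩
    · rw [K.gm_cl hX]
      exact ⟨r1 X, rfl, K.h1 X hX, rfl⟩
    · rw [K.gm_cl hX]
      exact ⟨r2 X, rfl, K.h2 X hX, rfl⟩
  have hpre : ∀ m i j, i + j = m →
      ∀ q1 ∈ {q : S.Q F | pq F (fun X => P1 X ∧ deg F X = i) q},
      ∀ q2 ∈ {q : S.Q F | pq F (fun X => P2 X ∧ deg F X = j) q},
      ∃ q ∈ {q : S.Q F | pq F (fun X => P X ∧ deg F X = m) q}, gm F r1 r2 q = (q1, q2) := by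
    rintro m i j hij q1 ⟨X1, rfl, hX1, hd1⟩ q2 ⟨X2, rfl, hX2, hd2⟩
    obtain ⟨X, hX, h1, h2⟩ := K.cl_ex hX1 hX2
    refine ⟨S.cl F X, ⟨X, rfl, hX, ?_⟩, ?_⟩
    · obtain ⟨π, hπ, h1'⟩ := cl_eq.1 h1
      obtain ⟨τ, hτ, h2'⟩ := cl_eq.1 h2
      rw [← K.deg_eq hX, ← hij, ← hd1, ← hd2, h1', h2', deg_rn hπ, deg_rn hτ]
    · rw [K.gm_cl hX, h1, h2]
  have hinj : Set.InjOn (gm F r1 r2) {q : S.Q F | pq F (fun X => P X ∧ deg F X = n) q} := by
    rintro q ⟨X, rfl, hX, -⟩ q' ⟨Y, rfl, hY, -⟩ h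
    rw [K.gm_cl hX, K.gm_cl hY] at h
    exact K.cl_uniq hX hY (congrArg Prod.fst h) (congrArg Prod.snd h)
  have hPz : PhiR (gm F r1 r2) (em F r1 r2) z ∈ TT (Ch F P1) (Ch F P2) n :=
    PhiR_mem_TT (hdegs n) hz
  have hdz : DD (D F P1) (D F P2) (sgn F) (PhiR (gm F r1 r2) (em F r1 r2) z) = 0 := by
    rw [← K.Phi_D n z hz, hDz, map_zero]
  obtain ⟨w', hw', hDw'⟩ := kunneth_alg (Ch F P1) (Ch F P2) (D F P1) (D F P2) (sgn F) s1 s2 a b
    (fun i z hz => D_mem K.hP1 hz) (fun z hz => D_zero_deg K.hP1 hz)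
    (fun i z hz => D_D K.hP1 hc1 hz)
    (fun i z hz => D_mem K.hP2 hz) (fun z hz => D_zero_deg K.hP2 hz)
    (fun i z hz => D_D K.hP2 hc2 hz)
    (fun i z hz => sgn_mem i z hz) hs1 hs1' hs2 hs2' hn hPz hdz
  obtain ⟨w, hw, rfl⟩ := TT_le_range (e := em F r1 r2) (fun q _ => K.em_sq q) (hpre (n + 1)) hw'
  refine ⟨w, hw, ?_⟩
  rw [← K.Phi_D (n + 1) w hw] at hDw'
  have h0 : PhiR (gm F r1 r2) (em F r1 r2) (D F P w - z) = 0 := by
    rw [map_sub, hDw', sub_self]
  have hmem : D F P w - z ∈ Ch F P n := Submodule.sub_mem _ (D_mem K.hP hw) hz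
  have := PhiR_inj hinj (fun q _ => K.em_sq q) hmem h0
  exact sub_eq_zero.1 this

end KD

/-- Kuenneth theorem, vanishing part -/
theorem Ex_kunneth {F : Finset ℕ} {P P1 P2 : S.C → Prop} (hP : Inv F P) (hP1 : Inv F P1)
    (hP2 : Inv F P2) (hc1 : Cvx F P1) (hc2 : Cvx F P2) (r1 r2 : S.C → S.C)
    (h1 : ∀ X, P X → P1 (r1 X)) (h2 : ∀ X, P X → P2 (r2 X))
    (hnm : ∀ X, P X → (S.nm (r1 X) \ F) ∪ (S.nm (r2 X) \ F) = S.nm X \ F)
    (hdj : ∀ X, P X → Disjoint (S.nm (r1 X) \ F) (S.nm (r2 X) \ F))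
    (ho1 : ∀ X, P X → S.ord (r1 X) = (S.ord X).filter (fun a => decide (a ∈ S.nm (r1 X))))
    (ho2 : ∀ X, P X → S.ord (r2 X) = (S.ord X).filter (fun a => decide (a ∈ S.nm (r2 X))))
    (hF : ∀ X, P X → F ⊆ S.nm (r1 X) ∧ F ⊆ S.nm (r2 X))
    (hrn1 : ∀ X, P X → ∀ π : Perm ℕ, (∀ a ∈ F, π a = a) → r1 (S.rn π X) = S.rn π (r1 X))
    (hrn2 : ∀ X, P X → ∀ π : Perm ℕ, (∀ a ∈ F, π a = a) → r2 (S.rn π X) = S.rn π (r2 X))
    (hd1 : ∀ X, P X → ∀ a ∈ S.nm (r1 X) \ F, (P (S.dl X a) ↔ P1 (S.dl (r1 X) a)) ∧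
      (P (S.dl X a) → r1 (S.dl X a) = S.dl (r1 X) a ∧ r2 (S.dl X a) = r2 X))
    (hd2 : ∀ X, P X → ∀ a ∈ S.nm (r2 X) \ F, (P (S.dl X a) ↔ P2 (S.dl (r2 X) a)) ∧
      (P (S.dl X a) → r2 (S.dl X a) = S.dl (r2 X) a ∧ r1 (S.dl X a) = r1 X))
    (hex : ∀ X1 X2, P1 X1 → P2 X2 → Disjoint (S.nm X1 \ F) (S.nm X2 \ F) →
      ∃ X, P X ∧ r1 X = X1 ∧ r2 X = X2)
    (huniq : ∀ X Y, P X → P Y → r1 X = r1 Y → r2 X = r2 Y → X = Y)
    (a b : ℕ) (e1 : ∀ i < a, Ex F P1 i) (e2 : ∀ j < b, Ex F P2 j) :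
    ∀ n < a + b, Ex F P n :=
  KD.main ⟨hP, hP1, hP2, h1, h2, hnm, hdj, ho1, ho2, hF, hrn1, hrn2, hd1, hd2, hex, huniq⟩
    hc1 hc2 a b e1 e2

end Sys

end Pool.Agent.TH745.J773
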