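import Pool.Agent.TH547.Arc.RegSys
import Pool.Agent.TH286.J762
import Pool.Agent.TH286.J768
set_option autoImplicit false

/-! Region words: deletion of one arc, rank, punctures, genus. -/
namespace Pool.Agent.TH745.J984
open Pool.Agent.TH547.Arc
open Pool.Agent.TH286.J761
open Finset Equiv

/-! ### Lists -/

theorem idx_filter {x : List Sy} {f : Sy → Bool} {s t : Sy} (hs : s ∈ x) (ht : t ∈ x)
    (fs : f s = true) (ft : f t = true) :
    (x.filter f).idxOf s ≤ (x.filter f).idxOf t ↔ x.idxOf s ≤ x.idxOf t := by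
  induction x with
  | nil => simp at hs
  | cons c l ih =>
    cases hc : f c with
    | false =>
      have hcs : c ≠ s := by rintro rfl; rw [fs] at hc; exact absurd hc (by simp)
      have hct : c ≠ t := by rintro rfl; rw [ft] at hc; exact absurd hc (by simp)
      have hs' : s ∈ l := by
        rcases List.mem_cons.1 hs with h | h
        · exact absurd h.symm hcs
        · exact h
      have ht' : t ∈ l := by
        rcases List.mem_cons.1 ht with h | h
        · exact absurd h.symm hct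
        · exact h
      rw [List.filter_cons_of_neg (by rw [hc]; simp), List.idxOf_cons_ne _ hcs,
        List.idxOf_cons_ne _ hct, ih hs' ht']
      omega
    | true =>
      rw [List.filter_cons_of_pos hc]
      by_cases hcs : c = s
      · subst hcs
        rw [List.idxOf_cons_self, List.idxOf_cons_self]
        simp
      · have hs' : s ∈ l := by
          rcases List.mem_cons.1 hs with h | h
          · exact absurd h.symm hcs
          · exact h
        by_cases hct : c = t
        · subst hct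
          rw [List.idxOf_cons_self, List.idxOf_cons_self, List.idxOf_cons_ne _ hcs,
            List.idxOf_cons_ne _ hcs]
          simp
        · have ht' : t ∈ l := by
            rcases List.mem_cons.1 ht with h | h
            · exact absurd h.symm hct
            · exact h
          rw [List.idxOf_cons_ne _ hcs, List.idxOf_cons_ne _ hct, List.idxOf_cons_ne _ hcs,
            List.idxOf_cons_ne _ hct]
          have := ih hs' ht'
          omega

theorem formPerm_map {α : Type} [DecidableEq α] (ρ : Perm α) : ∀ x : List α,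
    (x.map ρ).formPerm = ρ * x.formPerm * ρ⁻¹
  | [] => by simp
  | [a] => by simp
  | a :: b :: l => by
      have ih := formPerm_map ρ (b :: l)
      rw [List.map_cons] at ih
      rw [List.map_cons, List.map_cons, List.formPerm_cons_cons, List.formPerm_cons_cons, ih,
        Equiv.swap_apply_apply]
      group

/-! ### Numbers of cycles -/

theorem sc_congr {α : Type} {σ τ : Perm α} {A : Finset α} (hA : ∀ s ∈ A, σ s ∈ A)
    (h : ∀ s ∈ A, σ s = τ s) {s t : α} (hs : s ∈ A) (hst : σ.SameCycle s t) :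
    τ.SameCycle s t := by
  obtain ⟨n, rfl⟩ := sc_nat σ A hA hs hst
  have key : ∀ n : ℕ, (σ ^ n) s ∈ A ∧ (τ ^ n) s = (σ ^ n) s := by
    intro n
    induction n with
    | zero => exact ⟨hs, rfl⟩
    | succ n ih =>
      rw [pow_succ', pow_succ', Perm.mul_apply, Perm.mul_apply, ih.2]
      exact ⟨hA _ ih.1, (h _ ih.1).symm⟩
  exact ⟨n, by rw [zpow_natCast]; exact (key n).2⟩

theorem ncy_congr {α : Type} {σ τ : Perm α} {A : Finset α} (hA : ∀ s ∈ A, σ s ∈ A)
    (h : ∀ s ∈ A, σ s = τ s) : ncy σ A = ncy τ A := by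
  classical
  have hA' : ∀ s ∈ A, τ s ∈ A := fun s hs => (h s hs) ▸ hA s hs
  unfold ncy
  congr 1
  refine Finset.image_congr fun s hs => ?_
  refine Finset.filter_congr fun t _ => ?_
  exact ⟨sc_congr hA h (Finset.mem_coe.1 hs),
    sc_congr hA' (fun s hs => (h s hs).symm) (Finset.mem_coe.1 hs)⟩

theorem ncy_pos {α : Type} {σ : Perm α} {A : Finset α} {s : α} (hs : s ∈ A) :
    1 ≤ ncy σ A := by
  classical
  unfold ncy
  exact Finset.card_pos.2 ⟨_, Finset.mem_image_of_mem _ hs⟩

theorem ncy_union {α : Type} [DecidableEq α] {σ : Perm α} {A B : Finset α}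
    (hA : ∀ s ∈ A, σ s ∈ A) (hB : ∀ s ∈ B, σ s ∈ B) (hd : Disjoint A B) :
    ncy σ (A ∪ B) = ncy σ A + ncy σ B := by
  classical
  rw [Pool.Agent.TH286.J768.ncy_eq, Pool.Agent.TH286.J768.ncy_eq,
    Pool.Agent.TH286.J768.ncy_eq, Finset.image_union]
  have e1 : A.image (fun s => (A ∪ B).filter (fun t => σ.SameCycle s t)) =
      A.image (fun s => A.filter (fun t => σ.SameCycle s t)) := by
    refine Finset.image_congr fun s hs => ?_
    ext t
    simp only [Finset.mem_filter, Finset.mem_union]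
    constructor
    · rintro ⟨-, h⟩
      exact ⟨sc_mem σ A hA (Finset.mem_coe.1 hs) h, h⟩
    · rintro ⟨h, h'⟩
      exact ⟨Or.inl h, h'⟩
  have e2 : B.image (fun s => (A ∪ B).filter (fun t => σ.SameCycle s t)) =
      B.image (fun s => B.filter (fun t => σ.SameCycle s t)) := by
    refine Finset.image_congr fun s hs => ?_
    ext t
    simp only [Finset.mem_filter, Finset.mem_union]
    constructor
    · rintro ⟨-, h⟩
      exact ⟨sc_mem σ B hB (Finset.mem_coe.1 hs) h, h⟩
    · rintro ⟨h, h'⟩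
      exact ⟨Or.inr h, h'⟩
  rw [e1, e2, Finset.card_union_of_disjoint]
  rw [Finset.disjoint_left]
  intro C hC hC'
  obtain ⟨s, hs, rfl⟩ := Finset.mem_image.1 hC
  obtain ⟨t, ht, h⟩ := Finset.mem_image.1 hC'
  have h1 : s ∈ A.filter (fun t => σ.SameCycle s t) :=
    Finset.mem_filter.2 ⟨hs, Perm.SameCycle.refl _ _⟩
  rw [← h] at h1
  exact Finset.disjoint_left.1 hd hs (Finset.mem_filter.1 h1).1

theorem ncy_conj {α : Type} [DecidableEq α] (ρ σ : Perm α) (A : Finset α) :
    ncy (ρ * σ * ρ⁻¹) (A.map ρ.toEmbedding) = ncy σ A := by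
  classical
  rw [Pool.Agent.TH286.J768.ncy_eq, Pool.Agent.TH286.J768.ncy_eq]
  have e1 : (A.map ρ.toEmbedding).image (fun s => (A.map ρ.toEmbedding).filter
      (fun t => (ρ * σ * ρ⁻¹).SameCycle s t)) =
      (A.image (fun s => A.filter (fun t => σ.SameCycle s t))).image
        (fun B => B.map ρ.toEmbedding) := by
    rw [Finset.image_image, Finset.map_eq_image, Finset.image_image]
    refine Finset.image_congr fun s _ => ?_
    simp only [Function.comp]
    ext t
    simp only [Finset.mem_filter, Finset.mem_image, Finset.mem_map, Equiv.coe_toEmbedding,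
      Perm.sameCycle_conj]
    constructor
    · rintro ⟨⟨r, hr, rfl⟩, h⟩
      refine ⟨r, ⟨hr, ?_⟩, rfl⟩
      simpa using h
    · rintro ⟨r, ⟨hr, h⟩, rfl⟩
      exact ⟨⟨r, hr, rfl⟩, by simpa using h⟩
  rw [e1, Finset.card_image_of_injective]
  exact Finset.map_injective _

/-! ### Classes and representatives -/

theorem mem_cls {X : RW} {s t : Sy} : t ∈ X.cls s ↔ X.R s t := by
  classical
  unfold RW.cls
  rw [Finset.mem_filter, List.mem_toFinset]
  exact ⟨fun h => h.2, fun h => ⟨X.mem' _ _ (X.symm' _ _ h), h⟩⟩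

theorem mem_reps {X : RW} {s : Sy} : s ∈ X.reps ↔ s ∈ X.w.x ∧
    ∀ t, X.R s t → X.w.x.idxOf s ≤ X.w.x.idxOf t := by
  classical
  unfold RW.reps
  rw [Finset.mem_filter, List.mem_toFinset]

theorem exists_rep (X : RW) {s : Sy} (hs : s ∈ X.w.x) : ∃ r ∈ X.reps, X.R s r := by
  obtain ⟨r, hr, hmin⟩ := Finset.exists_min_image (X.cls s) (fun t => X.w.x.idxOf t)
    ⟨s, mem_cls.2 (X.rfl' s hs)⟩
  have hr' := mem_cls.1 hr
  refine ⟨r, mem_reps.2 ⟨X.mem' _ _ (X.symm' _ _ hr'), fun t ht => ?_⟩, hr'⟩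
  exact hmin t (mem_cls.2 (X.trans' _ _ _ hr' ht))

theorem rep_unique {X : RW} {r t : Sy} (hr : r ∈ X.reps) (ht : t ∈ X.reps) (h : X.R r t) :
    r = t := by
  obtain ⟨h1, h2⟩ := mem_reps.1 hr
  obtain ⟨h3, h4⟩ := mem_reps.1 ht
  exact (List.idxOf_inj h1).1 (le_antisymm (h2 t h) (h4 r (X.symm' _ _ h)))

theorem mem_x' {X : RW} {a : ℕ} {s : Sy} : s ∈ (X.dl a).w.x ↔ s ∈ X.w.x ∧
    s ≠ en a false ∧ s ≠ en a true := by
  rw [Pool.Agent.TH286.J834.dl_w, Pool.Agent.TH286.J834.mem_dl, offA_iff]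

theorem dl_R {X : RW} {a : ℕ} {s t : Sy} : (X.dl a).R s t ↔
    s ∈ (X.dl a).w.x ∧ t ∈ (X.dl a).w.x ∧ (X.R s t ∨ (X.M a s ∧ X.M a t)) :=
  Pool.Agent.TH286.J834.dl_R X a s t

theorem mem_of_M {X : RW} {a : ℕ} {s : Sy} (h : X.M a s) : s ∈ X.w.x :=
  h.elim (X.mem' _ _) (X.mem' _ _)

theorem a_mem {X : RW} {a : ℕ} (ha : a ∈ X.w.ord) (e : Bool) : en a e ∈ X.w.x :=
  (PW.mem_ord' e).1 ha

theorem M_a {X : RW} {a : ℕ} (ha : a ∈ X.w.ord) (e : Bool) : X.M a (en a e) := by
  cases e
  · exact Or.inl (X.rfl' _ (a_mem ha false))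
  · exact Or.inr (X.rfl' _ (a_mem ha true))

theorem x'_of_not_M {X : RW} {a : ℕ} (ha : a ∈ X.w.ord) {s : Sy} (hs : s ∈ X.w.x)
    (h : ¬ X.M a s) : s ∈ (X.dl a).w.x := by
  refine mem_x'.2 ⟨hs, ?_, ?_⟩
  · rintro rfl; exact h (M_a ha false)
  · rintro rfl; exact h (M_a ha true)

theorem dl_χ_pos {X : RW} {a : ℕ} {s : Sy} (hs : s ∈ (X.dl a).w.x) (h : X.M a s) :
    (X.dl a).χ s = X.χM a := Pool.Agent.TH286.J834.dl_χ_pos X a hs h

theorem dl_χ_neg {X : RW} {a : ℕ} {s : Sy} (hs : s ∈ (X.dl a).w.x) (h : ¬ X.M a s) :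
    (X.dl a).χ s = X.χ s := Pool.Agent.TH286.J834.dl_χ_neg X a hs h

theorem dl_S_pos {X : RW} {a : ℕ} {s : Sy} (hs : s ∈ (X.dl a).w.x) (h : X.M a s) :
    (X.dl a).S s = X.S (en a false) ∪ X.S (en a true) :=
  Pool.Agent.TH286.J834.dl_S_pos X a hs h

theorem dl_S_neg {X : RW} {a : ℕ} {s : Sy} (hs : s ∈ (X.dl a).w.x) (h : ¬ X.M a s) :
    (X.dl a).S s = X.S s := Pool.Agent.TH286.J834.dl_S_neg X a hs h

/-- representatives outside the regions adjacent to the arc -/
theorem reps_far {X : RW} {a : ℕ} (ha : a ∈ X.w.ord) {s : Sy} (h : ¬ X.M a s) :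
    s ∈ (X.dl a).reps ↔ s ∈ X.reps := by
  have hR : ∀ t, s ∈ X.w.x → ((X.dl a).R s t ↔ X.R s t) := by
    intro t hs
    rw [dl_R]
    constructor
    · rintro ⟨-, -, h' | h'⟩
      · exact h'
      · exact absurd h'.1 h
    · intro h'
      refine ⟨x'_of_not_M ha hs h, x'_of_not_M ha (X.mem' _ _ (X.symm' _ _ h'))
        (fun hM => h ((RW.M_congr h').2 hM)), Or.inl h'⟩
  rw [mem_reps, mem_reps]
  constructor
  · rintro ⟨h1, h2⟩
    have hs := (mem_x'.1 h1).1
    refine ⟨hs, fun t ht => ?_⟩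
    have h3 := (hR t hs).2 ht
    have h4 := h2 t h3
    have h5 := (dl_R.1 h3).2.1
    exact (idx_filter hs (mem_x'.1 h5).1 ((offA_iff _ _).2 (mem_x'.1 h1).2)
      ((offA_iff _ _).2 (mem_x'.1 h5).2)).1 h4
  · rintro ⟨h1, h2⟩
    have h1' := x'_of_not_M ha h1 h
    refine ⟨h1', fun t ht => ?_⟩
    have h4 := h2 t ((hR t h1).1 ht)
    have h5 := (dl_R.1 ht).2.1
    exact (idx_filter h1 (mem_x'.1 h5).1 ((offA_iff _ _).2 (mem_x'.1 h1').2)
      ((offA_iff _ _).2 (mem_x'.1 h5).2)).2 h4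

/-- sums over the regions and deletion of an arc -/
theorem sum_dl {N : Type} [AddCommMonoid N] {X : RW} {a : ℕ} (ha : a ∈ X.w.ord)
    {g g' : Sy → N} (hg : ∀ s t, X.R s t → g s = g t)
    (hgg : ∀ s ∈ (X.dl a).w.x, ¬ X.M a s → g' s = g s) {v : N}
    (hv : ∀ s ∈ (X.dl a).w.x, X.M a s → g' s = v) (hne : ∃ s ∈ (X.dl a).w.x, X.M a s)
    (w : N) (hw : X.R (en a false) (en a true) → w = g (en a false))
    (hw' : ¬ X.R (en a false) (en a true) → w = g (en a false) + g (en a true)) :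
    ∑ s ∈ (X.dl a).reps, g' s + w = ∑ s ∈ X.reps, g s + v := by
  classical
  rw [← Finset.sum_filter_add_sum_filter_not (X.dl a).reps (fun s => X.M a s),
    ← Finset.sum_filter_add_sum_filter_not X.reps (fun s => X.M a s)]
  have e1 : ∑ s ∈ (X.dl a).reps.filter (fun s => ¬ X.M a s), g' s =
      ∑ s ∈ X.reps.filter (fun s => ¬ X.M a s), g s := by
    refine Finset.sum_congr ?_ ?_
    · ext s
      simp only [Finset.mem_filter]
      constructor
      · rintro ⟨h, h'⟩; exact ⟨(reps_far ha h').1 h, h'⟩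
      · rintro ⟨h, h'⟩; exact ⟨(reps_far ha h').2 h, h'⟩
    · intro s hs
      obtain ⟨h, h'⟩ := Finset.mem_filter.1 hs
      exact hgg s (x'_of_not_M ha (mem_reps.1 h).1 h') h'
  have e2 : ∑ s ∈ (X.dl a).reps.filter (fun s => X.M a s), g' s = v := by
    obtain ⟨s, hs, hM⟩ := hne
    obtain ⟨r, hr, hsr⟩ := exists_rep (X.dl a) hs
    have hMr : X.M a r := by
      rcases (dl_R.1 hsr).2.2 with h | h
      · exact (RW.M_congr h).1 hM
      · exact h.2
    have e3 : (X.dl a).reps.filter (fun s => X.M a s) = {r} := by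
      ext t
      rw [Finset.mem_filter, Finset.mem_singleton]
      constructor
      · rintro ⟨h1, h2⟩
        refine rep_unique h1 hr (dl_R.2 ⟨(mem_reps.1 h1).1, (mem_reps.1 hr).1, Or.inr ⟨h2, hMr⟩⟩)
      · rintro rfl; exact ⟨hr, hMr⟩
    rw [e3, Finset.sum_singleton]
    exact hv r (mem_reps.1 hr).1 hMr
  obtain ⟨r0, hr0, h0⟩ := exists_rep X (a_mem ha false)
  obtain ⟨r1, hr1, h1⟩ := exists_rep X (a_mem ha true)
  have e4 : ∑ s ∈ X.reps.filter (fun s => X.M a s), g s = w := by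
    by_cases hR : X.R (en a false) (en a true)
    · have e3 : X.reps.filter (fun s => X.M a s) = {r0} := by
        ext t
        rw [Finset.mem_filter, Finset.mem_singleton]
        constructor
        · rintro ⟨h2, h3 | h3⟩
          · exact rep_unique h2 hr0 (X.trans' _ _ _ h3 h0)
          · exact rep_unique h2 hr0 (X.trans' _ _ _ (X.trans' _ _ _ h3 (X.symm' _ _ hR)) h0)
        · rintro rfl; exact ⟨hr0, Or.inl (X.symm' _ _ h0)⟩
      rw [e3, Finset.sum_singleton, hw hR, hg _ _ h0]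
    · have hne' : r0 ≠ r1 := by
        rintro rfl
        exact hR (X.trans' _ _ _ h0 (X.symm' _ _ h1))
      have e3 : X.reps.filter (fun s => X.M a s) = {r0, r1} := by
        ext t
        rw [Finset.mem_filter, Finset.mem_insert, Finset.mem_singleton]
        constructor
        · rintro ⟨h2, h3 | h3⟩
          · exact Or.inl (rep_unique h2 hr0 (X.trans' _ _ _ h3 h0))
          · exact Or.inr (rep_unique h2 hr1 (X.trans' _ _ _ h3 h1))
        · rintro (rfl | rfl)
          · exact ⟨hr0, Or.inl (X.symm' _ _ h0)⟩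
          · exact ⟨hr1, Or.inr (X.symm' _ _ h1)⟩
      rw [e3, Finset.sum_pair hne', hw' hR, hg _ _ h0, hg _ _ h1]
  rw [e1, e2, e4]
  abel

/-! ### The face permutation and deletion of an arc -/

theorem dat {θ : Perm Sy} {X : RW} {a : ℕ} (hG : RW.Good θ X) (ha : a ∈ X.w.ord) :
    ∃ u ∈ (X.dl a).w.x, ∃ r ∈ (X.dl a).w.x, fp θ X.w.x =
      swap (en a true) r * (swap (en a false) u * fp θ (X.dl a).w.x) := by
  obtain ⟨l, n, hl⟩ := hG.2.2.2
  obtain ⟨u, hu, r, hr, -, h⟩ := Pool.Agent.TH286.J762.exists_ins2 X.w a ha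
    ⟨l, mr n, hl, offA_mr a n⟩
  have hn : ∀ e, en a e ∉ (X.w.dl a).x := by
    intro e h
    have := (offA_en a a e).1 (Pool.Agent.TH286.J834.mem_dl.1 h).2
    exact this rfl
  have h2 := Pool.Agent.TH286.J762.fp_ins2 θ (X.w.dl a).x (X.w.dl a).nd u r a hu hr
    (hn false) (hn true)
  rw [← h] at h2
  exact ⟨u, hu, r, hr, h2⟩

section Main

variable {θ : Perm Sy} {X : RW} {a : ℕ}

theorem not_mem0 : en a false ∉ (X.dl a).w.x := fun h => (mem_x'.1 h).2.1 rfl

theorem not_mem1 : en a true ∉ (X.dl a).w.x := fun h => (mem_x'.1 h).2.2 rfl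

theorem fp0 (hf : θ (en a false) = en a true ∧ θ (en a true) = en a false) :
    fp θ (X.dl a).w.x (en a false) = en a true := by
  unfold fp
  rw [Perm.mul_apply, hf.1]
  exact List.formPerm_apply_of_notMem not_mem1

theorem fp1 (hf : θ (en a false) = en a true ∧ θ (en a true) = en a false) :
    fp θ (X.dl a).w.x (en a true) = en a false := by
  unfold fp
  rw [Perm.mul_apply, hf.2]
  exact List.formPerm_apply_of_notMem not_mem0

theorem ne01 : en a false ≠ en a true := by simp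

/-- all the data of a deletion -/
theorem dat2 (hG : RW.Good θ X)
    (hf : θ (en a false) = en a true ∧ θ (en a true) = en a false) (ha : a ∈ X.w.ord) :
    ∃ u ∈ (X.dl a).w.x, ∃ r ∈ (X.dl a).w.x, fp θ X.w.x =
      swap (en a true) r * (swap (en a false) u * fp θ (X.dl a).w.x) ∧
      X.R (en a false) r ∧ X.M a u ∧
      (∀ s ∈ (X.dl a).w.x, (X.dl a).R s (fp θ (X.dl a).w.x s)) := by
  obtain ⟨u, hu, r, hr, h⟩ := dat hG ha
  have hu' := mem_x'.1 hu
  have hr' := mem_x'.1 hr
  have hval : ∀ s, fp θ X.w.x s =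
      swap (en a true) r (swap (en a false) u (fp θ (X.dl a).w.x s)) := by
    intro s; rw [h]; rfl
  have h0 : fp θ X.w.x (en a false) = r := by
    rw [hval, fp0 hf, swap_apply_of_ne_of_ne (Ne.symm ne01) (Ne.symm hu'.2.2), swap_apply_left]
  have hR0 : X.R (en a false) r := h0 ▸ hG.1 _ (a_mem ha false)
  have hMr : X.M a r := Or.inl (X.symm' _ _ hR0)
  have hMu : X.M a u := by
    by_cases hur : u = r
    · rw [hur]; exact hMr
    · have h1 : fp θ X.w.x (en a true) = u := by
        rw [hval, fp1 hf, swap_apply_left, swap_apply_of_ne_of_ne hu'.2.2 hur]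
      exact Or.inr (X.symm' _ _ (h1 ▸ hG.1 _ (a_mem ha true)))
  refine ⟨u, hu, r, hr, h, hR0, hMu, ?_⟩
  intro s hs
  have hs' := mem_x'.1 hs
  set t := fp θ (X.dl a).w.x s with ht
  have hRs : X.R s (fp θ X.w.x s) := hG.1 s hs'.1
  have ht0 : t ≠ en a false := by
    intro h'
    have : fp θ (X.dl a).w.x s = fp θ (X.dl a).w.x (en a true) := by rw [← ht, h', fp1 hf]
    exact hs'.2.2 ((fp θ (X.dl a).w.x).injective this)
  have ht1 : t ≠ en a true := by
    intro h'
    have : fp θ (X.dl a).w.x s = fp θ (X.dl a).w.x (en a false) := by rw [← ht, h', fp0 hf]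
    exact hs'.2.1 ((fp θ (X.dl a).w.x).injective this)
  by_cases htu : t = u
  · have hMs : X.M a s := by
      have h2 : fp θ X.w.x s = en a false := by
        rw [hval, ← ht, htu, swap_apply_right, swap_apply_of_ne_of_ne ne01]
        exact fun h => hr'.2.1 h.symm
      exact Or.inl (h2 ▸ hRs)
    rw [htu]
    exact dl_R.2 ⟨hs, hu, Or.inr ⟨hMs, hMu⟩⟩
  · by_cases htr : t = r
    · have hMs : X.M a s := by
        have h2 : fp θ X.w.x s = en a true := by
          rw [hval, ← ht, swap_apply_of_ne_of_ne ht0 htu, htr, swap_apply_right]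
        exact Or.inr (h2 ▸ hRs)
      rw [htr]
      exact dl_R.2 ⟨hs, hr, Or.inr ⟨hMs, hMr⟩⟩
    · have h2 : fp θ X.w.x s = t := by
        rw [hval, ← ht, swap_apply_of_ne_of_ne ht0 htu, swap_apply_of_ne_of_ne ht1 htr]
      rw [h2] at hRs
      exact dl_R.2 ⟨hs, mem_x'.2 ⟨X.mem' _ _ (X.symm' _ _ hRs), ht0, ht1⟩, Or.inl hRs⟩

/-- a class which is not adjacent to the arc does not change -/
theorem cls_far (ha : a ∈ X.w.ord) {s : Sy} (h : ¬ X.M a s) (hs : s ∈ X.w.x) :
    (X.dl a).cls s = X.cls s := by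
  ext t
  rw [mem_cls, mem_cls, dl_R]
  constructor
  · rintro ⟨-, -, h' | h'⟩
    · exact h'
    · exact absurd h'.1 h
  · intro h'
    exact ⟨x'_of_not_M ha hs h, x'_of_not_M ha (X.mem' _ _ (X.symm' _ _ h'))
        (fun hM => h ((RW.M_congr h').2 hM)), Or.inl h'⟩

/-- the merged class -/
theorem cls_near (ha : a ∈ X.w.ord) {s : Sy} (h : X.M a s) (hs : s ∈ (X.dl a).w.x) :
    insert (en a false) (insert (en a true) ((X.dl a).cls s)) =
      X.cls (en a false) ∪ X.cls (en a true) := by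
  ext t
  simp only [Finset.mem_insert, Finset.mem_union, mem_cls, dl_R]
  constructor
  · rintro (rfl | rfl | ⟨-, -, h' | h'⟩)
    · exact Or.inl (X.rfl' _ (a_mem ha false))
    · exact Or.inr (X.rfl' _ (a_mem ha true))
    · exact ((RW.M_congr h').1 h).imp (X.symm' _ _) (X.symm' _ _)
    · exact h'.2.imp (X.symm' _ _) (X.symm' _ _)
  · intro h'
    by_cases h0 : t = en a false
    · exact Or.inl h0
    · by_cases h1 : t = en a true
      · exact Or.inr (Or.inl h1)
      · have hM : X.M a t := h'.imp (X.symm' _ _) (X.symm' _ _)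
        exact Or.inr (Or.inr ⟨hs, mem_x'.2 ⟨mem_of_M hM, h0, h1⟩, Or.inr ⟨h, hM⟩⟩)

theorem cls_inv (hG : RW.Good θ X) (s : Sy) : ∀ t ∈ X.cls s, fp θ X.w.x t ∈ X.cls s := by
  intro t ht
  rw [mem_cls] at ht ⊢
  exact X.trans' _ _ _ ht (hG.1 t (X.mem' _ _ (X.symm' _ _ ht)))

theorem cls_disj (h : ¬ X.R (en a false) (en a true)) :
    Disjoint (X.cls (en a false)) (X.cls (en a true)) := by
  rw [Finset.disjoint_left]
  intro t h1 h2
  rw [mem_cls] at h1 h2
  exact h (X.trans' _ _ _ h1 (X.symm' _ _ h2))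

end Main

namespace RW

section
variable {θ : Perm Sy} {X : RW} {a : ℕ} (hG : RW.Good θ X)
  (hf : θ (en a false) = en a true ∧ θ (en a true) = en a false) (ha : a ∈ X.w.ord)
include hG hf ha

/-- the region of the first end contains a symbol which survives the deletion -/
theorem ex_sym : ∃ u ∈ (X.dl a).w.x, X.R (en a false) u := by
  obtain ⟨u, -, r, hr, -, h, -⟩ := dat2 hG hf ha
  exact ⟨r, hr, h⟩

theorem Good_dl : RW.Good θ (X.dl a) := by
  obtain ⟨u, hu, r, hr, hfp, hR0, hMu, hinv⟩ := dat2 hG hf ha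
  have hMr : X.M a r := Or.inl (X.symm' _ _ hR0)
  refine ⟨hinv, ?_, ?_, ?_⟩
  · intro s hs
    by_cases hM : X.M a s
    · -- the merged class
      have hA : ∀ t ∈ (X.dl a).cls s, fp θ (X.dl a).w.x t ∈ (X.dl a).cls s := by
        intro t ht
        rw [mem_cls] at ht ⊢
        exact (X.dl a).trans' _ _ _ ht (hinv t ((X.dl a).mem' _ _ ((X.dl a).symm' _ _ ht)))
      have huA : u ∈ (X.dl a).cls s := mem_cls.2 (dl_R.2 ⟨hs, hu, Or.inr ⟨hM, hMu⟩⟩)
      have hrA : r ∈ (X.dl a).cls s := mem_cls.2 (dl_R.2 ⟨hs, hr, Or.inr ⟨hM, hMr⟩⟩)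
      have h0A : en a false ∉ (X.dl a).cls s :=
        fun h => not_mem0 ((X.dl a).mem' _ _ ((X.dl a).symm' _ _ (mem_cls.1 h)))
      have h1A : en a true ∉ (X.dl a).cls s :=
        fun h => not_mem1 ((X.dl a).mem' _ _ ((X.dl a).symm' _ _ (mem_cls.1 h)))
      have hmerge := Pool.Agent.TH286.J768.dbl_merge (fp θ (X.dl a).w.x) ((X.dl a).cls s) hA
        ne01 h0A h1A (fp0 hf) (fp1 hf) huA hrA
      have hsplit := Pool.Agent.TH286.J768.dbl_split (fp θ (X.dl a).w.x) ((X.dl a).cls s) hA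
        ne01 h0A h1A (fp0 hf) (fp1 hf) huA hrA
      have hb0 := Pool.Agent.TH286.J768.dbl_b0 (fp θ (X.dl a).w.x) ((X.dl a).cls s) hA
        ne01 h0A h1A (fp0 hf) (fp1 hf) huA hrA
      rw [← hfp, cls_near ha hM hs] at hmerge hsplit
      rw [← hfp] at hb0
      rw [dl_χ_pos hs hM]
      by_cases hR : X.R (en a false) (en a true)
      · rw [Pool.Agent.TH286.J834.χM_pos X a hR]
        obtain ⟨h, hh⟩ := hG.2.1 (en a false) (a_mem ha false)
        have hU : X.cls (en a false) ∪ X.cls (en a true) = X.cls (en a false) := by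
          refine Finset.union_eq_left.2 fun t ht => ?_
          rw [mem_cls] at ht ⊢
          exact X.trans' _ _ _ hR ht
        rw [hU] at hmerge hsplit
        by_cases hsc : (fp θ (X.dl a).w.x).SameCycle u r
        · refine ⟨h + 1, ?_⟩
          have := hsplit hsc
          push_cast
          omega
        · refine ⟨h, ?_⟩
          have := hmerge hsc
          omega
      · rw [Pool.Agent.TH286.J834.χM_neg X a hR]
        obtain ⟨h, hh⟩ := hG.2.1 (en a false) (a_mem ha false)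
        obtain ⟨h', hh'⟩ := hG.2.1 (en a true) (a_mem ha true)
        have hsc : (fp θ (X.dl a).w.x).SameCycle u r := by
          by_contra hsc
          have h1 := (hb0 hsc).1
          have h2 := sc_mem (fp θ X.w.x) (X.cls (en a false)) (cls_inv hG _)
            (mem_cls.2 (X.rfl' _ (a_mem ha false))) h1
          exact hR (mem_cls.1 h2)
        have h3 := hsplit hsc
        rw [ncy_union (cls_inv hG _) (cls_inv hG _) (cls_disj hR)] at h3
        refine ⟨h + h', ?_⟩
        push_cast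
        omega
    · rw [dl_χ_neg hs hM, cls_far ha hM (mem_x'.1 hs).1]
      obtain ⟨h, hh⟩ := hG.2.1 s (mem_x'.1 hs).1
      refine ⟨h, ?_⟩
      rw [← hh]
      congr 2
      symm
      refine ncy_congr (cls_inv hG s) fun t ht => ?_
      have ht1 := mem_cls.1 ht
      have ht2 := mem_cls.1 (cls_inv hG s t ht)
      have hnM : ∀ {v}, X.R s v → ¬ X.M a v := fun h h' => hM ((RW.M_congr h).2 h')
      have hval : fp θ X.w.x t =
          swap (en a true) r (swap (en a false) u (fp θ (X.dl a).w.x t)) := by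
        rw [hfp]; rfl
      have hn0 : fp θ X.w.x t ≠ en a false := fun h' => hnM ht2 (h' ▸ M_a ha false)
      have hn1 : fp θ X.w.x t ≠ en a true := fun h' => hnM ht2 (h' ▸ M_a ha true)
      have hnr : fp θ X.w.x t ≠ r := fun h' => hnM ht2 (h' ▸ hMr)
      have hnu : fp θ X.w.x t ≠ u := fun h' => hnM ht2 (h' ▸ hMu)
      have e1 : swap (en a false) u (fp θ (X.dl a).w.x t) = fp θ X.w.x t := by
        have := congrArg (swap (en a true) r) hval
        rw [swap_apply_self, swap_apply_of_ne_of_ne hn1 hnr] at this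
        exact this.symm
      have e2 := congrArg (swap (en a false) u) e1
      rw [swap_apply_self, swap_apply_of_ne_of_ne hn0 hnu] at e2
      exact e2.symm
  · intro s hs t ht hne
    by_cases hs' : X.M a s <;> by_cases ht' : X.M a t
    · exact dl_R.2 ⟨hs, ht, Or.inr ⟨hs', ht'⟩⟩
    · exfalso
      rw [dl_S_pos hs hs', dl_S_neg ht ht'] at hne
      obtain ⟨p, hp⟩ := hne
      rw [Finset.mem_inter, Finset.mem_union] at hp
      rcases hp with ⟨hp | hp, hp2⟩
      · exact ht' (Or.inl (X.symm' _ _ (hG.2.2.1 _ (a_mem ha false) t (mem_x'.1 ht).1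
          ⟨p, Finset.mem_inter.2 ⟨hp, hp2⟩⟩)))
      · exact ht' (Or.inr (X.symm' _ _ (hG.2.2.1 _ (a_mem ha true) t (mem_x'.1 ht).1
          ⟨p, Finset.mem_inter.2 ⟨hp, hp2⟩⟩)))
    · exfalso
      rw [dl_S_neg hs hs', dl_S_pos ht ht'] at hne
      obtain ⟨p, hp⟩ := hne
      rw [Finset.mem_inter, Finset.mem_union] at hp
      rcases hp with ⟨hp2, hp | hp⟩
      · exact hs' (Or.inl (hG.2.2.1 s (mem_x'.1 hs).1 _ (a_mem ha false)
          ⟨p, Finset.mem_inter.2 ⟨hp2, hp⟩⟩))
      · exact hs' (Or.inr (hG.2.2.1 s (mem_x'.1 hs).1 _ (a_mem ha true)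
          ⟨p, Finset.mem_inter.2 ⟨hp2, hp⟩⟩))
    · rw [dl_S_neg hs hs', dl_S_neg ht ht'] at hne
      exact dl_R.2 ⟨hs, ht, Or.inl (hG.2.2.1 s (mem_x'.1 hs).1 t (mem_x'.1 ht).1 hne)⟩
  · obtain ⟨l, n, hl⟩ := hG.2.2.2
    refine ⟨l.filter (offA a), n, ?_⟩
    show X.w.x.filter (offA a) = _
    rw [hl, List.filter_append, List.filter_cons_of_pos (offA_mr a n), List.filter_nil]

theorem ex_M : ∃ s ∈ (X.dl a).w.x, X.M a s := by
  obtain ⟨u, hu, h⟩ := ex_sym hG hf ha
  exact ⟨u, hu, Or.inl (X.symm' _ _ h)⟩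

omit hf in
theorem S_disj (hR : ¬ X.R (en a false) (en a true)) :
    Disjoint (X.S (en a false)) (X.S (en a true)) := by
  rw [Finset.disjoint_left]
  intro p h1 h2
  exact hR (hG.2.2.1 _ (a_mem ha false) _ (a_mem ha true) ⟨p, Finset.mem_inter.2 ⟨h1, h2⟩⟩)

omit hG hf ha in
/-- the rank as one sum -/
theorem rk_eq (Y : RW) : Y.rk = ∑ s ∈ Y.reps, ((1 - Y.χ s) +
    (if (Y.S s).Nonempty then (((Y.S s).card : ℤ) - 1) else 0)) := by
  classical
  unfold RW.rk
  rw [Finset.sum_add_distrib, Finset.sum_filter]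

theorem rk_sum (w v : ℤ) (hw : X.R (en a false) (en a true) → w = (1 - X.χ (en a false)) +
      (if (X.S (en a false)).Nonempty then (((X.S (en a false)).card : ℤ) - 1) else 0))
    (hw' : ¬ X.R (en a false) (en a true) → w = ((1 - X.χ (en a false)) +
      (if (X.S (en a false)).Nonempty then (((X.S (en a false)).card : ℤ) - 1) else 0)) +
      ((1 - X.χ (en a true)) +
      (if (X.S (en a true)).Nonempty then (((X.S (en a true)).card : ℤ) - 1) else 0)))
    (hv : v = (1 - X.χM a) + (if (X.S (en a false) ∪ X.S (en a true)).Nonempty then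
      (((X.S (en a false) ∪ X.S (en a true)).card : ℤ) - 1) else 0)) :
    (X.dl a).rk + w = X.rk + v := by
  rw [rk_eq, rk_eq]
  refine sum_dl ha ?_ ?_ ?_ (ex_M hG hf ha) w hw hw'
  · intro s t h
    rw [X.χ_eq _ _ h, X.S_eq _ _ h]
  · intro s hs hM
    rw [dl_χ_neg hs hM, dl_S_neg hs hM]
  · intro s hs hM
    rw [dl_χ_pos hs hM, dl_S_pos hs hM, hv]

theorem rk_dl_loop (h : X.Loop a) : (X.dl a).rk = X.rk + 1 := by
  by_cases hR : X.R (en a false) (en a true)
  · have h1 := rk_sum hG hf ha _ _ (fun _ => rfl) (fun h => absurd hR h) rfl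
    rw [Pool.Agent.TH286.J834.χM_pos X a hR, ← X.S_eq _ _ hR, Finset.union_self] at h1
    linarith
  · obtain ⟨h0, h1⟩ := h.resolve_left hR
    have h2 := rk_sum hG hf ha _ _ (fun h => absurd h hR) (fun _ => rfl) rfl
    rw [Pool.Agent.TH286.J834.χM_neg X a hR, if_pos h0, if_pos h1,
      if_pos (h0.mono Finset.subset_union_left),
      Finset.card_union_of_disjoint (S_disj hG ha hR)] at h2
    push_cast at h2
    linarith

theorem rk_dl_nonloop (h : ¬ X.Loop a) : (X.dl a).rk = X.rk := by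
  have hR : ¬ X.R (en a false) (en a true) := fun h' => h (Or.inl h')
  have h2 := rk_sum hG hf ha _ _ (fun h => absurd h hR) (fun _ => rfl) rfl
  rw [Pool.Agent.TH286.J834.χM_neg X a hR] at h2
  by_cases h0 : (X.S (en a false)).Nonempty
  · have h1 : X.S (en a true) = ∅ := by
      rw [← Finset.not_nonempty_iff_eq_empty]
      exact fun h' => h (Or.inr ⟨h0, h'⟩)
    rw [h1, Finset.union_empty, if_pos h0, if_neg (by simp)] at h2
    linarith
  · rw [if_neg h0, Finset.not_nonempty_iff_eq_empty.1 h0, Finset.empty_union] at h2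
    linarith

theorem df_sum (w v : ℕ) (hw : X.R (en a false) (en a true) → w = (X.S (en a false)).card - 1)
    (hw' : ¬ X.R (en a false) (en a true) → w = ((X.S (en a false)).card - 1) +
      ((X.S (en a true)).card - 1))
    (hv : v = (X.S (en a false) ∪ X.S (en a true)).card - 1) :
    (X.dl a).df + w = X.df + v := by
  unfold RW.df
  refine sum_dl ha (g := fun s => (X.S s).card - 1) ?_ ?_ ?_ (ex_M hG hf ha) w hw hw'
  · intro s t h
    rw [X.S_eq _ _ h]
  · intro s hs hM
    rw [dl_S_neg hs hM]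
  · intro s hs hM
    rw [dl_S_pos hs hM, hv]

theorem df_R (hR : X.R (en a false) (en a true)) : (X.dl a).df = X.df := by
  have h1 := df_sum hG hf ha _ _ (fun _ => rfl) (fun h => absurd hR h) rfl
  rw [← X.S_eq _ _ hR, Finset.union_self] at h1
  omega

theorem df_not_R (hR : ¬ X.R (en a false) (en a true)) (h : X.Loop a) :
    (X.dl a).df = X.df + 1 := by
  obtain ⟨h0, h1⟩ := h.resolve_left hR
  have h2 := df_sum hG hf ha _ _ (fun h => absurd h hR) (fun _ => rfl) rfl
  rw [Finset.card_union_of_disjoint (S_disj hG ha hR)] at h2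
  have h3 := Finset.card_pos.2 h0
  have h4 := Finset.card_pos.2 h1
  omega

theorem df_dl_loop (h : X.Loop a) : (X.dl a).df = X.df ∨ (X.dl a).df = X.df + 1 := by
  by_cases hR : X.R (en a false) (en a true)
  · exact Or.inl (df_R hG hf ha hR)
  · exact Or.inr (df_not_R hG hf ha hR h)

theorem df_dl_ne (h : X.Loop a) {m : Sy} (hm : m ∈ (X.dl a).w.x) (hne : (X.dl a).S m ≠ X.S m) :
    (X.dl a).df = X.df + 1 := by
  refine df_not_R hG hf ha (fun hR => hne ?_) h
  by_cases hM : X.M a m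
  · rw [dl_S_pos hm hM, ← X.S_eq _ _ hR, Finset.union_self]
    rcases hM with hM | hM
    · exact (X.S_eq _ _ hM).symm
    · rw [X.S_eq _ _ hM, X.S_eq _ _ hR]
  · exact dl_S_neg hm hM

theorem card_cls_of_loop (h : X.R (en a false) (en a true)) {s : Sy} (hs : X.M a s) :
    3 ≤ (X.cls s).card := by
  obtain ⟨u, hu, hRu⟩ := ex_sym hG hf ha
  have hs0 : X.R s (en a false) := hs.elim id (fun h' => X.trans' _ _ _ h' (X.symm' _ _ h))
  have hsub : ({en a false, en a true, u} : Finset Sy) ⊆ X.cls s := by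
    intro t ht
    rw [Finset.mem_insert, Finset.mem_insert, Finset.mem_singleton] at ht
    rw [mem_cls]
    rcases ht with rfl | rfl | rfl
    · exact hs0
    · exact X.trans' _ _ _ hs0 h
    · exact X.trans' _ _ _ hs0 hRu
  have hu' := mem_x'.1 hu
  have hcard : ({en a false, en a true, u} : Finset Sy).card = 3 := by
    rw [Finset.card_insert_of_notMem, Finset.card_insert_of_notMem, Finset.card_singleton]
    · rw [Finset.mem_singleton]; exact fun h => hu'.2.2 h.symm
    · rw [Finset.mem_insert, Finset.mem_singleton]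
      rintro (h | h)
      · exact ne01 h
      · exact hu'.2.1 h.symm
  rw [← hcard]
  exact Finset.card_le_card hsub

theorem ND_of_dl (h : X.Loop a) (hN : RW.ND (X.dl a)) : RW.ND X := by
  intro s hs hχ hS
  by_cases hM : X.M a s
  · by_cases hR : X.R (en a false) (en a true)
    · exact card_cls_of_loop hG hf ha hR hM
    · exfalso
      obtain ⟨h0, h1⟩ := h.resolve_left hR
      rcases hM with hM | hM
      · rw [X.S_eq _ _ hM] at hS
        exact h0.ne_empty hS
      · rw [X.S_eq _ _ hM] at hS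
        exact h1.ne_empty hS
  · have hs' := x'_of_not_M ha hs hM
    have := hN s hs' (by rw [dl_χ_neg hs' hM]; exact hχ) (by rw [dl_S_neg hs' hM]; exact hS)
    rwa [cls_far ha hM hs] at this

theorem ND_dl (hN : RW.ND X) : RW.ND (X.dl a) := by
  intro s hs hχ hS
  by_cases hM : X.M a s
  · rw [dl_χ_pos hs hM] at hχ
    rw [dl_S_pos hs hM, Finset.union_eq_empty] at hS
    obtain ⟨h, hh⟩ := hG.2.1 (en a false) (a_mem ha false)
    have hp0 : 1 ≤ ncy (fp θ X.w.x) (X.cls (en a false)) :=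
      ncy_pos (mem_cls.2 (X.rfl' _ (a_mem ha false)))
    by_cases hR : X.R (en a false) (en a true)
    · exfalso
      rw [Pool.Agent.TH286.J834.χM_pos X a hR] at hχ
      omega
    · rw [Pool.Agent.TH286.J834.χM_neg X a hR] at hχ
      obtain ⟨h', hh'⟩ := hG.2.1 (en a true) (a_mem ha true)
      have hp1 : 1 ≤ ncy (fp θ X.w.x) (X.cls (en a true)) :=
        ncy_pos (mem_cls.2 (X.rfl' _ (a_mem ha true)))
      have h1 : X.χ (en a false) = 1 := by omega
      have h2 : X.χ (en a true) = 1 := by omega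
      have h3 := hN _ (a_mem ha false) h1 hS.1
      have h4 := hN _ (a_mem ha true) h2 hS.2
      have h5 := congrArg Finset.card (cls_near ha hM hs)
      rw [Finset.card_union_of_disjoint (cls_disj hR)] at h5
      have h6 := Finset.card_insert_le (en a false) (insert (en a true) ((X.dl a).cls s))
      have h7 := Finset.card_insert_le (en a true) ((X.dl a).cls s)
      omega
  · rw [dl_χ_neg hs hM] at hχ
    rw [dl_S_neg hs hM] at hS
    rw [cls_far ha hM (mem_x'.1 hs).1]
    exact hN s (mem_x'.1 hs).1 hχ hS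

end

section
variable {X : RW} {a : ℕ}

theorem S_M {s : Sy} (h : X.M a s) : X.S s = X.S (en a false) ∨ X.S s = X.S (en a true) :=
  h.imp (X.S_eq _ _) (X.S_eq _ _)

theorem Loop_dl (h : X.Loop a) {b : ℕ} (hb : b ∈ X.w.ord) (hab : b ≠ a) (ha : a ∈ X.w.ord) :
    (X.dl a).Loop b ↔ X.Loop b := by
  have hm : ∀ e, en b e ∈ (X.dl a).w.x := by
    intro e
    refine mem_x'.2 ⟨a_mem hb e, ?_, ?_⟩
    · intro h'
      simp only [Sy.en.injEq] at h'
      exact hab h'.1
    · intro h'
      simp only [Sy.en.injEq] at h'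
      exact hab h'.1
  unfold RW.Loop
  by_cases hR : X.R (en a false) (en a true)
  · have hS : ∀ e, (X.dl a).S (en b e) = X.S (en b e) := by
      intro e
      by_cases hM : X.M a (en b e)
      · rw [dl_S_pos (hm e) hM, ← X.S_eq _ _ hR, Finset.union_self]
        rcases hM with hM | hM
        · exact (X.S_eq _ _ hM).symm
        · rw [X.S_eq _ _ hM, X.S_eq _ _ hR]
      · exact dl_S_neg (hm e) hM
    have hM0 : ∀ s, X.M a s → X.R s (en a false) := fun s h' =>
      h'.elim id (fun h'' => X.trans' _ _ _ h'' (X.symm' _ _ hR))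
    rw [hS false, hS true]
    constructor
    · rintro (h' | h')
      · rcases (dl_R.1 h').2.2 with h'' | ⟨h1, h2⟩
        · exact Or.inl h''
        · exact Or.inl (X.trans' _ _ _ (hM0 _ h1) (X.symm' _ _ (hM0 _ h2)))
      · exact Or.inr h'
    · rintro (h' | h')
      · exact Or.inl (dl_R.2 ⟨hm _, hm _, Or.inl h'⟩)
      · exact Or.inr h'
  · obtain ⟨h0, h1⟩ := h.resolve_left hR
    have hS : ∀ e, ((X.dl a).S (en b e)).Nonempty ↔ (X.S (en b e)).Nonempty := by
      intro e
      by_cases hM : X.M a (en b e)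
      · rw [dl_S_pos (hm e) hM]
        refine ⟨fun _ => ?_, fun _ => h0.mono Finset.subset_union_left⟩
        rcases S_M hM with h' | h' <;> rw [h'] <;> assumption
      · rw [dl_S_neg (hm e) hM]
    rw [hS false, hS true]
    constructor
    · rintro (h' | h')
      · rcases (dl_R.1 h').2.2 with h'' | ⟨h1', h2'⟩
        · exact Or.inl h''
        · refine Or.inr ⟨?_, ?_⟩
          · rcases S_M h1' with h' | h' <;> rw [h'] <;> assumption
          · rcases S_M h2' with h' | h' <;> rw [h'] <;> assumption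
      · exact Or.inr h'
    · rintro (h' | h')
      · exact Or.inl (dl_R.2 ⟨hm _, hm _, Or.inl h'⟩)
      · exact Or.inr h'

theorem S_sub {m : Sy} (hm : m ∈ (X.dl a).w.x) : X.S m ⊆ (X.dl a).S m := by
  by_cases hM : X.M a m
  · rw [dl_S_pos hm hM]
    rcases S_M hM with h' | h' <;> rw [h']
    · exact Finset.subset_union_left
    · exact Finset.subset_union_right
  · rw [dl_S_neg hm hM]

theorem S_ne (h : X.Loop a) {m : Sy} (hm : m ∈ (X.dl a).w.x) (hne : ((X.dl a).S m).Nonempty) :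
    (X.S m).Nonempty := by
  by_cases hM : X.M a m
  · rw [dl_S_pos hm hM] at hne
    by_cases hR : X.R (en a false) (en a true)
    · rw [← X.S_eq _ _ hR, Finset.union_self] at hne
      rcases S_M hM with h' | h' <;> rw [h']
      · exact hne
      · rwa [← X.S_eq _ _ hR]
    · obtain ⟨h0, h1⟩ := h.resolve_left hR
      rcases S_M hM with h' | h' <;> rw [h'] <;> assumption
  · rwa [dl_S_neg hm hM] at hne

theorem R_of_single {θ : Perm Sy} (hG : RW.Good θ X) (ha : a ∈ X.w.ord) (h : X.Loop a)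
    {m s : Sy} (hm : m ∈ (X.dl a).w.x) (hs : s ∈ (X.dl a).w.x)
    (h1 : ((X.dl a).S m).card ≤ 1) :
    (X.dl a).R m s ↔ X.R m s := by
  constructor
  · intro h'
    rcases (dl_R.1 h').2.2 with h'' | ⟨h2, h3⟩
    · exact h''
    · by_cases hR : X.R (en a false) (en a true)
      · have hM0 : ∀ s, X.M a s → X.R s (en a false) := fun s h' =>
          h'.elim id (fun h'' => X.trans' _ _ _ h'' (X.symm' _ _ hR))
        exact X.trans' _ _ _ (hM0 _ h2) (X.symm' _ _ (hM0 _ h3))
      · exfalso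
        obtain ⟨h4, h5⟩ := h.resolve_left hR
        rw [dl_S_pos hm h2, Finset.card_union_of_disjoint (S_disj hG ha hR)] at h1
        have h6 := Finset.card_pos.2 h4
        have h7 := Finset.card_pos.2 h5
        omega
  · intro h'
    exact dl_R.2 ⟨hm, hs, Or.inl h'⟩

theorem R_dl_of_R {m s : Sy} (hm : m ∈ (X.dl a).w.x) (hs : s ∈ (X.dl a).w.x) (h : X.R m s) :
    (X.dl a).R m s := dl_R.2 ⟨hm, hs, Or.inl h⟩

end

section
variable {θ : Perm Sy} {X : RW} {π : Perm ℕ}

theorem rn_x : (X.rn π).w.x = X.w.x.map (rnS π) := rfl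

theorem rn_R {s t : Sy} : (X.rn π).R s t ↔ X.R ((rnS π).symm s) ((rnS π).symm t) := Iff.rfl

theorem rn_cls (s : Sy) :
    (X.rn π).cls (rnS π s) = (X.cls s).map (rnS π).toEmbedding := by
  ext t
  rw [mem_cls, rn_R, Equiv.symm_apply_apply, Finset.mem_map_equiv, mem_cls]

theorem mem_rn {s : Sy} : s ∈ (X.rn π).w.x ↔ (rnS π).symm s ∈ X.w.x := by
  rw [rn_x, List.mem_map]
  constructor
  · rintro ⟨t, ht, rfl⟩
    rwa [Equiv.symm_apply_apply]
  · intro h
    exact ⟨_, h, Equiv.apply_symm_apply _ _⟩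

theorem rn_fp (hθ : rnS π * θ = θ * rnS π) :
    fp θ (X.rn π).w.x = rnS π * fp θ X.w.x * (rnS π)⁻¹ := by
  unfold fp
  rw [rn_x, formPerm_map]
  have h : (rnS π)⁻¹ * θ = θ * (rnS π)⁻¹ := by
    rw [inv_mul_eq_iff_eq_mul, ← mul_assoc, hθ, mul_assoc, mul_inv_cancel, mul_one]
  rw [mul_assoc, h]
  group

theorem Good_rn (hθ : rnS π * θ = θ * rnS π) (hG : RW.Good θ X) : RW.Good θ (X.rn π) := by
  refine ⟨?_, ?_, ?_, ?_⟩
  · intro s hs
    rw [rn_R, rn_fp hθ]
    have h := hG.1 _ (mem_rn.1 hs)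
    have e : (rnS π).symm ((rnS π * fp θ X.w.x * (rnS π)⁻¹) s) =
        fp θ X.w.x ((rnS π).symm s) := by
      rw [Perm.mul_apply, Perm.mul_apply, Equiv.symm_apply_apply]
      rfl
    rw [e]
    exact h
  · intro s hs
    obtain ⟨t, ht, rfl⟩ := List.mem_map.1 hs
    obtain ⟨h, hh⟩ := hG.2.1 t ht
    refine ⟨h, ?_⟩
    rw [rn_cls, rn_fp hθ, ncy_conj]
    show _ + X.χ ((rnS π).symm (rnS π t)) = _
    rw [Equiv.symm_apply_apply]
    exact hh
  · intro s hs t ht h
    exact hG.2.2.1 _ (mem_rn.1 hs) _ (mem_rn.1 ht) h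
  · obtain ⟨l, n, hl⟩ := hG.2.2.2
    refine ⟨l.map (rnS π), n, ?_⟩
    rw [rn_x, hl, List.map_append, List.map_cons, List.map_nil, rnS_mr]

theorem idx_map (ρ : Perm Sy) (l : List Sy) (s : Sy) :
    (l.map ρ).idxOf (ρ s) = l.idxOf s := by
  induction l with
  | nil => simp
  | cons b l ih =>
    rw [List.map_cons]
    by_cases h : b = s
    · subst h; rw [List.idxOf_cons_self, List.idxOf_cons_self]
    · have : ρ b ≠ ρ s := fun h' => h (ρ.injective h')
      rw [List.idxOf_cons_ne _ this, List.idxOf_cons_ne _ h, ih]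

theorem rn_reps : (X.rn π).reps = X.reps.map (rnS π).toEmbedding := by
  ext t
  rw [Finset.mem_map_equiv, mem_reps, mem_reps, mem_rn]
  refine and_congr_right fun _ => ?_
  constructor
  · intro h r hr
    have h1 := h (rnS π r) (by rw [rn_R, Equiv.symm_apply_apply]; exact hr)
    have e : t = rnS π ((rnS π).symm t) := (Equiv.apply_symm_apply _ _).symm
    rw [rn_x, e, idx_map, idx_map] at h1
    exact h1
  · intro h r hr
    have h1 := h _ (rn_R.1 hr)
    have e : ∀ t, t = rnS π ((rnS π).symm t) := fun t => (Equiv.apply_symm_apply _ _).symm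
    rw [rn_x, e t, e r, idx_map, idx_map]
    exact h1

theorem rk_rn : (X.rn π).rk = X.rk := by
  rw [rk_eq, rk_eq, rn_reps, Finset.sum_map]
  refine Finset.sum_congr rfl fun s _ => ?_
  have h1 : (X.rn π).χ ((rnS π).toEmbedding s) = X.χ s := by
    show X.χ ((rnS π).symm (rnS π s)) = X.χ s
    rw [Equiv.symm_apply_apply]
  have h2 : (X.rn π).S ((rnS π).toEmbedding s) = X.S s := by
    show X.S ((rnS π).symm (rnS π s)) = X.S s
    rw [Equiv.symm_apply_apply]
  rw [h1, h2]

theorem symm_en (a : ℕ) (e : Bool) : (rnS π).symm (en (π a) e) = en a e := by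
  rw [Equiv.symm_apply_eq]
  rfl

theorem Loop_rn (a : ℕ) : (X.rn π).Loop (π a) ↔ X.Loop a := by
  unfold RW.Loop
  rw [rn_R, symm_en, symm_en]
  have h2 : ∀ e, (X.rn π).S (en (π a) e) = X.S (en a e) := by
    intro e
    show X.S ((rnS π).symm (en (π a) e)) = X.S (en a e)
    rw [symm_en]
  rw [h2, h2]

theorem ND_rn (h : RW.ND X) : RW.ND (X.rn π) := by
  intro s hs hχ hS
  obtain ⟨t, ht, rfl⟩ := List.mem_map.1 hs
  rw [rn_cls, Finset.card_map]
  refine h t ht ?_ ?_
  · have : X.χ ((rnS π).symm (rnS π t)) = 1 := hχ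
    rwa [Equiv.symm_apply_apply] at this
  · have : X.S ((rnS π).symm (rnS π t)) = ∅ := hS
    rwa [Equiv.symm_apply_apply] at this

end

end RW

theorem EnvR.rn_theta {θ : Perm Sy} {E : RW} (hE : EnvR θ E) {π : Perm ℕ}
    (hπ : ∀ a ∈ RWS.nm E, π a = a) : rnS π * θ = θ * rnS π := by
  have hπ' : ∀ a ∈ E.w.ord, π a = a := fun a ha => hπ a (Sys.mem_nm.2 ha)
  have hfix : ∀ s ∈ E.w.x, rnS π s = s := by
    intro s hs
    rcases s with n | ⟨b, e⟩
    · rfl
    · rw [rnS_en, hπ' b ((PW.mem_ord' e).2 hs)]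
  ext1 s
  rw [Perm.mul_apply, Perm.mul_apply]
  by_cases hs : s ∈ E.w.x
  · rw [hfix s hs, hfix _ (hE.pres s hs)]
  · rcases s with n | ⟨b, e⟩
    · rw [rnS_mr, hE.fixm n hs, rnS_mr]
    · have hb : b ∉ E.w.ord := fun h => hs ((PW.mem_ord' e).1 h)
      have hb' : π b ∉ E.w.ord := by
        intro h
        have := π.injective (hπ' _ h)
        rw [this] at h
        exact hb h
      rw [rnS_en, hE.flip b hb e, hE.flip (π b) hb' e, rnS_en]

end Pool.Agent.TH745.J984
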