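import Pool.Agent.TH547.Arc.Piece
import Pool.Agent.TH286.J795
import Pool.Agent.TH286.J846
import Pool.Agent.TH628.J873
import Pool.Agent.TH745.J984
set_option autoImplicit false

/-! Coloured boundary cycles of a word. -/
namespace Pool.Agent.TH745.J1095
open Pool.Agent.TH547.Arc
open Finset Equiv

theorem env_of_envK {θ : Perm Sy} {μ : PW} {κ : Sy → Sy} (hE : EnvK θ μ κ) :
    Env θ μ μ.x.toFinset ∅ where
  flip := hE.flip
  pres := hE.pres
  last := hE.last
  sub := fun s hs => ⟨by simpa using hs, Finset.notMem_empty s⟩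
  dsub := fun s hs => absurd hs (Finset.notMem_empty s)
  dinv := fun s hs => absurd hs (Finset.notMem_empty s)
  live := fun s hs _ => ⟨s, by simpa using hs, Perm.SameCycle.refl _ _⟩
  ne := by
    obtain ⟨l, n, hl⟩ := hE.last
    exact ⟨mr n, by rw [hl]; simp⟩

section
variable {θ : Perm Sy} {μ : PW} {κ : Sy → Sy} {X : PW}

theorem col_mu (hX : OvP μ μ.x.toFinset X) {s : Sy} (hs : s ∈ μ.x) :
    col μ κ X s = some (κ s) := by
  unfold col
  rw [Pool.Agent.TH286.J795.own_self hs (Pool.Agent.TH628.J873.mem_of_mu hX hs)]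
  rfl

theorem free_mem {a : ℕ} (h1 : a ∉ μ.ord) (h2 : a ∈ X.ord) : a ∈ W.nm X \ W.nm μ :=
  Finset.mem_sdiff.2 ⟨Sys.mem_nm.2 h2, fun h => h1 (Sys.mem_nm.1 h)⟩

theorem col_flip (hC : CA μ κ X) {a : ℕ} (h1 : a ∉ μ.ord) (h2 : a ∈ X.ord) (e e' : Bool) :
    col μ κ X (en a e) = col μ κ X (en a e') := by
  have h := hC a (free_mem h1 h2)
  cases e <;> cases e'
  · rfl
  · exact h
  · exact h.symm
  · rfl

/-- the boundary cycles are monochromatic -/
theorem col_fp (hE : EnvK θ μ κ) (hX : OvP μ μ.x.toFinset X) (hC : CA μ κ X) :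
    ∀ s ∈ X.x, fp θ X.x s ∈ X.x ∧ col μ κ X (fp θ X.x s) = col μ κ X s := by
  intro s hs
  have hE' := env_of_envK hE
  refine ⟨Pool.Agent.TH628.J873.Env.fp_mem hE' hX s hs, ?_⟩
  by_cases hm : s ∈ μ.x
  · rw [col_mu hX hm]
    unfold col
    rw [Pool.Agent.TH628.J873.Env.fp_marker hE' hX hm, Option.map_some, hE.inv s hm]
  · have h1 : col μ κ X (fp θ X.x s) = col μ κ X (θ s) := by
      unfold col
      rw [Pool.Agent.TH628.J873.Env.fp_letter hE' hX hs hm]
    obtain ⟨a, e, rfl, h2, h3⟩ := Pool.Agent.TH628.J873.free hX hs hm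
    rw [h1, hE.flip a h2 e]
    exact col_flip hC h2 h3 _ _

theorem sub_N (t : Sy) : W.nm μ ⊆ W.nm μ ∪ arcsC μ κ t X := Finset.subset_union_left

theorem kp_col (hX : OvP μ μ.x.toFinset X) (hC : CA μ κ X) {t s : Sy} (hs : s ∈ X.x)
    (ht : col μ κ X s = some t) : kp (W.nm μ ∪ arcsC μ κ t X) s = true := by
  by_cases hm : s ∈ μ.x
  · exact Pool.Agent.TH628.J873.kp_mu (sub_N t) hm
  · obtain ⟨a, e, rfl, h2, h3⟩ := Pool.Agent.TH628.J873.free hX hs hm
    rw [kp_en, decide_eq_true_iff, Finset.mem_union]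
    right
    unfold arcsC
    rw [Finset.mem_filter]
    exact ⟨free_mem h2 h3, (col_flip hC h2 h3 _ _).trans ht⟩

theorem fp_pc (hE : EnvK θ μ κ) (hX : OvP μ μ.x.toFinset X) (hC : CA μ κ X) {t s : Sy}
    (hs : s ∈ X.x) (ht : col μ κ X s = some t) : fp θ (pc μ κ t X).x s = fp θ X.x s := by
  have hE' := env_of_envK hE
  have hθ := Pool.Agent.TH628.J873.Env.theta_mem hE' hX s hs
  obtain ⟨h1, h2⟩ := col_fp hE hX hC s hs
  have hk1 : kp (W.nm μ ∪ arcsC μ κ t X) (θ s) = true := by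
    by_cases hm : s ∈ μ.x
    · exact Pool.Agent.TH628.J873.kp_mu (sub_N t) (hE.pres s hm)
    · obtain ⟨a, e, rfl, h3, h4⟩ := Pool.Agent.TH628.J873.free hX hs hm
      refine kp_col hX hC hθ ?_
      rw [hE.flip a h3 e]
      exact (col_flip hC h3 h4 _ _).trans ht
  have hk2 : kp (W.nm μ ∪ arcsC μ κ t X) (X.x.formPerm (θ s)) = true :=
    kp_col hX hC h1 (h2.trans ht)
  show (X.x.filter (kp (W.nm μ ∪ arcsC μ κ t X))).formPerm (θ s) = X.x.formPerm (θ s)
  exact Pool.Agent.TH286.J795.formPerm_filter X.nd hθ hk1 hk2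

theorem ncy_congr {σ τ : Perm Sy} {A : Finset Sy} (hA : ∀ s ∈ A, σ s ∈ A)
    (h : ∀ s ∈ A, τ s = σ s) : ncy τ A = ncy σ A :=
  (Pool.Agent.TH745.J984.ncy_congr hA (fun s hs => (h s hs).symm)).symm

/-- number of boundary cycles of a given colour -/
theorem nf_pc (hE : EnvK θ μ κ) (hX : OvP μ μ.x.toFinset X) (hC : CA μ κ X) (t : Sy) :
    nf θ (DC μ κ {t}) (pc μ κ t X).x =
      ncy (fp θ X.x) (X.x.toFinset.filter (fun s => col μ κ X s = some t)) := by
  have hset : (pc μ κ t X).x.toFinset \ DC μ κ {t} =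
      X.x.toFinset.filter (fun s => col μ κ X s = some t) := by
    ext s
    have hD : s ∈ DC μ κ {t} ↔ s ∈ μ.x ∧ κ s ≠ t := by
      unfold DC
      rw [Finset.mem_filter, List.mem_toFinset, Finset.mem_singleton]
    have hP : s ∈ (pc μ κ t X).x ↔ s ∈ X.x ∧ kp (W.nm μ ∪ arcsC μ κ t X) s = true :=
      Pool.Agent.TH286.J846.mem_rsN
    rw [Finset.mem_sdiff, List.mem_toFinset, hP, hD, Finset.mem_filter, List.mem_toFinset]
    constructor
    · rintro ⟨⟨h1, h2⟩, h3⟩
      refine ⟨h1, ?_⟩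
      by_cases hm : s ∈ μ.x
      · rw [col_mu hX hm]
        by_contra h4
        exact h3 ⟨hm, fun h5 => h4 (by rw [h5])⟩
      · obtain ⟨a, e, rfl, h5, h6⟩ := Pool.Agent.TH628.J873.free hX h1 hm
        rw [kp_en, decide_eq_true_iff, Finset.mem_union] at h2
        have h7 := h2.resolve_left (fun h => h5 (Sys.mem_nm.1 h))
        unfold arcsC at h7
        exact (col_flip hC h5 h6 _ _).trans (Finset.mem_filter.1 h7).2
    · rintro ⟨h1, h2⟩
      refine ⟨⟨h1, kp_col hX hC h1 h2⟩, ?_⟩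
      rintro ⟨h3, h4⟩
      rw [col_mu hX h3] at h2
      exact h4 (Option.some.inj h2)
  unfold nf
  rw [hset]
  refine ncy_congr ?_ ?_
  · intro s hs
    rw [Finset.mem_filter, List.mem_toFinset] at hs ⊢
    obtain ⟨h1, h2⟩ := col_fp hE hX hC s hs.1
    exact ⟨h1, h2.trans hs.2⟩
  · intro s hs
    rw [Finset.mem_filter, List.mem_toFinset] at hs
    exact fp_pc hE hX hC hs.1 hs.2

theorem nm_card (Y : PW) : (W.nm Y).card = Y.ord.length :=
  List.toFinset_card_of_nodup Y.ord_nodup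

theorem length_pc (hX : OvP μ μ.x.toFinset X) (t : Sy) :
    (pc μ κ t X).ord.length = μ.ord.length + (arcsC μ κ t X).card := by
  rw [← nm_card, ← nm_card]
  have h1 : W.nm (pc μ κ t X) = W.nm μ ∪ arcsC μ κ t X := by
    unfold pc
    rw [Pool.Agent.TH286.J846.nm_rsN]
    refine Finset.inter_eq_right.2 ?_
    refine Finset.union_subset ?_ ?_
    · intro a ha
      refine (Pool.Agent.TH286.J846.mem_nmW false).2 ?_
      exact Pool.Agent.TH628.J873.mem_of_mu hX ((Pool.Agent.TH286.J846.mem_nmW false).1 ha)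
    · intro a ha
      unfold arcsC at ha
      exact (Finset.mem_sdiff.1 (Finset.mem_filter.1 ha).1).1
  rw [h1, Finset.card_union_of_disjoint]
  rw [Finset.disjoint_left]
  intro a ha ha'
  unfold arcsC at ha'
  exact (Finset.mem_sdiff.1 (Finset.mem_filter.1 ha').1).2 ha

end

end Pool.Agent.TH745.J1095
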