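import Pool.Agent.TH547.Arc.Piece
import Pool.Agent.TH745.J984
import Pool.Agent.TH286.J835
import Pool.Agent.TH304.J771
import Pool.Agent.TH295.J986
set_option autoImplicit false

/-! Columns of the spectral sequence. -/
namespace Pool.Agent.TH745.J1114
open Pool.Agent.TH547.Arc
open Finset Equiv

theorem nm_card (Y : RW) : (RWS.nm Y).card = Y.w.ord.length :=
  List.toFinset_card_of_nodup (PW.ord_nodup Y.w)

theorem len_dl {X : RW} {a : ℕ} (ha : a ∈ X.w.ord) :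
    ((X.dl a).w.ord.length : ℤ) + 1 = X.w.ord.length := by
  have h : (X.dl a).w.ord = X.w.ord.erase a := PW.ord_dl X.w a
  rw [h, List.length_erase_of_mem ha]
  have := List.length_pos_of_mem ha
  omega

theorem mem_nlp {X : RW} {a : ℕ} : a ∈ X.nlp ↔ a ∈ RWS.nm X ∧ ¬ X.Loop a := by
  unfold RW.nlp
  rw [Pool.Agent.TH304.J771.mem_filt]

theorem nm_core (X : RW) : RWS.nm X.core = X.nlp := by
  have h : RWS.nm X.core = RWS.nm X ∩ X.nlp :=
    Pool.Agent.TH286.J835.Sys.nm_res (S := RWS) X.nlp X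
  rw [h]
  exact Finset.inter_eq_right.2 fun a ha => (mem_nlp.1 ha).1

theorem nlp_dl {X : RW} {a : ℕ} (ha : a ∈ X.w.ord) (h : X.Loop a) : (X.dl a).nlp = X.nlp := by
  ext b
  rw [mem_nlp, mem_nlp, Pool.Agent.TH295.J986.nm_dl', Finset.mem_erase]
  constructor
  · rintro ⟨⟨h1, h2⟩, h3⟩
    refine ⟨h2, fun h4 => h3 ?_⟩
    exact (Pool.Agent.TH745.J984.RW.Loop_dl h (Pool.Agent.TH295.J986.mem_nm.1 h2) h1 ha).2 h4
  · rintro ⟨h2, h3⟩
    have h1 : b ≠ a := by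
      rintro rfl
      exact h3 h
    refine ⟨⟨h1, h2⟩, fun h4 => h3 ?_⟩
    exact (Pool.Agent.TH745.J984.RW.Loop_dl h (Pool.Agent.TH295.J986.mem_nm.1 h2) h1 ha).1 h4

theorem nlp_rn (π : Perm ℕ) (X : RW) : (X.rn π).nlp = X.nlp.map π.toEmbedding := by
  have hnm : ∀ b, b ∈ RWS.nm (X.rn π) ↔ π.symm b ∈ RWS.nm X := by
    intro b
    have h := Sys.mem_nm_rn (S := RWS) π X (π.symm b)
    rw [Equiv.apply_symm_apply] at h
    exact h
  have hL : ∀ b, (X.rn π).Loop b ↔ X.Loop (π.symm b) := by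
    intro b
    have h := Pool.Agent.TH745.J984.RW.Loop_rn (X := X) (π := π) (π.symm b)
    rw [Equiv.apply_symm_apply] at h
    exact h
  ext b
  rw [Finset.mem_map_equiv, mem_nlp, mem_nlp, hnm, hL]

theorem core_rn (π : Perm ℕ) (X : RW) : (X.rn π).core = X.core.rn π := by
  show RWS.res (X.rn π).nlp (X.rn π) = RWS.rn π (RWS.res X.nlp X)
  rw [nlp_rn]
  exact Pool.Agent.TH286.J835.Sys.res_rn (S := RWS) X.nlp π X

theorem core_dl {X : RW} {a : ℕ} (ha : a ∈ X.w.ord) (h : X.Loop a) : (X.dl a).core = X.core := by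
  show RWS.res (X.dl a).nlp (RWS.dl X a) = RWS.res X.nlp X
  rw [nlp_dl ha h]
  exact Pool.Agent.TH286.J835.Sys.res_dl' (S := RWS) X (fun h' => (mem_nlp.1 h').2 h)

/-- being a loop does not depend on the free arcs -/
theorem Loop_iff {θ : Perm Sy} {Y X : RW} (hY : EnvR θ Y) (hX : OvR θ Y X) {a : ℕ}
    (ha : a ∈ RWS.nm Y) : X.Loop a ↔ Y.Loop a := by
  refine Pool.Agent.TH295.J986.OvR_induct hY (p := fun X => X.Loop a ↔ Y.Loop a) Iff.rfl ?_ X hX
  intro X c hX hc _ ih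
  have hc' := Finset.mem_sdiff.1 hc
  have hne : a ≠ c := by rintro rfl; exact hc'.2 ha
  rw [← ih]
  exact (Pool.Agent.TH745.J984.RW.Loop_dl (hX.2.2 c hc)
    (Pool.Agent.TH295.J986.mem_nm.1 (Pool.Agent.TH295.J986.OvR_sub hX ha)) hne
    (Pool.Agent.TH295.J986.mem_nm.1 hc'.1)).symm

theorem len_OvR {θ : Perm Sy} {Y X : RW} (hY : EnvR θ Y) (hX : OvR θ Y X) :
    (X.w.ord.length : ℤ) + X.rk = Y.w.ord.length + Y.rk := by
  have h1 := Pool.Agent.TH295.J986.OvR_rk hY hX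
  have h2 := Finset.card_sdiff_add_card_eq_card (Pool.Agent.TH295.J986.OvR_sub hX)
  rw [nm_card, nm_card] at h2
  omega

section
variable {θ : Perm Sy} {E0 : RW} (hE : EnvR θ E0) (h0 : RWS.nm E0 = ∅) (M : ℤ)
include hE h0

theorem hfl (a : ℕ) : θ (en a false) = en a true ∧ θ (en a true) = en a false :=
  Pool.Agent.TH295.J986.flipR hE (by rw [h0]; exact Finset.notMem_empty a)

theorem PM_inv : Sys.Inv (S := RWS) ∅ (PM θ E0 M) := by
  intro π _ X hX
  obtain ⟨h1, h2, h3, h4⟩ := hX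
  have hπ0 : ∀ a ∈ RWS.nm E0, π a = a := by
    intro a ha
    rw [h0] at ha
    exact absurd ha (Finset.notMem_empty a)
  refine ⟨Pool.Agent.TH745.J984.RW.Good_rn (Pool.Agent.TH745.J984.EnvR.rn_theta hE hπ0) h1,
    ?_, Pool.Agent.TH745.J984.RW.ND_rn h3, ?_⟩
  · have h5 : RWS.res ∅ (RWS.rn π X) = RWS.rn π (RWS.res ∅ X) :=
      Pool.Agent.TH286.J835.Sys.res_rn_fix (S := RWS) (N := ∅)
        (fun a ha => absurd ha (Finset.notMem_empty a)) X
    rw [h5, h2]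
    exact Pool.Agent.TH295.J986.rn_E hπ0
  · have h5 : (RW.rn π X).w.ord = (RW.w X).ord.map π := PW.ord_rn π (RW.w X)
    have h6 : (RW.rn π X).rk = RW.rk X := Pool.Agent.TH745.J984.RW.rk_rn
    show ((RW.rn π X).w.ord.length : ℤ) + (RW.rn π X).rk = M
    rw [h5, h6, List.length_map]
    exact h4

theorem PM_dl {X : RW} (hX : PM θ E0 M X) {a : ℕ} (ha : a ∈ X.w.ord) :
    PM θ E0 M (X.dl a) ↔ (X.dl a).rk = X.rk + 1 := by
  obtain ⟨h1, h2, h3, h4⟩ := hX
  have hf := hfl hE h0 a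
  have hl := len_dl ha
  constructor
  · rintro ⟨_, _, _, h⟩
    omega
  · intro h
    refine ⟨Pool.Agent.TH745.J984.RW.Good_dl h1 hf ha, ?_,
      Pool.Agent.TH745.J984.RW.ND_dl h1 hf ha h3, by omega⟩
    exact (Pool.Agent.TH286.J835.Sys.res_dl' (S := RWS) X (Finset.notMem_empty a)).trans h2

theorem PM_cvx : Sys.Cvx (S := RWS) ∅ (PM θ E0 M) := by
  intro X hX a ha b hb hab h
  have ha' : a ∈ (RW.w X).ord := Pool.Agent.TH295.J986.mem_nm.1 (Finset.mem_sdiff.1 ha).1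
  have hb' : b ∈ (RW.dl X a).w.ord := by
    have h1 : RWS.nm (RW.dl X a) = (RWS.nm X).erase a := Pool.Agent.TH295.J986.nm_dl' X a
    refine Pool.Agent.TH295.J986.mem_nm.1 ?_
    rw [h1]
    exact Finset.mem_erase.2 ⟨Ne.symm hab, (Finset.mem_sdiff.1 hb).1⟩
  refine (PM_dl hE h0 M hX ha').2 ?_
  have hf := hfl hE h0 a
  have hfb := hfl hE h0 b
  have hG : RW.Good θ (RW.dl X a) := Pool.Agent.TH745.J984.RW.Good_dl hX.1 hf ha'
  by_cases hL : RW.Loop X a
  · exact Pool.Agent.TH745.J984.RW.rk_dl_loop hX.1 hf ha' hL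
  · exfalso
    have h1 := Pool.Agent.TH745.J984.RW.rk_dl_nonloop hX.1 hf ha' hL
    have h2 : (RW.dl (RW.dl X a) b).rk ≤ (RW.dl X a).rk + 1 := by
      by_cases hL' : RW.Loop (RW.dl X a) b
      · exact (Pool.Agent.TH745.J984.RW.rk_dl_loop hG hfb hb' hL').le
      · have := Pool.Agent.TH745.J984.RW.rk_dl_nonloop hG hfb hb' hL'
        omega
    have h3 := len_dl ha'
    have h4 := len_dl hb'
    have h5 : ((RW.dl (RW.dl X a) b).w.ord.length : ℤ) + (RW.dl (RW.dl X a) b).rk = M := h.2.2.2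
    have h6 : ((RW.w X).ord.length : ℤ) + RW.rk X = M := hX.2.2.2
    omega

theorem PM_core {X0 : RW} (h : PM θ E0 M X0) : EnvR θ X0.core ∧ OvR θ X0.core X0 ∧
    (X0.core.w.ord.length : ℤ) + X0.core.rk = M ∧
    ∀ X, (PM θ E0 M X ∧ X.core = X0.core) ↔ OvR θ X0.core X := by
  have hnm := nm_core X0
  have hres : RWS.res (RWS.nm X0.core) X0 = X0.core := by rw [hnm]; rfl
  have hGN : RW.Good θ X0.core ∧ RW.ND X0.core := by
    refine Pool.Agent.TH286.J835.Sys.res_ind (S := RWS) (N := X0.nlp)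
      (p := fun Z : RW => RW.Good θ Z ∧ RW.ND Z) (X := X0) ⟨h.1, h.2.2.1⟩ ?_
    intro Z hZ a ha
    have ha' : a ∈ (RW.w Z).ord := Pool.Agent.TH295.J986.mem_nm.1 (Finset.mem_sdiff.1 ha).1
    exact ⟨Pool.Agent.TH745.J984.RW.Good_dl hZ.1 (hfl hE h0 a) ha',
      Pool.Agent.TH745.J984.RW.ND_dl hZ.1 (hfl hE h0 a) ha' hZ.2⟩
  have hY0 : RWS.res ∅ X0.core = E0 := by
    have h1 : RWS.res ∅ (RWS.res X0.nlp X0) = RWS.res (∅ ∩ X0.nlp) X0 :=
      Pool.Agent.TH286.J835.Sys.res_res (S := RWS) ∅ X0.nlp X0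
    rw [Finset.empty_inter] at h1
    exact h1.trans h.2.1
  have hno : ∀ a, a ∉ E0.w.ord := by
    intro a ha
    have := Pool.Agent.TH295.J986.mem_nm.2 ha
    rw [h0] at this
    exact Finset.notMem_empty a this
  have hmr : ∀ {s : Sy}, s ∈ E0.w.x ↔ s ∈ X0.core.w.x ∧ kp ∅ s = true :=
    fun {s} => Pool.Agent.TH295.J986.mem_res hY0
  have hEY : EnvR θ X0.core := by
    refine ⟨fun a _ e => hE.flip a (hno a) e, ?_, ?_, hGN.1⟩
    · intro s hs
      rcases s with n | ⟨a, e⟩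
      · exact (hmr.1 (hE.pres _ (hmr.2 ⟨hs, by simp⟩))).1
      · rw [hE.flip a (hno a) e]
        exact (PW.mem_ord' _).1 ((PW.mem_ord' e).2 hs)
    · intro n hn
      exact hE.fixm n (fun h' => hn (hmr.1 h').1)
  have hloop : ∀ {X : RW}, RWS.nm X0.core = X.nlp → ∀ a ∈ RWS.nm X \ RWS.nm X0.core,
      X.Loop a := by
    intro X hX a ha
    rw [Finset.mem_sdiff, hX, mem_nlp] at ha
    by_contra hc
    exact ha.2 ⟨ha.1, hc⟩
  have hO : OvR θ X0.core X0 := ⟨h.1, hres, hloop hnm⟩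
  have hlen : (X0.core.w.ord.length : ℤ) + X0.core.rk = M := by
    rw [← len_OvR hEY hO]
    exact h.2.2.2
  refine ⟨hEY, hO, hlen, fun X => ⟨?_, ?_⟩⟩
  · rintro ⟨hP, hc⟩
    have h1 : RWS.nm X0.core = X.nlp := by rw [← hc]; exact nm_core X
    refine ⟨hP.1, ?_, hloop h1⟩
    rw [h1, ← hc]
    rfl
  · intro hX
    have h1 : RWS.res ∅ X = E0 := by
      have h2 : RWS.res ∅ (RWS.res (RWS.nm X0.core) X) = RWS.res (∅ ∩ RWS.nm X0.core) X :=
        Pool.Agent.TH286.J835.Sys.res_res (S := RWS) ∅ (RWS.nm X0.core) X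
      rw [Finset.empty_inter, hX.2.1] at h2
      exact h2.symm.trans hY0
    have h2 : RW.ND X := by
      refine Pool.Agent.TH295.J986.OvR_induct hEY (p := fun X => RW.ND X) hGN.2 ?_ X hX
      intro X a hX ha _ ih
      exact Pool.Agent.TH745.J984.RW.ND_of_dl hX.1 (hfl hE h0 a)
        (Pool.Agent.TH295.J986.mem_nm.1 (Finset.mem_sdiff.1 ha).1) (hX.2.2 a ha) ih
    have h3 : (X.w.ord.length : ℤ) + X.rk = M := by
      rw [len_OvR hEY hX]
      exact hlen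
    refine ⟨⟨hX.1, h1, h2, h3⟩, ?_⟩
    have h4 : X.nlp = RWS.nm X0.core := by
      ext a
      rw [mem_nlp]
      constructor
      · rintro ⟨h5, h6⟩
        by_contra h7
        exact h6 (hX.2.2 a (Finset.mem_sdiff.2 ⟨h5, h7⟩))
      · intro h5
        refine ⟨Pool.Agent.TH295.J986.OvR_sub hX h5, ?_⟩
        rw [Loop_iff hEY hX h5, ← Loop_iff hEY hO h5]
        rw [hnm] at h5
        exact (mem_nlp.1 h5).2
    show RWS.res X.nlp X = X0.core
    rw [h4]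
    exact hX.2.1

/-- exactness of the columns -/
theorem PM_ex (hG : ∀ E : RW, EnvR θ E → ∀ i : ℕ, (i : ℤ) < E.rk →
      Sys.Ex (S := RWS) (RWS.nm E) (OvR θ E) i) (i : ℕ) (hi : (i : ℤ) < M) :
    Sys.Ex (S := RWS) ∅ (PM θ E0 M) i := by
  refine Pool.Agent.TH304.J771.Ex_of_pattern (S := RWS) (PM_inv hE h0 M) (PM_cvx hE h0 M) RW.core
    (fun X _ => Finset.empty_subset _) ?_ ?_ ?_ ?_
  · intro X _
    have h1 : RWS.nm (RW.core X) = RW.nlp X := nm_core X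
    rw [h1]
    intro a ha
    exact (mem_nlp.1 ha).1
  · intro X _ π _
    exact core_rn π X
  · intro X hX a ha h
    left
    have ha' : a ∈ (RW.w X).ord := Pool.Agent.TH295.J986.mem_nm.1 (Finset.mem_sdiff.1 ha).1
    have hL : RW.Loop X a := by
      by_contra hL
      have h1 := (PM_dl hE h0 M hX ha').1 h
      have h2 := Pool.Agent.TH745.J984.RW.rk_dl_nonloop hX.1 (hfl hE h0 a) ha' hL
      omega
    refine ⟨?_, core_dl ha' hL⟩
    have h1 : RWS.nm (RW.core X) = RW.nlp X := nm_core X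
    rw [h1]
    exact fun h' => (mem_nlp.1 h').2 hL
  · rintro Y j hj _ ⟨X0, hX0, rfl⟩
    obtain ⟨h1, _, h3, h4⟩ := PM_core hE h0 M hX0
    refine Pool.Agent.TH295.J986.Ex_congr h4 (hG _ h1 j ?_)
    rw [Finset.sdiff_empty] at hj
    have h5 : (RWS.nm (RW.core X0)).card = (RW.core X0).w.ord.length := nm_card _
    rw [h5] at hj
    omega
end

end Pool.Agent.TH745.J1114
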