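import Mathlib

/-!
Composition lemmas for relative computability. The first lemmas are adapted from
`Pool.Agent.Results.MP_65fbb9_lc.Coincidence` and `Pool.Agent.Results.MP_738f0f_lc.Equality`
(starting files).
-/

set_option autoImplicit false

namespace Pool.Agent.TH745

open Encodable

section api

variable {α β γ σ : Type} [Primcodable α] [Primcodable β] [Primcodable γ] [Primcodable σ]
variable {O : Set (ℕ →. ℕ)}

theorem ci_comp {f : β → σ} {g : α → β} (hf : ComputableIn O f) (hg : ComputableIn O g) :
    ComputableIn O fun a => f (g a) := by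
  refine (Nat.RecursiveIn.comp hf hg).of_eq fun n => ?_
  simp only [Part.map_some, Part.bind_eq_bind]
  rcases e : decode (α := α) n with - | a <;> simp [encodek]

theorem ci_pair {f : α → β} {g : α → γ} (hf : ComputableIn O f) (hg : ComputableIn O g) :
    ComputableIn O fun a => (f a, g a) := by
  refine (Nat.RecursiveIn.pair hf hg).of_eq fun n => ?_
  rcases e : decode (α := α) n with - | a <;> simp [Seq.seq]

theorem nri_prec' {f g h} (hf : Nat.RecursiveIn O f) (hg : Nat.RecursiveIn O g)
    (hh : Nat.RecursiveIn O h) :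
    Nat.RecursiveIn O fun a => (f a).bind fun n => n.rec (g a)
      fun y IH => do {let i ← IH; h (Nat.pair a (Nat.pair y i))} :=
  ((Nat.RecursiveIn.prec hg hh).comp
    (Nat.RecursiveIn.pair (Nat.Partrec.some.recursiveIn) hf)).of_eq fun a =>
    Part.ext fun s => by simp [Seq.seq]

theorem ci_nat_rec {f : α → ℕ} {g : α → σ} {h : α → ℕ × σ → σ} (hf : ComputableIn O f)
    (hg : ComputableIn O g) (hh : ComputableIn₂ O h) :
    ComputableIn O fun a =>
      Nat.rec (motive := fun _ => σ) (g a) (fun y IH => h a (y, IH)) (f a) := by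
  refine (nri_prec' hf hg hh).of_eq fun n => ?_
  rcases e : decode (α := α) n with - | a
  · simp
  · simp only [Part.coe_some, Part.bind_some, Part.map_some]
    induction f a <;> simp_all

theorem ci_comp₂ {f : β → γ → σ} {g : α → β} {h : α → γ} (hf : ComputableIn₂ O f)
    (hg : ComputableIn O g) (hh : ComputableIn O h) : ComputableIn O fun a => f (g a) (h a) :=
  ci_comp (f := fun p : β × γ => f p.1 p.2) hf (ci_pair hg hh)

theorem ci_prim {f : β → σ} {g : α → β} (hf : Primrec f) (hg : ComputableIn O g) :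
    ComputableIn O fun a => f (g a) := ci_comp hf.computableIn hg

theorem ci_prim₂ {f : β → γ → σ} {g : α → β} {h : α → γ} (hf : Primrec₂ f)
    (hg : ComputableIn O g) (hh : ComputableIn O h) : ComputableIn O fun a => f (g a) (h a) :=
  ci_comp (f := fun p : β × γ => f p.1 p.2)
    (Primrec.computableIn (f := fun p : β × γ => f p.1 p.2) hf) (ci_pair hg hh)

theorem ci_fst : ComputableIn O (@Prod.fst α β) := ComputableIn.fst

theorem ci_snd : ComputableIn O (@Prod.snd α β) := ComputableIn.snd

theorem cand {f g : α → Bool} (hf : ComputableIn O f) (hg : ComputableIn O g) :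
    ComputableIn O fun a => f a && g a := ci_prim₂ Primrec.and hf hg

theorem cor {f g : α → Bool} (hf : ComputableIn O f) (hg : ComputableIn O g) :
    ComputableIn O fun a => f a || g a := ci_prim₂ Primrec.or hf hg

theorem cnot {f : α → Bool} (hf : ComputableIn O f) : ComputableIn O fun a => !(f a) :=
  ci_prim Primrec.not hf

theorem ceqN {f g : α → ℕ} (hf : ComputableIn O f) (hg : ComputableIn O g) :
    ComputableIn O fun a => decide (f a = g a) := by
  have : Primrec₂ fun m n : ℕ => decide (m = n) := Primrec.eq.decide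
  exact ci_prim₂ this hf hg

theorem cconst {β : Type} [Primcodable β] (b : β) : ComputableIn O fun _ : α => b :=
  ComputableIn.const b

theorem ccond {β : Type} [Primcodable β] {c : α → Bool} {f g : α → β} (hc : ComputableIn O c)
    (hf : ComputableIn O f) (hg : ComputableIn O g) :
    ComputableIn O fun a => bif c a then f a else g a := by
  have h1 : Primrec fun p : Bool × β × β => bif p.1 then p.2.1 else p.2.2 :=
    Primrec.cond Primrec.fst (Primrec.fst.comp Primrec.snd)
      (Primrec.snd.comp Primrec.snd)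
  exact ci_prim h1 (ci_pair hc (ci_pair hf hg))

theorem cunl {f : α → ℕ} (hf : ComputableIn O f) : ComputableIn O fun a => (Nat.unpair (f a)).1 :=
  ci_prim (f := fun n : ℕ => (Nat.unpair n).1) (Primrec.fst.comp Primrec.unpair) hf

theorem cunr {f : α → ℕ} (hf : ComputableIn O f) : ComputableIn O fun a => (Nat.unpair (f a)).2 :=
  ci_prim (f := fun n : ℕ => (Nat.unpair n).2) (Primrec.snd.comp Primrec.unpair) hf

theorem cpair {f g : α → ℕ} (hf : ComputableIn O f) (hg : ComputableIn O g) :
    ComputableIn O fun a => Nat.pair (f a) (g a) := ci_prim₂ Primrec₂.natPair hf hg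

end api

/-- indicator of a Boolean -/
def ind (b : Bool) : ℕ := bif b then 1 else 0

theorem cind {α : Type} [Primcodable α] {O : Set (ℕ →. ℕ)} {f : α → Bool}
    (hf : ComputableIn O f) : ComputableIn O fun a => ind (f a) :=
  ccond hf (cconst 1) (cconst 0)

/-- The partial least-witness function of a computable test. -/
theorem ri_search {O : Set (ℕ →. ℕ)} {q : ℕ → ℕ → Bool} (hq : ComputableIn₂ O q) :
    Nat.RecursiveIn O (fun a => Nat.rfind fun n => Part.some (q a n)) := by
  have h1 : ComputableIn O fun n : ℕ => 1 - ind (q (Nat.unpair n).1 (Nat.unpair n).2) := by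
    refine ci_prim₂ Primrec.nat_sub (cconst 1) (cind ?_)
    exact ci_comp (f := fun p : ℕ × ℕ => q p.1 p.2) hq
      (ci_pair (cunl (f := fun n : ℕ => n) ComputableIn.id)
        (cunr (f := fun n : ℕ => n) ComputableIn.id))
  have h2 : Nat.RecursiveIn O
      (fun n : ℕ => (Part.some (1 - ind (q (Nat.unpair n).1 (Nat.unpair n).2)) : Part ℕ)) :=
    RecursiveIn.iff_nat.1 h1
  refine (Nat.RecursiveIn.rfind h2).of_eq fun k => ?_
  congr 1
  funext n
  cases h : q k n <;> simp [ind, h]

theorem ci_search {O : Set (ℕ →. ℕ)} {q : ℕ → ℕ → Bool} (hq : ComputableIn₂ O q)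
    (H : ∀ a, ∃ n, q a n = true) : ∃ F : ℕ → ℕ, ComputableIn O F ∧ ∀ a, q a (F a) = true := by
  classical
  refine ⟨fun a => Nat.find (H a), RecursiveIn.iff_nat.2 ((ri_search hq).of_eq fun k => ?_),
    fun a => Nat.find_spec (H a)⟩
  refine Part.eq_some_iff.2 (Nat.mem_rfind.2 ⟨?_, ?_⟩)
  · simp [Nat.find_spec (H k)]
  · intro m hm
    have h4 := Nat.find_min (H k) hm
    simp only [Bool.not_eq_true] at h4
    simp [h4]

/-- Iteration of least-witness searches along a run all of whose searches succeed. -/
theorem ci_iter {O : Set (ℕ →. ℕ)} {q : ℕ → ℕ → Bool} (hq : ComputableIn₂ O q)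
    {nx : ℕ → ℕ → ℕ} (hnx : ComputableIn₂ O nx) (st ch : ℕ → ℕ)
    (h1 : ∀ k, q (st k) (ch k) = true) (h2 : ∀ k, ∀ i < ch k, q (st k) i = false)
    (h3 : ∀ k, st (k + 1) = nx (st k) (ch k)) : ComputableIn O st := by
  have hs : Nat.RecursiveIn O (fun s => (Nat.rfind fun n => Part.some (q s n)).bind
      fun i => Part.some (nx s i)) := by
    have e1 : Nat.RecursiveIn O (fun p : ℕ => (Part.some (nx p.unpair.1 p.unpair.2) : Part ℕ)) :=
      RecursiveIn.iff_nat.1 (ci_comp (f := fun p : ℕ × ℕ => nx p.1 p.2) hnx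
        (ci_pair (cunl (f := fun n : ℕ => n) ComputableIn.id)
        (cunr (f := fun n : ℕ => n) ComputableIn.id)))
    refine (Nat.RecursiveIn.comp e1 (Nat.RecursiveIn.pair (Nat.Partrec.some.recursiveIn)
      (ri_search hq))).of_eq fun s => ?_
    ext x
    simp [Seq.seq]
  have hs2 : Nat.RecursiveIn O (fun p : ℕ => (Nat.rfind fun n =>
      Part.some (q p.unpair.2.unpair.2 n)).bind
      fun i => Part.some (nx p.unpair.2.unpair.2 i)) := by
    have e2 : Nat.RecursiveIn O (fun p : ℕ => (Part.some p.unpair.2.unpair.2 : Part ℕ)) :=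
      RecursiveIn.iff_nat.1 (cunr (f := fun p : ℕ => p.unpair.2) (cunr (f := fun p : ℕ => p)
        ComputableIn.id))
    exact (Nat.RecursiveIn.comp hs e2).of_eq fun p => Part.bind_some _ _
  have h0 : Nat.RecursiveIn O (fun _ : ℕ => (Part.some (st 0) : Part ℕ)) :=
    RecursiveIn.iff_nat.1 (cconst (st 0))
  have hid : Nat.RecursiveIn O (fun n : ℕ => (Part.some n : Part ℕ)) :=
    RecursiveIn.iff_nat.1 (ComputableIn.id (α := ℕ))
  refine RecursiveIn.iff_nat.2 ((nri_prec' hid h0 hs2).of_eq fun n => ?_)
  refine (Part.bind_some _ _).trans ?_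
  simp only [Nat.unpair_pair]
  induction n with
  | zero => rfl
  | succ k ih =>
    have ih' := congrArg (fun z : Part ℕ => z.bind fun i =>
      (Nat.rfind fun n => Part.some (q i n)).bind fun i_1 => Part.some (nx i i_1)) ih
    refine Eq.trans ih' ?_
    show (Part.bind (Part.some (st k)) _ : Part ℕ) = _
    refine (Part.bind_some _ _).trans ?_
    have : Nat.rfind (fun n => Part.some (q (st k) n)) = Part.some (ch k) := by
      refine Part.eq_some_iff.2 (Nat.mem_rfind.2 ⟨by simp [h1], fun {m} hm => ?_⟩)
      simp [h2 k m hm]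
    rw [this, h3]
    exact Part.bind_some _ _

end Pool.Agent.TH745
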