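import Pool.Agent.Helper227.Use
import Pool.Agent.TH745.CI

set_option autoImplicit false

namespace Pool.Agent.TH745

open Encodable Denumerable
open Nat.Partrec (Code)
open Pool.Agent.Helper227 (chi pre S1 recIn_graph)

/-- Use principle in terms of a list of all reductions. -/
theorem exists_index {A : ℕ → Bool} {f : ℕ → ℕ} (hf : ComputableIn {chi A} f) :
    ∃ e : ℕ, ∀ n, ∃ t : ℕ,
      Code.evaln t.unpair.1 (Denumerable.ofNat Code e)
        (Nat.pair (encode (pre A t.unpair.2)) n) = some (f n) ∧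
      ∀ t' < t, Code.evaln t'.unpair.1 (Denumerable.ofNat Code e)
        (Nat.pair (encode (pre A t'.unpair.2)) n) = none := by
  classical
  obtain ⟨G, hG, _, hGf⟩ := recIn_graph (RecursiveIn.iff_nat.1 hf)
  obtain ⟨q, hq, _, hqG⟩ := hG
  have hGf' : ∀ n m, m = f n ↔ ∃ s, G (pre A s, n, m) := fun n m => by
    rw [← hGf]; exact Part.mem_some_iff.symm
  -- the search
  have hdec : PrimrecRel (fun (p : ℕ) (s : ℕ) =>
      q ((decode (α := List Bool) p.unpair.1).getD [], p.unpair.2, s.unpair.1) s.unpair.2) := by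
    have e1 : Primrec (fun x : ℕ × ℕ => ((decode (α := List Bool) x.1.unpair.1).getD [],
        x.1.unpair.2, x.2.unpair.1)) := by
      refine Primrec.pair ?_ (Primrec.pair ?_ ?_)
      · exact Primrec.option_getD.comp (Primrec.decode.comp (Primrec.fst.comp
          (Primrec.unpair.comp Primrec.fst))) (Primrec.const [])
      · exact Primrec.snd.comp (Primrec.unpair.comp Primrec.fst)
      · exact Primrec.fst.comp (Primrec.unpair.comp Primrec.snd)
    exact hq.comp e1 (Primrec.snd.comp (Primrec.unpair.comp Primrec.snd))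
  have hpart : Partrec (fun p : ℕ => (Nat.rfind fun s => Part.some (decide
      (q ((decode (α := List Bool) p.unpair.1).getD [], p.unpair.2, s.unpair.1)
        s.unpair.2))).map fun s => s.unpair.1) := by
    refine Partrec.map (Partrec.rfind ?_) ?_
    · exact (Primrec.to_comp (hdec.decide)).partrec
    · exact (Primrec.fst.comp (Primrec.unpair.comp Primrec.snd)).to_comp.to₂
  obtain ⟨c, hc⟩ := Code.exists_code.1 (Partrec.nat_iff.1 hpart)
  have hsound : ∀ k s n m, Code.evaln k c (Nat.pair (encode (pre A s)) n) = some m → m = f n := by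
    intro k s n m h
    have h1 : m ∈ c.eval (Nat.pair (encode (pre A s)) n) := Code.evaln_sound h
    rw [hc] at h1
    obtain ⟨w, hw, hwm⟩ := (Part.mem_map_iff _).1 h1
    obtain ⟨hw1, _⟩ := Nat.mem_rfind.1 hw
    simp only [Nat.unpair_pair, encodek, Option.getD_some, Part.mem_some_iff] at hw1
    have hw2 := of_decide_eq_true hw1.symm
    rw [hwm] at hw2
    exact (hGf' n m).2 ⟨s, (hqG _).2 ⟨_, hw2⟩⟩
  have hcomp : ∀ n, ∃ t : ℕ, (Code.evaln t.unpair.1 c
      (Nat.pair (encode (pre A t.unpair.2)) n)).isSome := by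
    intro n
    obtain ⟨s, hs⟩ := (hGf' n (f n)).1 rfl
    obtain ⟨t, ht⟩ := (hqG _).1 hs
    have hdom : (c.eval (Nat.pair (encode (pre A s)) n)).Dom := by
      rw [hc]
      show (Nat.rfind _).Dom
      refine Nat.rfind_dom.2 ⟨Nat.pair (f n) t, ?_, fun _ => by simp⟩
      simp only [Nat.unpair_pair, encodek, Option.getD_some, Part.mem_some_iff]
      exact (decide_eq_true ht).symm
    obtain ⟨m, hm⟩ := Part.dom_iff_mem.1 hdom
    obtain ⟨k, hk⟩ := Code.evaln_complete.1 hm
    refine ⟨Nat.pair k s, ?_⟩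
    rw [Nat.unpair_pair]
    rw [Option.mem_def] at hk
    rw [hk]; rfl
  refine ⟨encode c, fun n => ?_⟩
  rw [Denumerable.ofNat_encode]
  refine ⟨Nat.find (hcomp n), ?_, fun t' ht' => ?_⟩
  · obtain ⟨m, hm⟩ := Option.isSome_iff_exists.1 (Nat.find_spec (hcomp n))
    rw [hm, hsound _ _ _ _ hm]
  · have := Nat.find_min (hcomp n) ht'
    simpa using this

end Pool.Agent.TH745
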