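import Pool.Agent.TH745.Facts
import Pool.Agent.TH745.UseP

set_option autoImplicit false

namespace Pool.Agent.TH745

open Encodable Denumerable
open Pool.Agent.Helper227 (chi pre)

section basic

variable (M : Mod ℕ) {O : Set (ℕ →. ℕ)}

theorem c_nu (hP : ComputableIn₂ O M.P) : ComputableIn O M.nu := by
  have h : ComputableIn₂ O (fun (_ : ℕ) (p : ℕ × ℕ) => M.P p.2 M.o) :=
    ci_comp₂ hP (ci_comp (f := fun p : ℕ × ℕ => p.2) ci_snd ci_snd) (cconst _)
  have h2 := ci_nat_rec (f := fun n : ℕ => n) (g := fun _ => M.z)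
    (h := fun (_ : ℕ) (p : ℕ × ℕ) => M.P p.2 M.o) ComputableIn.id (cconst _) h
  have e : M.nu = fun a => Nat.rec (motive := fun _ => ℕ) M.z (fun _ IH => M.P IH M.o) a := by
    funext n
    induction n with
    | zero => rfl
    | succ n ih => show M.P (M.nu n) M.o = _; rw [ih]
  rw [e]
  exact h2

theorem exists_ltb (hP : ComputableIn₂ O M.P) :
    ∃ ltb : ℕ → ℕ → Bool, ComputableIn₂ O ltb ∧ ∀ a b, ltb a b = true ↔ M.lt a b := by
  obtain ⟨F, hF, hF2⟩ := ci_search (O := O)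
    (q := fun a n => decide (M.P a.unpair.1 n = a.unpair.2) ||
      decide (M.P a.unpair.2 n = a.unpair.1))
    (cor (ceqN (ci_comp₂ hP (cunl ci_fst) ci_snd) (cunr ci_fst))
      (ceqN (ci_comp₂ hP (cunr ci_fst) ci_snd) (cunl ci_fst)))
    (by
      intro a
      obtain ⟨c, hc⟩ := M.exists_df a.unpair.1 a.unpair.2
      exact ⟨c, by simpa using hc⟩)
  refine ⟨fun a b => !(decide (M.P b (F (Nat.pair a b)) = a)),
    cnot (ceqN (ci_comp₂ hP ci_snd (ci_comp hF (cpair ci_fst ci_snd))) ci_fst), fun a b => ?_⟩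
  have h := hF2 (Nat.pair a b)
  simp only [Nat.unpair_pair, Bool.or_eq_true, decide_eq_true_eq] at h
  rw [M.lt_iff_df h]
  simp

theorem c_pm (hP : ComputableIn₂ O M.P) (hQ : ComputableIn₂ O M.Q) : ComputableIn₂ O M.pm := by
  obtain ⟨ltb, hl, hl2⟩ := exists_ltb M hP
  have h : ComputableIn O (fun p : ℕ × ℕ => bif ltb p.1 p.2 then M.P (M.Q p.2 p.2) p.1
      else M.P (M.P (M.Q p.1 p.1) p.1) p.2) :=
    ccond hl (ci_comp₂ hP (ci_comp₂ hQ ci_snd ci_snd) ci_fst)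
      (ci_comp₂ hP (ci_comp₂ hP (ci_comp₂ hQ ci_fst ci_fst) ci_fst) ci_snd)
  have e : (fun p : ℕ × ℕ => M.pm p.1 p.2) = (fun p : ℕ × ℕ => bif ltb p.1 p.2 then
      M.P (M.Q p.2 p.2) p.1 else M.P (M.P (M.Q p.1 p.1) p.1) p.2) := by
    funext p
    unfold Mod.pm
    by_cases h : M.lt p.1 p.2
    · rw [if_pos h, (hl2 _ _).2 h]; rfl
    · have : ltb p.1 p.2 = false := by
        rw [Bool.eq_false_iff]; intro h2; exact h ((hl2 _ _).1 h2)
      rw [if_neg h, this]; rfl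
  show ComputableIn O (fun p : ℕ × ℕ => M.pm p.1 p.2)
  rw [e]
  exact h

theorem c_cm (hP : ComputableIn₂ O M.P) (hQ : ComputableIn₂ O M.Q) : ComputableIn₂ O M.cm := by
  have h : ComputableIn O (fun p : ℕ × ℕ => M.P (M.pm p.1 p.2) M.o) :=
    ci_comp₂ (f := M.P) hP (c_pm M hP hQ) (cconst _)
  exact h

theorem exists_tt (hP : ComputableIn₂ O M.P) (hQ : ComputableIn₂ O M.Q) {c : ℕ}
    (hc : ∀ n, M.lt (M.nu n) c) : ∃ tt : ℕ → ℕ → Bool, ComputableIn₂ O tt ∧
      ∀ u k w, M.EntM c w → M.LenM w (M.nu k) → (tt u w = true ↔ M.GM c (M.nu u) w) := by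
  obtain ⟨N, hN⟩ := M.exists_bd hc
  obtain ⟨a, d, hT⟩ := M.exists_tab c N
  have hmd' : ComputableIn O (fun z => M.P (M.Q (M.P z M.o) d) M.o) :=
    ci_comp₂ (f := M.P) hP (ci_comp₂ (f := M.Q) hQ (ci_comp₂ (f := M.P) hP ComputableIn.id
      (cconst _)) (cconst _)) (cconst _)
  have hmd : ComputableIn O (fun z => M.md d z) := hmd'
  obtain ⟨F, hF, hF2⟩ := ci_search (O := O)
    (q := fun z s => decide (a = M.P (M.Q s.unpair.1 (M.md d z)) s.unpair.2.unpair.1) &&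
      decide (M.P (M.P s.unpair.2.unpair.1 s.unpair.2.unpair.2) M.o = M.md d z))
    (cand (ceqN (cconst _) (ci_comp₂ hP (ci_comp₂ hQ (cunl ci_snd) (ci_comp hmd ci_fst))
        (cunl (cunr ci_snd))))
      (ceqN (ci_comp₂ hP (ci_comp₂ hP (cunl (cunr ci_snd)) (cunr (cunr ci_snd))) (cconst _))
        (ci_comp hmd ci_fst)))
    (by
      intro z
      obtain ⟨q, r, t, h1, h2⟩ := M.exists_dv a d z
      refine ⟨Nat.pair q (Nat.pair r t), ?_⟩
      simp only [Nat.unpair_pair, Bool.and_eq_true, decide_eq_true_eq]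
      exact ⟨h1, h2⟩)
  refine ⟨fun u w => decide ((F (M.pm (M.nu u) w)).unpair.2.unpair.1 = M.o),
    ceqN (cunl (cunr (ci_comp hF (ci_comp₂ (c_pm M hP hQ) (ci_comp (c_nu M hP) ci_fst) ci_snd))))
      (cconst _), fun u k w he hl => ?_⟩
  have h := hF2 (M.pm (M.nu u) w)
  simp only [Bool.and_eq_true, decide_eq_true_eq] at h
  rw [decide_eq_true_eq]
  exact hT (M.nu u) w (hN u k w he hl) _ _ _ h.1 h.2

theorem exists_bt (hP : ComputableIn₂ O M.P) : ∃ bt : ℕ → ℕ → Bool, ComputableIn₂ O bt ∧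
      ∀ x n, bt x n = true ↔ M.BitM x (M.nu n) := by
  obtain ⟨F, hF, hF2⟩ := ci_search (O := O)
    (q := fun x y => decide (x = M.P y y) || decide (x = M.P (M.P y y) M.o))
    (cor (ceqN ci_fst (ci_comp₂ hP ci_snd ci_snd))
      (ceqN ci_fst (ci_comp₂ hP (ci_comp₂ hP ci_snd ci_snd) (cconst _))))
    (by
      intro x
      obtain ⟨y, hy⟩ := M.exists_hf x
      exact ⟨y, by simpa using hy⟩)
  have hF3 : ∀ x, x = M.P (F x) (F x) ∨ x = M.P (M.P (F x) (F x)) M.o := fun x => by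
    simpa using hF2 x
  have hit : ComputableIn₂ O (fun x n : ℕ => Nat.rec (motive := fun _ => ℕ) x
      (fun _ IH => F IH) n) :=
    ci_nat_rec (f := fun p : ℕ × ℕ => p.2) (g := fun p : ℕ × ℕ => p.1)
      (h := fun _ (p : ℕ × ℕ) => F p.2) ci_snd ci_fst
      (ci_comp hF (ci_comp (f := fun p : ℕ × ℕ => p.2) ci_snd ci_snd))
  refine ⟨fun x n => decide (Nat.rec (motive := fun _ => ℕ) x (fun _ IH => F IH) n =
    M.P (M.P (F (Nat.rec (motive := fun _ => ℕ) x (fun _ IH => F IH) n))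
      (F (Nat.rec (motive := fun _ => ℕ) x (fun _ IH => F IH) n))) M.o), ?_, ?_⟩
  · exact ceqN hit (ci_comp₂ hP (ci_comp₂ hP (ci_comp hF hit) (ci_comp hF hit)) (cconst _))
  · intro x n
    rw [decide_eq_true_eq]
    have key : ∀ n x, M.BitM x (M.nu n) ↔
        M.BitM (Nat.rec (motive := fun _ => ℕ) x (fun _ IH => F IH) n) (M.nu 0) := by
      intro n
      induction n with
      | zero => intro x; exact Iff.rfl
      | succ n ih =>
        intro x
        rw [M.bm_succ x (F x) n (hF3 x), ih (F x)]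
        have : ∀ m, (Nat.rec (motive := fun _ => ℕ) (F x) (fun _ IH => F IH) m : ℕ) =
            F (Nat.rec (motive := fun _ => ℕ) x (fun _ IH => F IH) m) := by
          intro m
          induction m with
          | zero => rfl
          | succ m ih2 => show F _ = F _; rw [ih2]
        rw [this n]
    rw [key n x]
    obtain ⟨y, hy⟩ : ∃ y, y = Nat.rec (motive := fun _ => ℕ) x (fun _ IH => F IH) n := ⟨_, rfl⟩
    rw [← hy, M.bm_zero]
    constructor
    · intro h; exact ⟨_, h⟩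
    · rintro ⟨y', hy'⟩
      rcases hF3 y with h | h
      · exact (M.hf_excl y (F y) y' h hy').elim
      · exact h

end basic

/-! ### the state -/

def mkS (w u r k y : ℕ) : ℕ := Nat.pair w (Nat.pair u (Nat.pair r (Nat.pair k y)))
def sW (s : ℕ) : ℕ := s.unpair.1
def sU (s : ℕ) : ℕ := s.unpair.2.unpair.1
def sR (s : ℕ) : ℕ := s.unpair.2.unpair.2.unpair.1
def sK (s : ℕ) : ℕ := s.unpair.2.unpair.2.unpair.2.unpair.1
def sY (s : ℕ) : ℕ := s.unpair.2.unpair.2.unpair.2.unpair.2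

@[simp] theorem sW_mk (w u r k y : ℕ) : sW (mkS w u r k y) = w := by simp [sW, mkS]
@[simp] theorem sU_mk (w u r k y : ℕ) : sU (mkS w u r k y) = u := by simp [sU, mkS]
@[simp] theorem sR_mk (w u r k y : ℕ) : sR (mkS w u r k y) = r := by simp [sR, mkS]
@[simp] theorem sK_mk (w u r k y : ℕ) : sK (mkS w u r k y) = k := by simp [sK, mkS]
@[simp] theorem sY_mk (w u r k y : ℕ) : sY (mkS w u r k y) = y := by simp [sY, mkS]

section cstate
variable {α : Type} [Primcodable α] {O : Set (ℕ →. ℕ)}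

theorem c_mkS {f₁ f₂ f₃ f₄ f₅ : α → ℕ} (h₁ : ComputableIn O f₁) (h₂ : ComputableIn O f₂)
    (h₃ : ComputableIn O f₃) (h₄ : ComputableIn O f₄) (h₅ : ComputableIn O f₅) :
    ComputableIn O (fun a => mkS (f₁ a) (f₂ a) (f₃ a) (f₄ a) (f₅ a)) :=
  cpair h₁ (cpair h₂ (cpair h₃ (cpair h₄ h₅)))

theorem c_sW {f : α → ℕ} (h : ComputableIn O f) : ComputableIn O (fun a => sW (f a)) := cunl h
theorem c_sU {f : α → ℕ} (h : ComputableIn O f) : ComputableIn O (fun a => sU (f a)) :=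
  cunl (cunr h)
theorem c_sR {f : α → ℕ} (h : ComputableIn O f) : ComputableIn O (fun a => sR (f a)) :=
  cunl (cunr (cunr h))
theorem c_sK {f : α → ℕ} (h : ComputableIn O f) : ComputableIn O (fun a => sK (f a)) :=
  cunl (cunr (cunr (cunr h)))
theorem c_sY {f : α → ℕ} (h : ComputableIn O f) : ComputableIn O (fun a => sY (f a)) :=
  cunr (cunr (cunr (cunr h)))

theorem c_ent {f₁ f₂ f₃ f₄ : α → ℕ} (h₁ : ComputableIn O f₁) (h₂ : ComputableIn O f₂)
    (h₃ : ComputableIn O f₃) (h₄ : ComputableIn O f₄) :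
    ComputableIn O (fun a => ent (f₁ a) (f₂ a) (f₃ a) (f₄ a)) :=
  cpair h₁ (cpair h₂ (cpair h₃ h₄))

theorem c_succ {f : α → ℕ} (h : ComputableIn O f) : ComputableIn O (fun a => f a + 1) :=
  ci_prim Primrec.succ h

theorem c_add {f g : α → ℕ} (h : ComputableIn O f) (h' : ComputableIn O g) :
    ComputableIn O (fun a => f a + g a) := ci_prim₂ Primrec.nat_add h h'

theorem c_mul {f g : α → ℕ} (h : ComputableIn O f) (h' : ComputableIn O g) :
    ComputableIn O (fun a => f a * g a) := ci_prim₂ Primrec.nat_mul h h'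

theorem c_mod {f g : α → ℕ} (h : ComputableIn O f) (h' : ComputableIn O g) :
    ComputableIn O (fun a => f a % g a) := ci_prim₂ Primrec.nat_mod h h'

theorem c_U1 {f₁ f₂ f₃ f₄ : α → ℕ} (h₁ : ComputableIn O f₁) (h₂ : ComputableIn O f₂)
    (h₃ : ComputableIn O f₃) (h₄ : ComputableIn O f₄) :
    ComputableIn O (fun a => U1 (f₁ a) (f₂ a) (f₃ a) (f₄ a)) :=
  cpair (c_succ (cpair (c_ent h₂ h₃ h₄ (cconst 0)) (cunl h₁)))
    (cpair (c_add (c_mod (cunl (cunr h₁)) (c_succ (cunr (cunr h₁)))) (c_succ (cunr (cunr h₁))))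
      (c_succ (c_mul (cconst 2) (cunr (cunr h₁)))))

theorem c_U2 {f₁ f₂ f₃ f₄ : α → ℕ} (h₁ : ComputableIn O f₁) (h₂ : ComputableIn O f₂)
    (h₃ : ComputableIn O f₃) (h₄ : ComputableIn O f₄) :
    ComputableIn O (fun a => U2 (f₁ a) (f₂ a) (f₃ a) (f₄ a)) :=
  cpair (c_succ (cpair (c_ent h₂ h₃ h₄ (cconst 0)) (cunl h₁)))
    (cpair (c_mod (cunl (cunr h₁)) (c_succ (cunr (cunr h₁))))
      (c_succ (c_mul (cconst 2) (cunr (cunr h₁)))))

end cstate

/-- freeness, as a Boolean -/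
def frb (u k : ℕ) : Bool := decide (k % (uS u + 1) = uA u % (uS u + 1))

theorem frb_iff (u k : ℕ) : frb u k = true ↔ FrR u k := by
  unfold frb FrR Fr
  rw [decide_eq_true_eq]

theorem c_frb {α : Type} [Primcodable α] {O : Set (ℕ →. ℕ)} {f g : α → ℕ}
    (h : ComputableIn O f) (h' : ComputableIn O g) :
    ComputableIn O (fun a => frb (f a) (g a)) :=
  ceqN (c_mod h' (c_succ (cunr (cunr h)))) (c_mod (cunl (cunr h)) (c_succ (cunr (cunr h))))

theorem frR_exists (u k : ℕ) : ∃ k' ≥ k, FrR u k' := by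
  unfold FrR Fr
  obtain ⟨m, hm⟩ : ∃ m, m = uS u + 1 := ⟨_, rfl⟩
  rw [← hm]
  refine ⟨uA u % m + m * k, ?_, ?_⟩
  · have : k ≤ m * k := Nat.le_mul_of_pos_left k (by omega)
    omega
  · rw [Nat.add_mul_mod_self_left, Nat.mod_mod]

end Pool.Agent.TH745
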