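import Pool.Agent.TH745.GameDef

set_option autoImplicit false

namespace Pool.Agent.TH745

open Encodable Denumerable

/-! ### Facts about the standard model -/

def U1 (u e n v : ℕ) : ℕ :=
  dU (Nat.pair (ent e n v 0) u.unpair.1 + 1) (uA u % (uS u + 1) + (uS u + 1)) (2 * uS u + 1)
def U2 (u e n v : ℕ) : ℕ :=
  dU (Nat.pair (ent e n v 0) u.unpair.1 + 1) (uA u % (uS u + 1)) (2 * uS u + 1)
def U3 (u e n : ℕ) : ℕ :=
  dU (Nat.pair (ent e n 1 1) u.unpair.1 + 1) (uA u % (uS u + 1)) (2 * uS u + 1)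

@[simp] theorem uD_dU (D a d : ℕ) : uD (dU D a d) = dl D := by simp [uD, dU]
@[simp] theorem uA_dU (D a d : ℕ) : uA (dU D a d) = a := by simp [uA, dU]
@[simp] theorem uS_dU (D a d : ℕ) : uS (dU D a d) = d := by simp [uS, dU]

theorem gr_init (c : ℕ) : GR c 0 0 := by
  have h := Gd.init c
  unfold GR
  have e1 : uD 0 = [] := by simp [uD]
  have e2 : uA 0 = 0 := by simp [uA]
  have e3 : uS 0 = 0 := by simp [uS]
  rw [e1, e2, e3, dl_zero]
  exact h

theorem gr_free {c u w y k : ℕ} (hg : GR c u w) (hl : Len w k) (hk : k < c) (hf : FrR u k)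
    (hy : y < c) : GR c u (Nat.pair y w + 1) := by
  unfold GR
  rw [dl_cons]
  unfold Len at hl
  subst hl
  exact Gd.free hg hk hf hy

theorem gr_ctl {c u w k : ℕ} (hg : GR c u w) (hl : Len w k) (hk : k < c) (hf : ¬ FrR u k) :
    ∃ y, y < c ∧ GR c u (Nat.pair y w + 1) := by
  unfold Len at hl
  subst hl
  obtain ⟨y, hy, h⟩ := Gd.ctl hg hk hf
  refine ⟨y, hy, ?_⟩
  unfold GR
  rw [dl_cons]
  exact h

theorem gr_req {c u w e n v : ℕ} (hv : v ≤ 1) (hg : GR c u w) (h1 : ¬ GR c (U1 u e n v) w)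
    (h2 : ¬ GR c (U2 u e n v) w) : v = 1 ↔ GR c (U3 u e n) w := by
  unfold GR at *
  simp only [U1, U2, U3, uD_dU, uA_dU, uS_dU, dl_cons] at *
  exact Gd.decide hg e n v hv h1 h2

theorem gr_evid {c u w w' k K : ℕ} (hl' : Len w' k) (hK : k ≤ K) (hE : EvR u w')
    (hg : GR c u w) (hl : Len w k)
    (hA : ∀ j, j < K → ∀ m, m < K → (BitR w j m ↔ BitR w' j m)) : False := by
  unfold Len at hl hl'
  refine Gd.not_evid hg (evid_agree (h := dl w') (h' := dl w) (K := K) ?_ (by omega) (by omega) hE)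
  intro j hj m hm
  have := hA j hj m hm
  unfold BitR at this
  rw [Bool.eq_iff_iff]
  exact this.symm

theorem exists_pair_bound (c : ℕ) :
    ∃ N, ∀ u w, u < c → Ent c w → ∀ k, Len w k → k < c → Nat.pair u w < N := by
  obtain ⟨N, hN⟩ := exists_bound c c
  refine ⟨Nat.pair c N, fun u w hu hw k hk hkc => ?_⟩
  unfold Len at hk
  calc Nat.pair u w < Nat.pair c w := Nat.pair_lt_pair_left _ hu
    _ < Nat.pair c N := Nat.pair_lt_pair_right _ (hN w hw (by omega))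

/-- tables for bounded predicates, via Gödel's beta function -/
theorem exists_table (p : ℕ → Prop) (N : ℕ) :
    ∃ a d, ∀ z, z < N → ∀ q r t, a = q * ((z + 1) * d + 1) + r → r + t + 1 = (z + 1) * d + 1 →
      (r = 1 ↔ p z) := by
  classical
  obtain ⟨s, hs⟩ := exists_beta (fun z => if p z then 1 else 0) N
  refine ⟨s.unpair.1, s.unpair.2, fun z hz q r t h1 h2 => ?_⟩
  have h3 := hs z hz.le
  unfold Nat.beta at h3
  have h4 : r < (z + 1) * s.unpair.2 + 1 := by omega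
  rw [h1, mul_comm q, Nat.mul_add_mod, Nat.mod_eq_of_lt h4] at h3
  rw [h3]
  by_cases hp : p z <;> simp [hp]

theorem exists_div (a m : ℕ) (hm : 0 < m) : ∃ q r t, a = q * m + r ∧ r + t + 1 = m :=
  ⟨a / m, a % m, m - a % m - 1, by rw [mul_comm]; exact (Nat.div_add_mod a m).symm,
    by have := Nat.mod_lt a hm; omega⟩

theorem exists_big (N : ℕ) :
    ∃ c, N < c ∧ ∀ T, ∃ x, x < c ∧ ∀ m, m < N → (Bit x m ↔ Bit T m) := by
  refine ⟨2 ^ N, Nat.lt_two_pow_self, fun T => ?_⟩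
  obtain ⟨x, hx, h⟩ := exists_bits (fun m => Bit T m) N
  exact ⟨x, hx, h⟩

theorem bit_zero (x : ℕ) : Bit x 0 ↔ ∃ y, x = y + y + 1 := by
  unfold Bit
  rw [Nat.testBit_zero, decide_eq_true_eq]
  constructor
  · intro h; exact ⟨x / 2, by omega⟩
  · rintro ⟨y, rfl⟩; omega

theorem bit_succ (x y n : ℕ) (h : x = y + y ∨ x = y + y + 1) : Bit x (n + 1) ↔ Bit y n := by
  unfold Bit
  rw [Nat.testBit_succ]
  have : x / 2 = y := by omega
  rw [this]

theorem exists_half (x : ℕ) : ∃ y, x = y + y ∨ x = y + y + 1 := ⟨x / 2, by omega⟩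

theorem len_cons {w k y : ℕ} (h : Len w k) : Len (Nat.pair y w + 1) (k + 1) := by
  unfold Len at *
  rw [dl_cons, List.length_cons, h]

theorem ent_cons {c w y : ℕ} (h : Ent c w) (hy : y < c) : Ent c (Nat.pair y w + 1) := by
  intro z hz
  rw [dl_cons] at hz
  rcases List.mem_cons.1 hz with rfl | hz
  · exact hy
  · exact h z hz

theorem bitR_cons {w k y j m : ℕ} (h : Len w k) :
    BitR (Nat.pair y w + 1) j m ↔ (j = k ∧ Bit y m) ∨ (j < k ∧ BitR w j m) := by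
  unfold Len at h
  subst h
  unfold BitR Bit
  rw [dl_cons]
  exact bitAt_cons _ _ _ _

theorem Def.constP (A : Prop) : Def (fun _ => A) := by
  by_cases h : A
  · exact (Def.eq 0 0).congr (fun x => by simp [h])
  · exact (Def.eq 0 0).neg.congr (fun x => by simp [h])

theorem Pr.constP {α : Type} {P Q : α → α → α} (A : Prop) : Pr P Q (fun _ => A) (fun _ => A) := by
  by_cases h : A
  · exact (Pr.eq 0 0).congr (fun x => by simp [h]) (fun x => by simp [h])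
  · exact (Pr.eq 0 0).neg.congr (fun x => by simp [h]) (fun x => by simp [h])

/-! ### Facts about the model -/

namespace Mod

variable {α : Type} (M : Mod α)

noncomputable def GM (c u w : α) : Prop := M3 defGR M.P M.Q c u w
noncomputable def LenM (w k : α) : Prop := M2 defLen M.P M.Q w k
noncomputable def EntM (c w : α) : Prop := M2 defEnt M.P M.Q c w
noncomputable def BitM (x m : α) : Prop := M2 defBit M.P M.Q x m
noncomputable def BitRM (w j m : α) : Prop := M3 defBitR M.P M.Q w j m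
noncomputable def cm (y w : α) : α := M.P (M.pm y w) M.o

variable {g₁ g₂ g₃ : (ℕ → ℕ) → ℕ} {g₁' g₂' g₃' : (ℕ → α) → α}

theorem prG (h₁ : PrF M.P M.Q g₁ g₁') (h₂ : PrF M.P M.Q g₂ g₂') (h₃ : PrF M.P M.Q g₃ g₃') :
    Pr M.P M.Q (fun x => GR (g₁ x) (g₂ x) (g₃ x)) (fun x => M.GM (g₁' x) (g₂' x) (g₃' x)) :=
  Pr.r3 (R := GR) (R' := M.GM) (prM3 defGR 0 1 2) h₁ h₂ h₃

theorem prLen (h₁ : PrF M.P M.Q g₁ g₁') (h₂ : PrF M.P M.Q g₂ g₂') :
    Pr M.P M.Q (fun x => Len (g₁ x) (g₂ x)) (fun x => M.LenM (g₁' x) (g₂' x)) :=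
  Pr.r2 (R := Len) (R' := M.LenM) (prM2 defLen 0 1) h₁ h₂

theorem prEnt (h₁ : PrF M.P M.Q g₁ g₁') (h₂ : PrF M.P M.Q g₂ g₂') :
    Pr M.P M.Q (fun x => Ent (g₁ x) (g₂ x)) (fun x => M.EntM (g₁' x) (g₂' x)) :=
  Pr.r2 (R := Ent) (R' := M.EntM) (prM2 defEnt 0 1) h₁ h₂

theorem prBit (h₁ : PrF M.P M.Q g₁ g₁') (h₂ : PrF M.P M.Q g₂ g₂') :
    Pr M.P M.Q (fun x => Bit (g₁ x) (g₂ x)) (fun x => M.BitM (g₁' x) (g₂' x)) :=
  Pr.r2 (R := Bit) (R' := M.BitM) (prM2 defBit 0 1) h₁ h₂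

theorem prBitR (h₁ : PrF M.P M.Q g₁ g₁') (h₂ : PrF M.P M.Q g₂ g₂') (h₃ : PrF M.P M.Q g₃ g₃') :
    Pr M.P M.Q (fun x => BitR (g₁ x) (g₂ x) (g₃ x)) (fun x => M.BitRM (g₁' x) (g₂' x) (g₃' x)) :=
  Pr.r3 (R := BitR) (R' := M.BitRM) (prM3 defBitR 0 1 2) h₁ h₂ h₃

theorem consF (h₁ : PrF M.P M.Q g₁ g₁') (h₂ : PrF M.P M.Q g₂ g₂') :
    PrF M.P M.Q (fun x => Nat.pair (g₁ x) (g₂ x) + 1) (fun x => M.cm (g₁' x) (g₂' x)) :=
  PrF.add (M.pairF h₁ h₂) M.oneF

theorem gm_init (c : α) : M.GM c (M.nu 0) (M.nu 0) := by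
  have := (M.prG (PrF.var 0) (M.numF 0) (M.numF 0)).transfer M.hT (fun x => gr_init (x 0))
  exact this (vec M.z [c])

theorem gm_free {u k : ℕ} (hf : FrR u k) {c w y : α} (hg : M.GM c (M.nu u) w)
    (hl : M.LenM w (M.nu k)) (hk : M.lt (M.nu k) c) (hy : M.lt y c) :
    M.GM c (M.nu u) (M.cm y w) := by
  have := ((M.prG (PrF.var 0) (M.numF u) (PrF.var 1)).imp ((M.prLen (PrF.var 1) (M.numF k)).imp
    ((M.ltF (M.numF k) (PrF.var 0)).imp ((M.ltF (PrF.var 2) (PrF.var 0)).imp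
      (M.prG (PrF.var 0) (M.numF u) (M.consF (PrF.var 2) (PrF.var 1))))))).transfer M.hT
      (fun x h1 h2 h3 h4 => gr_free h1 h2 h3 hf h4)
  exact this (vec M.z [c, w, y]) hg hl hk hy

theorem gm_ctl {u k : ℕ} (hf : ¬ FrR u k) {c w : α} (hg : M.GM c (M.nu u) w)
    (hl : M.LenM w (M.nu k)) (hk : M.lt (M.nu k) c) :
    ∃ y, M.lt y c ∧ M.GM c (M.nu u) (M.cm y w) := by
  have := ((M.prG (PrF.var 0) (M.numF u) (PrF.var 1)).imp ((M.prLen (PrF.var 1) (M.numF k)).imp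
    ((M.ltF (M.numF k) (PrF.var 0)).imp (Pr.ex ((M.ltF (PrF.var 0) (PrF.var 1)).and
      (M.prG (PrF.var 1) (M.numF u) (M.consF (PrF.var 0) (PrF.var 2)))))))).transfer M.hT
      (fun x h1 h2 h3 => gr_ctl h1 h2 h3 hf)
  exact this (vec M.z [c, w]) hg hl hk

theorem gm_req {u e n v : ℕ} (hv : v ≤ 1) {c w : α} (hg : M.GM c (M.nu u) w)
    (h1 : ¬ M.GM c (M.nu (U1 u e n v)) w) (h2 : ¬ M.GM c (M.nu (U2 u e n v)) w) :
    v = 1 ↔ M.GM c (M.nu (U3 u e n)) w := by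
  have := ((M.prG (PrF.var 0) (M.numF u) (PrF.var 1)).imp
    ((M.prG (PrF.var 0) (M.numF (U1 u e n v)) (PrF.var 1)).neg.imp
    ((M.prG (PrF.var 0) (M.numF (U2 u e n v)) (PrF.var 1)).neg.imp
    ((Pr.constP (v = 1)).iff
      (M.prG (PrF.var 0) (M.numF (U3 u e n)) (PrF.var 1)))))).transfer M.hT
      (fun x h1 h2 h3 => gr_req hv h1 h2 h3)
  exact this (vec M.z [c, w]) hg h1 h2

theorem bitR_nu (w j m : ℕ) : M.BitRM (M.nu w) (M.nu j) (M.nu m) ↔ BitR w j m :=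
  M.star3 (R := BitR) (R' := M.BitRM) (prM3 defBitR 0 1 2) w j m

theorem gm_evid {u w' k K : ℕ} (hl' : Len w' k) (hK : k ≤ K) (hE : EvR u w') {c w : α}
    (hg : M.GM c (M.nu u) w) (hl : M.LenM w (M.nu k))
    (hA : ∀ j, j < K → ∀ m, m < K → (M.BitRM w (M.nu j) (M.nu m) ↔ BitR w' j m)) : False := by
  have := ((M.prG (PrF.var 0) (M.numF u) (PrF.var 1)).imp ((M.prLen (PrF.var 1) (M.numF k)).imp
    ((Pr.all ((M.ltF (PrF.var 0) (M.numF K)).imp (Pr.all ((M.ltF (PrF.var 0) (M.numF K)).imp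
      ((M.prBitR (PrF.var 3) (PrF.var 1) (PrF.var 0)).iff
        (M.prBitR (M.numF w') (PrF.var 1) (PrF.var 0))))))).imp (Pr.constP False)))).transfer M.hT
      (fun x h1 h2 h3 => gr_evid hl' hK hE h1 h2 h3)
  refine this (vec M.z [c, w]) hg hl ?_
  intro j hj m hm
  obtain ⟨j', hj', ej⟩ := M.lt_nu hj
  obtain ⟨m', hm', em⟩ := M.lt_nu hm
  subst ej em
  exact (hA j' hj' m' hm').trans (M.bitR_nu w' j' m').symm

theorem len_init : M.LenM (M.nu 0) (M.nu 0) :=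
  (M.star2 (R := Len) (R' := M.LenM) (prM2 defLen 0 1) 0 0).2 (by simp [Len])

theorem len_cm {k : ℕ} {w : α} (y : α) (h : M.LenM w (M.nu k)) :
    M.LenM (M.cm y w) (M.nu (k + 1)) := by
  have := ((M.prLen (PrF.var 0) (M.numF k)).imp
    (M.prLen (M.consF (PrF.var 1) (PrF.var 0)) (M.numF (k + 1)))).transfer M.hT
      (fun x h1 => len_cons h1)
  exact this (vec M.z [w, y]) h

theorem ent_init (c : α) : M.EntM c (M.nu 0) := by
  have := (M.prEnt (PrF.var 0) (M.numF 0)).transfer M.hT (fun x => by simp [Ent])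
  exact this (vec M.z [c])

theorem ent_cm {c w y : α} (h : M.EntM c w) (hy : M.lt y c) : M.EntM c (M.cm y w) := by
  have := ((M.prEnt (PrF.var 0) (PrF.var 1)).imp ((M.ltF (PrF.var 2) (PrF.var 0)).imp
    (M.prEnt (PrF.var 0) (M.consF (PrF.var 2) (PrF.var 1))))).transfer M.hT
      (fun x h1 h2 => ent_cons h1 h2)
  exact this (vec M.z [c, w, y]) h hy

theorem bitR_cm {k : ℕ} {w : α} (y : α) (h : M.LenM w (M.nu k)) (j m : ℕ) :
    M.BitRM (M.cm y w) (M.nu j) (M.nu m) ↔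
      (j = k ∧ M.BitM y (M.nu m)) ∨ (j < k ∧ M.BitRM w (M.nu j) (M.nu m)) := by
  have := ((M.prLen (PrF.var 0) (M.numF k)).imp
    ((M.prBitR (M.consF (PrF.var 1) (PrF.var 0)) (M.numF j) (M.numF m)).iff
    (((Pr.constP (j = k)).and (M.prBit (PrF.var 1) (M.numF m))).or
      ((Pr.constP (j < k)).and (M.prBitR (PrF.var 0) (M.numF j) (M.numF m)))))).transfer M.hT
      (fun x h1 => bitR_cons h1)
  exact this (vec M.z [w, y]) h

/-- comprehension for the values of the third game -/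
theorem exists_code (u e : ℕ) (c w : α) {N : α} (hN : ∀ n, M.lt (M.nu n) N) :
    ∃ x, ∀ n : ℕ, M.BitM x (M.nu n) ↔ M.GM c (M.nu (U3 u e n)) w := by
  have hU : Primrec (fun n => U3 u e n) := by
    unfold U3 dU ent
    exact Primrec₂.natPair.comp (Primrec.succ.comp (Primrec₂.natPair.comp
      (Primrec₂.natPair.comp (Primrec.const _) (Primrec₂.natPair.comp Primrec.id
        (Primrec.const _))) (Primrec.const _))) (Primrec.const _)
  have hd : Def (fun x => GR (x 0) (U3 u e (x 2)) (x 1)) :=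
    Def.r3 defGR (DefF.var 0) (DefF.prim hU (DefF.var 2)) (DefF.var 1)
  let R' : α → α → α → Prop := fun a b n =>
    M3 (R := fun a b n => GR a (U3 u e n) b) hd M.P M.Q a b n
  have hR : Pr M.P M.Q (fun x => GR (x 0) (U3 u e (x 2)) (x 1)) (fun x => R' (x 0) (x 1) (x 2)) :=
    prM3 (R := fun a b n => GR a (U3 u e n) b) hd 0 1 2
  -- c = 0, w = 1, N = 2
  have h1 := (Pr.ex (Pr.all ((M.ltF (PrF.var 0) (PrF.var 4)).imp
    ((M.prBit (PrF.var 1) (PrF.var 0)).iff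
      (Pr.r3 (R := fun a b n => GR a (U3 u e n) b) (R' := R') hR (PrF.var 2) (PrF.var 3)
        (PrF.var 0)))))).transfer M.hT (fun x => by
          obtain ⟨y, _, hy⟩ := exists_bits (fun n => GR (x 0) (U3 u e n) (x 1)) (x 2)
          exact ⟨y, hy⟩)
  obtain ⟨x, hx⟩ := h1 (vec M.z [c, w, N])
  refine ⟨x, fun n => (hx (M.nu n) (hN n)).trans ?_⟩
  have h2 := ((Pr.r3 (R := fun a b n => GR a (U3 u e n) b) (R' := R') hR (PrF.var 0) (PrF.var 1)
    (M.numF n)).iff (M.prG (PrF.var 0) (M.numF (U3 u e n)) (PrF.var 1))).transfer M.hT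
      (fun x => Iff.rfl)
  exact h2 (vec M.z [c, w])

/-- a bound for the arguments of the table -/
theorem exists_bd {c : α} (hc : ∀ n, M.lt (M.nu n) c) :
    ∃ N, ∀ (u k : ℕ) (w : α), M.EntM c w → M.LenM w (M.nu k) → M.lt (M.pm (M.nu u) w) N := by
  -- c = 0; N; u, w; k
  have h1 := (Pr.ex (Pr.all (Pr.all ((M.ltF (PrF.var 1) (PrF.var 3)).imp
    ((M.prEnt (PrF.var 3) (PrF.var 0)).imp (Pr.all ((M.prLen (PrF.var 1) (PrF.var 0)).imp
      ((M.ltF (PrF.var 0) (PrF.var 4)).imp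
        (M.ltF (M.pairF (PrF.var 2) (PrF.var 1)) (PrF.var 3)))))))))).transfer M.hT
          (fun x => exists_pair_bound (x 0))
  obtain ⟨N, hN⟩ := h1 (vec M.z [c])
  exact ⟨N, fun u k w hw hl => hN (M.nu u) w (hc u) hw (M.nu k) hl (hc k)⟩

/-- the modulus of the table lookup -/
def md (d z : α) : α := M.P (M.Q (M.P z M.o) d) M.o

theorem mdF (h₁ : PrF M.P M.Q g₁ g₁') (h₂ : PrF M.P M.Q g₂ g₂') :
    PrF M.P M.Q (fun x => (g₂ x + 1) * g₁ x + 1) (fun x => M.md (g₁' x) (g₂' x)) :=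
  PrF.add (PrF.mul (PrF.add h₂ M.oneF) h₁) M.oneF

theorem exists_tab (c N : α) : ∃ a d, ∀ u w, M.lt (M.pm u w) N → ∀ q r t,
    a = M.P (M.Q q (M.md d (M.pm u w))) r → M.P (M.P r t) M.o = M.md d (M.pm u w) →
      (r = M.o ↔ M.GM c u w) := by
  -- c = 0, N = 1 ; a ; d ; u, w ; q, r, t:   t=0 r=1 q=2 w=3 u=4 d=5 a=6 c=7 N=8
  have h1 := (Pr.ex (Pr.ex (Pr.all (Pr.all ((M.ltF (M.pairF (PrF.var 1) (PrF.var 0)) (PrF.var 5)).imp
    (Pr.all (Pr.all (Pr.all ((Pr.eqF (PrF.var 6) (PrF.add (PrF.mul (PrF.var 2)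
      (M.mdF (PrF.var 5) (M.pairF (PrF.var 4) (PrF.var 3)))) (PrF.var 1))).imp
      ((Pr.eqF (PrF.add (PrF.add (PrF.var 1) (PrF.var 0)) M.oneF)
        (M.mdF (PrF.var 5) (M.pairF (PrF.var 4) (PrF.var 3)))).imp
        ((Pr.eqF (PrF.var 1) M.oneF).iff (M.prG (PrF.var 7) (PrF.var 4)
          (PrF.var 3))))))))))))).transfer M.hT (fun x => by
            obtain ⟨a, d, h⟩ := exists_table (fun z => GR (x 0) z.unpair.1 z.unpair.2) (x 1)
            refine ⟨a, d, fun u w hu q r t h1 h2 => ?_⟩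
            have := h (Nat.pair u w) hu q r t h1 h2
            rw [Nat.unpair_pair] at this
            exact this)
  exact h1 (vec M.z [c, N])

theorem exists_dv (a d z : α) : ∃ q r t, a = M.P (M.Q q (M.md d z)) r ∧
    M.P (M.P r t) M.o = M.md d z := by
  -- a = 0, d = 1, z = 2; q r t: t=0 r=1 q=2 a=3 d=4 z=5
  have h1 := (Pr.ex (Pr.ex (Pr.ex ((Pr.eqF (PrF.var 3) (PrF.add (PrF.mul (PrF.var 2)
      (M.mdF (PrF.var 4) (PrF.var 5))) (PrF.var 1))).and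
      (Pr.eqF (PrF.add (PrF.add (PrF.var 1) (PrF.var 0)) M.oneF)
        (M.mdF (PrF.var 4) (PrF.var 5))))))).transfer M.hT (fun x =>
          exists_div (x 0) ((x 2 + 1) * x 1 + 1) (Nat.succ_pos _))
  exact h1 (vec M.z [a, d, z])

theorem exists_bg (N : α) : ∃ c, M.lt N c ∧ ∀ T, ∃ x, M.lt x c ∧
    ∀ m, M.lt m N → (M.BitM x m ↔ M.BitM T m) := by
  -- N = 0; c; T; x; m:  m=0 x=1 T=2 c=3 N=4
  have h1 := (Pr.ex ((M.ltF (PrF.var 1) (PrF.var 0)).and (Pr.all (Pr.ex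
    ((M.ltF (PrF.var 0) (PrF.var 2)).and (Pr.all ((M.ltF (PrF.var 0) (PrF.var 4)).imp
      ((M.prBit (PrF.var 1) (PrF.var 0)).iff (M.prBit (PrF.var 2) (PrF.var 0)))))))))).transfer
        M.hT (fun x => exists_big (x 0))
  exact h1 (vec M.z [N])

/-- every definable set is coded -/
theorem exists_def (S : ℕ → Prop) (hS : Def (fun x => S (x 0))) {N : α}
    (hN : ∀ n, M.lt (M.nu n) N) : ∃ T, ∀ n, M.BitM T (M.nu n) ↔ S n := by
  have hR : Pr M.P M.Q (fun x => S (x 0)) (fun x => M1 hS M.P M.Q (x 0)) := prM1 hS 0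
  have h1 := (Pr.ex (Pr.all ((M.ltF (PrF.var 0) (PrF.var 2)).imp
    ((M.prBit (PrF.var 1) (PrF.var 0)).iff
      (Pr.r1 (R := S) (R' := M1 hS M.P M.Q) hR (PrF.var 0)))))).transfer M.hT (fun x => by
          obtain ⟨y, _, hy⟩ := exists_bits S (x 0)
          exact ⟨y, hy⟩)
  obtain ⟨T, hT⟩ := h1 (vec M.z [N])
  exact ⟨T, fun n => (hT (M.nu n) (hN n)).trans (M.star1 hR n)⟩

theorem bm_zero (x : α) : M.BitM x (M.nu 0) ↔ ∃ y, x = M.P (M.P y y) M.o := by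
  have h1 := ((M.prBit (PrF.var 0) (M.numF 0)).iff (Pr.ex (Pr.eqF (PrF.var 1)
    (PrF.add (PrF.add (PrF.var 0) (PrF.var 0)) M.oneF)))).transfer M.hT (fun x => bit_zero (x 0))
  exact h1 (vec M.z [x])

theorem bm_succ (x y : α) (n : ℕ) (h : x = M.P y y ∨ x = M.P (M.P y y) M.o) :
    M.BitM x (M.nu (n + 1)) ↔ M.BitM y (M.nu n) := by
  have h1 := (((Pr.eqF (PrF.var 0) (PrF.add (PrF.var 1) (PrF.var 1))).or (Pr.eqF (PrF.var 0)
    (PrF.add (PrF.add (PrF.var 1) (PrF.var 1)) M.oneF))).imp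
    ((M.prBit (PrF.var 0) (M.numF (n + 1))).iff (M.prBit (PrF.var 1) (M.numF n)))).transfer M.hT
      (fun x => bit_succ (x 0) (x 1) n)
  exact h1 (vec M.z [x, y]) h

theorem exists_hf (x : α) : ∃ y, x = M.P y y ∨ x = M.P (M.P y y) M.o := by
  have h1 := (Pr.ex ((Pr.eqF (PrF.var 1) (PrF.add (PrF.var 0) (PrF.var 0))).or (Pr.eqF (PrF.var 1)
    (PrF.add (PrF.add (PrF.var 0) (PrF.var 0)) M.oneF)))).transfer M.hT
      (fun x => exists_half (x 0))
  exact h1 (vec M.z [x])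

theorem hf_excl (x y y' : α) (h : x = M.P y y) (h' : x = M.P (M.P y' y') M.o) : False := by
  have h1 := ((Pr.eqF (PrF.var 0) (PrF.add (PrF.var 1) (PrF.var 1))).imp ((Pr.eqF (PrF.var 0)
    (PrF.add (PrF.add (PrF.var 2) (PrF.var 2)) M.oneF)).imp (Pr.constP False))).transfer M.hT
      (fun x h1 h2 => by
        have e1 : x 0 = x 1 + x 1 := h1
        have e2 : x 0 = x 2 + x 2 + 1 := h2
        omega)
  exact h1 (vec M.z [x, y, y']) h h'

/-- comparison through differences -/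
theorem exists_df (a b : α) : ∃ c, M.P a c = b ∨ M.P b c = a := by
  have h1 := (Pr.ex ((Pr.eqF (PrF.add (PrF.var 1) (PrF.var 0)) (PrF.var 2)).or
    (Pr.eqF (PrF.add (PrF.var 2) (PrF.var 0)) (PrF.var 1)))).transfer M.hT (fun x => by
      show ∃ c, x 0 + c = x 1 ∨ x 1 + c = x 0
      exact ⟨x 1 - x 0 + (x 0 - x 1), by omega⟩)
  exact h1 (vec M.z [a, b])

theorem lt_iff_df {a b c : α} (h : M.P a c = b ∨ M.P b c = a) : M.lt a b ↔ M.P b c ≠ a := by
  have h1 := (((Pr.eqF (PrF.add (PrF.var 0) (PrF.var 2)) (PrF.var 1)).or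
    (Pr.eqF (PrF.add (PrF.var 1) (PrF.var 2)) (PrF.var 0))).imp
      ((M.ltF (PrF.var 0) (PrF.var 1)).iff (Pr.eqF (PrF.add (PrF.var 1) (PrF.var 2))
        (PrF.var 0)).neg)).transfer M.hT (fun x => by
      show (x 0 + x 2 = x 1 ∨ x 1 + x 2 = x 0) → (x 0 < x 1 ↔ ¬ (x 1 + x 2 = x 0))
      omega)
  exact h1 (vec M.z [a, b, c]) h

theorem z_lt {c : α} (hc : ∀ n, M.lt (M.nu n) c) : M.lt M.z c := hc 0

end Mod

end Pool.Agent.TH745
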