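import Mathlib

set_option autoImplicit false

namespace Pool.Agent.TH745

open Encodable

/-! ### The game -/

/-- the game with free columns `F` and objective `O` -/
def GF (c : ℕ) (F : ℕ → Prop) (O : List ℕ → Prop) : ℕ → List ℕ → Prop
  | 0, h => O h
  | r + 1, h => (F h.length → ∀ y < c, GF c F O r (y :: h)) ∧
      (¬ F h.length → ∃ y < c, GF c F O r (y :: h))

theorem GF.mono {c : ℕ} {F : ℕ → Prop} {O O' : List ℕ → Prop} (hO : ∀ h, O h → O' h) (r : ℕ) :
    ∀ h, GF c F O r h → GF c F O' r h := by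
  induction r with
  | zero => exact hO
  | succ r ih =>
    rintro h ⟨h1, h2⟩
    exact ⟨fun hf y hy => ih _ (h1 hf y hy), fun hf => by
      obtain ⟨y, hy, hg⟩ := h2 hf
      exact ⟨y, hy, ih _ hg⟩⟩

theorem GF.congr {c : ℕ} {F F' : ℕ → Prop} {O O' : List ℕ → Prop} (hF : ∀ n, F n ↔ F' n)
    (hO : ∀ h, O h ↔ O' h) (r : ℕ) (h : List ℕ) : GF c F O r h ↔ GF c F' O' r h := by
  have e1 : F = F' := funext fun n => propext (hF n)
  have e2 : O = O' := funext fun n => propext (hO n)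
  rw [e1, e2]

/-- Determinacy of the finite game, splitting the free columns between the two sides. -/
theorem GF.split {c : ℕ} {K A B : ℕ → Prop} {O X : List ℕ → Prop}
    (hK : ∀ n, K n ↔ A n ∨ B n) (hAB : ∀ n, ¬ (A n ∧ B n)) (r : ℕ) :
    ∀ h, GF c K O r h → ¬ GF c A (fun h => O h ∧ ¬ X h) r h →
      GF c B (fun h => O h ∧ X h) r h := by
  induction r with
  | zero =>
    intro h h1 h2
    refine ⟨h1, ?_⟩
    by_contra hX
    exact h2 ⟨h1, hX⟩
  | succ r ih =>
    intro h h1 h2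
    obtain ⟨h1a, h1b⟩ := h1
    have hK' := hK h.length
    have hAB' := hAB h.length
    by_cases hA : A h.length
    · have hB : ¬ B h.length := fun hB => hAB' ⟨hA, hB⟩
      have h2' : ∃ y < c, ¬ GF c A (fun h => O h ∧ ¬ X h) r (y :: h) := by
        by_contra hc
        push Not at hc
        exact h2 ⟨fun _ y hy => hc y hy, fun hn => absurd hA hn⟩
      obtain ⟨y, hy, hg⟩ := h2'
      refine ⟨fun hB' => absurd hB' hB, fun _ => ⟨y, hy, ih _ (h1a (hK'.2 (Or.inl hA)) y hy) hg⟩⟩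
    · have h2' : ∀ y < c, ¬ GF c A (fun h => O h ∧ ¬ X h) r (y :: h) := by
        intro y hy hg
        exact h2 ⟨fun hn => absurd hn hA, fun _ => ⟨y, hy, hg⟩⟩
      by_cases hB : B h.length
      · exact ⟨fun _ y hy => ih _ (h1a (hK'.2 (Or.inr hB)) y hy) (h2' y hy),
          fun hn => absurd hB hn⟩
      · have hK2 : ¬ K h.length := fun hk => by
          rcases hK'.1 hk with h3 | h3
          · exact hA h3
          · exact hB h3
        obtain ⟨y, hy, hg⟩ := h1b hK2
        exact ⟨fun hn => absurd hn hB, fun _ => ⟨y, hy, ih _ hg (h2' y hy)⟩⟩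

theorem GF.evid {c : ℕ} {F : ℕ → Prop} {O X : List ℕ → Prop} (hX : ∀ h y, X h → X (y :: h))
    (hO : ∀ h, O h → ¬ X h) (r : ℕ) (hr : r ≤ c) : ∀ h, GF c F O r h → ¬ X h := by
  induction r with
  | zero => exact hO
  | succ r ih =>
    rintro h ⟨h1, h2⟩ hx
    by_cases hF : F h.length
    · exact ih (by omega) _ (h1 hF 0 (by omega)) (hX _ _ hx)
    · obtain ⟨y, _, hg⟩ := h2 hF
      exact ih (by omega) _ hg (hX _ _ hx)

theorem GF.triv {c : ℕ} {F : ℕ → Prop} {O : List ℕ → Prop}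
    (hO : ∀ h, O h) (r : ℕ) (hr : r ≤ c) : ∀ h, GF c F O r h := by
  induction r with
  | zero => exact hO
  | succ r ih =>
    intro h
    exact ⟨fun _ y _ => ih (by omega) _, fun _ => ⟨0, by omega, ih (by omega) _⟩⟩

/-! ### Oracles read from histories -/

/-- the first `k` bits of the oracle given by the history `h` (latest column first) -/
def orc (h : List ℕ) (k : ℕ) : List Bool :=
  (List.range k).map fun i => (h.reverse.getD i.unpair.1 0).testBit i.unpair.2

/-- evaluation of the reduction with index `e` -/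
def val (e : ℕ) (h : List ℕ) (n t : ℕ) : Option ℕ :=
  Nat.Partrec.Code.evaln t.unpair.1 (Denumerable.ofNat Nat.Partrec.Code e)
    (Nat.pair (encode (orc h t.unpair.2)) n)

/-- the reduction with index `e` outputs `v` on input `n` along the history `h` -/
def Ov (e : ℕ) (h : List ℕ) (n v : ℕ) : Prop :=
  ∃ t ≤ h.length, val e h n t = some v ∧ ∀ t' < t, val e h n t' = none

theorem orc_cons (h : List ℕ) (y k : ℕ) (hk : k ≤ h.length) : orc (y :: h) k = orc h k := by
  unfold orc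
  refine List.map_congr_left fun i hi => ?_
  rw [List.mem_range] at hi
  have h1 : i.unpair.1 ≤ i := Nat.unpair_left_le i
  rw [List.reverse_cons, List.getD_append _ _ _ _ (by rw [List.length_reverse]; omega)]

theorem val_cons (e : ℕ) (h : List ℕ) (n t y : ℕ) (ht : t ≤ h.length) :
    val e (y :: h) n t = val e h n t := by
  unfold val
  rw [orc_cons]
  exact (Nat.unpair_right_le t).trans ht

theorem Ov.unique {e : ℕ} {h : List ℕ} {n v w : ℕ} (h1 : Ov e h n v) (h2 : Ov e h n w) :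
    v = w := by
  obtain ⟨t, _, ht1, ht2⟩ := h1
  obtain ⟨s, _, hs1, hs2⟩ := h2
  rcases Nat.lt_trichotomy s t with hst | hst | hst
  · rw [ht2 s hst] at hs1; cases hs1
  · subst hst
    rw [ht1] at hs1
    exact Option.some.inj hs1
  · rw [hs2 t hst] at ht1; cases ht1

theorem Ov.cons {e : ℕ} {h : List ℕ} {n v : ℕ} (h1 : Ov e h n v) (y : ℕ) :
    Ov e (y :: h) n v := by
  obtain ⟨t, ht, ht1, ht2⟩ := h1
  refine ⟨t, by simp only [List.length_cons]; omega, ?_, fun t' ht' => ?_⟩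
  · rw [val_cons e h n t y ht]; exact ht1
  · rw [val_cons e h n t' y (by omega)]; exact ht2 t' ht'

/-- an entry of the list of promises -/
def ent (e n v s : ℕ) : ℕ := Nat.pair e (Nat.pair n (Nat.pair v s))

def eE (q : ℕ) : ℕ := q.unpair.1
def eN (q : ℕ) : ℕ := q.unpair.2.unpair.1
def eV (q : ℕ) : ℕ := q.unpair.2.unpair.2.unpair.1
def eS (q : ℕ) : ℕ := q.unpair.2.unpair.2.unpair.2

@[simp] theorem eE_ent (e n v s : ℕ) : eE (ent e n v s) = e := by simp [eE, ent]
@[simp] theorem eN_ent (e n v s : ℕ) : eN (ent e n v s) = n := by simp [eN, ent]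
@[simp] theorem eV_ent (e n v s : ℕ) : eV (ent e n v s) = v := by simp [eV, ent]
@[simp] theorem eS_ent (e n v s : ℕ) : eS (ent e n v s) = s := by simp [eS, ent]

/-- the promise `q` is kept by `h` -/
def Kp (q : ℕ) (h : List ℕ) : Prop :=
  (eS q = 0 → ¬ Ov (eE q) h (eN q) (eV q)) ∧ (eS q ≠ 0 → Ov (eE q) h (eN q) (eV q))

/-- all promises are kept -/
def Obj (D : List ℕ) (h : List ℕ) : Prop := ∀ q ∈ D, Kp q h

/-- some negative promise is already violated -/
def Evid (D : List ℕ) (h : List ℕ) : Prop := ∃ q ∈ D, eS q = 0 ∧ Ov (eE q) h (eN q) (eV q)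

/-- free columns: an arithmetic progression -/
def Fr (a d k : ℕ) : Prop := k % (d + 1) = a % (d + 1)

/-- the position is good -/
def Gd (c : ℕ) (D : List ℕ) (a d : ℕ) (h : List ℕ) : Prop :=
  (∀ y ∈ h, y < c) ∧ h.length ≤ c ∧ GF c (Fr a d) (Obj D) (c - h.length) h

theorem Gd.init (c : ℕ) : Gd c [] 0 0 [] :=
  ⟨by simp, by simp, GF.triv (fun h => by simp [Obj]) _ (Nat.sub_le _ _) _⟩

theorem Gd.free {c : ℕ} {D : List ℕ} {a d : ℕ} {h : List ℕ} (hg : Gd c D a d h)
    (hl : h.length < c) (hf : Fr a d h.length) {y : ℕ} (hy : y < c) : Gd c D a d (y :: h) := by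
  obtain ⟨h1, h2, h3⟩ := hg
  refine ⟨?_, by simp only [List.length_cons]; omega, ?_⟩
  · intro z hz
    rcases List.mem_cons.1 hz with rfl | hz
    · exact hy
    · exact h1 z hz
  · obtain ⟨r, hr⟩ : ∃ r, c - h.length = r + 1 := ⟨c - h.length - 1, by omega⟩
    rw [hr] at h3
    have : c - (y :: h).length = r := by simp only [List.length_cons]; omega
    rw [this]
    exact h3.1 hf y hy

theorem Gd.ctl {c : ℕ} {D : List ℕ} {a d : ℕ} {h : List ℕ} (hg : Gd c D a d h)
    (hl : h.length < c) (hf : ¬ Fr a d h.length) : ∃ y < c, Gd c D a d (y :: h) := by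
  obtain ⟨h1, h2, h3⟩ := hg
  obtain ⟨r, hr⟩ : ∃ r, c - h.length = r + 1 := ⟨c - h.length - 1, by omega⟩
  rw [hr] at h3
  obtain ⟨y, hy, h4⟩ := h3.2 hf
  refine ⟨y, hy, ?_, by simp only [List.length_cons]; omega, ?_⟩
  · intro z hz
    rcases List.mem_cons.1 hz with rfl | hz
    · exact hy
    · exact h1 z hz
  · have : c - (y :: h).length = r := by simp only [List.length_cons]; omega
    rw [this]
    exact h4

theorem Evid.cons {D : List ℕ} {h : List ℕ} (hE : Evid D h) (y : ℕ) : Evid D (y :: h) := by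
  obtain ⟨q, hq, hs, ho⟩ := hE
  exact ⟨q, hq, hs, ho.cons y⟩

theorem Gd.not_evid {c : ℕ} {D : List ℕ} {a d : ℕ} {h : List ℕ} (hg : Gd c D a d h) :
    ¬ Evid D h := by
  obtain ⟨_, _, h3⟩ := hg
  refine GF.evid (X := Evid D) (fun h y hx => hx.cons y) ?_ _ (Nat.sub_le _ _) _ h3
  rintro h hO ⟨q, hq, hs, ho⟩
  exact (hO q hq).1 hs ho

theorem fr_split (a d k : ℕ) : Fr a d k ↔
    Fr (a % (d + 1) + (d + 1)) (2 * d + 1) k ∨ Fr (a % (d + 1)) (2 * d + 1) k := by
  unfold Fr
  have e1 : 2 * d + 1 + 1 = 2 * (d + 1) := by ring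
  have ha : a % (d + 1) < d + 1 := Nat.mod_lt _ (Nat.succ_pos _)
  rw [e1]
  obtain ⟨m, hm⟩ : ∃ m, m = d + 1 := ⟨_, rfl⟩
  rw [← hm] at ha ⊢
  have hm0 : 0 < m := by omega
  have e2 : (a % m + m) % (2 * m) = a % m + m := Nat.mod_eq_of_lt (by omega)
  have e3 : a % m % (2 * m) = a % m := Nat.mod_eq_of_lt (by omega)
  rw [e2, e3]
  have e4 : k % m = k % (2 * m) % m := (Nat.mod_mod_of_dvd k (Dvd.intro_left 2 rfl)).symm
  rw [e4]
  have h5 : k % (2 * m) < 2 * m := Nat.mod_lt _ (by omega)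
  obtain ⟨x, hx⟩ : ∃ x, x = k % (2 * m) := ⟨_, rfl⟩
  rw [← hx] at h5 ⊢
  rcases Nat.lt_or_ge x m with h6 | h6
  · rw [Nat.mod_eq_of_lt h6]; omega
  · have : x % m = x - m := by
      rw [Nat.mod_eq_sub_mod h6, Nat.mod_eq_of_lt (by omega)]
    rw [this]; omega

theorem fr_excl (a d k : ℕ) :
    ¬ (Fr (a % (d + 1) + (d + 1)) (2 * d + 1) k ∧ Fr (a % (d + 1)) (2 * d + 1) k) := by
  unfold Fr
  rintro ⟨h1, h2⟩
  rw [h1] at h2
  have e1 : 2 * d + 1 + 1 = 2 * (d + 1) := by ring
  have ha : a % (d + 1) < d + 1 := Nat.mod_lt _ (Nat.succ_pos _)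
  have e2 : (a % (d + 1) + (d + 1)) % (2 * d + 1 + 1) = a % (d + 1) + (d + 1) :=
    Nat.mod_eq_of_lt (by omega)
  have e3 : (a % (d + 1)) % (2 * d + 1 + 1) = a % (d + 1) := Nat.mod_eq_of_lt (by omega)
  rw [e2, e3] at h2
  omega

theorem Gd.split {c : ℕ} {D : List ℕ} {a d : ℕ} {h : List ℕ} (hg : Gd c D a d h) (e n v : ℕ)
    (h1 : ¬ Gd c (ent e n v 0 :: D) (a % (d + 1) + (d + 1)) (2 * d + 1) h) :
    Gd c (ent e n v 1 :: D) (a % (d + 1)) (2 * d + 1) h := by
  obtain ⟨g1, g2, g3⟩ := hg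
  refine ⟨g1, g2, ?_⟩
  have h1' : ¬ GF c (Fr (a % (d + 1) + (d + 1)) (2 * d + 1)) (Obj (ent e n v 0 :: D))
      (c - h.length) h := fun h2 => h1 ⟨g1, g2, h2⟩
  have k1 : ∀ h, Obj (ent e n v 0 :: D) h ↔ (Obj D h ∧ ¬ Ov e h n v) := by
    intro h
    unfold Obj Kp
    rw [List.forall_mem_cons]
    simp only [eE_ent, eN_ent, eV_ent, eS_ent]
    tauto
  have k2 : ∀ h, Obj (ent e n v 1 :: D) h ↔ (Obj D h ∧ Ov e h n v) := by
    intro h
    unfold Obj Kp
    rw [List.forall_mem_cons]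
    simp only [eE_ent, eN_ent, eV_ent, eS_ent]
    have : (1 : ℕ) ≠ 0 := by norm_num
    tauto
  rw [GF.congr (fun _ => Iff.rfl) k1] at h1'
  rw [GF.congr (fun _ => Iff.rfl) k2]
  exact GF.split (X := fun h => Ov e h n v) (fr_split a d) (fr_excl a d) _ h g3 h1'

/-- If neither refinement is good, then the third game decides the value `v`. -/
theorem Gd.decide {c : ℕ} {D : List ℕ} {a d : ℕ} {h : List ℕ} (hg : Gd c D a d h) (e n v : ℕ)
    (hv : v ≤ 1)
    (h1 : ¬ Gd c (ent e n v 0 :: D) (a % (d + 1) + (d + 1)) (2 * d + 1) h)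
    (h2 : ¬ Gd c (ent e n v 0 :: D) (a % (d + 1)) (2 * d + 1) h) :
    v = 1 ↔ Gd c (ent e n 1 1 :: D) (a % (d + 1)) (2 * d + 1) h := by
  constructor
  · rintro rfl
    exact hg.split e n 1 h1
  · intro h3
    by_contra hv1
    have hv0 : v = 0 := by omega
    subst hv0
    apply h2
    obtain ⟨g1, g2, g3⟩ := h3
    refine ⟨g1, g2, GF.mono ?_ _ _ g3⟩
    intro h hO
    unfold Obj at hO ⊢
    rw [List.forall_mem_cons] at hO ⊢
    refine ⟨?_, hO.2⟩
    have h4 := hO.1
    unfold Kp at h4 ⊢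
    simp only [eE_ent, eN_ent, eV_ent, eS_ent] at h4 ⊢
    refine ⟨fun _ h5 => ?_, fun h5 => absurd rfl h5⟩
    have := (h4.2 (by norm_num)).unique h5
    omega

/-! ### agreement on small positions -/

/-- the bit `m` of column `j` -/
def BitAt (h : List ℕ) (j m : ℕ) : Bool := (h.reverse.getD j 0).testBit m

theorem bitAt_cons (h : List ℕ) (y j m : ℕ) :
    BitAt (y :: h) j m = true ↔ (j = h.length ∧ y.testBit m = true) ∨
      (j < h.length ∧ BitAt h j m = true) := by
  unfold BitAt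
  rw [List.reverse_cons]
  rcases Nat.lt_trichotomy j h.length with hj | hj | hj
  · rw [List.getD_append _ _ _ _ (by rw [List.length_reverse]; omega)]
    have : j ≠ h.length := by omega
    simp [hj, this]
  · rw [List.getD_append_right _ _ _ _ (by rw [List.length_reverse]; omega), List.length_reverse, hj]
    simp
  · rw [List.getD_eq_default _ _ (by simp only [List.length_append, List.length_reverse, List.length_singleton]; omega)]
    have h1 : j ≠ h.length := by omega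
    have h2 : ¬ j < h.length := by omega
    simp [h1, h2]

theorem orc_agree {h h' : List ℕ} {K : ℕ} (hA : ∀ j < K, ∀ m < K, BitAt h j m = BitAt h' j m)
    {k : ℕ} (hk : k ≤ K) : orc h k = orc h' k := by
  unfold orc
  refine List.map_congr_left fun i hi => ?_
  rw [List.mem_range] at hi
  exact hA _ (lt_of_le_of_lt (Nat.unpair_left_le i) (by omega)) _
    (lt_of_le_of_lt (Nat.unpair_right_le i) (by omega))

theorem ov_agree {h h' : List ℕ} {K : ℕ} (hA : ∀ j < K, ∀ m < K, BitAt h j m = BitAt h' j m)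
    (hl : h.length = h'.length) (hK : h.length ≤ K) {e n v : ℕ} (ho : Ov e h n v) :
    Ov e h' n v := by
  obtain ⟨t, ht, ht1, ht2⟩ := ho
  have key : ∀ s ≤ t, val e h n s = val e h' n s := by
    intro s hs
    unfold val
    rw [orc_agree hA ((Nat.unpair_right_le s).trans (hs.trans (ht.trans hK)))]
  exact ⟨t, by omega, by rw [← key t le_rfl]; exact ht1,
    fun t' ht' => by rw [← key t' ht'.le]; exact ht2 t' ht'⟩

theorem evid_agree {h h' : List ℕ} {K : ℕ} (hA : ∀ j < K, ∀ m < K, BitAt h j m = BitAt h' j m)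
    (hl : h.length = h'.length) (hK : h.length ≤ K) {D : List ℕ} (ho : Evid D h) :
    Evid D h' := by
  obtain ⟨q, hq, hs, ho⟩ := ho
  exact ⟨q, hq, hs, ov_agree hA hl hK ho⟩

end Pool.Agent.TH745
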