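import Pool.Agent.TH745.Prim
import Pool.Agent.TH745.Game

set_option autoImplicit false

namespace Pool.Agent.TH745

open Encodable Denumerable

/-! ### Primitive recursiveness of the basic relations -/

theorem primrec_pow : Primrec₂ (fun a b : ℕ => a ^ b) := by
  have h := Primrec.nat_iff.2 Nat.Primrec.pow
  exact (h.comp (Primrec₂.natPair.comp Primrec.fst Primrec.snd)).of_eq (fun p => by simp)

theorem primrec_testBit : Primrec₂ (fun a b : ℕ => a.testBit b) := by
  have h : Primrec₂ (fun a b : ℕ => decide (a / 2 ^ b % 2 = 1)) := by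
    have h1 : Primrec₂ (fun a b : ℕ => a / 2 ^ b % 2) :=
      Primrec.nat_mod.comp (Primrec.nat_div.comp Primrec.fst
        (primrec_pow.comp (Primrec.const 2) Primrec.snd)) (Primrec.const 2)
    exact (Primrec.eq.comp h1 (Primrec.const 1)).decide
  exact h.of_eq (fun a b => (Nat.testBit_eq_decide_div_mod_eq).symm)

theorem primrec_orc : Primrec₂ orc := by
  unfold orc
  refine Primrec.list_map (Primrec.list_range.comp Primrec.snd) ?_
  refine primrec_testBit.comp ((Primrec.list_getD 0).comp (Primrec.list_reverse.comp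
    (Primrec.fst.comp Primrec.fst)) ?_) ?_
  · exact Primrec.fst.comp (Primrec.unpair.comp Primrec.snd)
  · exact Primrec.snd.comp (Primrec.unpair.comp Primrec.snd)

/-- the parameters: index, history, input, time -/
theorem primrec_val : Primrec (fun p : (ℕ × List ℕ × ℕ) × ℕ => val p.1.1 p.1.2.1 p.1.2.2 p.2) := by
  unfold val
  have he : Primrec (fun p : (ℕ × List ℕ × ℕ) × ℕ =>
      (Denumerable.ofNat Nat.Partrec.Code p.1.1)) :=
    (Primrec.ofNat Nat.Partrec.Code).comp (Primrec.fst.comp Primrec.fst)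
  have ht : Primrec (fun p : (ℕ × List ℕ × ℕ) × ℕ => p.2.unpair.1) :=
    Primrec.fst.comp (Primrec.unpair.comp Primrec.snd)
  have ht2 : Primrec (fun p : (ℕ × List ℕ × ℕ) × ℕ => p.2.unpair.2) :=
    Primrec.snd.comp (Primrec.unpair.comp Primrec.snd)
  have ho : Primrec (fun p : (ℕ × List ℕ × ℕ) × ℕ => orc p.1.2.1 p.2.unpair.2) :=
    primrec_orc.comp (Primrec.fst.comp (Primrec.snd.comp Primrec.fst)) ht2
  exact Nat.Partrec.Code.primrec_evaln.comp ((ht.pair he).pair
    (Primrec₂.natPair.comp (Primrec.encode.comp ho)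
      (Primrec.snd.comp (Primrec.snd.comp Primrec.fst))))

section prim
variable {α β : Type} [Primcodable α] [Primcodable β]

theorem pp_ex_mem {f : α → List β} {p : α → β → Prop} (hp : PrimrecRel p) (hf : Primrec f) :
    PrimrecPred fun a => ∃ b ∈ f a, p a b :=
  (PrimrecRel.exists_mem_list (R := fun b a => p a b) (hp.comp Primrec.snd Primrec.fst)).comp hf
    Primrec.id

theorem pp_all_mem {f : α → List β} {p : α → β → Prop} (hp : PrimrecRel p) (hf : Primrec f) :
    PrimrecPred fun a => ∀ b ∈ f a, p a b :=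
  (PrimrecRel.forall_mem_list (R := fun b a => p a b) (hp.comp Primrec.snd Primrec.fst)).comp hf
    Primrec.id

theorem pp_ex_lt {f : α → ℕ} {p : α → ℕ → Prop} (hp : PrimrecRel p) (hf : Primrec f) :
    PrimrecPred fun a => ∃ b < f a, p a b :=
  (pp_ex_mem hp (Primrec.list_range.comp hf)).of_eq (by simp)

theorem pp_all_lt {f : α → ℕ} {p : α → ℕ → Prop} (hp : PrimrecRel p) (hf : Primrec f) :
    PrimrecPred fun a => ∀ b < f a, p a b :=
  (pp_all_mem hp (Primrec.list_range.comp hf)).of_eq (by simp)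

theorem pp_imp {p q : α → Prop} (hp : PrimrecPred p) (hq : PrimrecPred q) :
    PrimrecPred fun a => p a → q a :=
  (hp.not.or hq).of_eq (fun a => by tauto)

end prim

theorem pp_ov : PrimrecPred (fun p : (ℕ × List ℕ × ℕ) × ℕ => Ov p.1.1 p.1.2.1 p.1.2.2 p.2) := by
  have h1 : PrimrecRel (fun (p : (ℕ × List ℕ × ℕ) × ℕ) (t : ℕ) =>
      val p.1.1 p.1.2.1 p.1.2.2 t = some p.2) := by
    refine Primrec.eq.comp ?_ (Primrec.option_some.comp (Primrec.snd.comp Primrec.fst))
    exact primrec_val.comp (g := fun x : ((ℕ × List ℕ × ℕ) × ℕ) × ℕ => (x.1.1, x.2))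
      ((Primrec.fst.comp Primrec.fst).pair Primrec.snd)
  have h2 : PrimrecRel (fun (p : ((ℕ × List ℕ × ℕ) × ℕ) × ℕ) (t : ℕ) =>
      val p.1.1.1 p.1.1.2.1 p.1.1.2.2 t = none) := by
    refine Primrec.eq.comp ?_ (Primrec.const none)
    exact primrec_val.comp (g := fun x : (((ℕ × List ℕ × ℕ) × ℕ) × ℕ) × ℕ => (x.1.1.1, x.2))
      ((Primrec.fst.comp (Primrec.fst.comp Primrec.fst)).pair Primrec.snd)
  have h3 : PrimrecRel (fun (p : (ℕ × List ℕ × ℕ) × ℕ) (t : ℕ) =>
      val p.1.1 p.1.2.1 p.1.2.2 t = some p.2 ∧ ∀ t' < t, val p.1.1 p.1.2.1 p.1.2.2 t' = none) :=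
    PrimrecPred.and h1 (pp_all_lt (α := ((ℕ × List ℕ × ℕ) × ℕ) × ℕ) h2 Primrec.snd)
  refine (pp_ex_lt (f := fun p : (ℕ × List ℕ × ℕ) × ℕ => p.1.2.1.length + 1) h3 ?_).of_eq ?_
  · exact Primrec.succ.comp (Primrec.list_length.comp (Primrec.fst.comp (Primrec.snd.comp
      Primrec.fst)))
  · intro p
    unfold Ov
    simp only [Nat.lt_succ_iff]

theorem primrec_eE : Primrec eE := Primrec.fst.comp Primrec.unpair
theorem primrec_eN : Primrec eN :=
  Primrec.fst.comp (Primrec.unpair.comp (Primrec.snd.comp Primrec.unpair))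
theorem primrec_eV : Primrec eV :=
  Primrec.fst.comp (Primrec.unpair.comp (Primrec.snd.comp (Primrec.unpair.comp
    (Primrec.snd.comp Primrec.unpair))))
theorem primrec_eS : Primrec eS :=
  Primrec.snd.comp (Primrec.unpair.comp (Primrec.snd.comp (Primrec.unpair.comp
    (Primrec.snd.comp Primrec.unpair))))

theorem pp_ov' {α : Type} [Primcodable α] {f : α → ℕ} {g : α → List ℕ} (hf : Primrec f)
    (hg : Primrec g) : PrimrecPred (fun a => Ov (eE (f a)) (g a) (eN (f a)) (eV (f a))) :=
  pp_ov.comp (f := fun a => ((eE (f a), g a, eN (f a)), eV (f a)))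
    (((primrec_eE.comp hf).pair (hg.pair (primrec_eN.comp hf))).pair (primrec_eV.comp hf))

theorem pp_kp : PrimrecRel Kp := by
  unfold Kp
  have h0 : PrimrecPred (fun p : ℕ × List ℕ => eS p.1 = 0) :=
    Primrec.eq.comp (primrec_eS.comp Primrec.fst) (Primrec.const 0)
  have h1 : PrimrecPred (fun p : ℕ × List ℕ => Ov (eE p.1) p.2 (eN p.1) (eV p.1)) :=
    pp_ov' Primrec.fst Primrec.snd
  exact PrimrecPred.and (pp_imp h0 h1.not) (pp_imp h0.not h1)

theorem pp_obj : PrimrecRel Obj := by
  unfold Obj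
  exact pp_all_mem (α := List ℕ × List ℕ) (p := fun x q => Kp q x.2)
    (pp_kp.comp Primrec.snd (Primrec.snd.comp Primrec.fst)) Primrec.fst

theorem pp_evid : PrimrecRel Evid := by
  unfold Evid
  refine pp_ex_mem (α := List ℕ × List ℕ) (p := fun x q => eS q = 0 ∧
    Ov (eE q) x.2 (eN q) (eV q)) ?_ Primrec.fst
  exact PrimrecPred.and (Primrec.eq.comp (primrec_eS.comp Primrec.snd) (Primrec.const 0))
    (pp_ov' Primrec.snd (Primrec.snd.comp Primrec.fst))

theorem pp_bitAt : PrimrecPred (fun p : List ℕ × ℕ × ℕ => BitAt p.1 p.2.1 p.2.2 = true) := by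
  unfold BitAt
  refine Primrec.eq.comp (primrec_testBit.comp ((Primrec.list_getD 0).comp
    (Primrec.list_reverse.comp Primrec.fst) (Primrec.fst.comp Primrec.snd))
    (Primrec.snd.comp Primrec.snd)) (Primrec.const true)

/-! ### coded versions -/

/-- decoding of histories -/
def dl (w : ℕ) : List ℕ := ofNat (List ℕ) w

theorem primrec_dl : Primrec dl := Primrec.ofNat _

@[simp] theorem dl_zero : dl 0 = [] := by simp [dl]

@[simp] theorem dl_encode (l : List ℕ) : dl (encode l) = l := by simp [dl]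

@[simp] theorem encode_dl (w : ℕ) : encode (dl w) = w := by simp [dl]

theorem dl_cons (y w : ℕ) : dl (Nat.pair y w + 1) = y :: dl w := by
  rw [show Nat.pair y w + 1 = encode (y :: dl w) by
    rw [Encodable.encode_list_cons, encode_dl]; rfl, dl_encode]

/-- the data number -/
def dU (D a d : ℕ) : ℕ := Nat.pair D (Nat.pair a d)
def uD (u : ℕ) : List ℕ := dl u.unpair.1
def uA (u : ℕ) : ℕ := u.unpair.2.unpair.1
def uS (u : ℕ) : ℕ := u.unpair.2.unpair.2

theorem primrec_uD : Primrec uD := primrec_dl.comp (Primrec.fst.comp Primrec.unpair)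
theorem primrec_uA : Primrec uA :=
  Primrec.fst.comp (Primrec.unpair.comp (Primrec.snd.comp Primrec.unpair))
theorem primrec_uS : Primrec uS :=
  Primrec.snd.comp (Primrec.unpair.comp (Primrec.snd.comp Primrec.unpair))

/-- length -/
def Len (w k : ℕ) : Prop := (dl w).length = k
/-- all entries are below `c` -/
def Ent (c w : ℕ) : Prop := ∀ y ∈ dl w, y < c
/-- bits -/
def Bit (x m : ℕ) : Prop := x.testBit m = true
def BitR (w j m : ℕ) : Prop := BitAt (dl w) j m = true
def EvR (u w : ℕ) : Prop := Evid (uD u) (dl w)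
def ObR (u w : ℕ) : Prop := Obj (uD u) (dl w)
def FrR (u k : ℕ) : Prop := Fr (uA u) (uS u) k
/-- the coded game relation -/
def GR (c u w : ℕ) : Prop := Gd c (uD u) (uA u) (uS u) (dl w)

theorem defLen : Def (fun x => Len (x 0) (x 1)) :=
  Def.prim2 (R := Len) (Primrec.eq.comp (Primrec.list_length.comp (primrec_dl.comp Primrec.fst))
    Primrec.snd) (DefF.var 0) (DefF.var 1)

theorem defEnt : Def (fun x => Ent (x 0) (x 1)) := by
  refine Def.prim2 (R := Ent) ?_ (DefF.var 0) (DefF.var 1)
  unfold Ent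
  exact pp_all_mem (α := ℕ × ℕ) (p := fun x y => y < x.1)
    (Primrec.nat_lt.comp Primrec.snd (Primrec.fst.comp Primrec.fst)) (primrec_dl.comp Primrec.snd)

theorem defBit : Def (fun x => Bit (x 0) (x 1)) :=
  Def.prim2 (R := Bit) (Primrec.eq.comp primrec_testBit (Primrec.const true))
    (DefF.var 0) (DefF.var 1)

theorem defBitR : Def (fun x => BitR (x 0) (x 1) (x 2)) :=
  Def.prim3 (R := BitR) (pp_bitAt.comp (f := fun p : ℕ × ℕ × ℕ => (dl p.1, p.2.1, p.2.2))
    ((primrec_dl.comp Primrec.fst).pair Primrec.snd)) (DefF.var 0) (DefF.var 1) (DefF.var 2)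

theorem defEvR : Def (fun x => EvR (x 0) (x 1)) :=
  Def.prim2 (R := EvR) (pp_evid.comp (primrec_uD.comp Primrec.fst) (primrec_dl.comp Primrec.snd))
    (DefF.var 0) (DefF.var 1)

theorem defObR : Def (fun x => ObR (x 0) (x 1)) :=
  Def.prim2 (R := ObR) (pp_obj.comp (primrec_uD.comp Primrec.fst) (primrec_dl.comp Primrec.snd))
    (DefF.var 0) (DefF.var 1)

theorem defFrR : Def (fun x => FrR (x 0) (x 1)) :=
  Def.prim2 (R := FrR) (Primrec.eq.comp (Primrec.nat_mod.comp Primrec.snd
      (Primrec.succ.comp (primrec_uS.comp Primrec.fst)))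
    (Primrec.nat_mod.comp (primrec_uA.comp Primrec.fst)
      (Primrec.succ.comp (primrec_uS.comp Primrec.fst)))) (DefF.var 0) (DefF.var 1)

theorem DefF.cons {g₁ g₂ : (ℕ → ℕ) → ℕ} (hg₁ : DefF g₁) (hg₂ : DefF g₂) :
    DefF (fun x => Nat.pair (g₁ x) (g₂ x) + 1) :=
  DefF.add (DefF.pair hg₁ hg₂) (DefF.const 1)

/-! ### bounded comprehension -/

theorem exists_bits (p : ℕ → Prop) (n : ℕ) : ∃ x < 2 ^ n, ∀ m < n, (Bit x m ↔ p m) := by
  classical
  induction n with
  | zero => exact ⟨0, by simp, by simp⟩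
  | succ n ih =>
    obtain ⟨x, hx, h⟩ := ih
    by_cases hp : p n
    · refine ⟨2 ^ n + x, by rw [pow_succ]; omega, fun m hm => ?_⟩
      unfold Bit at h ⊢
      rcases Nat.lt_succ_iff_lt_or_eq.1 hm with hm' | rfl
      · rw [Nat.testBit_two_pow_add_gt hm']
        exact h m hm'
      · rw [Nat.testBit_two_pow_add_eq, Nat.testBit_lt_two_pow hx]
        simp [hp]
    · refine ⟨x, by rw [pow_succ]; omega, fun m hm => ?_⟩
      rcases Nat.lt_succ_iff_lt_or_eq.1 hm with hm' | rfl
      · exact h m hm'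
      · unfold Bit
        rw [Nat.testBit_lt_two_pow hx]
        simp [hp]

/-- codes of bounded histories are bounded -/
theorem exists_bound (c k : ℕ) : ∃ N, ∀ w, Ent c w → (dl w).length ≤ k → w < N := by
  induction k with
  | zero =>
    refine ⟨1, fun w _ h => ?_⟩
    have h0 : dl w = [] := List.length_eq_zero_iff.1 (by omega)
    have h1 : encode (dl w) = w := encode_dl w
    rw [h0] at h1
    simp at h1
    omega
  | succ k ih =>
    obtain ⟨N, hN⟩ := ih
    refine ⟨Nat.pair c N + 2, fun w h1 h2 => ?_⟩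
    rcases hl : dl w with _ | ⟨y, l⟩
    · have h1 : encode (dl w) = w := encode_dl w
      rw [hl] at h1
      simp at h1
      omega
    · have hw : w = Nat.pair y (encode l) + 1 := by
        rw [← encode_dl w, hl, Encodable.encode_list_cons]; rfl
      have hy : y < c := h1 y (by rw [hl]; simp)
      have hlN : encode l < N := by
        refine hN _ ?_ ?_
        · intro z hz
          rw [dl_encode] at hz
          exact h1 z (by rw [hl]; simp [hz])
        · rw [dl_encode]
          rw [hl] at h2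
          simp only [List.length_cons] at h2
          omega
      have : Nat.pair y (encode l) < Nat.pair c N := by
        calc Nat.pair y (encode l) < Nat.pair c (encode l) := Nat.pair_lt_pair_left _ hy
          _ < Nat.pair c N := Nat.pair_lt_pair_right _ hlN
      omega

/-! ### the game relation is definable -/

/-- validity of the table `T` -/
def Tb (c u T : ℕ) : Prop :=
  (∀ w, Ent c w → ((dl w).length = c → (Bit T w ↔ ObR u w)) ∧
    ((dl w).length < c → (Bit T w ↔
      ((FrR u (dl w).length → ∀ y, y < c → Bit T (Nat.pair y w + 1)) ∧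
       (¬ FrR u (dl w).length → ∃ y, y < c ∧ Bit T (Nat.pair y w + 1))))))

theorem Tb.sound {c u T : ℕ} (hT : Tb c u T) (r : ℕ) : ∀ w, Ent c w → (dl w).length + r = c →
    (Bit T w ↔ GF c (Fr (uA u) (uS u)) (Obj (uD u)) r (dl w)) := by
  induction r with
  | zero =>
    intro w hw hl
    exact (hT w hw).1 (by omega)
  | succ r ih =>
    intro w hw hl
    rw [(hT w hw).2 (by omega)]
    have key : ∀ y < c, (Bit T (Nat.pair y w + 1) ↔
        GF c (Fr (uA u) (uS u)) (Obj (uD u)) r (y :: dl w)) := by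
      intro y hy
      have h1 := ih (Nat.pair y w + 1) (by
        intro z hz
        rw [dl_cons] at hz
        rcases List.mem_cons.1 hz with rfl | hz
        · exact hy
        · exact hw z hz) (by rw [dl_cons, List.length_cons]; omega)
      rw [dl_cons] at h1
      exact h1
    show _ ↔ ((Fr (uA u) (uS u) (dl w).length → ∀ y < c, _) ∧ (¬ Fr (uA u) (uS u) (dl w).length →
      ∃ y < c, _))
    refine and_congr (imp_congr Iff.rfl ?_) (imp_congr Iff.rfl ?_)
    · exact forall_congr' fun y => forall_congr' fun hy => key y hy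
    · exact exists_congr fun y => and_congr_right fun hy => key y hy

theorem exists_Tb (c u : ℕ) : ∃ T, Tb c u T := by
  obtain ⟨N, hN⟩ := exists_bound c c
  obtain ⟨T, _, hT⟩ := exists_bits (fun w => GF c (Fr (uA u) (uS u)) (Obj (uD u))
    (c - (dl w).length) (dl w)) N
  refine ⟨T, fun w hw => ⟨fun hl => ?_, fun hl => ?_⟩⟩
  · rw [hT w (hN w hw (by omega))]
    have : c - (dl w).length = 0 := by omega
    rw [this]
    rfl
  · rw [hT w (hN w hw (by omega))]
    obtain ⟨r, hr⟩ : ∃ r, c - (dl w).length = r + 1 := ⟨c - (dl w).length - 1, by omega⟩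
    rw [hr]
    have key : ∀ y < c, (Bit T (Nat.pair y w + 1) ↔
        GF c (Fr (uA u) (uS u)) (Obj (uD u)) r (y :: dl w)) := by
      intro y hy
      rw [hT (Nat.pair y w + 1) (hN _ (by
        intro z hz
        rw [dl_cons] at hz
        rcases List.mem_cons.1 hz with rfl | hz
        · exact hy
        · exact hw z hz) (by rw [dl_cons, List.length_cons]; omega)), dl_cons]
      have : c - (y :: dl w).length = r := by rw [List.length_cons]; omega
      rw [this]
    show ((Fr (uA u) (uS u) (dl w).length → ∀ y < c, _) ∧ (¬ Fr (uA u) (uS u) (dl w).length →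
      ∃ y < c, _)) ↔ _
    refine and_congr (imp_congr Iff.rfl ?_) (imp_congr Iff.rfl ?_)
    · exact forall_congr' fun y => forall_congr' fun hy => (key y hy).symm
    · exact exists_congr fun y => and_congr_right fun hy => (key y hy).symm

theorem gr_iff (c u w : ℕ) : GR c u w ↔
    (Ent c w ∧ (dl w).length ≤ c ∧ ∃ T, Tb c u T ∧ Bit T w) := by
  unfold GR Gd
  constructor
  · rintro ⟨h1, h2, h3⟩
    obtain ⟨T, hT⟩ := exists_Tb c u
    exact ⟨h1, h2, T, hT, (hT.sound (c - (dl w).length) w h1 (by omega)).2 h3⟩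
  · rintro ⟨h1, h2, T, hT, h3⟩
    exact ⟨h1, h2, (hT.sound (c - (dl w).length) w h1 (by omega)).1 h3⟩

theorem defF_len {g : (ℕ → ℕ) → ℕ} (hg : DefF g) : DefF (fun x => (dl (g x)).length) :=
  DefF.prim (f := fun w => (dl w).length) (Primrec.list_length.comp primrec_dl) hg

theorem defTb : Def (fun x => Tb (x 0) (x 1) (x 2)) := by
  -- inner variables: w = 0, c = 1, u = 2, T = 3
  have h1 : Def (fun x => Ent (x 1) (x 0)) := Def.r2 defEnt (DefF.var 1) (DefF.var 0)
  have h2 : Def (fun x => (dl (x 0)).length = x 1) :=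
    Def.eqF (defF_len (DefF.var 0)) (DefF.var 1)
  have h3 : Def (fun x => (dl (x 0)).length < x 1) :=
    Def.lt (defF_len (DefF.var 0)) (DefF.var 1)
  have h4 : Def (fun x => Bit (x 3) (x 0)) := Def.r2 defBit (DefF.var 3) (DefF.var 0)
  have h5 : Def (fun x => ObR (x 2) (x 0)) := Def.r2 defObR (DefF.var 2) (DefF.var 0)
  have h6 : Def (fun x => FrR (x 2) (dl (x 0)).length) :=
    Def.r2 defFrR (DefF.var 2) (defF_len (DefF.var 0))
  -- y = 0, w = 1, c = 2, u = 3, T = 4
  have h7 : Def (fun x => Bit (x 4) (Nat.pair (x 0) (x 1) + 1)) :=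
    Def.r2 defBit (DefF.var 4) (DefF.cons (DefF.var 0) (DefF.var 1))
  have h8 : Def (fun x => x 0 < x 2) := Def.lt (DefF.var 0) (DefF.var 2)
  have h9 : Def (fun x => ∀ y, y < x 1 → Bit (x 3) (Nat.pair y (x 0) + 1)) :=
    Def.all (h8.imp h7)
  have h10 : Def (fun x => ∃ y, y < x 1 ∧ Bit (x 3) (Nat.pair y (x 0) + 1)) :=
    Def.ex (h8.and h7)
  exact Def.all (h1.imp ((h2.imp (h4.iff h5)).and
    (h3.imp (h4.iff ((h6.imp h9).and (h6.neg.imp h10))))))

theorem defGR : Def (fun x => GR (x 0) (x 1) (x 2)) := by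
  have h1 : Def (fun x => Ent (x 0) (x 2)) := Def.r2 defEnt (DefF.var 0) (DefF.var 2)
  have h2 : Def (fun x => (dl (x 2)).length ≤ x 0) :=
    Def.le (defF_len (DefF.var 2)) (DefF.var 0)
  have h3 : Def (fun x => ∃ T, Tb (x 0) (x 1) T ∧ Bit T (x 2)) :=
    Def.ex ((Def.r3 defTb (DefF.var 1) (DefF.var 2) (DefF.var 0)).and
      (Def.r2 defBit (DefF.var 0) (DefF.var 3)))
  exact (h1.and (h2.and h3)).congr (fun x => (gr_iff (x 0) (x 1) (x 2)).symm)

end Pool.Agent.TH745
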