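import Mathlib

set_option autoImplicit false
open FirstOrder FirstOrder.Language

namespace Pool.Agent.TH745

/-- The relational language of arithmetic used by the frozen statement: two ternary relations. -/
abbrev LS : Language := Language.mk (fun _ => Empty) (fun a => Fin (if a = 3 then 2 else 0))

/-- `A` is the relational presentation of the pair of operations `p`, `q`. -/
def IsAr {M : Type} (A : LS.Structure M) (p q : M → M → M) : Prop :=
  ∀ (n : ℕ) (r : LS.Relations n) (xs : Fin n → M),
    @Structure.RelMap LS M A n r xs ↔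
      ∃ i j k : Fin n, i.val = 0 ∧ j.val = 1 ∧ k.val = 2 ∧
        ((Fin.val r = 0 ∧ p (xs i) (xs j) = xs k) ∨ (Fin.val r = 1 ∧ q (xs i) (xs j) = xs k))

/-- Formulas with de Bruijn indices. -/
inductive Fm : Type
  | eq (i j : ℕ) : Fm
  | add (i j k : ℕ) : Fm
  | mul (i j k : ℕ) : Fm
  | neg (φ : Fm) : Fm
  | and (φ ψ : Fm) : Fm
  | ex (φ : Fm) : Fm

/-- Prepend to an assignment. -/
def cons {α : Type} (y : α) (x : ℕ → α) : ℕ → α
  | 0 => y
  | n + 1 => x n

@[simp] theorem cons_zero {α : Type} (y : α) (x : ℕ → α) : cons y x 0 = y := rfl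
@[simp] theorem cons_succ {α : Type} (y : α) (x : ℕ → α) (n : ℕ) : cons y x (n + 1) = x n := rfl
@[simp] theorem cons_one {α : Type} (y : α) (x : ℕ → α) : cons y x 1 = x 0 := rfl

/-- Evaluation of formulas. -/
def ev {α : Type} (P Q : α → α → α) : Fm → (ℕ → α) → Prop
  | .eq i j, x => x i = x j
  | .add i j k, x => P (x i) (x j) = x k
  | .mul i j k, x => Q (x i) (x j) = x k
  | .neg φ, x => ¬ ev P Q φ x
  | .and φ ψ, x => ev P Q φ x ∧ ev P Q ψ x
  | .ex φ, x => ∃ y, ev P Q φ (cons y x)

/-- lift a renaming under a binder -/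
def lft (f : ℕ → ℕ) : ℕ → ℕ
  | 0 => 0
  | n + 1 => f n + 1

/-- renaming of variables -/
def ren : (ℕ → ℕ) → Fm → Fm
  | f, .eq i j => .eq (f i) (f j)
  | f, .add i j k => .add (f i) (f j) (f k)
  | f, .mul i j k => .mul (f i) (f j) (f k)
  | f, .neg φ => .neg (ren f φ)
  | f, .and φ ψ => .and (ren f φ) (ren f ψ)
  | f, .ex φ => .ex (ren (lft f) φ)

theorem cons_comp_lft {α : Type} (y : α) (x : ℕ → α) (f : ℕ → ℕ) :
    (fun i => cons y x (lft f i)) = cons y (fun i => x (f i)) := by
  funext i
  cases i <;> rfl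

theorem ev_ren {α : Type} (P Q : α → α → α) (φ : Fm) :
    ∀ (f : ℕ → ℕ) (x : ℕ → α), ev P Q (ren f φ) x ↔ ev P Q φ (fun i => x (f i)) := by
  induction φ with
  | eq i j => intro f x; rfl
  | add i j k => intro f x; rfl
  | mul i j k => intro f x; rfl
  | neg φ ih => intro f x; exact not_congr (ih f x)
  | and φ ψ ih1 ih2 => intro f x; exact and_congr (ih1 f x) (ih2 f x)
  | ex φ ih =>
    intro f x
    show (∃ y, ev P Q (ren (lft f) φ) (cons y x)) ↔ (∃ y, ev P Q φ (cons y (fun i => x (f i))))
    refine exists_congr fun y => ?_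
    rw [ih (lft f) (cons y x), cons_comp_lft]

/-- a bound for the free variables -/
def bd : Fm → ℕ
  | .eq i j => max (i + 1) (j + 1)
  | .add i j k => max (max (i + 1) (j + 1)) (k + 1)
  | .mul i j k => max (max (i + 1) (j + 1)) (k + 1)
  | .neg φ => bd φ
  | .and φ ψ => max (bd φ) (bd ψ)
  | .ex φ => bd φ

theorem ev_congr {α : Type} (P Q : α → α → α) (φ : Fm) :
    ∀ (x y : ℕ → α), (∀ i < bd φ, x i = y i) → (ev P Q φ x ↔ ev P Q φ y) := by
  induction φ with
  | eq i j =>
    intro x y h
    simp only [bd, lt_max_iff] at h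
    simp only [ev, h i (by omega), h j (by omega)]
  | add i j k =>
    intro x y h
    simp only [bd, lt_max_iff] at h
    simp only [ev, h i (by omega), h j (by omega), h k (by omega)]
  | mul i j k =>
    intro x y h
    simp only [bd, lt_max_iff] at h
    simp only [ev, h i (by omega), h j (by omega), h k (by omega)]
  | neg φ ih => intro x y h; exact not_congr (ih x y h)
  | and φ ψ ih1 ih2 =>
    intro x y h
    simp only [bd, lt_max_iff] at h
    exact and_congr (ih1 x y fun i hi => h i (Or.inl hi)) (ih2 x y fun i hi => h i (Or.inr hi))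
  | ex φ ih =>
    intro x y h
    refine exists_congr fun z => ih _ _ fun i hi => ?_
    cases i with
    | zero => rfl
    | succ i => exact h i (by simp only [bd]; omega)

/-! ### translation to Mathlib's formulas -/

theorem relmap_add {M : Type} (A : LS.Structure M) (p q : M → M → M) (hA : IsAr A p q)
    (a b c : M) :
    @Structure.RelMap LS M A 3 (⟨0, by decide⟩ : Fin 2) ![a, b, c] ↔ p a b = c := by
  rw [hA]
  constructor
  · rintro ⟨i, j, k, hi, hj, hk, h⟩
    have hi' : i = 0 := Fin.ext hi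
    have hj' : j = 1 := Fin.ext hj
    have hk' : k = 2 := Fin.ext hk
    subst hi' hj' hk'
    rcases h with ⟨_, h⟩ | ⟨h, _⟩
    · exact h
    · exact absurd h (by decide)
  · intro h
    exact ⟨0, 1, 2, rfl, rfl, rfl, Or.inl ⟨rfl, h⟩⟩

theorem relmap_mul {M : Type} (A : LS.Structure M) (p q : M → M → M) (hA : IsAr A p q)
    (a b c : M) :
    @Structure.RelMap LS M A 3 (⟨1, by decide⟩ : Fin 2) ![a, b, c] ↔ q a b = c := by
  rw [hA]
  constructor
  · rintro ⟨i, j, k, hi, hj, hk, h⟩
    have hi' : i = 0 := Fin.ext hi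
    have hj' : j = 1 := Fin.ext hj
    have hk' : k = 2 := Fin.ext hk
    subst hi' hj' hk'
    rcases h with ⟨h, _⟩ | ⟨_, h⟩
    · exact absurd h (by decide)
    · exact h
  · intro h
    exact ⟨0, 1, 2, rfl, rfl, rfl, Or.inr ⟨rfl, h⟩⟩

/-- the compatibility of assignments -/
def Comp {α : Type} (n : ℕ) (v : Fin n → α) (x : ℕ → α) : Prop :=
  ∀ j : Fin n, v j = x (n - 1 - j.val)

theorem comp_snoc {α : Type} (n : ℕ) (v : Fin n → α) (x : ℕ → α) (h : Comp n v x) (y : α) :
    Comp (n + 1) (Fin.snoc v y : Fin (n + 1) → α) (cons y x) := by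
  intro j
  refine Fin.lastCases ?_ (fun j => ?_) j
  · simp
  · have := h j
    simp only [Fin.snoc_castSucc, this]
    have h2 : n + 1 - 1 - (Fin.castSucc j).val = (n - 1 - j.val) + 1 := by
      simp only [Fin.val_castSucc]; omega
    rw [h2]; rfl

/-- The term for variable `i` at level `n` (for `i < n`). -/
def vr (n i : ℕ) (h : i < n) : LS.Term (Empty ⊕ Fin n) :=
  Term.var (Sum.inr ⟨n - 1 - i, by omega⟩)

theorem comp_vr {α : Type} (n : ℕ) (v : Fin n → α) (x : ℕ → α) (h : Comp n v x) (i : ℕ)
    (hi : i < n) : v ⟨n - 1 - i, by omega⟩ = x i := by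
  rw [h]
  congr 1
  simp only
  omega

theorem exists_tr {M : Type} (A : LS.Structure M) (p q : M → M → M) (hA : IsAr A p q)
    {N : Type} (B : LS.Structure N) (p' q' : N → N → N) (hB : IsAr B p' q') (φ : Fm) :
    ∀ n, bd φ ≤ n → ∃ ψ : LS.BoundedFormula Empty n,
      (∀ (v : Fin n → M) (x : ℕ → M), Comp n v x → (ψ.Realize default v ↔ ev p q φ x)) ∧
      (∀ (v : Fin n → N) (x : ℕ → N), Comp n v x → (ψ.Realize default v ↔ ev p' q' φ x)) := by
  induction φ with
  | eq i j =>
    intro n hn
    simp only [bd, max_le_iff] at hn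
    refine ⟨(vr n i (by omega)).bdEqual (vr n j (by omega)), ?_, ?_⟩
    · intro v x h
      simp only [BoundedFormula.realize_bdEqual, vr, Term.realize_var, Sum.elim_inr, ev,
        comp_vr n v x h _ hn.1, comp_vr n v x h _ hn.2]
    · intro v x h
      simp only [BoundedFormula.realize_bdEqual, vr, Term.realize_var, Sum.elim_inr, ev,
        comp_vr n v x h _ hn.1, comp_vr n v x h _ hn.2]
  | add i j k =>
    intro n hn
    simp only [bd, max_le_iff] at hn
    obtain ⟨⟨hi, hj⟩, hk⟩ := hn
    refine ⟨Relations.boundedFormula (L := LS) (n := 3) (⟨0, by decide⟩ : Fin 2)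
      ![vr n i hi, vr n j hj, vr n k hk], ?_, ?_⟩
    · intro v x h
      rw [BoundedFormula.realize_rel]
      have : (fun l => Term.realize (Sum.elim (default : Empty → M) v)
          ((![vr n i hi, vr n j hj, vr n k hk] : Fin 3 → _) l)) = ![x i, x j, x k] := by
        funext l
        fin_cases l
        · exact comp_vr n v x h _ hi
        · exact comp_vr n v x h _ hj
        · exact comp_vr n v x h _ hk
      rw [this]
      exact relmap_add A p q hA _ _ _
    · intro v x h
      rw [BoundedFormula.realize_rel]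
      have : (fun l => Term.realize (Sum.elim (default : Empty → N) v)
          ((![vr n i hi, vr n j hj, vr n k hk] : Fin 3 → _) l)) = ![x i, x j, x k] := by
        funext l
        fin_cases l
        · exact comp_vr n v x h _ hi
        · exact comp_vr n v x h _ hj
        · exact comp_vr n v x h _ hk
      rw [this]
      exact relmap_add B p' q' hB _ _ _
  | mul i j k =>
    intro n hn
    simp only [bd, max_le_iff] at hn
    obtain ⟨⟨hi, hj⟩, hk⟩ := hn
    refine ⟨Relations.boundedFormula (L := LS) (n := 3) (⟨1, by decide⟩ : Fin 2)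
      ![vr n i hi, vr n j hj, vr n k hk], ?_, ?_⟩
    · intro v x h
      rw [BoundedFormula.realize_rel]
      have : (fun l => Term.realize (Sum.elim (default : Empty → M) v)
          ((![vr n i hi, vr n j hj, vr n k hk] : Fin 3 → _) l)) = ![x i, x j, x k] := by
        funext l
        fin_cases l
        · exact comp_vr n v x h _ hi
        · exact comp_vr n v x h _ hj
        · exact comp_vr n v x h _ hk
      rw [this]
      exact relmap_mul A p q hA _ _ _
    · intro v x h
      rw [BoundedFormula.realize_rel]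
      have : (fun l => Term.realize (Sum.elim (default : Empty → N) v)
          ((![vr n i hi, vr n j hj, vr n k hk] : Fin 3 → _) l)) = ![x i, x j, x k] := by
        funext l
        fin_cases l
        · exact comp_vr n v x h _ hi
        · exact comp_vr n v x h _ hj
        · exact comp_vr n v x h _ hk
      rw [this]
      exact relmap_mul B p' q' hB _ _ _
  | neg φ ih =>
    intro n hn
    obtain ⟨ψ, h1, h2⟩ := ih n hn
    exact ⟨ψ.not, fun v x h => not_congr (h1 v x h), fun v x h => not_congr (h2 v x h)⟩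
  | and φ χ ih1 ih2 =>
    intro n hn
    simp only [bd, max_le_iff] at hn
    obtain ⟨ψ, h1, h2⟩ := ih1 n hn.1
    obtain ⟨ψ', h1', h2'⟩ := ih2 n hn.2
    refine ⟨ψ ⊓ ψ', fun v x h => ?_, fun v x h => ?_⟩
    · rw [BoundedFormula.realize_inf]; exact and_congr (h1 v x h) (h1' v x h)
    · rw [BoundedFormula.realize_inf]; exact and_congr (h2 v x h) (h2' v x h)
  | ex φ ih =>
    intro n hn
    simp only [bd] at hn
    obtain ⟨ψ, h1, h2⟩ := ih (n + 1) (by omega)
    refine ⟨ψ.ex, fun v x h => ?_, fun v x h => ?_⟩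
    · rw [BoundedFormula.realize_ex]
      exact exists_congr fun y => h1 _ _ (comp_snoc n v x h y)
    · rw [BoundedFormula.realize_ex]
      exact exists_congr fun y => h2 _ _ (comp_snoc n v x h y)

theorem exists_comp {α : Type} (z : α) (n : ℕ) (v : Fin n → α) : ∃ x : ℕ → α, Comp n v x := by
  refine ⟨fun i => if h : n - 1 - i < n then v ⟨n - 1 - i, h⟩ else z, fun j => ?_⟩
  have hj := j.2
  have h : n - 1 - (n - 1 - j.val) < n := by omega
  show v j = if h : n - 1 - (n - 1 - j.val) < n then v ⟨n - 1 - (n - 1 - j.val), h⟩ else z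
  rw [dif_pos h]
  congr 1
  apply Fin.ext
  simp only
  omega

/-- Transfer of universal closures along elementary equivalence. -/
theorem transfer_of_equiv {M : Type} (A : LS.Structure M) (p q : M → M → M) (hA : IsAr A p q)
    (B : LS.Structure ℕ) (p' q' : ℕ → ℕ → ℕ) (hB : IsAr B p' q')
    (hE : LS.ElementarilyEquivalent M ℕ) (φ : Fm) (h : ∀ x : ℕ → ℕ, ev p' q' φ x) :
    ∀ x : ℕ → M, ev p q φ x := by
  obtain ⟨ψ, h1, h2⟩ := exists_tr A p q hA B p' q' hB φ (bd φ) le_rfl
  have hN : ℕ ⊨ (ψ.alls : LS.Sentence) := by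
    unfold Sentence.Realize
    erw [BoundedFormula.realize_alls]
    intro xs
    obtain ⟨x, hx⟩ := exists_comp 0 _ xs
    have := (h2 xs x hx).2 (h x)
    convert this
  have hM : M ⊨ (ψ.alls : LS.Sentence) := (elementarilyEquivalent_iff.1 hE ψ.alls).2 hN
  unfold Sentence.Realize at hM
  erw [BoundedFormula.realize_alls] at hM
  intro x
  have h3 := hM (fun j => x (bd φ - 1 - j.val))
  refine (h1 (fun j => x (bd φ - 1 - j.val)) x (fun j => rfl)).1 ?_
  convert h3

/-! ### definable sets -/

theorem exists_rt {M : Type} (A : LS.Structure M) (p q : M → M → M) (hA : IsAr A p q)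
    (n : ℕ) (ψ : LS.BoundedFormula (Fin 1) n) :
    ∃ φ : Fm, ∀ (w : Fin 1 → M) (v : Fin n → M) (x : ℕ → M), Comp n v x → x n = w 0 →
      (ev p q φ x ↔ ψ.Realize w v) := by
  have hterm : ∀ (n : ℕ) (t : LS.Term (Fin 1 ⊕ Fin n)), ∃ i : ℕ,
      ∀ (w : Fin 1 → M) (v : Fin n → M) (x : ℕ → M), Comp n v x → x n = w 0 →
        x i = t.realize (Sum.elim w v) := by
    intro n t
    cases t with
    | var s =>
      rcases s with s | j
      · refine ⟨n, fun w v x _ h => ?_⟩
        have hs : s = 0 := Subsingleton.elim _ _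
        subst hs
        simpa using h
      · refine ⟨n - 1 - j.val, fun w v x h _ => ?_⟩
        simp only [Term.realize_var, Sum.elim_inr]
        exact (h j).symm
    | func f _ => exact f.elim
  induction ψ with
  | falsum =>
    exact ⟨.neg (.eq 0 0), fun w v x _ _ => by simp [ev, BoundedFormula.Realize]⟩
  | equal t₁ t₂ =>
    obtain ⟨i, hi⟩ := hterm _ t₁
    obtain ⟨j, hj⟩ := hterm _ t₂
    refine ⟨.eq i j, fun w v x h h' => ?_⟩
    simp only [ev, BoundedFormula.Realize, hi w v x h h', hj w v x h h']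
  | rel R ts =>
    rename_i n l
    by_cases hl : l = 3
    · subst hl
      obtain ⟨i, hi⟩ := hterm _ (ts 0)
      obtain ⟨j, hj⟩ := hterm _ (ts 1)
      obtain ⟨k, hk⟩ := hterm _ (ts 2)
      have key : ∀ (w : Fin 1 → M) (v : Fin n → M) (x : ℕ → M), Comp n v x → x n = w 0 →
          (fun l => Term.realize (Sum.elim w v) (ts l)) = ![x i, x j, x k] := by
        intro w v x h h'
        funext l
        fin_cases l
        · exact (hi w v x h h').symm
        · exact (hj w v x h h').symm
        · exact (hk w v x h h').symm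
      rcases R with ⟨r, hr⟩
      have hr' : r = 0 ∨ r = 1 := by
        have : r < 2 := hr
        omega
      rcases hr' with rfl | rfl
      · refine ⟨.add i j k, fun w v x h h' => ?_⟩
        show _ ↔ @Structure.RelMap LS M A 3 _ _
        rw [key w v x h h']
        exact (relmap_add A p q hA _ _ _).symm
      · refine ⟨.mul i j k, fun w v x h h' => ?_⟩
        show _ ↔ @Structure.RelMap LS M A 3 _ _
        rw [key w v x h h']
        exact (relmap_mul A p q hA _ _ _).symm
    · exfalso
      have h0 : (if l = 3 then 2 else 0) = 0 := if_neg hl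
      have h1 : (R.val : ℕ) < (if l = 3 then 2 else 0) := R.2
      exact absurd (lt_of_lt_of_eq h1 h0) (Nat.not_lt_zero _)
  | imp f₁ f₂ ih1 ih2 =>
    obtain ⟨φ, h1⟩ := ih1
    obtain ⟨χ, h2⟩ := ih2
    refine ⟨.neg (.and φ (.neg χ)), fun w v x h h' => ?_⟩
    rw [BoundedFormula.realize_imp, ← h1 w v x h h', ← h2 w v x h h']
    simp only [ev]
    tauto
  | all f ih =>
    obtain ⟨φ, h1⟩ := ih
    refine ⟨.neg (.ex (.neg φ)), fun w v x h h' => ?_⟩
    rw [BoundedFormula.realize_all]
    simp only [ev, not_exists, not_not]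
    refine forall_congr' fun y => h1 w _ _ (comp_snoc _ v x h y) ?_
    exact h'

/-- Sets definable in the sense of the frozen statement are defined by formulas `Fm`. -/
theorem exists_fm_of_definable {M : Type} (A : LS.Structure M) (p q : M → M → M) (hA : IsAr A p q)
    (S : Set M) (hS : (∅ : Set M).Definable LS {v : Fin 1 → M | v 0 ∈ S}) :
    ∃ φ : Fm, ∀ x : ℕ → M, ev p q φ x ↔ x 0 ∈ S := by
  rw [Set.empty_definable_iff] at hS
  obtain ⟨ψ, hψ⟩ := hS
  obtain ⟨φ, hφ⟩ := exists_rt A p q hA 0 ψ
  refine ⟨φ, fun x => ?_⟩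
  have h1 := hφ (fun _ => x 0) default x (fun j => j.elim0) rfl
  rw [h1]
  have h2 : (fun _ : Fin 1 => x 0) ∈ {v : Fin 1 → M | v 0 ∈ S} ↔ x 0 ∈ S := Iff.rfl
  rw [← h2, hψ]
  rfl

end Pool.Agent.TH745
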