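import Pool.Agent.TH745.Constr

set_option autoImplicit false

namespace Pool.Agent.TH745

open Encodable Denumerable
open Pool.Agent.Helper227 (chi pre)

/-- The main construction: a nonstandard model of true arithmetic whose universe is the set of
natural numbers computes an oracle `A` which computes all arithmetical sets, but which does not
compute a certain function that is computable from the model. -/
theorem main (M : Mod ℕ) {O : Set (ℕ →. ℕ)} (hP : ComputableIn₂ O M.P)
    (hQ : ComputableIn₂ O M.Q) (N : ℕ) (hN : ∀ n, M.lt (M.nu n) N) :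
    ∃ A : ℕ → Bool, ComputableIn O A ∧
      (∀ S : ℕ → Prop, Def (fun x => S (x 0)) →
        ∃ f : ℕ → Bool, ComputableIn {chi A} f ∧ ∀ m, f m = true ↔ S m) ∧
      ∃ Y : ℕ → ℕ, ComputableIn O Y ∧ ¬ ComputableIn {chi A} Y := by
  classical
  obtain ⟨c, hNc, hbig⟩ := M.exists_bg N
  have hc : ∀ n, M.lt (M.nu n) c := fun n => M.lt_trans (hN n) hNc
  obtain ⟨ltb, hltb, ltb_iff⟩ := exists_ltb M hP
  obtain ⟨tt, htt, tt_iff⟩ := exists_tt M hP hQ hc
  obtain ⟨bt, hbt, bt_iff⟩ := exists_bt M hP
  -- the diagonal function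
  obtain ⟨Y, hYdef⟩ : ∃ Y : ℕ → ℕ, Y = fun n => ind (!(bt n n)) := ⟨_, rfl⟩
  have hY : ComputableIn O Y := by
    rw [hYdef]; exact cind (cnot (ci_comp₂ hbt ComputableIn.id ComputableIn.id))
  have hY1 : ∀ n, Y n ≤ 1 := by
    intro n; rw [hYdef]; cases h : bt n n <;> simp [ind, h]
  have hYnc : ∀ x, ¬ ∀ n, (M.BitM x (M.nu n) ↔ Y n = 1) := by
    intro x hx
    have h1 := hx x
    rw [← bt_iff, hYdef] at h1
    cases h : bt x x <;> simp [ind, h] at h1
  -- the construction
  obtain ⟨yv, hyv⟩ : ∃ yv : ℕ → ℕ, yv = fun r => bif ltb r c then r else M.z := ⟨_, rfl⟩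
  obtain ⟨nu', hnu'⟩ : ∃ nu' : ℕ → ℕ → ℕ, nu' = fun s i => bif decide (i.unpair.2 = 0) then
      U1 (sU s) (sR s) i.unpair.1 (Y i.unpair.1) else U2 (sU s) (sR s) i.unpair.1 (Y i.unpair.1) :=
    ⟨_, rfl⟩
  obtain ⟨nx, hnx⟩ : ∃ nx : ℕ → ℕ → ℕ, nx = fun s i => bif frb (sU s) (sK s) then
      mkS (M.cm (yv (sR s)) (sW s)) (nu' s i) (sR s + 1) (sK s + 1) (yv (sR s)) else
      mkS (M.cm i (sW s)) (sU s) (sR s) (sK s + 1) i := ⟨_, rfl⟩
  obtain ⟨ts, hts⟩ : ∃ ts : ℕ → ℕ → Bool, ts = fun s i => (frb (sU s) (sK s) || ltb i c) &&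
      tt (sU (nx s i)) (sW (nx s i)) := ⟨_, rfl⟩
  have hyvc : ComputableIn O yv := by
    rw [hyv]; exact ccond (ci_comp₂ hltb ComputableIn.id (cconst _)) ComputableIn.id (cconst _)
  have hcm := c_cm M hP hQ
  have hnu'c : ComputableIn₂ O nu' := by
    rw [hnu']
    have hYi : ComputableIn O (fun p : ℕ × ℕ => Y p.2.unpair.1) :=
      ci_comp (f := Y) hY (cunl ci_snd)
    exact ccond (ceqN (cunr ci_snd) (cconst 0))
      (c_U1 (c_sU ci_fst) (c_sR ci_fst) (cunl ci_snd) hYi)
      (c_U2 (c_sU ci_fst) (c_sR ci_fst) (cunl ci_snd) hYi)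
  have hnxc : ComputableIn₂ O nx := by
    rw [hnx]
    have h1 : ComputableIn O (fun p : ℕ × ℕ => yv (sR p.1)) :=
      ci_comp (f := yv) hyvc (c_sR ci_fst)
    exact ccond (c_frb (c_sU ci_fst) (c_sK ci_fst))
      (c_mkS (ci_comp₂ hcm h1 (c_sW ci_fst)) hnu'c (c_succ (c_sR ci_fst))
        (c_succ (c_sK ci_fst)) h1)
      (c_mkS (ci_comp₂ hcm ci_snd (c_sW ci_fst)) (c_sU ci_fst) (c_sR ci_fst)
        (c_succ (c_sK ci_fst)) ci_snd)
  have htsc : ComputableIn₂ O ts := by
    rw [hts]
    exact cand (cor (c_frb (c_sU ci_fst) (c_sK ci_fst)) (ci_comp₂ hltb ci_snd (cconst _)))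
      (ci_comp₂ htt (c_sU hnxc) (c_sW hnxc))
  have hyvlt : ∀ r, M.lt (yv r) c := by
    intro r
    rw [hyv]
    by_cases h : M.lt r c
    · have := (ltb_iff r c).2 h
      simp only [this]; exact h
    · have : ltb r c = false := by
        rw [Bool.eq_false_iff]; intro h2; exact h ((ltb_iff _ _).1 h2)
      simp only [this]; exact hc 0
  -- the invariant
  let Inv : ℕ → Prop := fun s => M.GM c (M.nu (sU s)) (sW s) ∧ M.LenM (sW s) (M.nu (sK s)) ∧
    M.EntM c (sW s)
  have hfree : ∀ s i, FrR (sU s) (sK s) → nx s i =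
      mkS (M.cm (yv (sR s)) (sW s)) (nu' s i) (sR s + 1) (sK s + 1) (yv (sR s)) := by
    intro s i h
    rw [hnx]
    simp only [(frb_iff _ _).2 h]
    rfl
  have hctl : ∀ s i, ¬ FrR (sU s) (sK s) → nx s i =
      mkS (M.cm i (sW s)) (sU s) (sR s) (sK s + 1) i := by
    intro s i h
    have : frb (sU s) (sK s) = false := by
      rw [Bool.eq_false_iff]; intro h2; exact h ((frb_iff _ _).1 h2)
    rw [hnx]
    simp only [this]
    rfl
  have hstep : ∀ s, Inv s → ∃ i, ts s i = true := by
    rintro s ⟨h1, h2, h3⟩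
    by_cases hf : FrR (sU s) (sK s)
    · by_contra hno
      push Not at hno
      have g1 := M.gm_free hf h1 h2 (hc _) (hyvlt (sR s))
      have e1 := M.ent_cm h3 (hyvlt (sR s))
      have l1 := M.len_cm (yv (sR s)) h2
      have hno' : ∀ i, ¬ M.GM c (M.nu (nu' s i)) (M.cm (yv (sR s)) (sW s)) := by
        intro i hg
        apply hno i
        rw [hts]
        simp only [(frb_iff _ _).2 hf, Bool.true_or, Bool.true_and]
        rw [hfree s i hf]
        simp only [sU_mk, sW_mk]
        exact (tt_iff _ _ _ e1 l1).2 hg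
      obtain ⟨x, hx⟩ := M.exists_code (sU s) (sR s) c (M.cm (yv (sR s)) (sW s)) hN
      apply hYnc x
      intro n
      rw [hx n]
      refine (M.gm_req (hY1 n) g1 ?_ ?_).symm
      · have := hno' (Nat.pair n 0)
        rw [hnu'] at this
        simpa using this
      · have := hno' (Nat.pair n 1)
        rw [hnu'] at this
        simpa using this
    · obtain ⟨y, hy, hg⟩ := M.gm_ctl hf h1 h2 (hc _)
      refine ⟨y, ?_⟩
      rw [hts]
      simp only [(ltb_iff _ _).2 hy, Bool.or_true, Bool.true_and]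
      rw [hctl s y hf]
      simp only [sU_mk, sW_mk]
      exact (tt_iff _ _ _ (M.ent_cm h3 hy) (M.len_cm y h2)).2 hg
  have hpres : ∀ s i, Inv s → ts s i = true → Inv (nx s i) := by
    rintro s i ⟨h1, h2, h3⟩ hi
    rw [hts] at hi
    simp only [Bool.and_eq_true, Bool.or_eq_true] at hi
    obtain ⟨hi1, hi2⟩ := hi
    by_cases hf : FrR (sU s) (sK s)
    · have e1 := M.ent_cm h3 (hyvlt (sR s))
      have l1 := M.len_cm (yv (sR s)) h2
      rw [hfree s i hf] at hi2
      simp only [sU_mk, sW_mk] at hi2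
      show M.GM c (M.nu (sU (nx s i))) (sW (nx s i)) ∧ M.LenM (sW (nx s i)) (M.nu (sK (nx s i))) ∧
        M.EntM c (sW (nx s i))
      rw [hfree s i hf]
      simp only [sU_mk, sW_mk, sK_mk]
      exact ⟨(tt_iff _ _ _ e1 l1).1 hi2, l1, e1⟩
    · have hi3 : M.lt i c := by
        rcases hi1 with h | h
        · exact absurd ((frb_iff _ _).1 h) hf
        · exact (ltb_iff _ _).1 h
      have e1 := M.ent_cm h3 hi3
      have l1 := M.len_cm i h2
      rw [hctl s i hf] at hi2
      simp only [sU_mk, sW_mk] at hi2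
      show M.GM c (M.nu (sU (nx s i))) (sW (nx s i)) ∧ M.LenM (sW (nx s i)) (M.nu (sK (nx s i))) ∧
        M.EntM c (sW (nx s i))
      rw [hctl s i hf]
      simp only [sU_mk, sW_mk, sK_mk]
      exact ⟨(tt_iff _ _ _ e1 l1).1 hi2, l1, e1⟩
  -- the run
  obtain ⟨ch, hch⟩ : ∃ ch : ℕ → ℕ, ch = fun s => if h : ∃ i, ts s i = true then Nat.find h else 0 :=
    ⟨_, rfl⟩
  obtain ⟨st, hst⟩ : ∃ st : ℕ → ℕ, st = fun k => Nat.rec (motive := fun _ => ℕ)
      (mkS (M.nu 0) 0 0 0 0) (fun _ s => nx s (ch s)) k := ⟨_, rfl⟩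
  have st0 : st 0 = mkS (M.nu 0) 0 0 0 0 := by rw [hst]; rfl
  have stS : ∀ k, st (k + 1) = nx (st k) (ch (st k)) := by intro k; rw [hst]
  have hInv : ∀ k, Inv (st k) := by
    intro k
    induction k with
    | zero =>
      rw [st0]
      show M.GM c (M.nu (sU _)) (sW _) ∧ M.LenM (sW _) (M.nu (sK _)) ∧ M.EntM c (sW _)
      simp only [sU_mk, sW_mk, sK_mk]
      exact ⟨M.gm_init c, M.len_init, M.ent_init c⟩
    | succ k ih =>
      rw [stS]
      refine hpres _ _ ih ?_
      have h := hstep _ ih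
      rw [hch]
      simp only [dif_pos h]
      exact Nat.find_spec h
  have hch1 : ∀ k, ts (st k) (ch (st k)) = true := by
    intro k
    have h := hstep _ (hInv k)
    rw [hch]
    simp only [dif_pos h]
    exact Nat.find_spec h
  have hch2 : ∀ k, ∀ i < ch (st k), ts (st k) i = false := by
    intro k i hi
    have h := hstep _ (hInv k)
    rw [hch] at hi
    simp only [dif_pos h] at hi
    simpa using Nat.find_min h hi
  have hstc : ComputableIn O st := ci_iter htsc hnxc st (fun k => ch (st k)) hch1 hch2 stS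
  -- columns
  obtain ⟨col, hcol⟩ : ∃ col : ℕ → ℕ, col = fun j => sY (st (j + 1)) := ⟨_, rfl⟩
  obtain ⟨A, hA⟩ : ∃ A : ℕ → Bool, A = fun n => bt (col n.unpair.1) n.unpair.2 := ⟨_, rfl⟩
  have hcolc : ComputableIn O col := by
    rw [hcol]; exact c_sY (ci_comp hstc (c_succ ComputableIn.id))
  have hAc : ComputableIn O A := by
    rw [hA]
    exact ci_comp₂ hbt (ci_comp hcolc (cunl (f := fun n : ℕ => n) ComputableIn.id))
      (cunr (f := fun n : ℕ => n) ComputableIn.id)
  have hK : ∀ k, sK (st k) = k := by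
    intro k
    induction k with
    | zero => rw [st0]; simp
    | succ k ih =>
      rw [stS]
      by_cases hf : FrR (sU (st k)) (sK (st k))
      · rw [hfree _ _ hf]; simp [ih]
      · rw [hctl _ _ hf]; simp [ih]
  have hW : ∀ k, sW (st (k + 1)) = M.cm (col k) (sW (st k)) := by
    intro k
    rw [hcol]
    simp only
    rw [stS]
    by_cases hf : FrR (sU (st k)) (sK (st k))
    · rw [hfree _ _ hf]; simp
    · rw [hctl _ _ hf]; simp
  have hbits : ∀ k j m, j < k → (M.BitRM (sW (st k)) (M.nu j) (M.nu m) ↔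
      bt (col j) m = true) := by
    intro k
    induction k with
    | zero => intro j m hj; omega
    | succ k ih =>
      intro j m hj
      have hl := (hInv k).2.1
      rw [hK] at hl
      rw [hW, M.bitR_cm (col k) hl j m]
      rcases Nat.lt_succ_iff_lt_or_eq.1 hj with h | h
      · rw [ih j m h]
        have : j ≠ k := by omega
        simp [h, this]
      · subst h
        rw [bt_iff]
        simp
  -- progress
  have hadv : ∀ k, ∃ k' ≥ k, FrR (sU (st k')) k' ∧ sR (st k') = sR (st k) := by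
    intro k
    have hex := frR_exists (sU (st k)) k
    obtain ⟨k', ⟨hk1, hk2⟩, hmin⟩ : ∃ k', (k' ≥ k ∧ FrR (sU (st k)) k') ∧
        ∀ j, j < k' → ¬ (j ≥ k ∧ FrR (sU (st k)) j) :=
      ⟨Nat.find hex, Nat.find_spec hex, fun j hj => Nat.find_min hex hj⟩
    have key : ∀ j, k ≤ j → j ≤ k' → sU (st j) = sU (st k) ∧ sR (st j) = sR (st k) := by
      intro j hj
      induction j, hj using Nat.le_induction with
      | base => intro _; exact ⟨rfl, rfl⟩
      | succ j hj ih =>
        intro hj2
        obtain ⟨i1, i2⟩ := ih (by omega)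
        have hf : ¬ FrR (sU (st j)) (sK (st j)) := by
          rw [i1, hK]
          intro h
          exact hmin j (by omega) ⟨hj, h⟩
        rw [stS, hctl _ _ hf]
        simp [i1, i2]
    obtain ⟨i1, i2⟩ := key k' hk1 le_rfl
    exact ⟨k', hk1, by rw [i1]; exact hk2, i2⟩
  have hreq : ∀ r, ∃ k, FrR (sU (st k)) k ∧ sR (st k) = r := by
    intro r
    induction r with
    | zero =>
      obtain ⟨k, _, hk1, hk2⟩ := hadv 0
      exact ⟨k, hk1, by rw [hk2, st0]; simp⟩
    | succ r ih =>
      obtain ⟨k, hk1, hk2⟩ := ih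
      obtain ⟨k', _, hk1', hk2'⟩ := hadv (k + 1)
      refine ⟨k', hk1', ?_⟩
      rw [hk2', stS, hfree _ _ (by rw [hK]; exact hk1)]
      simp [hk2]
  have hcolr : ∀ k, FrR (sU (st k)) k → col k = yv (sR (st k)) := by
    intro k hf
    rw [hcol]
    simp only
    rw [stS, hfree _ _ (by rw [hK]; exact hf)]
    simp
  have hgrow : ∀ k, ∀ q ∈ uD (sU (st k)), q ∈ uD (sU (st (k + 1))) := by
    intro k q hq
    rw [stS]
    by_cases hf : FrR (sU (st k)) (sK (st k))
    · rw [hfree _ _ hf, sU_mk, hnu']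
      by_cases h0 : (ch (st k)).unpair.2 = 0
      · simp only [h0, decide_true, cond_true]
        unfold U1
        rw [uD_dU, dl_cons]
        exact List.mem_cons_of_mem _ hq
      · simp only [h0, decide_false, cond_false]
        unfold U2
        rw [uD_dU, dl_cons]
        exact List.mem_cons_of_mem _ hq
    · rw [hctl _ _ hf, sU_mk]; exact hq
  have hgrow' : ∀ k k', k ≤ k' → ∀ q ∈ uD (sU (st k)), q ∈ uD (sU (st k')) := by
    intro k k' hk
    induction k', hk using Nat.le_induction with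
    | base => intro q hq; exact hq
    | succ j hj ih => intro q hq; exact hgrow j q (ih q hq)
  have hent : ∀ r, ∃ k n, ent r n (Y n) 0 ∈ uD (sU (st k)) := by
    intro r
    obtain ⟨k, hk1, hk2⟩ := hreq r
    refine ⟨k + 1, (ch (st k)).unpair.1, ?_⟩
    rw [stS, hfree _ _ (by rw [hK]; exact hk1), sU_mk, hnu']
    by_cases h0 : (ch (st k)).unpair.2 = 0
    · simp only [h0, decide_true, cond_true]
      unfold U1
      rw [uD_dU, dl_cons, hk2]
      exact List.mem_cons_self
    · simp only [h0, decide_false, cond_false]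
      unfold U2
      rw [uD_dU, dl_cons, hk2]
      exact List.mem_cons_self
  refine ⟨A, hAc, ?_, Y, hY, ?_⟩
  · -- arithmetical sets
    intro S hS
    obtain ⟨T, hT⟩ := M.exists_def S hS hN
    obtain ⟨x, hx, hxT⟩ := hbig T
    obtain ⟨k, hk1, hk2⟩ := hreq x
    have hcx : col k = x := by
      rw [hcolr k hk1, hk2, hyv]
      simp only [(ltb_iff x c).2 hx]
      rfl
    refine ⟨fun m => A (Nat.pair k m), ?_, fun m => ?_⟩
    · have hAA : ComputableIn {chi A} A := by
        have h1 : ComputableIn {chi A} (fun n => (A n).toNat) :=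
          RecursiveIn.iff_nat.2 (Nat.RecursiveIn.oracle (chi A) (Set.mem_singleton _))
        have h2 : ComputableIn {chi A} (fun n => decide ((A n).toNat = 1)) :=
          ceqN h1 (cconst 1)
        have h3 : (fun n => decide ((A n).toNat = 1)) = A := by
          funext n; cases A n <;> rfl
        rw [h3] at h2
        exact h2
      exact ci_comp hAA (cpair (cconst k) ComputableIn.id)
    · rw [hA]
      simp only [Nat.unpair_pair, hcx]
      rw [bt_iff, hxT _ (hN m), hT]
  · -- the diagonal function is not computable from `A`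
    intro hYA
    obtain ⟨e, he⟩ := exists_index hYA
    obtain ⟨k₀, n, hn⟩ := hent e
    obtain ⟨t, ht1, ht2⟩ := he n
    obtain ⟨k, hk⟩ : ∃ k, k = max k₀ (t + 1) := ⟨_, rfl⟩
    have hkk : k₀ ≤ k := by rw [hk]; exact le_max_left _ _
    have htk : t < k := by
      have := le_max_right k₀ (t + 1)
      omega
    have hreal : ∀ j, ∃ x, ∀ m < k, (Bit x m ↔ A (Nat.pair j m) = true) := by
      intro j
      obtain ⟨x, _, hx⟩ := exists_bits (fun m => A (Nat.pair j m) = true) k
      exact ⟨x, hx⟩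
    choose xr hxr using hreal
    obtain ⟨hk', hhk'⟩ : ∃ h : List ℕ, h = ((List.range k).map xr).reverse := ⟨_, rfl⟩
    have hlen : hk'.length = k := by rw [hhk']; simp
    have hba : ∀ j < k, ∀ m < k, (BitAt hk' j m = true ↔ A (Nat.pair j m) = true) := by
      intro j hj m hm
      rw [← hxr j m hm]
      unfold BitAt Bit
      rw [hhk', List.reverse_reverse]
      rw [List.getD_eq_getElem _ _ (by simpa using hj)]
      simp
    have horc : ∀ l ≤ k, orc hk' l = pre A l := by
      intro l hl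
      unfold orc pre
      refine List.map_congr_left fun i hi => ?_
      rw [List.mem_range] at hi
      have := hba i.unpair.1 (lt_of_le_of_lt (Nat.unpair_left_le i) (by omega)) i.unpair.2
        (lt_of_le_of_lt (Nat.unpair_right_le i) (by omega))
      rw [Nat.pair_unpair] at this
      exact Bool.eq_iff_iff.2 this
    have hov : Ov e hk' n (Y n) := by
      refine ⟨t, by omega, ?_, fun t' ht' => ?_⟩
      · unfold val
        rw [horc _ ((Nat.unpair_right_le t).trans htk.le)]
        exact ht1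
      · unfold val
        rw [horc _ ((Nat.unpair_right_le t').trans (by omega))]
        exact ht2 t' ht'
    have hE : EvR (sU (st k)) (encode hk') := by
      unfold EvR
      rw [dl_encode]
      exact ⟨ent e n (Y n) 0, hgrow' k₀ k hkk _ hn, by simp, by simpa using hov⟩
    obtain ⟨i1, i2, _⟩ := hInv k
    rw [hK] at i2
    refine M.gm_evid (w' := encode hk') (k := k) (K := k) ?_ le_rfl hE i1 i2 ?_
    · unfold Len; rw [dl_encode]; exact hlen
    · intro j hj m hm
      rw [hbits k j m hj]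
      unfold BitR
      rw [dl_encode, hba j hj m hm, hA]
      simp

end Pool.Agent.TH745
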