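import Pool.Agent.TH745.Pr

set_option autoImplicit false

namespace Pool.Agent.TH745

/-- A structure `(α, P, Q)` satisfying every sentence true in the natural numbers, with names for
zero and one. -/
structure Mod (α : Type) where
  P : α → α → α
  Q : α → α → α
  hT : TA P Q
  z : α
  o : α
  hz : P z z = z
  ho : Q o o = o
  ho' : P o o ≠ o

theorem exists_mod {α : Type} (P Q : α → α → α) (hT : TA P Q) (hne : Nonempty α) :
    ∃ M : Mod α, M.P = P ∧ M.Q = Q := by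
  obtain ⟨a⟩ := hne
  have h1 : ∃ z, P z z = z := by
    have := (Pr.ex (P := P) (Q := Q) (Pr.add 0 0 0)).transfer hT (fun x => ⟨0, rfl⟩)
    exact this (fun _ => a)
  have h2 : ∃ z, Q z z = z ∧ ¬ P z z = z := by
    have := (Pr.ex (P := P) (Q := Q) ((Pr.mul 0 0 0).and (Pr.add 0 0 0).neg)).transfer hT
      (fun x => ⟨1, rfl, by simp⟩)
    exact this (fun _ => a)
  obtain ⟨z, hz⟩ := h1
  obtain ⟨o, ho, ho'⟩ := h2
  exact ⟨⟨P, Q, hT, z, o, hz, ho, ho'⟩, rfl, rfl⟩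

namespace Mod

variable {α : Type} (M : Mod α)

theorem closed {A B : Prop} (h : Pr M.P M.Q (fun _ => A) (fun _ => B)) : A ↔ B := by
  constructor
  · intro hA
    exact h.transfer M.hT (fun _ => hA) (fun _ => M.z)
  · intro hB
    by_contra hA
    exact h.neg.transfer M.hT (fun _ => hA) (fun _ => M.z) hB

/-- numerals -/
def nu : ℕ → α
  | 0 => M.z
  | n + 1 => M.P (nu n) M.o

theorem z_unique (a : α) (h : M.P a a = a) : a = M.z := by
  have := ((Pr.add (P := M.P) (Q := M.Q) 0 0 0).imp ((Pr.add 1 1 1).imp (Pr.eq 0 1))).transfer M.hT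
    (fun x h1 h2 => by
      change x 0 + x 0 = x 0 at h1
      change x 1 + x 1 = x 1 at h2
      change x 0 = x 1
      omega)
  exact this (vec M.z [a, M.z]) h M.hz

theorem o_unique (a : α) (h : M.Q a a = a) (h' : M.P a a ≠ a) : a = M.o := by
  have := ((Pr.mul (P := M.P) (Q := M.Q) 0 0 0).imp ((Pr.add 0 0 0).neg.imp ((Pr.mul 1 1 1).imp
    ((Pr.add 1 1 1).neg.imp (Pr.eq 0 1))))).transfer M.hT
    (fun x h1 h2 h3 h4 => by
      change x 0 * x 0 = x 0 at h1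
      change ¬ (x 0 + x 0 = x 0) at h2
      change x 1 * x 1 = x 1 at h3
      change ¬ (x 1 + x 1 = x 1) at h4
      change x 0 = x 1
      have e1 : x 0 ≠ 0 := by omega
      have e2 : x 1 ≠ 0 := by omega
      have e3 : x 0 = 1 := by
        have : x 0 * x 0 = x 0 * 1 := by omega
        exact Nat.eq_of_mul_eq_mul_left (Nat.pos_of_ne_zero e1) this
      have e4 : x 1 = 1 := by
        have : x 1 * x 1 = x 1 * 1 := by omega
        exact Nat.eq_of_mul_eq_mul_left (Nat.pos_of_ne_zero e2) this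
      omega)
  exact this (vec M.z [a, M.o]) h h' M.ho M.ho'

end Mod

theorem DefF.const (n : ℕ) : DefF (fun _ => n) := by
  induction n with
  | zero =>
    exact (Def.add 0 0 0).congr (fun x => by
      show x 0 + x 0 = x 0 ↔ x 0 = 0
      omega)
  | succ n ih =>
    have h1 : DefF (fun _ => 1) := by
      refine ((Def.mul 0 0 0).and (Def.add 0 0 0).neg).congr (fun x => ?_)
      show (x 0 * x 0 = x 0 ∧ ¬ x 0 + x 0 = x 0) ↔ x 0 = 1
      constructor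
      · rintro ⟨h, h'⟩
        have e1 : x 0 ≠ 0 := by omega
        have : x 0 * x 0 = x 0 * 1 := by omega
        exact Nat.eq_of_mul_eq_mul_left (Nat.pos_of_ne_zero e1) this
      · intro h
        rw [h]; simp
    exact DefF.add ih h1

namespace Mod

variable {α : Type} (M : Mod α)

theorem zeroF : PrF M.P M.Q (fun _ => 0) (fun _ => M.z) :=
  (Pr.add 0 0 0).congr (fun x => by
      show x 0 + x 0 = x 0 ↔ x 0 = 0
      omega) (fun x => ⟨M.z_unique _, fun h => by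
        have : x 0 = M.z := h
        rw [this]; exact M.hz⟩)

theorem oneF : PrF M.P M.Q (fun _ => 1) (fun _ => M.o) := by
  refine ((Pr.mul 0 0 0).and (Pr.add 0 0 0).neg).congr (fun x => ?_) (fun x => ?_)
  · show (x 0 * x 0 = x 0 ∧ ¬ x 0 + x 0 = x 0) ↔ x 0 = 1
    constructor
    · rintro ⟨h, h'⟩
      have e1 : x 0 ≠ 0 := by omega
      have : x 0 * x 0 = x 0 * 1 := by omega
      exact Nat.eq_of_mul_eq_mul_left (Nat.pos_of_ne_zero e1) this
    · intro h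
      rw [h]; simp
  · constructor
    · rintro ⟨h, h'⟩
      exact M.o_unique _ h h'
    · intro h
      have : x 0 = M.o := h
      rw [this]; exact ⟨M.ho, M.ho'⟩

theorem numF (n : ℕ) : PrF M.P M.Q (fun _ => n) (fun _ => M.nu n) := by
  induction n with
  | zero => exact M.zeroF
  | succ n ih => exact PrF.add ih M.oneF

theorem star1 {R : ℕ → Prop} {R' : α → Prop}
    (h : Pr M.P M.Q (fun x => R (x 0)) (fun x => R' (x 0))) (n : ℕ) : R' (M.nu n) ↔ R n :=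
  (M.closed (Pr.r1 h (M.numF n))).symm

theorem star2 {R : ℕ → ℕ → Prop} {R' : α → α → Prop}
    (h : Pr M.P M.Q (fun x => R (x 0) (x 1)) (fun x => R' (x 0) (x 1))) (n m : ℕ) :
    R' (M.nu n) (M.nu m) ↔ R n m :=
  (M.closed (Pr.r2 h (M.numF n) (M.numF m))).symm

theorem star3 {R : ℕ → ℕ → ℕ → Prop} {R' : α → α → α → Prop}
    (h : Pr M.P M.Q (fun x => R (x 0) (x 1) (x 2)) (fun x => R' (x 0) (x 1) (x 2))) (n m k : ℕ) :
    R' (M.nu n) (M.nu m) (M.nu k) ↔ R n m k :=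
  (M.closed (Pr.r3 h (M.numF n) (M.numF m) (M.numF k))).symm

/-- order -/
def lt (a b : α) : Prop := ∃ c, ¬ M.P c c = c ∧ M.P a c = b

theorem prLt : Pr M.P M.Q (fun x => x 0 < x 1) (fun x => M.lt (x 0) (x 1)) := by
  refine (Pr.ex ((Pr.add 0 0 0).neg.and (Pr.add 1 0 2))).congr (fun x => ?_) (fun x => Iff.rfl)
  show (∃ c, ¬ c + c = c ∧ x 0 + c = x 1) ↔ _
  constructor
  · rintro ⟨c, h1, h2⟩; omega
  · intro h
    exact ⟨x 1 - x 0, by omega, by omega⟩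

theorem nu_lt_nu (m n : ℕ) : M.lt (M.nu m) (M.nu n) ↔ m < n := M.star2 M.prLt m n

theorem nu_inj {m n : ℕ} (h : M.nu m = M.nu n) : m = n :=
  (M.star2 (R := fun a b => a = b) (R' := fun a b => a = b) (Pr.eq 0 1) m n).1 h

theorem ltF {g₁ g₂ : (ℕ → ℕ) → ℕ} {g₁' g₂' : (ℕ → α) → α} (hg₁ : PrF M.P M.Q g₁ g₁')
    (hg₂ : PrF M.P M.Q g₂ g₂') :
    Pr M.P M.Q (fun x => g₁ x < g₂ x) (fun x => M.lt (g₁' x) (g₂' x)) :=
  Pr.r2 (R := fun a b => a < b) (R' := fun a b => M.lt a b) M.prLt hg₁ hg₂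

theorem lt_nu {n : ℕ} {a : α} (h : M.lt a (M.nu n)) : ∃ m < n, a = M.nu m := by
  induction n with
  | zero =>
    exfalso
    have := (M.ltF (PrF.var 0) M.zeroF).neg.transfer M.hT (fun x => by
      show ¬ x 0 < 0
      omega)
    exact this (vec M.z [a]) h
  | succ n ih =>
    have := ((M.ltF (PrF.var 0) (PrF.add (PrF.var 1) M.oneF)).imp
      ((M.ltF (PrF.var 0) (PrF.var 1)).or (Pr.eq 0 1))).transfer M.hT (fun x => by
      show x 0 < x 1 + 1 → (x 0 < x 1 ∨ x 0 = x 1)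
      omega)
    rcases this (vec M.z [a, M.nu n]) h with h1 | h1
    · obtain ⟨m, hm, e⟩ := ih h1
      exact ⟨m, by omega, e⟩
    · exact ⟨n, by omega, h1⟩

theorem lt_trans {a b c : α} (h : M.lt a b) (h' : M.lt b c) : M.lt a c := by
  have := ((M.ltF (PrF.var 0) (PrF.var 1)).imp ((M.ltF (PrF.var 1) (PrF.var 2)).imp
    (M.ltF (PrF.var 0) (PrF.var 2)))).transfer M.hT (fun x => by
      show x 0 < x 1 → x 1 < x 2 → x 0 < x 2
      omega)
  exact this (vec M.z [a, b, c]) h h'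

theorem nu_lt_of_ne {a : α} (h : ∀ n, a ≠ M.nu n) (n : ℕ) : M.lt (M.nu n) a := by
  have := ((M.ltF (PrF.var 0) (PrF.var 1)).or ((Pr.eq 0 1).or
    (M.ltF (PrF.var 1) (PrF.var 0)))).transfer M.hT (fun x => by
      show x 0 < x 1 ∨ x 0 = x 1 ∨ x 1 < x 0
      omega)
  rcases this (vec M.z [M.nu n, a]) with h1 | h1 | h1
  · exact h1
  · exact absurd h1.symm (h n)
  · obtain ⟨m, _, e⟩ := M.lt_nu h1
    exact absurd e (h m)

open Classical in
/-- pairing -/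
noncomputable def pm (a b : α) : α :=
  if M.lt a b then M.P (M.Q b b) a else M.P (M.P (M.Q a a) a) b

theorem prPair : Pr M.P M.Q (fun x => x 0 = Nat.pair (x 1) (x 2))
    (fun x => x 0 = M.pm (x 1) (x 2)) := by
  refine (((M.ltF (PrF.var 1) (PrF.var 2)).and (Pr.eqF (PrF.var 0)
      (PrF.add (PrF.mul (PrF.var 2) (PrF.var 2)) (PrF.var 1)))).or
    ((M.ltF (PrF.var 1) (PrF.var 2)).neg.and (Pr.eqF (PrF.var 0)
      (PrF.add (PrF.add (PrF.mul (PrF.var 1) (PrF.var 1)) (PrF.var 1)) (PrF.var 2))))).congr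
    (fun x => ?_) (fun x => ?_)
  · show ((x 1 < x 2 ∧ x 0 = x 2 * x 2 + x 1) ∨ (¬ x 1 < x 2 ∧ x 0 = x 1 * x 1 + x 1 + x 2)) ↔ _
    unfold Nat.pair
    by_cases h : x 1 < x 2
    · simp [h]
    · simp [h]
  · show ((M.lt (x 1) (x 2) ∧ x 0 = M.P (M.Q (x 2) (x 2)) (x 1)) ∨
      (¬ M.lt (x 1) (x 2) ∧ x 0 = M.P (M.P (M.Q (x 1) (x 1)) (x 1)) (x 2))) ↔ _
    unfold pm
    by_cases h : M.lt (x 1) (x 2)
    · simp [h]
    · simp [h]

theorem pairF {g₁ g₂ : (ℕ → ℕ) → ℕ} {g₁' g₂' : (ℕ → α) → α} (hg₁ : PrF M.P M.Q g₁ g₁')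
    (hg₂ : PrF M.P M.Q g₂ g₂') :
    PrF M.P M.Q (fun x => Nat.pair (g₁ x) (g₂ x)) (fun x => M.pm (g₁' x) (g₂' x)) :=
  PrF.f2 (f := Nat.pair) (f' := M.pm) M.prPair hg₁ hg₂

end Mod

/-! ### pairing in the standard model -/

theorem Def.lt {g₁ g₂ : (ℕ → ℕ) → ℕ} (hg₁ : DefF g₁) (hg₂ : DefF g₂) :
    Def (fun x => g₁ x < g₂ x) := by
  refine Def.r2 (R := fun a b => a < b) ?_ hg₁ hg₂
  refine (Def.ex ((Def.add 0 0 0).neg.and (Def.add 1 0 2))).congr (fun x => ?_)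
  show (∃ c, ¬ c + c = c ∧ x 0 + c = x 1) ↔ _
  constructor
  · rintro ⟨c, h1, h2⟩; omega
  · intro h
    exact ⟨x 1 - x 0, by omega, by omega⟩

theorem DefF.pair {g₁ g₂ : (ℕ → ℕ) → ℕ} (hg₁ : DefF g₁) (hg₂ : DefF g₂) :
    DefF (fun x => Nat.pair (g₁ x) (g₂ x)) := by
  refine DefF.f2 (f := Nat.pair) ?_ hg₁ hg₂
  refine (((Def.lt (DefF.var 1) (DefF.var 2)).and (Def.eqF (DefF.var 0)
      (DefF.add (DefF.mul (DefF.var 2) (DefF.var 2)) (DefF.var 1)))).or
    ((Def.lt (DefF.var 1) (DefF.var 2)).neg.and (Def.eqF (DefF.var 0)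
      (DefF.add (DefF.add (DefF.mul (DefF.var 1) (DefF.var 1)) (DefF.var 1)) (DefF.var 2))))).congr
    (fun x => ?_)
  show ((x 1 < x 2 ∧ x 0 = x 2 * x 2 + x 1) ∨ (¬ x 1 < x 2 ∧ x 0 = x 1 * x 1 + x 1 + x 2)) ↔ _
  unfold Nat.pair
  by_cases h : x 1 < x 2
  · simp [h]
  · simp [h]

end Pool.Agent.TH745
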