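import Pool.Agent.TH745.Lang

set_option autoImplicit false

namespace Pool.Agent.TH745

variable {α : Type} {P Q : α → α → α}

/-- `R` and `R'` are defined by the same formula, in the natural numbers and in `(α, P, Q)`. -/
def Pr (P Q : α → α → α) (R : (ℕ → ℕ) → Prop) (R' : (ℕ → α) → Prop) : Prop :=
  ∃ φ : Fm, (∀ x, ev (· + ·) (· * ·) φ x ↔ R x) ∧ (∀ x, ev P Q φ x ↔ R' x)

/-- Definability in the standard model. -/
def Def (R : (ℕ → ℕ) → Prop) : Prop := ∃ φ : Fm, ∀ x, ev (· + ·) (· * ·) φ x ↔ R x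

/-- The transfer principle. -/
def TA (P Q : α → α → α) : Prop :=
  ∀ φ : Fm, (∀ x : ℕ → ℕ, ev (· + ·) (· * ·) φ x) → ∀ x : ℕ → α, ev P Q φ x

theorem Pr.transfer {R : (ℕ → ℕ) → Prop} {R' : (ℕ → α) → Prop} (h : Pr P Q R R')
    (hT : TA P Q) (hR : ∀ x, R x) : ∀ x, R' x := by
  obtain ⟨φ, h1, h2⟩ := h
  intro x
  exact (h2 x).1 (hT φ (fun y => (h1 y).2 (hR y)) x)

theorem Pr.congr {R S : (ℕ → ℕ) → Prop} {R' S' : (ℕ → α) → Prop} (h : Pr P Q R R')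
    (h1 : ∀ x, R x ↔ S x) (h2 : ∀ x, R' x ↔ S' x) : Pr P Q S S' := by
  obtain ⟨φ, h3, h4⟩ := h
  exact ⟨φ, fun x => (h3 x).trans (h1 x), fun x => (h4 x).trans (h2 x)⟩

theorem Pr.neg {R : (ℕ → ℕ) → Prop} {R' : (ℕ → α) → Prop} (h : Pr P Q R R') :
    Pr P Q (fun x => ¬ R x) (fun x => ¬ R' x) := by
  obtain ⟨φ, h3, h4⟩ := h
  exact ⟨.neg φ, fun x => not_congr (h3 x), fun x => not_congr (h4 x)⟩

theorem Pr.and {R S : (ℕ → ℕ) → Prop} {R' S' : (ℕ → α) → Prop} (h : Pr P Q R R')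
    (k : Pr P Q S S') : Pr P Q (fun x => R x ∧ S x) (fun x => R' x ∧ S' x) := by
  obtain ⟨φ, h3, h4⟩ := h
  obtain ⟨ψ, k3, k4⟩ := k
  exact ⟨.and φ ψ, fun x => and_congr (h3 x) (k3 x), fun x => and_congr (h4 x) (k4 x)⟩

theorem Pr.or {R S : (ℕ → ℕ) → Prop} {R' S' : (ℕ → α) → Prop} (h : Pr P Q R R')
    (k : Pr P Q S S') : Pr P Q (fun x => R x ∨ S x) (fun x => R' x ∨ S' x) :=
  ((h.neg.and k.neg).neg).congr (fun x => by tauto) (fun x => by tauto)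

theorem Pr.imp {R S : (ℕ → ℕ) → Prop} {R' S' : (ℕ → α) → Prop} (h : Pr P Q R R')
    (k : Pr P Q S S') : Pr P Q (fun x => R x → S x) (fun x => R' x → S' x) :=
  ((h.and k.neg).neg).congr (fun x => by tauto) (fun x => by tauto)

theorem Pr.iff {R S : (ℕ → ℕ) → Prop} {R' S' : (ℕ → α) → Prop} (h : Pr P Q R R')
    (k : Pr P Q S S') : Pr P Q (fun x => (R x ↔ S x)) (fun x => (R' x ↔ S' x)) :=
  ((h.imp k).and (k.imp h)).congr (fun x => by tauto) (fun x => by tauto)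

theorem Pr.ex {R : (ℕ → ℕ) → Prop} {R' : (ℕ → α) → Prop} (h : Pr P Q R R') :
    Pr P Q (fun x => ∃ y, R (cons y x)) (fun x => ∃ y, R' (cons y x)) := by
  obtain ⟨φ, h3, h4⟩ := h
  exact ⟨.ex φ, fun x => exists_congr fun y => h3 _, fun x => exists_congr fun y => h4 _⟩

theorem Pr.all {R : (ℕ → ℕ) → Prop} {R' : (ℕ → α) → Prop} (h : Pr P Q R R') :
    Pr P Q (fun x => ∀ y, R (cons y x)) (fun x => ∀ y, R' (cons y x)) :=
  (h.neg.ex.neg).congr (fun x => by simp) (fun x => by simp)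

theorem Pr.sub {R : (ℕ → ℕ) → Prop} {R' : (ℕ → α) → Prop} (h : Pr P Q R R') (f : ℕ → ℕ) :
    Pr P Q (fun x => R (fun i => x (f i))) (fun x => R' (fun i => x (f i))) := by
  obtain ⟨φ, h3, h4⟩ := h
  exact ⟨ren f φ, fun x => (ev_ren _ _ φ f x).trans (h3 _), fun x => (ev_ren _ _ φ f x).trans (h4 _)⟩

theorem Pr.eq (i j : ℕ) : Pr P Q (fun x => x i = x j) (fun x => x i = x j) :=
  ⟨.eq i j, fun _ => Iff.rfl, fun _ => Iff.rfl⟩

theorem Pr.add (i j k : ℕ) : Pr P Q (fun x => x i + x j = x k) (fun x => P (x i) (x j) = x k) :=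
  ⟨.add i j k, fun _ => Iff.rfl, fun _ => Iff.rfl⟩

theorem Pr.mul (i j k : ℕ) : Pr P Q (fun x => x i * x j = x k) (fun x => Q (x i) (x j) = x k) :=
  ⟨.mul i j k, fun _ => Iff.rfl, fun _ => Iff.rfl⟩

/-! ### definable relations -/

theorem Def.neg {R : (ℕ → ℕ) → Prop} (h : Def R) : Def (fun x => ¬ R x) := by
  obtain ⟨φ, h⟩ := h
  exact ⟨.neg φ, fun x => not_congr (h x)⟩

theorem Def.and {R S : (ℕ → ℕ) → Prop} (h : Def R) (k : Def S) : Def (fun x => R x ∧ S x) := by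
  obtain ⟨φ, h⟩ := h
  obtain ⟨ψ, k⟩ := k
  exact ⟨.and φ ψ, fun x => and_congr (h x) (k x)⟩

theorem Def.congr {R S : (ℕ → ℕ) → Prop} (h : Def R) (h1 : ∀ x, R x ↔ S x) : Def S := by
  obtain ⟨φ, h⟩ := h
  exact ⟨φ, fun x => (h x).trans (h1 x)⟩

theorem Def.or {R S : (ℕ → ℕ) → Prop} (h : Def R) (k : Def S) : Def (fun x => R x ∨ S x) :=
  ((h.neg.and k.neg).neg).congr (fun x => by tauto)

theorem Def.imp {R S : (ℕ → ℕ) → Prop} (h : Def R) (k : Def S) : Def (fun x => R x → S x) :=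
  ((h.and k.neg).neg).congr (fun x => by tauto)

theorem Def.iff {R S : (ℕ → ℕ) → Prop} (h : Def R) (k : Def S) : Def (fun x => (R x ↔ S x)) :=
  ((h.imp k).and (k.imp h)).congr (fun x => by tauto)

theorem Def.ex {R : (ℕ → ℕ) → Prop} (h : Def R) : Def (fun x => ∃ y, R (cons y x)) := by
  obtain ⟨φ, h⟩ := h
  exact ⟨.ex φ, fun x => exists_congr fun y => h _⟩

theorem Def.all {R : (ℕ → ℕ) → Prop} (h : Def R) : Def (fun x => ∀ y, R (cons y x)) :=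
  (h.neg.ex.neg).congr (fun x => by simp)

theorem Def.sub {R : (ℕ → ℕ) → Prop} (h : Def R) (f : ℕ → ℕ) :
    Def (fun x => R (fun i => x (f i))) := by
  obtain ⟨φ, h⟩ := h
  exact ⟨ren f φ, fun x => (ev_ren _ _ φ f x).trans (h _)⟩

theorem Def.eq (i j : ℕ) : Def (fun x => x i = x j) := ⟨.eq i j, fun _ => Iff.rfl⟩

theorem Def.add (i j k : ℕ) : Def (fun x => x i + x j = x k) := ⟨.add i j k, fun _ => Iff.rfl⟩

theorem Def.mul (i j k : ℕ) : Def (fun x => x i * x j = x k) := ⟨.mul i j k, fun _ => Iff.rfl⟩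

/-- explicit vectors of variables -/
def vec {β : Type} (z : β) : List β → ℕ → β
  | [], _ => z
  | a :: _, 0 => a
  | _ :: l, n + 1 => vec z l n

/-- The interpretation in `(α, P, Q)` of a definable unary relation. -/
noncomputable def M1 {R : ℕ → Prop} (h : Def fun x => R (x 0)) (P Q : α → α → α) (a : α) : Prop :=
  ev P Q h.choose (fun _ => a)

/-- The interpretation in `(α, P, Q)` of a definable binary relation. -/
noncomputable def M2 {R : ℕ → ℕ → Prop} (h : Def fun x => R (x 0) (x 1)) (P Q : α → α → α)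
    (a b : α) : Prop :=
  ev P Q h.choose (cons a (fun _ => b))

/-- The interpretation in `(α, P, Q)` of a definable ternary relation. -/
noncomputable def M3 {R : ℕ → ℕ → ℕ → Prop} (h : Def fun x => R (x 0) (x 1) (x 2))
    (P Q : α → α → α) (a b c : α) : Prop :=
  ev P Q h.choose (cons a (cons b (fun _ => c)))

theorem prM1 {R : ℕ → Prop} (h : Def fun x => R (x 0)) (i : ℕ) :
    Pr P Q (fun x => R (x i)) (fun x => M1 h P Q (x i)) := by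
  refine ⟨ren (fun _ => i) h.choose, fun x => ?_, fun x => ?_⟩
  · rw [ev_ren]; exact h.choose_spec _
  · rw [ev_ren]; rfl

theorem prM2 {R : ℕ → ℕ → Prop} (h : Def fun x => R (x 0) (x 1)) (i j : ℕ) :
    Pr P Q (fun x => R (x i) (x j)) (fun x => M2 h P Q (x i) (x j)) := by
  refine ⟨ren (cons i (fun _ => j)) h.choose, fun x => ?_, fun x => ?_⟩
  · rw [ev_ren]; exact h.choose_spec _
  · rw [ev_ren]
    have : (fun n => x (cons i (fun _ => j) n)) = cons (x i) (fun _ => x j) := by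
      funext n
      rcases n with - | n <;> rfl
    rw [this]; rfl

theorem prM3 {R : ℕ → ℕ → ℕ → Prop} (h : Def fun x => R (x 0) (x 1) (x 2)) (i j k : ℕ) :
    Pr P Q (fun x => R (x i) (x j) (x k)) (fun x => M3 h P Q (x i) (x j) (x k)) := by
  refine ⟨ren (cons i (cons j (fun _ => k))) h.choose, fun x => ?_, fun x => ?_⟩
  · rw [ev_ren]; exact h.choose_spec _
  · rw [ev_ren]
    have : (fun n => x (cons i (cons j (fun _ => k)) n))
        = cons (x i) (cons (x j) (fun _ => x k)) := by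
      funext n
      rcases n with - | - | n <;> rfl
    rw [this]; rfl

/-! ### definable functions -/

/-- `g` and `g'` have the same definition. -/
def PrF (P Q : α → α → α) (g : (ℕ → ℕ) → ℕ) (g' : (ℕ → α) → α) : Prop :=
  Pr P Q (fun x => x 0 = g (fun i => x (i + 1))) (fun x => x 0 = g' (fun i => x (i + 1)))

/-- definable functions on the natural numbers -/
def DefF (g : (ℕ → ℕ) → ℕ) : Prop := Def (fun x => x 0 = g (fun i => x (i + 1)))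

theorem PrF.var (i : ℕ) : PrF P Q (fun x => x i) (fun x => x i) := Pr.eq 0 (i + 1)

theorem DefF.var (i : ℕ) : DefF (fun x => x i) := Def.eq 0 (i + 1)

/-- substituting a term for the first variable -/
theorem Pr.sF {R : (ℕ → ℕ) → Prop} {R' : (ℕ → α) → Prop} (h : Pr P Q R R')
    {g : (ℕ → ℕ) → ℕ} {g' : (ℕ → α) → α} (hg : PrF P Q g g') :
    Pr P Q (fun x => R (cons (g x) x)) (fun x => R' (cons (g' x) x)) := by
  refine ((Pr.and hg h).ex).congr (fun x => ?_) (fun x => ?_)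
  · constructor
    · rintro ⟨y, h1, h2⟩
      have : y = g x := h1
      rw [← this]; exact h2
    · intro h1
      exact ⟨g x, rfl, h1⟩
  · constructor
    · rintro ⟨y, h1, h2⟩
      have : y = g' x := h1
      rw [← this]; exact h2
    · intro h1
      exact ⟨g' x, rfl, h1⟩

theorem Def.sF {R : (ℕ → ℕ) → Prop} (h : Def R) {g : (ℕ → ℕ) → ℕ} (hg : DefF g) :
    Def (fun x => R (cons (g x) x)) := by
  refine ((Def.and hg h).ex).congr (fun x => ?_)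
  constructor
  · rintro ⟨y, h1, h2⟩
    have : y = g x := h1
    rw [← this]; exact h2
  · intro h1
    exact ⟨g x, rfl, h1⟩

theorem PrF.lift {g : (ℕ → ℕ) → ℕ} {g' : (ℕ → α) → α} (hg : PrF P Q g g') :
    PrF P Q (fun x => g (fun i => x (i + 1))) (fun x => g' (fun i => x (i + 1))) :=
  Pr.sub hg (fun | 0 => 0 | n + 1 => n + 2)

theorem DefF.lift {g : (ℕ → ℕ) → ℕ} (hg : DefF g) :
    DefF (fun x => g (fun i => x (i + 1))) :=
  Def.sub hg (fun | 0 => 0 | n + 1 => n + 2)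

/-- unary relations applied to terms -/
theorem Pr.r1 {R : ℕ → Prop} {R' : α → Prop}
    (h : Pr P Q (fun x => R (x 0)) (fun x => R' (x 0)))
    {g : (ℕ → ℕ) → ℕ} {g' : (ℕ → α) → α} (hg : PrF P Q g g') :
    Pr P Q (fun x => R (g x)) (fun x => R' (g' x)) := Pr.sF h hg

theorem Pr.r2 {R : ℕ → ℕ → Prop} {R' : α → α → Prop}
    (h : Pr P Q (fun x => R (x 0) (x 1)) (fun x => R' (x 0) (x 1)))
    {g₁ g₂ : (ℕ → ℕ) → ℕ} {g₁' g₂' : (ℕ → α) → α} (hg₁ : PrF P Q g₁ g₁') (hg₂ : PrF P Q g₂ g₂') :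
    Pr P Q (fun x => R (g₁ x) (g₂ x)) (fun x => R' (g₁' x) (g₂' x)) :=
  Pr.sF (Pr.sF (h) hg₁.lift) hg₂ |>.congr (fun _ => Iff.rfl) (fun _ => Iff.rfl)

theorem Pr.r3 {R : ℕ → ℕ → ℕ → Prop} {R' : α → α → α → Prop}
    (h : Pr P Q (fun x => R (x 0) (x 1) (x 2)) (fun x => R' (x 0) (x 1) (x 2)))
    {g₁ g₂ g₃ : (ℕ → ℕ) → ℕ} {g₁' g₂' g₃' : (ℕ → α) → α} (hg₁ : PrF P Q g₁ g₁')
    (hg₂ : PrF P Q g₂ g₂') (hg₃ : PrF P Q g₃ g₃') :
    Pr P Q (fun x => R (g₁ x) (g₂ x) (g₃ x)) (fun x => R' (g₁' x) (g₂' x) (g₃' x)) :=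
  Pr.sF (Pr.sF (Pr.sF h hg₁.lift.lift) hg₂.lift) hg₃

theorem Def.r1 {R : ℕ → Prop} (h : Def (fun x => R (x 0))) {g : (ℕ → ℕ) → ℕ} (hg : DefF g) :
    Def (fun x => R (g x)) := Def.sF h hg

theorem Def.r2 {R : ℕ → ℕ → Prop} (h : Def (fun x => R (x 0) (x 1)))
    {g₁ g₂ : (ℕ → ℕ) → ℕ} (hg₁ : DefF g₁) (hg₂ : DefF g₂) :
    Def (fun x => R (g₁ x) (g₂ x)) := Def.sF (Def.sF h hg₁.lift) hg₂

theorem Def.r3 {R : ℕ → ℕ → ℕ → Prop} (h : Def (fun x => R (x 0) (x 1) (x 2)))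
    {g₁ g₂ g₃ : (ℕ → ℕ) → ℕ} (hg₁ : DefF g₁) (hg₂ : DefF g₂) (hg₃ : DefF g₃) :
    Def (fun x => R (g₁ x) (g₂ x) (g₃ x)) :=
  Def.sF (Def.sF (Def.sF h hg₁.lift.lift) hg₂.lift) hg₃

theorem Pr.eqF {g₁ g₂ : (ℕ → ℕ) → ℕ} {g₁' g₂' : (ℕ → α) → α} (hg₁ : PrF P Q g₁ g₁')
    (hg₂ : PrF P Q g₂ g₂') : Pr P Q (fun x => g₁ x = g₂ x) (fun x => g₁' x = g₂' x) :=
  Pr.r2 (R := fun a b => a = b) (R' := fun a b => a = b) (Pr.eq 0 1) hg₁ hg₂

theorem Def.eqF {g₁ g₂ : (ℕ → ℕ) → ℕ} (hg₁ : DefF g₁)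
    (hg₂ : DefF g₂) : Def (fun x => g₁ x = g₂ x) :=
  Def.r2 (R := fun a b => a = b) (Def.eq 0 1) hg₁ hg₂

theorem PrF.f1 {f : ℕ → ℕ} {f' : α → α}
    (h : Pr P Q (fun x => x 0 = f (x 1)) (fun x => x 0 = f' (x 1)))
    {g : (ℕ → ℕ) → ℕ} {g' : (ℕ → α) → α} (hg : PrF P Q g g') :
    PrF P Q (fun x => f (g x)) (fun x => f' (g' x)) :=
  Pr.r2 (R := fun a b => a = f b) (R' := fun a b => a = f' b) h (PrF.var 0) hg.lift

theorem PrF.f2 {f : ℕ → ℕ → ℕ} {f' : α → α → α}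
    (h : Pr P Q (fun x => x 0 = f (x 1) (x 2)) (fun x => x 0 = f' (x 1) (x 2)))
    {g₁ g₂ : (ℕ → ℕ) → ℕ} {g₁' g₂' : (ℕ → α) → α} (hg₁ : PrF P Q g₁ g₁')
    (hg₂ : PrF P Q g₂ g₂') :
    PrF P Q (fun x => f (g₁ x) (g₂ x)) (fun x => f' (g₁' x) (g₂' x)) :=
  Pr.r3 (R := fun a b c => a = f b c) (R' := fun a b c => a = f' b c) h (PrF.var 0)
    hg₁.lift hg₂.lift

theorem DefF.f1 {f : ℕ → ℕ} (h : Def (fun x => x 0 = f (x 1)))
    {g : (ℕ → ℕ) → ℕ} (hg : DefF g) : DefF (fun x => f (g x)) :=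
  Def.r2 (R := fun a b => a = f b) h (DefF.var 0) hg.lift

theorem DefF.f2 {f : ℕ → ℕ → ℕ} (h : Def (fun x => x 0 = f (x 1) (x 2)))
    {g₁ g₂ : (ℕ → ℕ) → ℕ} (hg₁ : DefF g₁) (hg₂ : DefF g₂) :
    DefF (fun x => f (g₁ x) (g₂ x)) :=
  Def.r3 (R := fun a b c => a = f b c) h (DefF.var 0) hg₁.lift hg₂.lift

theorem PrF.add {g₁ g₂ : (ℕ → ℕ) → ℕ} {g₁' g₂' : (ℕ → α) → α} (hg₁ : PrF P Q g₁ g₁')
    (hg₂ : PrF P Q g₂ g₂') : PrF P Q (fun x => g₁ x + g₂ x) (fun x => P (g₁' x) (g₂' x)) :=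
  PrF.f2 (f := fun a b => a + b) (f' := fun a b => P a b)
    ((Pr.add 1 2 0).congr (fun _ => eq_comm) (fun _ => eq_comm)) hg₁ hg₂

theorem PrF.mul {g₁ g₂ : (ℕ → ℕ) → ℕ} {g₁' g₂' : (ℕ → α) → α} (hg₁ : PrF P Q g₁ g₁')
    (hg₂ : PrF P Q g₂ g₂') : PrF P Q (fun x => g₁ x * g₂ x) (fun x => Q (g₁' x) (g₂' x)) :=
  PrF.f2 (f := fun a b => a * b) (f' := fun a b => Q a b)
    ((Pr.mul 1 2 0).congr (fun _ => eq_comm) (fun _ => eq_comm)) hg₁ hg₂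

theorem DefF.add {g₁ g₂ : (ℕ → ℕ) → ℕ} (hg₁ : DefF g₁) (hg₂ : DefF g₂) :
    DefF (fun x => g₁ x + g₂ x) :=
  DefF.f2 (f := fun a b => a + b) ((Def.add 1 2 0).congr (fun _ => eq_comm)) hg₁ hg₂

theorem DefF.mul {g₁ g₂ : (ℕ → ℕ) → ℕ} (hg₁ : DefF g₁) (hg₂ : DefF g₂) :
    DefF (fun x => g₁ x * g₂ x) :=
  DefF.f2 (f := fun a b => a * b) ((Def.mul 1 2 0).congr (fun _ => eq_comm)) hg₁ hg₂

end Pool.Agent.TH745
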