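import Pool.Agent.TH745.Num

set_option autoImplicit false

namespace Pool.Agent.TH745

/-! ### Primitive recursive functions are definable in the standard model -/

theorem Def.le {g₁ g₂ : (ℕ → ℕ) → ℕ} (hg₁ : DefF g₁) (hg₂ : DefF g₂) :
    Def (fun x => g₁ x ≤ g₂ x) :=
  (Def.lt hg₂ hg₁).neg.congr (fun x => not_lt)

theorem DefF.mod {g₁ g₂ : (ℕ → ℕ) → ℕ} (hg₁ : DefF g₁) (hg₂ : DefF g₂) :
    DefF (fun x => g₁ x % (g₂ x + 1)) := by
  refine DefF.f2 (f := fun a b => a % (b + 1)) ?_ hg₁ hg₂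
  refine ((Def.ex (Def.eqF (DefF.var 2) (DefF.add (DefF.mul (DefF.add (DefF.var 3) (DefF.const 1))
    (DefF.var 0)) (DefF.var 1)))).and (Def.lt (DefF.var 0) (DefF.add (DefF.var 2)
      (DefF.const 1)))).congr (fun x => ?_)
  show ((∃ q, x 1 = (x 2 + 1) * q + x 0) ∧ x 0 < x 2 + 1) ↔ x 0 = x 1 % (x 2 + 1)
  constructor
  · rintro ⟨⟨q, h1⟩, h2⟩
    rw [h1, Nat.mul_add_mod, Nat.mod_eq_of_lt h2]
  · intro h
    rw [h]
    exact ⟨⟨x 1 / (x 2 + 1), (Nat.div_add_mod _ _).symm⟩, Nat.mod_lt _ (Nat.succ_pos _)⟩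

theorem DefF.left {g : (ℕ → ℕ) → ℕ} (hg : DefF g) : DefF (fun x => (Nat.unpair (g x)).1) := by
  refine DefF.f1 (f := fun a => (Nat.unpair a).1) ?_ hg
  refine (Def.ex (Def.eqF (DefF.var 2) (DefF.pair (DefF.var 1) (DefF.var 0)))).congr (fun x => ?_)
  show (∃ y, x 1 = Nat.pair (x 0) y) ↔ x 0 = (Nat.unpair (x 1)).1
  constructor
  · rintro ⟨y, h⟩; rw [h, Nat.unpair_pair]
  · intro h; exact ⟨(Nat.unpair (x 1)).2, by rw [h, Nat.pair_unpair]⟩

theorem DefF.right {g : (ℕ → ℕ) → ℕ} (hg : DefF g) : DefF (fun x => (Nat.unpair (g x)).2) := by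
  refine DefF.f1 (f := fun a => (Nat.unpair a).2) ?_ hg
  refine (Def.ex (Def.eqF (DefF.var 2) (DefF.pair (DefF.var 0) (DefF.var 1)))).congr (fun x => ?_)
  show (∃ y, x 1 = Nat.pair y (x 0)) ↔ x 0 = (Nat.unpair (x 1)).2
  constructor
  · rintro ⟨y, h⟩; rw [h, Nat.unpair_pair]
  · intro h; exact ⟨(Nat.unpair (x 1)).1, by rw [h, Nat.pair_unpair]⟩

theorem DefF.congr {g h : (ℕ → ℕ) → ℕ} (hg : DefF g) (e : ∀ x, g x = h x) : DefF h := by
  have : g = h := funext e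
  rw [← this]; exact hg

theorem DefF.beta {g₁ g₂ : (ℕ → ℕ) → ℕ} (hg₁ : DefF g₁) (hg₂ : DefF g₂) :
    DefF (fun x => Nat.beta (g₁ x) (g₂ x)) :=
  (DefF.mod (DefF.left hg₁) (DefF.mul (DefF.add hg₂ (DefF.const 1)) (DefF.right hg₁))).congr
    (fun _ => rfl)

theorem exists_beta (F : ℕ → ℕ) (n : ℕ) : ∃ s, ∀ i ≤ n, Nat.beta s i = F i := by
  refine ⟨Nat.unbeta ((List.range (n + 1)).map F), fun i hi => ?_⟩
  have := Nat.beta_unbeta_coe ((List.range (n + 1)).map F) ⟨i, by simp; omega⟩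
  simpa using this

theorem defF_of_natPrimrec {f : ℕ → ℕ} (hf : Nat.Primrec f) : Def (fun x => x 0 = f (x 1)) := by
  induction hf with
  | zero => exact (DefF.const 0).congr (fun _ => rfl)
  | succ => exact (DefF.add (DefF.var 0) (DefF.const 1))
  | left => exact DefF.left (DefF.var 0)
  | right => exact DefF.right (DefF.var 0)
  | @pair f g _ _ ihf ihg => exact DefF.pair (DefF.f1 ihf (DefF.var 0)) (DefF.f1 ihg (DefF.var 0))
  | @comp f g _ _ ihf ihg => exact DefF.f1 ihf (DefF.f1 ihg (DefF.var 0))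
  | @prec f g _ _ ihf ihg =>
    -- variables: s = 0, v = 1, p = 2
    have h1 : Def (fun x => Nat.beta (x 0) 0 = f (Nat.unpair (x 2)).1) :=
      Def.eqF (DefF.beta (DefF.var 0) (DefF.const 0)) (DefF.f1 ihf (DefF.left (DefF.var 2)))
    have h2 : Def (fun x => ∀ y, y < (Nat.unpair (x 2)).2 → Nat.beta (x 0) (y + 1) =
        g (Nat.pair (Nat.unpair (x 2)).1 (Nat.pair y (Nat.beta (x 0) y)))) :=
      Def.all (Def.imp (Def.lt (DefF.var 0) (DefF.right (DefF.var 3)))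
        (Def.eqF (DefF.beta (DefF.var 1) (DefF.add (DefF.var 0) (DefF.const 1)))
          (DefF.f1 ihg (DefF.pair (DefF.left (DefF.var 3)) (DefF.pair (DefF.var 0)
            (DefF.beta (DefF.var 1) (DefF.var 0)))))))
    have h3 : Def (fun x => x 1 = Nat.beta (x 0) (Nat.unpair (x 2)).2) :=
      Def.eqF (DefF.var 1) (DefF.beta (DefF.var 0) (DefF.right (DefF.var 2)))
    refine (Def.ex (h1.and (h2.and h3))).congr (fun x => ?_)
    obtain ⟨v, hv⟩ : ∃ v, v = x 0 := ⟨_, rfl⟩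
    obtain ⟨p, hp⟩ : ∃ p, p = x 1 := ⟨_, rfl⟩
    show (∃ s, Nat.beta s 0 = f (Nat.unpair (x 1)).1 ∧
      (∀ y, y < (Nat.unpair (x 1)).2 → Nat.beta s (y + 1) =
        g (Nat.pair (Nat.unpair (x 1)).1 (Nat.pair y (Nat.beta s y)))) ∧
      x 0 = Nat.beta s (Nat.unpair (x 1)).2) ↔ x 0 = _
    rw [← hv, ← hp]
    simp only [Nat.unpaired]
    obtain ⟨a, ha⟩ : ∃ a, a = (Nat.unpair p).1 := ⟨_, rfl⟩
    obtain ⟨n, hn⟩ : ∃ n, n = (Nat.unpair p).2 := ⟨_, rfl⟩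
    rw [← ha, ← hn]
    constructor
    · rintro ⟨s, h1, h2, h3⟩
      rw [h3]
      have key : ∀ k ≤ n, Nat.beta s k = Nat.rec (f a) (fun y IH => g (Nat.pair a (Nat.pair y IH))) k := by
        intro k
        induction k with
        | zero => intro _; exact h1
        | succ k ih =>
          intro hk
          rw [h2 k (by omega), ih (by omega)]
      exact key n le_rfl
    · intro h
      obtain ⟨s, hs⟩ := exists_beta
        (fun k => Nat.rec (f a) (fun y IH => g (Nat.pair a (Nat.pair y IH))) k) n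
      refine ⟨s, hs 0 (Nat.zero_le _), fun y hy => ?_, ?_⟩
      · rw [hs (y + 1) hy, hs y (by omega)]
      · rw [hs n le_rfl]; exact h

theorem DefF.prim {f : ℕ → ℕ} (hf : Primrec f) {g : (ℕ → ℕ) → ℕ} (hg : DefF g) :
    DefF (fun x => f (g x)) :=
  DefF.f1 (defF_of_natPrimrec (Primrec.nat_iff.1 hf)) hg

theorem DefF.prim2 {f : ℕ → ℕ → ℕ} (hf : Primrec₂ f) {g₁ g₂ : (ℕ → ℕ) → ℕ} (hg₁ : DefF g₁)
    (hg₂ : DefF g₂) : DefF (fun x => f (g₁ x) (g₂ x)) := by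
  have h : Primrec (fun n : ℕ => f (Nat.unpair n).1 (Nat.unpair n).2) :=
    hf.comp (Primrec.fst.comp Primrec.unpair) (Primrec.snd.comp Primrec.unpair)
  exact (DefF.prim h (DefF.pair hg₁ hg₂)).congr (fun x => by rw [Nat.unpair_pair])

theorem Def.prim {R : ℕ → Prop} (hR : PrimrecPred R) {g : (ℕ → ℕ) → ℕ} (hg : DefF g) :
    Def (fun x => R (g x)) := by
  obtain ⟨hd, h⟩ := hR
  have h1 : Primrec (fun n : ℕ => if R n then 1 else 0) :=
    Primrec.ite ⟨hd, h⟩ (Primrec.const 1) (Primrec.const 0)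
  refine (Def.eqF (DefF.prim h1 hg) (DefF.const 1)).congr (fun x => ?_)
  by_cases hx : R (g x) <;> simp [hx]

theorem Def.prim2 {R : ℕ → ℕ → Prop} (hR : PrimrecRel R) {g₁ g₂ : (ℕ → ℕ) → ℕ} (hg₁ : DefF g₁)
    (hg₂ : DefF g₂) : Def (fun x => R (g₁ x) (g₂ x)) := by
  have h : PrimrecPred (fun n : ℕ => R (Nat.unpair n).1 (Nat.unpair n).2) :=
    hR.comp (Primrec.fst.comp Primrec.unpair) (Primrec.snd.comp Primrec.unpair)
  exact (Def.prim h (DefF.pair hg₁ hg₂)).congr (fun x => by rw [Nat.unpair_pair])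

theorem Def.prim3 {R : ℕ → ℕ → ℕ → Prop} (hR : PrimrecPred (fun p : ℕ × ℕ × ℕ => R p.1 p.2.1 p.2.2))
    {g₁ g₂ g₃ : (ℕ → ℕ) → ℕ} (hg₁ : DefF g₁)
    (hg₂ : DefF g₂) (hg₃ : DefF g₃) : Def (fun x => R (g₁ x) (g₂ x) (g₃ x)) := by
  have h : PrimrecPred (fun n : ℕ => R (Nat.unpair n).1 (Nat.unpair (Nat.unpair n).2).1
      (Nat.unpair (Nat.unpair n).2).2) := by
    refine hR.comp (f := fun n : ℕ => ((Nat.unpair n).1, (Nat.unpair (Nat.unpair n).2).1,
      (Nat.unpair (Nat.unpair n).2).2)) ?_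
    exact (Primrec.fst.comp Primrec.unpair).pair
      ((Primrec.fst.comp (Primrec.unpair.comp (Primrec.snd.comp Primrec.unpair))).pair
      (Primrec.snd.comp (Primrec.unpair.comp (Primrec.snd.comp Primrec.unpair))))
  exact (Def.prim h (DefF.pair hg₁ (DefF.pair hg₂ hg₃))).congr (fun x => by
    simp only [Nat.unpair_pair])

end Pool.Agent.TH745
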